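import Pool.Agent.P.MP_119182_lc.Defs

set_option autoImplicit false

namespace Pool.Agent.P.MP_119182_lc

/-- The height: the largest number of nodes on a path down from the root. -/
def BT.ht : BT → ℕ
  | BT.nil => 0
  | BT.node l _ r => max l.ht r.ht + 1

/-- The depth of the key `x` in a search tree: the number of edges from the root to `x`. -/
def BT.dep : BT → ℕ → ℕ
  | BT.nil, _ => 0
  | BT.node l k r, x => if x < k then l.dep x + 1 else if k < x then r.dep x + 1 else 0

/-- The distance of the keys `x`, `y` in a search tree: the number of edges on the path between
them. Walk down to the lowest common ancestor and add the two depths below it. -/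
def BT.dist : BT → ℕ → ℕ → ℕ
  | BT.nil, _, _ => 0
  | BT.node l k r, x, y =>
    if x < k ∧ y < k then l.dist x y
    else if k < x ∧ k < y then r.dist x y
    else (BT.node l k r).dep x + (BT.node l k r).dep y

end Pool.Agent.P.MP_119182_lc
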