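import Pool.Agent.P.MP_119182_lc.LW.Base
import Pool.Agent.P.MP_119182_lc.NU.EIface
import Pool.Agent.P.MP_119182_lc.LW.DefsR

/-! Far hot links, the ruler, the levels of a tree and the final sum. -/

set_option autoImplicit false

namespace Pool.Agent.P.MP_119182_lc.LW

open Finset
open scoped Classical
open NU (Run mr)
open LU (key tch up low LK)

section
variable (d : Run) (lev : ℤ → ℕ)

/-- The start of the epoch of the cell below the annulus of `u`. -/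
noncomputable def fe (t : ℕ) (u : ℤ) : ℕ := ep d lev (lv lev (d.x t) u) t

/-- The node `u` was used earlier in the epoch. -/
def used (t : ℕ) (u : ℤ) : Prop := ∃ s, fe d lev t u ≤ s ∧ s < t ∧ up d s u

/-- The visits of `u` in the epoch up to `t`. -/
noncomputable def vs (t : ℕ) (u : ℤ) : Finset ℕ :=
  (Icc (fe d lev t u) t).filter fun r => tch d r u

/-- A node of annulus `a` has its first visit of the epoch at time `ρ`. -/
def inc (ρ a : ℕ) : Prop :=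
  ρ < d.m ∧ ∃ u, tch d ρ u ∧ d.x ρ < u ∧ lv lev (d.x ρ) u = a ∧
    ∀ r, ep d lev a ρ ≤ r → r < ρ → ¬ tch d r u

noncomputable def INC (top : ℕ) : Finset (ℕ × ℕ) :=
  (range d.m ×ˢ range (top + 1)).filter fun p => inc d lev p.1 p.2

end

-- deps: LU.LINK CELL EP VIS
def S_FA : Prop :=
  ∀ (d : Run) (lev : ℤ → ℕ) (σ H : ℕ), d.OK → Lv d.L d.R lev σ H →
    #((FAR d lev).filter fun p => used d lev p.1 p.2) ≤ #(NEAR d lev)

-- deps: LU.LINK CELL EP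
def S_FB : Prop :=
  ∀ (d : Run) (lev : ℤ → ℕ) (σ H K : ℕ), d.OK → Lv d.L d.R lev σ H →
    K * #((FAR d lev).filter fun p => ¬ used d lev p.1 p.2 ∧ K ≤ #(vs d lev p.1 p.2)) ≤ d.NR

-- deps: LU.LINK CELL EP VIS
def S_FC : Prop :=
  ∀ (d : Run) (lev : ℤ → ℕ) (σ H K : ℕ), d.OK → Lv d.L d.R lev σ H →
    #((FAR d lev).filter fun p => ¬ used d lev p.1 p.2 ∧ #(vs d lev p.1 p.2) < K) ≤
      K * #(INC d lev (σ + H))

-- deps: LU.LINK CELL EP VIS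
def S_INC : Prop :=
  ∀ (d : Run) (lev : ℤ → ℕ) (σ H : ℕ), d.OK → Lv d.L d.R lev σ H →
    #(INC d lev (σ + H)) ≤ d.m + #(EP d lev (σ + H + 1))

-- deps: FA FB FC INC
def S_H2 : Prop :=
  ∀ (d : Run) (lev : ℤ → ℕ) (σ H K : ℕ), d.OK → Lv d.L d.R lev σ H →
    K * #(FAR d lev) ≤ K * #(NEAR d lev) + d.NR + K ^ 2 * (d.m + #(EP d lev (σ + H + 1)))

-- deps: CELL EP
def S_BUD : Prop :=
  ∀ c : ℕ, ∃ C : ℕ, ∀ (n : ℕ) (R : BT) (d : Run) (a : ℕ → ℕ), R.keys = List.range' 1 n →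
    d.L = 0 → d.R = (n : ℤ) + 1 → (∀ i, d.x i = (a i : ℤ)) → (∀ i < d.m, 1 ≤ a i ∧ a i ≤ n) →
    ∃ (lev : ℤ → ℕ) (σ : ℕ), Lv d.L d.R lev σ (2 * R.ht + 4) ∧ 2 * R.ht + 4 ≤ σ ∧
      Z d lev (σ + (2 * R.ht + 4) + 3) c ≤
        C * (d.m + R.ht + 1 + ∑ i ∈ range (d.m - 1), R.dist (a i) (a (i + 1)))

-- deps:
def S_LK : Prop := ∀ d : Run, d.OK → d.LamR + d.mir.LamR ≤ #(LK d)

-- deps: G_H1 G_W H2 MIR NU.EMIR
def S_ABS : Prop :=
  ∃ c C : ℕ, ∀ (d : Run) (lev : ℤ → ℕ) (σ H : ℕ), d.OK → Lv d.L d.R lev σ H → H ≤ σ →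
    100 * #(LK d) ≤ d.NR + d.mir.NR +
      C * ((d.R - d.L).toNat * (Nat.size H + 1) ^ 3 + d.m + Z d lev (σ + H + 3) c)

-- deps: ABS BUD LK NU.ALGA NU.BRG NU.TURN
def S_FIN : Prop :=
  ∃ C : ℕ, ∀ (n m : ℕ) (T R : BT) (a : ℕ → ℕ), T.keys = List.range' 1 n →
    R.keys = List.range' 1 n → (∀ i < m, 1 ≤ a i ∧ a i ≤ n) →
    cost T ((List.range m).map a) ≤ C * (n * (Nat.log 2 R.ht + 1) ^ 3 + m +
      ∑ i ∈ range (m - 1), R.dist (a i) (a (i + 1)))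

end Pool.Agent.P.MP_119182_lc.LW
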