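import Pool.Agent.P.MP_119182_lc.LW.IfaceW

/-! Step AL. -/

set_option autoImplicit false

namespace Pool.Agent.P.MP_119182_lc.LW.W

open Finset
open scoped Classical
open NU (Run mr)
open LP (on up low ON)
open _root_.Pool.Agent.P.MP_119182_lc.LT (lw mate frz clr fst hd vis seg len TK Dat Sy)

theorem al_ne (hLS : S_LS) (hMATE : LT.S_MATE) (d : Run) (lev : ℤ → ℕ) (H : ℕ) (hd : d.OK)
    (hl : Lev d.L d.R lev H) (t : ℕ) (p u : ℤ) (h : low d t p u) :
    lam d lev t p ≠ lam d lev t u := by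
  obtain ⟨hc, -, -, -, -, hL⟩ := hLS lev
  obtain ⟨-, hne, -⟩ := hL d.L d.R H hl
  obtain ⟨-, -, ht, hp, -, hu, hR, hLf⟩ := (hMATE d hd t).2.1 p u h
  have hb := (hd.tree t ht.le).bnd u hu.1 hu.2.1
  rcases lt_or_gt_of_ne hp.2.2.1 with h1 | h1
  · obtain ⟨h2, h3, -⟩ := hLf h1
    have e1 : far d t p = u := by unfold far; rw [if_neg (by omega)]; exact h3
    have e2 : far d t u = d.lp t u := by unfold far; rw [if_neg (by omega)]
    unfold lam
    rw [e1, e2, hc p u, hc u (d.lp t u)]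
    exact (hne _ _ _ hb.1 hb.2.1 h2 hp.2.1.le).symm
  · obtain ⟨h2, h3, -⟩ := hR h1
    have e1 : far d t p = u := by unfold far; rw [if_pos h1]; exact h3
    have e2 : far d t u = d.rp t u := by unfold far; rw [if_pos (by omega)]
    unfold lam
    rw [e1, e2]
    exact hne _ _ _ hp.1.le h2 hb.2.2.1 hb.2.2.2

theorem p_AL (hLS : S_LS) (hMATE : LT.S_MATE) (hEX : LT.S_EX) :
    S_AL := by
  intro d lev cL cR H hc
  have hne := al_ne hLS hMATE d lev H hc.ok hc.lvl
  have hle : ∀ t y, lam d lev t y ≤ H := fun t y =>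
    ((hLS lev).2.2.2.2.2 d.L d.R H hc.lvl).1 _ _
  have htie : LT.Tie d (fun t y => H - lam d lev t y) := by
    intro s t u hu _ _ _ _ _ he
    exfalso
    have h1 := hne s _ u ((hMATE d hc.ok s).1 u hu).1
    have h2 := hle s (lw d s u)
    have h3 := hle s u
    simp only at he
    omega
  obtain ⟨w, hw, hs⟩ := hEX d _ hc.ok htie
  refine ⟨w, hc, hs, fun t y => ?_⟩
  unfold LT.lo lo
  rw [hw]
  constructor
  · rintro (⟨hu, hv⟩ | ⟨u, hl, hv⟩)
    · obtain ⟨h0, hm⟩ := (hMATE d hc.ok t).1 y hu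
      have h1 := hne t _ y h0
      have h2 := hle t (lw d t y)
      have h3 := hle t y
      refine ⟨Or.inl hu, ?_⟩
      rw [hm]
      simp only at hv
      omega
    · have hm := ((hMATE d hc.ok t).2.1 y u hl).2.1
      refine ⟨Or.inr ⟨u, hl⟩, ?_⟩
      rw [hm]
      simp only at hv
      omega
  · rintro ⟨hu | ⟨u, hl⟩, hv⟩
    · have hm := ((hMATE d hc.ok t).1 y hu).2
      rw [hm] at hv
      refine Or.inl ⟨hu, ?_⟩
      simp only
      omega
    · have hm := ((hMATE d hc.ok t).2.1 y u hl).2.1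
      rw [hm] at hv
      have h2 := hle t u
      refine Or.inr ⟨u, hl, ?_⟩
      simp only
      omega

end Pool.Agent.P.MP_119182_lc.LW.W
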