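import Pool.Agent.P.MP_119182_lc.LW.IfaceW

/-! Step BLK. -/

set_option autoImplicit false

namespace Pool.Agent.P.MP_119182_lc.LW.W

open Finset
open scoped Classical
open NU (Run mr)
open LP (on up low ON)
open _root_.Pool.Agent.P.MP_119182_lc.LT (lw mate frz clr fst hd vis seg len TK Dat Sy)

theorem p_BLK :
    S_BLK := by
  intro i σ M
  have hp : 0 < 2 ^ i := Nat.two_pow_pos i
  obtain ⟨b0, h1, h2, h3⟩ : ∃ b0, M ≤ b0 ∧ 2 ^ i ∣ b0 + σ ∧ b0 < M + 2 ^ i := by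
    have e := Nat.div_add_mod (M + σ + (2 ^ i - 1)) (2 ^ i)
    have l := Nat.mod_lt (M + σ + (2 ^ i - 1)) hp
    refine ⟨2 ^ i * ((M + σ + (2 ^ i - 1)) / 2 ^ i) - σ, by omega, ?_, by omega⟩
    rw [Nat.sub_add_cancel (by omega)]
    exact Dvd.intro _ rfl
  have hle : ∀ b, M ≤ b → 2 ^ i ∣ b + σ → blk i σ M ≤ b := fun b ha hb =>
    Nat.sInf_le (s := {b | M ≤ b ∧ 2 ^ i ∣ b + σ}) ⟨ha, hb⟩
  have hm : blk i σ M ∈ {b | M ≤ b ∧ 2 ^ i ∣ b + σ} := Nat.sInf_mem ⟨b0, h1, h2⟩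
  exact ⟨hm.1, hm.2, (hle b0 h1 h2).trans_lt h3, hle⟩

end Pool.Agent.P.MP_119182_lc.LW.W
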