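import Pool.Agent.P.MP_119182_lc.LW.IfaceP

/-! Step CPEX. -/

set_option autoImplicit false

namespace Pool.Agent.P.MP_119182_lc.LW.W

open Finset
open scoped Classical
open NU (Run mr)
open LP (on up low ON)
open LT (lw mate frz clr fst hd vis)

/-- The caps, by recursion on the time. -/
noncomputable def cpex_F (d : Run) (lev : ℤ → ℕ) (H : ℕ) : ℕ → (ℤ → ℕ) × (ℤ → ℕ)
  | 0 => (fun _ => H + 1, fun _ => H + 1)
  | t + 1 =>
    (fun y => if y = d.x t then H + 1 else if on d t y then
        (if d.x t < y then an d lev t y + 1 else if up d t y then H + 1 else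
          inh d lev (fun _ => (cpex_F d lev H t).1) (fun _ => (cpex_F d lev H t).2) t y)
        else (cpex_F d lev H t).1 y,
     fun y => if y = d.x t then H + 1 else if on d t y then
        (if y < d.x t then an d lev t y + 1 else if up d t y then H + 1 else
          inh d lev (fun _ => (cpex_F d lev H t).1) (fun _ => (cpex_F d lev H t).2) t y)
        else (cpex_F d lev H t).2 y)

theorem p_CPEX :
    S_CPEX := by
  intro d lev H hd hl
  have e : ∀ t y, inh d lev (fun _ => (cpex_F d lev H t).1) (fun _ => (cpex_F d lev H t).2) t y =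
      inh d lev (fun s => (cpex_F d lev H s).1) (fun s => (cpex_F d lev H s).2) t y :=
    fun _ _ => rfl
  refine ⟨fun s => (cpex_F d lev H s).1, fun s => (cpex_F d lev H s).2, hd, hl, ?_, ?_, ?_, ?_, ?_⟩
  · intro y
    exact ⟨rfl, rfl⟩
  · intro t _
    constructor <;> simp [cpex_F]
  · intro t _ y h1 h2
    constructor <;> simp [cpex_F, h1, h2]
  · intro t _ y h1 h2
    have h3 : y ≠ d.x t := ne_of_gt h2
    have h4 : ¬ y < d.x t := not_lt.2 h2.le
    constructor
    · simp only [cpex_F, if_neg h3, if_pos h1, if_pos h2]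
    · rw [← e]
      simp only [cpex_F, if_neg h3, if_pos h1, if_neg h4]
  · intro t _ y h1 h2
    have h3 : y ≠ d.x t := ne_of_lt h2
    have h4 : ¬ d.x t < y := not_lt.2 h2.le
    constructor
    · simp only [cpex_F, if_neg h3, if_pos h1, if_pos h2]
    · rw [← e]
      simp only [cpex_F, if_neg h3, if_pos h1, if_neg h4]

end Pool.Agent.P.MP_119182_lc.LW.W
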