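import Pool.Agent.P.MP_119182_lc.LW.IfaceP

/-! Step CPMA. -/

set_option autoImplicit false

namespace Pool.Agent.P.MP_119182_lc.LW.W

open Finset
open scoped Classical
open NU (Run mr)
open LP (on up low ON)
open LT (lw mate frz clr fst hd vis)

theorem cpma_mm (y : ℤ) : mr (mr y) = y := by unfold mr; omega

theorem cpma_lt (a b : ℤ) : mr a < mr b ↔ b < a := by unfold mr; omega

theorem cpma_eq (a b : ℤ) : mr a = mr b ↔ a = b := by unfold mr; omega

theorem cpma_lv (lev : ℤ → ℕ) (a b : ℤ) : lv (ml lev) (mr b) (mr a) = lv lev a b := by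
  unfold lv
  apply le_antisymm
  · refine Finset.sup_le fun g hg => ?_
    have hg' : -g ∈ Ioc a b := by
      rw [Finset.mem_Ioc] at hg ⊢
      unfold mr at hg
      omega
    exact Finset.le_sup (f := lev) hg'
  · refine Finset.sup_le fun g hg => ?_
    have hg' : -g ∈ Ioc (mr b) (mr a) := by
      rw [Finset.mem_Ioc] at hg ⊢
      unfold mr
      omega
    have h := Finset.le_sup (f := ml lev) hg'
    unfold ml at h
    rw [neg_neg] at h
    exact h

theorem cpma_ls (lev : ℤ → ℕ) (a b : ℤ) : ls (ml lev) (mr a) (mr b) = ls lev a b := by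
  unfold ls
  have e1 : min (mr a) (mr b) = mr (max a b) := by unfold mr; omega
  have e2 : max (mr a) (mr b) = mr (min a b) := by unfold mr; omega
  rw [e1, e2, cpma_lv]

theorem cpma_x (d : Run) (t : ℕ) : d.mir.x t = mr (d.x t) := rfl

theorem cpma_lp (d : Run) (t : ℕ) (y : ℤ) : d.mir.lp t (mr y) = mr (d.rp t y) := by
  show mr (d.rp t (mr (mr y))) = _
  rw [cpma_mm]

theorem cpma_rp (d : Run) (t : ℕ) (y : ℤ) : d.mir.rp t (mr y) = mr (d.lp t y) := by
  show mr (d.lp t (mr (mr y))) = _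
  rw [cpma_mm]

theorem cpma_on (d : Run) (t : ℕ) (y : ℤ) : on d.mir t (mr y) ↔ on d t y := by
  unfold on
  rw [cpma_x, cpma_lp, cpma_rp]
  have eL : d.mir.L = mr d.R := rfl
  have eR : d.mir.R = mr d.L := rfl
  rw [eL, eR]
  unfold mr
  omega

theorem cpma_up (d : Run) (t : ℕ) (y : ℤ) : up d.mir t (mr y) ↔ up d t y := by
  unfold up
  rw [cpma_on, cpma_x, cpma_lp, cpma_rp]
  have em : d.mir.m = d.m := rfl
  rw [em]
  simp only [ne_eq, cpma_eq]
  tauto

theorem cpma_low (d : Run) (t : ℕ) (y u : ℤ) : low d.mir t (mr y) (mr u) ↔ low d t y u := by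
  unfold low
  rw [cpma_up, cpma_x, cpma_lp, cpma_rp]
  simp only [cpma_eq, cpma_lt]
  tauto

theorem cpma_lw (d : Run) (t : ℕ) (y : ℤ) (hy : y ≠ d.x t) :
    lw d.mir t (mr y) = mr (lw d t y) := by
  unfold lw
  rw [cpma_x, cpma_lp, cpma_rp]
  by_cases h : d.x t < y
  · rw [if_pos h, if_neg (by rw [cpma_lt]; omega)]
  · rw [if_neg h, if_pos (by rw [cpma_lt]; omega)]

theorem cpma_far (d : Run) (t : ℕ) (y : ℤ) (hy : y ≠ d.x t) :
    far d.mir t (mr y) = mr (far d t y) := by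
  unfold far
  rw [cpma_x, cpma_lp, cpma_rp]
  by_cases h : d.x t < y
  · rw [if_pos h, if_neg (by rw [cpma_lt]; omega)]
  · rw [if_neg h, if_pos (by rw [cpma_lt]; omega)]

theorem cpma_mate (d : Run) (t : ℕ) (y : ℤ) (hy : y ≠ d.x t) :
    mate d.mir t (mr y) = mr (mate d t y) := by
  unfold mate
  by_cases hu : up d t y
  · rw [if_pos hu, if_pos ((cpma_up d t y).2 hu), cpma_lw d t y hy]
  · rw [if_neg hu, if_neg (fun h => hu ((cpma_up d t y).1 h))]
    exact cpma_far d t y hy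

theorem cpma_frz (d : Run) (a b : ℕ) (y : ℤ) : frz d.mir a b (mr y) ↔ frz d a b y := by
  unfold frz
  simp only [cpma_on, cpma_x, ne_eq, cpma_eq]

theorem p_CPMA :
    S_CPMA := by
  intro d lev cL cR
  refine ⟨cpma_ls lev, fun y => ?_, fun t y => ⟨cpma_on d t y, cpma_up d t y,
    fun u => cpma_low d t y u, ?_, fun hy => ⟨cpma_lw d t y hy, cpma_mate d t y hy, ?_, ?_, ?_⟩,
    fun ρ h1 h2 => ?_⟩⟩
  · unfold lw0 ml
    have e1 : -mr y = y + 1 := by unfold mr; omega
    have e2 : -(mr y + 1) = y := by unfold mr; omega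
    rw [e1, e2, min_comm]
  · unfold an
    rw [cpma_x, cpma_ls]
  · unfold lam
    rw [cpma_far d t y hy, cpma_ls]
  · unfold al
    rw [cpma_far d t y hy, cpma_x, cpma_ls]
  · unfold cp
    rw [cpma_x]
    simp only [cpma_mm]
    by_cases h : d.x t < y
    · rw [if_pos h, if_neg (by rw [cpma_lt]; omega)]
    · rw [if_neg h, if_pos (by rw [cpma_lt]; omega)]
  · unfold flip
    rw [cpma_on, cpma_on, cpma_frz, cpma_x, cpma_x, cpma_lt, cpma_lt]
    have em : d.mir.m = d.m := rfl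
    rw [em]
    have a1 : y ≠ d.x t := h1.2.2.1
    have a2 : y ≠ d.x ρ := h2.2.2.1
    have e : (y < d.x t ↔ d.x ρ < y) ↔ (d.x t < y ↔ y < d.x ρ) := by omega
    rw [e]

end Pool.Agent.P.MP_119182_lc.LW.W
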