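import Pool.Agent.P.MP_119182_lc.LW.IfaceP

/-! Step CPMIR. -/

set_option autoImplicit false

namespace Pool.Agent.P.MP_119182_lc.LW.W

open Finset
open scoped Classical
open NU (Run mr)
open LP (on up low ON)
open LT (lw mate frz clr fst hd vis)

lemma cpmir_mr (y : ℤ) : mr (mr y) = y := by
  unfold mr
  ring

lemma cpmir_mem (d : Run) (t : ℕ) (y : ℤ) : (t, y) ∈ LT.TK d ↔ t < d.m ∧ d.L < y ∧ y < d.R := by
  simp [LT.TK, Run.keys]

lemma cpmir_mem' (d : Run) (t : ℕ) (y : ℤ) : (t, mr y) ∈ LT.TK d.mir ↔ (t, y) ∈ LT.TK d := by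
  rw [cpmir_mem, cpmir_mem]
  simp only [Run.mir, mr]
  omega

lemma cpmir_sum (d : Run) (P P' : ℕ × ℤ → Prop) [DecidablePred P] [DecidablePred P']
    (f f' : ℕ × ℤ → ℕ)
    (h : ∀ t y, t < d.m → d.L < y → y < d.R →
      (P' (t, mr y) ↔ P (t, y)) ∧ (P (t, y) → f' (t, mr y) = f (t, y))) :
    ∑ p ∈ (LT.TK d.mir).filter P', f' p = ∑ p ∈ (LT.TK d).filter P, f p := by
  symm
  refine sum_nbij' (fun p => (p.1, mr p.2)) (fun p => (p.1, mr p.2)) ?_ ?_ ?_ ?_ ?_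
  · rintro ⟨t, y⟩ hp
    obtain ⟨h1, h2⟩ := mem_filter.1 hp
    obtain ⟨a, b, c⟩ := (cpmir_mem d t y).1 h1
    exact mem_filter.2 ⟨(cpmir_mem' d t y).2 h1, (h t y a b c).1.2 h2⟩
  · rintro ⟨t, y⟩ hp
    obtain ⟨y, rfl⟩ : ∃ z, y = mr z := ⟨mr y, (cpmir_mr y).symm⟩
    obtain ⟨h1, h2⟩ := mem_filter.1 hp
    have h3 := (cpmir_mem' d t y).1 h1
    obtain ⟨a, b, c⟩ := (cpmir_mem d t y).1 h3
    dsimp only
    rw [cpmir_mr]
    exact mem_filter.2 ⟨h3, (h t y a b c).1.1 h2⟩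
  · rintro ⟨t, y⟩ _
    simp only [cpmir_mr]
  · rintro ⟨t, y⟩ _
    simp only [cpmir_mr]
  · rintro ⟨t, y⟩ hp
    obtain ⟨h1, h2⟩ := mem_filter.1 hp
    obtain ⟨a, b, c⟩ := (cpmir_mem d t y).1 h1
    exact ((h t y a b c).2 h2).symm

lemma cpmir_card (d : Run) (P P' : ℕ × ℤ → Prop) [DecidablePred P] [DecidablePred P']
    (h : ∀ t y, t < d.m → d.L < y → y < d.R → (P' (t, mr y) ↔ P (t, y))) :
    #((LT.TK d.mir).filter P') = #((LT.TK d).filter P) := by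
  rw [card_eq_sum_ones, card_eq_sum_ones]
  exact cpmir_sum d P P' _ _ fun t y a b c => ⟨h t y a b c, fun _ => rfl⟩

lemma cpmir_lw {d : Run} {t : ℕ} {y : ℤ} (h : up d t y) : lw d t y ≠ d.x t := by
  unfold lw
  split_ifs
  · exact h.2.2.1
  · exact h.2.2.2

lemma cpmir_mate {d : Run} (hd : d.OK) {t : ℕ} (ht : t < d.m) {y : ℤ} (h1 : d.L < y)
    (h2 : y < d.R) (h3 : y ≠ d.x t) : mate d t y ≠ d.x t := by
  have b := (hd.tree t ht.le).bnd y h1 h2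
  unfold mate
  split_ifs with e1 e2
  · exact cpmir_lw e1
  · omega
  · omega

theorem p_CPMIR (hPBR : S_PBR) (hCPMA : S_CPMA) :
    S_CPMIR := by
  intro d lev cL cR H hc
  obtain ⟨A1, A2, A3⟩ := hCPMA d lev cL cR
  have hx : ∀ t, d.mir.x t = mr (d.x t) := fun _ => rfl
  have lt1 : ∀ a b : ℤ, mr a < mr b ↔ b < a := fun a b => by
    unfold mr
    omega
  have K : ∀ t y, t < d.m → d.L < y → y < d.R → y ≠ d.x t →
      (lo d.mir (ml lev) t (mr y) ↔ lo d lev t y) ∧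
      tg d.mir (ml lev) (fun s z => cR s (mr z)) (fun s z => cL s (mr z)) t (mr y) =
        tg d lev cL cR t y ∧
      inh d.mir (ml lev) (fun s z => cR s (mr z)) (fun s z => cL s (mr z)) t (mr y) =
        inh d lev cL cR t y ∧
      (rz d.mir (ml lev) (fun s z => cR s (mr z)) (fun s z => cL s (mr z)) t (mr y) ↔
        rz d lev cL cR t y) := by
    intro t y ht h1 h2 h3
    obtain ⟨-, b2, b3, -, b5, -⟩ := A3 t y
    obtain ⟨-, c2, c3, c4, c5⟩ := b5 h3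
    obtain ⟨-, -, e3, e4, e5⟩ := (A3 t (mate d t y)).2.2.2.2.1 (cpmir_mate hc.ok ht h1 h2 h3)
    have l : lo d.mir (ml lev) t (mr y) ↔ lo d lev t y := by
      unfold lo
      rw [c2, c3, e3, b2]
      refine and_congr_left' (or_congr_right ⟨?_, ?_⟩)
      · rintro ⟨u, hu⟩
        exact ⟨mr u, (b3 (mr u)).1 (by rwa [cpmir_mr])⟩
      · rintro ⟨u, hu⟩
        exact ⟨mr u, (b3 u).2 hu⟩
    have g : tg d.mir (ml lev) (fun s z => cR s (mr z)) (fun s z => cL s (mr z)) t (mr y) =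
        tg d lev cL cR t y := by
      unfold tg
      rw [c2, e3, e4, e5, c4]
    refine ⟨l, g, ?_, ?_⟩
    · unfold inh
      rw [c2, e5, c5]
      exact if_congr l rfl rfl
    · unfold rz
      rw [l, g, c5]
  have hEP : EP d.mir (ml lev) H = EP d lev H := by
    unfold EP
    refine filter_congr fun p _ => ?_
    rw [hx, hx, A1, A2]
    rfl
  refine ⟨⟨(LU.a_MIRA d ⟨fun _ _ => 0, fun _ _ => 0, fun _ _ => True, fun _ _ => 0⟩).2.2.2.2.2.2.2.1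
    hc.ok, ⟨?_, ?_, fun y => hc.lvl.le _⟩, fun y => (hc.zero (mr y)).symm, ?_, ?_, ?_, ?_⟩,
    ?_, hEP, fun σ c => ?_, ?_, ?_, ?_⟩
  · intro a b h1 h2 h3 h4
    simp only [Run.mir, mr] at h1 h3
    obtain ⟨c, c1, c2, c3⟩ := hc.lvl.uniq (-b) (-a) (by omega) (by omega) (by omega) h4.symm
    refine ⟨-c, by omega, by omega, ?_⟩
    unfold ml at *
    rw [neg_neg, h4]
    exact c3
  · intro y h1 h2
    simp only [Run.mir, mr] at h1 h2
    have := hc.lvl.top (-y) (by omega) (by omega)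
    have e1 : -(d.mir.L + 1) = d.R := by
      simp only [Run.mir, mr]
      ring
    have e2 : -d.mir.R = d.L + 1 := by
      simp only [Run.mir, mr]
      ring
    unfold ml
    rw [e1, e2]
    exact this.symm
  · intro t ht
    rw [hx, cpmir_mr]
    exact (hc.acc t ht).symm
  · intro t ht y h1 h2
    obtain ⟨y, rfl⟩ : ∃ z, y = mr z := ⟨mr y, (cpmir_mr y).symm⟩
    rw [cpmir_mr]
    exact (hc.off t ht y (fun e => h1 (by rw [hx, e])) fun e => h2 ((A3 t y).1.2 e)).symm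
  · intro t ht y h1 h2
    obtain ⟨y, rfl⟩ : ∃ z, y = mr z := ⟨mr y, (cpmir_mr y).symm⟩
    have o := (A3 t y).1.1 h1
    rw [hx, lt1] at h2
    obtain ⟨r1, r2⟩ := hc.left t ht y o h2
    rw [cpmir_mr, (A3 t y).2.2.2.1, (K t y ht o.1 o.2.1 o.2.2.1).2.2.1, r1, r2]
    exact ⟨rfl, (if_congr (A3 t y).2.1 rfl rfl).symm⟩
  · intro t ht y h1 h2
    obtain ⟨y, rfl⟩ : ∃ z, y = mr z := ⟨mr y, (cpmir_mr y).symm⟩
    have o := (A3 t y).1.1 h1
    rw [hx, lt1] at h2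
    obtain ⟨r1, r2⟩ := hc.right t ht y o h2
    rw [cpmir_mr, (A3 t y).2.2.2.1, (K t y ht o.1 o.2.1 o.2.2.1).2.2.1, r1, r2]
    exact ⟨rfl, (if_congr (A3 t y).2.1 rfl rfl).symm⟩
  · symm
    refine cpmir_sum d _ _ _ _ fun t y a b c => ⟨?_, fun h => ?_⟩
    · dsimp only
      rw [hx, lt1]
      exact and_congr_left fun h => (K t y a b c h.ne).2.2.2
    · dsimp only at h ⊢
      rw [(K t y a b c h.2.ne).2.1, ((A3 t y).2.2.2.2.1 h.2.ne).2.2.2.2]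
  · unfold RU
    rw [hEP]
  · refine cpmir_card d _ _ fun t y a b c => ?_
    dsimp only
    unfold hot
    rw [(A3 t y).2.1]
    refine and_congr_right fun hu => ?_
    obtain ⟨c1, -, c3, -⟩ := (A3 t y).2.2.2.2.1 hu.2.1.2.2.1
    rw [c1, c3, (A3 t (lw d t y)).2.2.2.1, ((A3 t (lw d t y)).2.2.2.2.1 (cpmir_lw hu)).2.2.1]
  · refine cpmir_card d _ _ fun t y a b c => ?_
    dsimp only
    refine exists_congr fun ρ => ?_
    have f : flip d.mir t (mr y) ρ ↔ flip d t y ρ :=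
      ⟨fun h => ((A3 t y).2.2.2.2.2 ρ ((A3 t y).1.1 h.2.2.1) ((A3 ρ y).1.1 h.2.2.2.2.1)).1 h,
        fun h => ((A3 t y).2.2.2.2.2 ρ h.2.2.1 h.2.2.2.2.1).2 h⟩
    rw [f]
    refine and_congr_right fun h => ?_
    rw [(A3 t y).2.2.2.1, ((A3 ρ y).2.2.2.2.1 h.2.2.2.2.1.2.2.1).2.2.2.1]
  · exact cpmir_card d _ _ fun t y _ _ _ => (A3 t y).1

end Pool.Agent.P.MP_119182_lc.LW.W
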