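import Pool.Agent.P.MP_119182_lc.LW.IfaceW

/-! Step EE. -/

set_option autoImplicit false

namespace Pool.Agent.P.MP_119182_lc.LW.W

open Finset
open scoped Classical
open NU (Run mr)
open LP (on up low ON)
open _root_.Pool.Agent.P.MP_119182_lc.LT (lw mate frz clr fst hd vis seg len TK Dat Sy)

namespace EEx

theorem base (d : Run) (lev : ℤ → ℕ) (b s : ℕ) (hs : s < d.m) :
    s ≤ ee d lev b s ∧ ee d lev b s < d.m ∧
      (d.m ≤ ee d lev b s + 1 ∨ b < ls lev (d.x (ee d lev b s)) (d.x (ee d lev b s + 1))) := by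
  have hne : (d.m - 1) ∈ {e | s ≤ e ∧ (d.m ≤ e + 1 ∨ b < ls lev (d.x e) (d.x (e + 1)))} :=
    ⟨by omega, Or.inl (by omega)⟩
  have h1 := Nat.sInf_mem ⟨_, hne⟩
  have h2 := Nat.sInf_le hne
  refine ⟨h1.1, ?_, h1.2⟩
  unfold ee
  omega

theorem least (d : Run) (lev : ℤ → ℕ) (b s e : ℕ) (h1 : s ≤ e)
    (h2 : d.m ≤ e + 1 ∨ b < ls lev (d.x e) (d.x (e + 1))) : ee d lev b s ≤ e :=
  Nat.sInf_le (s := {e | s ≤ e ∧ (d.m ≤ e + 1 ∨ b < ls lev (d.x e) (d.x (e + 1)))}) ⟨h1, h2⟩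

theorem cell (hLS : S_LS) (d : Run) (lev : ℤ → ℕ) (b s : ℕ) :
    ∀ r, s ≤ r → r ≤ ee d lev b s → ls lev (d.x s) (d.x r) ≤ b := by
  obtain ⟨_, h0, htri, _⟩ := hLS lev
  intro r hr
  induction r, hr using Nat.le_induction with
  | base =>
    intro _
    rw [h0]
    exact Nat.zero_le _
  | succ r hr ih =>
    intro hle
    have i := ih (by omega)
    have k : ls lev (d.x r) (d.x (r + 1)) ≤ b := by
      by_contra hc
      have := least d lev b s r hr (Or.inr (by omega))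
      omega
    have := htri (d.x s) (d.x r) (d.x (r + 1))
    omega

theorem low0 (hLS : S_LS) (lev : ℤ → ℕ) (a c : ℤ) (h : a ≠ c) : lw0 lev a ≤ ls lev a c := by
  obtain ⟨hc, _, _, _, hg, _⟩ := hLS lev
  rcases lt_or_gt_of_ne h with k | k
  · exact (min_le_right _ _).trans (hg a c (a + 1) (by omega) (by omega))
  · rw [hc]
    exact (min_le_left _ _).trans (hg c a a k le_rfl)

end EEx

theorem p_EE (hLS : S_LS) :
    S_EE := by
  intro d lev H _ b s hs
  obtain ⟨e1, e2, e3⟩ := EEx.base d lev b s hs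
  refine ⟨⟨e1, e2⟩, ?_, ?_, ?_⟩
  · intro r r1 r2
    refine ⟨EEx.cell hLS d lev b s r r1 r2, ?_⟩
    obtain ⟨f1, _, f3⟩ := EEx.base d lev b r (by omega)
    have a1 := EEx.least d lev b r _ r2 e3
    have a2 := EEx.least d lev b s _ (r1.trans f1) f3
    omega
  · intro r _ r2 r3
    have := (EEx.base d lev b r r2).1
    omega
  · intro v hv hb hH
    rw [EP, mem_filter, mem_product, mem_range, mem_range]
    refine ⟨⟨by dsimp only; omega, e2⟩, ?_, e3⟩
    dsimp only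
    have e5 := EEx.cell hLS d lev b s _ e1 le_rfl
    by_cases k : d.x (ee d lev b s) = d.x s
    · rw [k]
      have := EEx.low0 hLS lev (d.x s) v (ne_of_gt hv)
      omega
    · have := EEx.low0 hLS lev _ _ k
      have := (hLS lev).1 (d.x (ee d lev b s)) (d.x s)
      omega

end Pool.Agent.P.MP_119182_lc.LW.W
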