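import Pool.Agent.P.MP_119182_lc.LW.IfaceW

/-! Step G1. -/

set_option autoImplicit false

namespace Pool.Agent.P.MP_119182_lc.LW.W

open Finset
open scoped Classical
open NU (Run mr)
open LP (on up low ON)
open _root_.Pool.Agent.P.MP_119182_lc.LT (lw mate frz clr fst hd vis seg len TK Dat Sy)

namespace G1x

/-- The mate of a linked node of the right path is next to it on the path. -/
theorem mate_next (hMATE : _root_.Pool.Agent.P.MP_119182_lc.LT.S_MATE) (d : Run) (hd' : d.OK)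
    (t : ℕ) (y : ℤ) (hl : up d t y ∨ ∃ u, low d t y u) (hx : d.x t < y) :
    on d t (mate d t y) ∧ d.x t < mate d t y ∧
      ((mate d t y < y ∧ d.rp t (mate d t y) = y) ∨
        (y < mate d t y ∧ d.rp t y = mate d t y)) := by
  obtain ⟨m1, m2, -⟩ := hMATE d hd' t
  rcases hl with hu | ⟨u, hu⟩
  · obtain ⟨a1, a2⟩ := m1 y hu
    obtain ⟨-, -, -, b4, -, -, b7, b8⟩ := m2 _ _ a1
    rw [a2]
    have hp : d.x t < lw d t y := by
      rcases a1.2 with h | h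
      · exact h.1
      · have := (b8 h.1).1
        have := h.1
        omega
    exact ⟨b4, hp, Or.inl ⟨(b7 hp).1, (b7 hp).2.1⟩⟩
  · obtain ⟨-, b2, -, -, -, b6, b7, -⟩ := m2 _ _ hu
    rw [b2]
    obtain ⟨c1, c2, -⟩ := b7 hx
    exact ⟨b6, by omega, Or.inr ⟨c1, c2⟩⟩

/-- The last touch before the first view is unique. -/
theorem flip_uniq (d : Run) (s s' : ℕ) (v : ℤ) (ρ : ℕ) (h : flip d s v ρ) (h' : flip d s' v ρ) :
    s = s' := by
  rcases lt_trichotomy s s' with k | k | k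
  · exact absurd h'.2.2.1 (h.2.2.2.1 s' k h'.1).2
  · exact k
  · exact absurd h.2.2.1 (h'.2.2.2.1 s k h.1).2

end G1x

theorem p_G1 (hG1B : S_G1B) (hMATE : _root_.Pool.Agent.P.MP_119182_lc.LT.S_MATE)
    (hSPINE : _root_.Pool.Agent.P.MP_119182_lc.LT.S_SPINE)
    (hHD : _root_.Pool.Agent.P.MP_119182_lc.LT.S_HD) : S_G1 := by
  intro d lev cL cR w H hA b θ ρ e
  have hok := hA.cp.ok
  obtain ⟨-, -, -, hd4, -⟩ := hHD d w hA.sy
  set S := (TK d).filter fun p => gb d lev cL cR w b θ p.1 p.2 ρ ∧ ee d lev b p.1 = e with hS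
  have hex : ∀ p : ℕ × ℤ, ∃ t : ℕ, p ∈ S → bir d lev cL cR w p.1 p.2 ρ t (hd d ρ p.2 t) ∧
      an d lev p.1 p.2 ≤ b ∧ b + 1 < tg d lev cL cR t (hd d ρ p.2 t) ∧
      #(vis d ρ p.2 t) ≤ θ ∧ ee d lev b p.1 = e := by
    intro p
    by_cases hp : p ∈ S
    · obtain ⟨⟨t, y, h1, h2, h3, h4⟩, h5⟩ := (mem_filter.1 hp).2
      obtain rfl : hd d ρ p.2 t = y := h1.2.2.2.1
      exact ⟨t, fun _ => ⟨h1, h2, h3, h4, h5⟩⟩
    · exact ⟨0, fun h => absurd h hp⟩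
  choose T hT using hex
  have hvis : ∀ p ∈ S, ρ ≤ T p ∧ T p < d.m ∧ on d (T p) (hd d ρ p.2 (T p)) ∧
      d.x (T p) < hd d ρ p.2 (T p) := by
    intro p hp
    have hs := (hT p hp).1.2.2.1
    have ho := (mem_filter.1 (hd4 _ _ _ hs).2.1).2
    exact ⟨hs.1, hs.2.1, ho, (hs.2.2.2.1 _ hs.1 le_rfl).2 ho⟩
  have hG : ∀ p ∈ S, ∀ q ∈ S, p.2 < q.2 → ∀ r, ρ ≤ r → r ≤ T p → r ≤ T q →
      hd d ρ p.2 r < hd d ρ q.2 r ∧ (on d r (hd d ρ p.2 r) ↔ on d r (hd d ρ q.2 r)) ∧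
      (on d r (hd d ρ p.2 r) → ∀ z, on d r z → hd d ρ p.2 r ≤ z → z ≤ hd d ρ q.2 r →
        cR r z ≤ b + 1 ∧ lam d lev r z ≤ b) := by
    intro p hp q hq hlt
    obtain ⟨p1, p2, p3, -, p5⟩ := hT p hp
    obtain ⟨q1, q2, q3, -, q5⟩ := hT q hq
    exact hG1B d lev cL cR w H hA b _ _ _ _ _ _ _ _ ρ p1 q1 p2 q2 (by omega) (by omega)
      (p5.trans q5.symm) hlt
  have hM : ∀ p ∈ S, on d (T p) (mate d (T p) (hd d ρ p.2 (T p))) ∧
      ¬ (cR (T p) (mate d (T p) (hd d ρ p.2 (T p))) ≤ b + 1 ∧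
        lam d lev (T p) (mate d (T p) (hd d ρ p.2 (T p))) ≤ b) ∧
      d.x (T p) < mate d (T p) (hd d ρ p.2 (T p)) ∧
      ((mate d (T p) (hd d ρ p.2 (T p)) < hd d ρ p.2 (T p) ∧
          d.rp (T p) (mate d (T p) (hd d ρ p.2 (T p))) = hd d ρ p.2 (T p)) ∨
        (hd d ρ p.2 (T p) < mate d (T p) (hd d ρ p.2 (T p)) ∧
          d.rp (T p) (hd d ρ p.2 (T p)) = mate d (T p) (hd d ρ p.2 (T p)))) := by
    intro p hp
    obtain ⟨p1, -, p3, -⟩ := hT p hp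
    obtain ⟨a1, a2, a3⟩ := G1x.mate_next hMATE d hok (T p) _ p1.2.2.2.2.1.1.1 (hvis p hp).2.2.2
    refine ⟨a1, fun hc => ?_, a2, a3⟩
    rw [tg, cp, if_pos a2] at p3
    omega
  have hne : ∀ p ∈ S, ∀ q ∈ S, p.2 < q.2 → T p = T q →
      ¬ (mate d (T p) (hd d ρ p.2 (T p)) < hd d ρ p.2 (T p) ↔
        mate d (T q) (hd d ρ q.2 (T q)) < hd d ρ q.2 (T q)) := by
    intro p hp q hq hlt hTT hiff
    obtain ⟨v1, v2, v3, v4⟩ := hvis p hp
    obtain ⟨-, -, u3, u4⟩ := hvis q hq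
    obtain ⟨g1, -, g3⟩ := hG p hp q hq hlt (T p) v1 le_rfl hTT.le
    obtain ⟨a1, a2, a3, a4⟩ := hM p hp
    obtain ⟨b1, b2, b3, b4⟩ := hM q hq
    rw [← hTT] at hiff u3 u4 b1 b2 b3 b4
    have sp := (hSPINE d hok (T p) v2).1
    have n1 := fun k1 k2 => a2 (g3 v3 _ a1 k1 k2)
    have n2 := fun k1 k2 => b2 (g3 v3 _ b1 k1 k2)
    rcases a4 with a4 | a4
    · have k1 := hiff.1 a4.1
      rcases b4 with b4 | b4
      · have k2 : mate d (T p) (hd d ρ q.2 (T p)) < hd d ρ p.2 (T p) := by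
          by_contra hc
          exact n2 (by omega) k1.le
        have := sp _ _ b1 v3 b3 k2
        omega
      · omega
    · have := sp _ _ v3 u3 v4 g1
      exact n1 a4.1.le (by omega)
  rcases S.eq_empty_or_nonempty with h0 | h0
  · rw [h0]; simp
  obtain ⟨p0, hp0, hmax⟩ := exists_max_image S T h0
  have hcard : #S ≤ #(vis d ρ p0.2 (T p0) ×ˢ (univ : Finset Prop)) := by
    refine card_le_card_of_injOn
      (fun p => (T p, mate d (T p) (hd d ρ p.2 (T p)) < hd d ρ p.2 (T p))) ?_ ?_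
    · intro p hp
      have hp' : p ∈ S := mem_coe.1 hp
      obtain ⟨v1, -, v3, -⟩ := hvis p hp'
      refine mem_coe.2 (mem_product.2 ⟨mem_filter.2 ⟨mem_Icc.2 ⟨v1, hmax p hp'⟩, ?_⟩, mem_univ _⟩)
      rcases lt_trichotomy p.2 p0.2 with k | k | k
      · exact (hG p hp' p0 hp0 k (T p) v1 le_rfl (hmax p hp')).2.1.1 v3
      · rw [← k]; exact v3
      · exact (hG p0 hp0 p hp' k (T p) v1 (hmax p hp') le_rfl).2.1.2 v3
    · intro p hp q hq hpq
      have hp' : p ∈ S := mem_coe.1 hp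
      have hq' : q ∈ S := mem_coe.1 hq
      have e1 : T p = T q := congrArg Prod.fst hpq
      have e2 := iff_of_eq (congrArg Prod.snd hpq)
      rcases lt_trichotomy p.2 q.2 with k | k | k
      · exact absurd e2 (hne p hp' q hq' k e1)
      · refine Prod.ext (G1x.flip_uniq d _ _ q.2 ρ ?_ (hT q hq').1.1) k
        rw [← k]
        exact (hT p hp').1.1
      · exact absurd e2.symm (hne q hq' p hp' k e1.symm)
  rw [card_product, card_univ, Fintype.card_prop] at hcard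
  have := (hT p0 hp0).2.2.2.1
  omega

end Pool.Agent.P.MP_119182_lc.LW.W
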