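import Pool.Agent.P.MP_119182_lc.LW.IfaceW

/-! Step G1A. -/

set_option autoImplicit false

namespace Pool.Agent.P.MP_119182_lc.LW.W

open Finset
open scoped Classical
open NU (Run mr)
open LP (on up low ON)
open _root_.Pool.Agent.P.MP_119182_lc.LT (lw mate frz clr fst hd vis seg len TK Dat Sy)

namespace G1Ax

/-- The right cap of a frozen node stays. -/
theorem cap_keep {d : Run} {lev : ℤ → ℕ} {cL cR : ℕ → ℤ → ℕ} {H : ℕ} (h : Cp d lev cL cR H)
    (a : ℕ) (z : ℤ) : ∀ b, a ≤ b → b ≤ d.m → frz d a b z → cR b z = cR a z := by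
  intro b hab
  induction b, hab using Nat.le_induction with
  | base => intro _ _; rfl
  | succ n hn ih =>
    intro hm hf
    have h1 := hf n hn (Nat.lt_succ_self n)
    have h2 := (h.off n (by omega) z (Ne.symm h1.1) h1.2).2
    rw [h2]
    exact ih (by omega) fun T hT hT' => hf T hT (by omega)

/-- The last time before `ρ` at which a node is not frozen. -/
theorem last_touch (d : Run) (z : ℤ) (a : ℕ) : ∀ ρ, ¬ frz d a ρ z →
    ∃ s, a ≤ s ∧ s < ρ ∧ ¬ (d.x s ≠ z ∧ ¬ on d s z) ∧ frz d (s + 1) ρ z := by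
  intro ρ
  induction ρ with
  | zero => intro h; exact absurd (fun T _ hT => absurd hT (Nat.not_lt_zero T)) h
  | succ n ih =>
    intro h
    by_cases hn : a ≤ n ∧ ¬ (d.x n ≠ z ∧ ¬ on d n z)
    · exact ⟨n, hn.1, Nat.lt_succ_self n, hn.2, fun T h1 h2 => by omega⟩
    · have h1 : ¬ frz d a n z := by
        intro hf
        apply h
        intro T hT hT'
        rcases Nat.lt_succ_iff_lt_or_eq.mp hT' with h2 | h2
        · exact hf T hT h2
        · subst h2
          by_contra h3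
          exact hn ⟨hT, h3⟩
      obtain ⟨s, h2, h3, h4, h5⟩ := ih h1
      refine ⟨s, h2, by omega, h4, ?_⟩
      intro T hT hT'
      rcases Nat.lt_succ_iff_lt_or_eq.mp hT' with h6 | h6
      · exact h5 T hT h6
      · subst h6
        by_contra h7
        exact hn ⟨by omega, h7⟩

end G1Ax

theorem p_G1A (hLS : S_LS) (hEE : S_EE) (hRUN : S_RUN) (hMATE : LT.S_MATE) (hKEEP : LT.S_KEEP) :
    S_G1A := by
  intro d lev cL cR w H hA b s1 v1 s2 v2 ρ z h1 h2 hee hz hv1 hv2
  obtain ⟨⟨a1, hρ, o1, f1, p1, q1⟩, l1, n1, c1⟩ := h1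
  obtain ⟨⟨a2, -, o2, f2, p2, q2⟩, l2, n2, c2⟩ := h2
  have ok := hA.cp.ok
  obtain ⟨sym, -, tri, add, -, -⟩ := hLS lev
  have K := hKEEP d w hA.sy
  have xv1 : d.x ρ < v1 := by
    have e1 : ¬ v1 < d.x ρ := fun h => absurd (q1.mpr h) (by omega)
    have e2 := p1.2.2.1
    omega
  obtain ⟨zL, zR, zx, zl, zr⟩ := hz
  have Tρ := ok.tree ρ hρ.le
  have rz2 : d.rp ρ z ≤ v2 :=
    (Tρ.lamL v2 z p2.1 p2.2.1 (by have := p2.2.2.2.1; omega) hv2).2
  have fz : frz d (s2 + 1) ρ z := by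
    obtain ⟨k1, k2⟩ := K (s2 + 1) ρ v2 a2 hρ.le p2.1 p2.2.1
    have k3 := k1.mp f2
    have k4 := (k2 f2).1
    have T2 := ok.tree (s2 + 1) (by omega)
    have k5 := T2.lamL v2 z p2.1 p2.2.1 (by have := p2.2.2.2.1; omega) hv2
    have k6 := T2.bnd v2 p2.1 p2.2.1
    refine (K (s2 + 1) ρ z a2 hρ.le zL zR).1.mpr ?_
    intro T hT hT' hc
    exact k3 T hT hT' ⟨by omega, by omega⟩
  have nf : ¬ frz d s1 ρ z := by
    intro hf
    obtain ⟨k1, k2⟩ := K s1 ρ z a1.le hρ.le zL zR
    have k3 := k1.mp hf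
    have k4 := (k2 hf).1
    have T1 := ok.tree s1 (by omega)
    have k5 := T1.lamL z v1 zL zR (by omega) hv1
    have k6 := T1.bnd z zL zR
    have k7 := o1.2.2.2
    exact k3 s1 le_rfl a1 ⟨by omega, by omega⟩
  obtain ⟨s, g1, g2, g3, g4⟩ := G1Ax.last_touch d z s1 ρ nf
  have g5 : s ≤ s2 := by
    by_contra hc
    exact g3 (fz s (by omega) g2)
  have sm : s < d.m := by omega
  have e2 := (hEE d lev H ok b s2 (by omega)).1.1
  have cs : ls lev (d.x s1) (d.x s) ≤ b :=
    ((hEE d lev H ok b s1 (by omega)).2.1 s g1 (by omega)).1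
  have n1' : ls lev (d.x s1) v1 ≤ b := n1
  have cv : ls lev (d.x s) v1 ≤ b := by
    have t1 := tri (d.x s) (d.x s1) v1
    rw [sym (d.x s) (d.x s1)] at t1
    exact t1.trans (max_le cs n1')
  obtain ⟨kl, kr, -⟩ := (K (s + 1) ρ z g2 hρ.le zL zR).2 g4
  have St := ok.step s sm
  by_cases hx : d.x s = z
  · exfalso
    have r1 := St.root.2
    rw [hx] at r1
    have r2 := p2.2.1
    omega
  · have oz : on d s z := by
      by_contra hc
      exact g3 ⟨hx, hc⟩
    rcases lt_or_gt_of_ne hx with hlt | hgt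
    · exfalso
      have r1 : d.x s ≤ d.lp (s + 1) z := by
        by_cases r0 : d.lp (s + 1) z = d.x s
        · omega
        · exact (St.losR z hlt zR oz.2.2.2.1 r0).1.le
      have r2 := add (d.x s) (d.x ρ) v1 (by omega) xv1.le
      have r3 : ls lev (d.x s) (d.x ρ) ≤ b := by
        have := le_max_left (ls lev (d.x s) (d.x ρ)) (ls lev (d.x ρ) v1)
        omega
      have r4 := (tri (d.x s1) (d.x s) (d.x ρ)).trans (max_le cs r3)
      omega
    · have r1 := (hA.cp.left s sm z oz hgt).1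
      have r2 := G1Ax.cap_keep hA.cp (s + 1) z ρ g2 hρ.le g4
      have r3 := add v1 z (d.x s) hv1.le hgt.le
      have r4 : ls lev (d.x s) z ≤ b := by
        have t1 := le_max_right (ls lev v1 z) (ls lev z (d.x s))
        rw [sym (d.x s) z]
        rw [sym (d.x s) v1] at cv
        omega
      have r5 : an d lev s z = ls lev (d.x s) z := rfl
      omega

end Pool.Agent.P.MP_119182_lc.LW.W
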