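import Pool.Agent.P.MP_119182_lc.NU.Base

/-! The number of groups of nodes that leave a cell together. -/

set_option autoImplicit false

namespace Pool.Agent.P.MP_119182_lc.LW.G2

open Finset
open scoped Classical
open NU (Run)

/-- Cells: `sm b` is symmetric and transitive, with convex classes. -/
structure Cells (sm : ℕ → ℤ → ℤ → Prop) : Prop where
  symm : ∀ b x y, sm b x y → sm b y x
  trans : ∀ b x y z, sm b x y → sm b y z → sm b x z
  conv : ∀ b x y z, sm b x z → x ≤ y → y ≤ z → sm b x y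

section
variable (d : Run) (sm : ℕ → ℤ → ℤ → Prop) (B : ℕ → Prop)

/-- The node `v` is on the right path at time `s`, its next touch `ρ` comes from its right and
from outside the cell of level `b`, the least admitted level that joins `v` to access `s`. -/
structure Rep (b s : ℕ) (v : ℤ) (ρ : ℕ) : Prop where
  lt : s < ρ
  ltm : ρ < d.m
  xv : d.x s < v
  vR : v < d.R
  on : d.lp s v < d.x s
  frz : ∀ q, s < q → q < ρ → ¬ (d.lp (s + 1) v < d.x q ∧ d.x q < d.rp (s + 1) v)
  vx : v < d.x ρ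
  xr : d.x ρ < d.rp (s + 1) v
  adm : B b
  ins : sm b (d.x s) v
  least : ∀ b0, b0 < b → B b0 → ¬ sm b0 (d.x s) v
  out : ¬ sm b v (d.x ρ)

/-- Time `T` ends the stay in the cell of level `b` of access `s`. -/
def End (b s T : ℕ) : Prop :=
  s < T ∧ (∀ q, s < q → q < T → sm b (d.x s) (d.x q)) ∧ ¬ sm b (d.x s) (d.x T)

/-- The groups: level, end of the stay, next touch. -/
noncomputable def GR (J : ℕ) : Finset (ℕ × ℕ × ℕ) :=
  (range J ×ˢ range d.m ×ˢ range d.m).filter fun p =>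
    ∃ s v, Rep d sm B p.1 s v p.2.2 ∧ End d sm p.1 s p.2.1

/-- The stays in cells with two keys, named by level and last time. -/
noncomputable def EP (J : ℕ) : Finset (ℕ × ℕ) :=
  (range J ×ˢ range d.m).filter fun p => B p.1 ∧ p.2 + 1 < d.m ∧
    ¬ sm p.1 (d.x p.2) (d.x (p.2 + 1)) ∧
    ∃ y z, d.L < y ∧ y < z ∧ z < d.R ∧ sm p.1 (d.x p.2) y ∧ sm p.1 (d.x p.2) z

end

variable {d : Run} {sm : ℕ → ℤ → ℤ → Prop} {B : ℕ → Prop}

theorem frozen (h : d.OK) {t T : ℕ} {y : ℤ} (h1 : t ≤ T) (h2 : T ≤ d.m) (y1 : d.L < y)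
    (y2 : y < d.R) (h3 : ∀ q, t ≤ q → q < T → ¬ (d.lp t y < d.x q ∧ d.x q < d.rp t y)) :
    d.lp T y = d.lp t y ∧ d.rp T y = d.rp t y := by
  induction T, h1 using Nat.le_induction with
  | base => exact ⟨rfl, rfl⟩
  | succ T h1 ih =>
    obtain ⟨e1, e2⟩ := ih (by omega) fun T' a b => h3 T' a (by omega)
    have h4 := h3 T h1 (by omega)
    have h5 := (h.tree t (by omega)).bnd y y1 y2
    have h6 := (h.step T (by omega)).off y y1 y2 (fun e => h4 (by omega)) (by rwa [e1, e2])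
    exact ⟨h6.1.trans e1, h6.2.trans e2⟩

/-- The left parent of a key grows while the accesses are on its left. -/
theorem grow (h : d.OK) {t T : ℕ} {y : ℤ} (h1 : t ≤ T) (h2 : T ≤ d.m) (y2 : y < d.R)
    (h3 : ∀ q, t ≤ q → q < T → d.x q < y) : d.lp t y ≤ d.lp T y := by
  induction T, h1 using Nat.le_induction with
  | base => exact le_rfl
  | succ T h1 ih =>
    refine (ih (by omega) fun q a b => h3 q a (by omega)).trans ?_
    have h4 := h3 T h1 (by omega)
    have S := h.step T (by omega)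
    have hx := S.mem
    have b := (h.tree T (by omega)).bnd y (by omega) y2
    by_cases o : d.lp T y < d.x T
    · by_cases e : d.lp (T + 1) y = d.x T
      · omega
      · have := (S.losR y h4 y2 o e).1
        omega
    · exact (S.off y (by omega) y2 (by omega) fun k => o k.1).1.ge

namespace Rep

variable {b s ρ : ℕ} {v : ℤ}

theorem Lv (r : Rep d sm B b s v ρ) (h : d.OK) : d.L < v := by
  have := (h.step s (r.lt.trans r.ltm)).mem
  have := r.xv
  omega

theorem keep (r : Rep d sm B b s v ρ) (h : d.OK) {q : ℕ} (q1 : s < q) (q2 : q ≤ ρ) :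
    d.lp q v = d.lp (s + 1) v ∧ d.rp q v = d.rp (s + 1) v :=
  frozen h q1 (q2.trans r.ltm.le) (r.Lv h) r.vR fun t a c => r.frz t a (by omega)

/-- Keys of the cell are left of the next touch. -/
theorem left (r : Rep d sm B b s v ρ) (c : Cells sm) {y : ℤ} (hy : sm b (d.x s) y) :
    y < d.x ρ := by
  by_contra hn
  exact r.out (c.conv b v _ y (c.trans b _ _ _ (c.symm b _ _ r.ins) hy) r.vx.le (not_lt.1 hn))

theorem endle (r : Rep d sm B b s v ρ) (c : Cells sm) {T : ℕ} (e : End d sm b s T) : T ≤ ρ := by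
  by_contra hn
  exact lt_irrefl _ (r.left c (e.2.1 ρ r.lt (not_le.1 hn)))

/-- The new right parent is on the path. -/
theorem om (r : Rep d sm B b s v ρ) (h : d.OK) (hR : d.rp (s + 1) v < d.R) :
    d.lp s (d.rp (s + 1) v) < d.x s := by
  have sm' := r.lt.trans r.ltm
  have T := h.tree s sm'.le
  have b1 := T.bnd v (r.Lv h) r.vR
  have o := r.on
  by_cases e : d.rp (s + 1) v = d.rp s v
  · rw [e] at hR ⊢
    exact (T.ancR v (r.Lv h) r.vR hR).trans_lt o
  · obtain ⟨a1, -, a3⟩ := (h.step s sm').lowR v r.xv r.vR r.on e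
    rw [a3] at hR ⊢
    have a4 := T.ancR v (r.Lv h) r.vR a1
    have a5 := T.ancR (d.rp s v) (by omega) a1 hR
    omega

end Rep

theorem End.mem {b s T q : ℕ} {v : ℤ} (c : Cells sm) (e : End d sm b s T) (i : sm b (d.x s) v)
    (q1 : s ≤ q) (q2 : q < T) : sm b (d.x s) (d.x q) := by
  rcases q1.eq_or_lt with k | k
  · subst k
    exact c.trans b _ _ _ i (c.symm b _ _ i)
  · exact e.2.1 q k q2

theorem same (c : Cells sm) {b s s' T : ℕ} {v v' : ℤ} (e : End d sm b s T) (e' : End d sm b s' T)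
    (i : sm b (d.x s) v) (i' : sm b (d.x s') v') : sm b (d.x s) (d.x s') := by
  rcases le_total s s' with k | k
  · exact e.mem c i k e'.1
  · exact c.symm b _ _ (e'.mem c i' k e.1)

theorem End.uniq {b s T T' : ℕ} (e : End d sm b s T) (e' : End d sm b s T') : T = T' := by
  rcases lt_trichotomy T T' with k | k | k
  · exact absurd (e'.2.1 T e.1 k) e.2.2
  · exact k
  · exact absurd (e.2.1 T' e'.1 k) e'.2.2

/-- Two groups of one stay. -/
theorem two (h : d.OK) (c : Cells sm) {b s s' T ρ ρ' : ℕ} {v v' : ℤ} (r : Rep d sm B b s v ρ)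
    (r' : Rep d sm B b s' v' ρ') (e : End d sm b s T) (e' : End d sm b s' T) (hρ : ρ < ρ') :
    v < v' ∧ d.rp (s' + 1) v' < d.rp (s + 1) v ∧ s' < s := by
  have t1 := r.endle c e
  have t2 := e'.1
  have t3 := e.1
  have ss := same c e e' r.ins r'.ins
  have l1 : v' < d.x ρ := r.left c (c.trans b _ _ _ ss r'.ins)
  have l2 : v < d.x ρ' := r'.left c (c.trans b _ _ _ (c.symm b _ _ ss) r.ins)
  have f1 := r'.frz ρ (by omega) hρ
  have mm := r.ltm
  have mm' := r'.ltm
  have B1 := (h.tree (s' + 1) (by omega)).bnd v' (r'.Lv h) r'.vR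
  have B2 := (h.tree (s + 1) (by omega)).bnd v (r.Lv h) r.vR
  have x1 := r.xr
  have x2 := r'.xr
  have x3 := r.vx
  have o1 : d.rp (s' + 1) v' ≤ d.x ρ := by omega
  have vv : v < v' := by
    by_contra hn
    obtain ⟨k1, k2⟩ := r.keep h r.lt le_rfl
    obtain ⟨k3, k4⟩ := r'.keep h (q := ρ) (by omega) hρ.le
    rcases (not_lt.1 hn).eq_or_lt with k | k
    · subst k
      omega
    · have := ((h.tree ρ mm.le).lamR v' v (r'.Lv h) r'.vR k (by omega)).2
      omega
  refine ⟨vv, by omega, ?_⟩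
  rcases lt_trichotomy s' s with k | k | k
  · exact k
  · exfalso
    subst k
    have T0 := h.tree s' (by omega)
    have S := h.step s' (by omega)
    have o := r'.on
    have xv := r.xv
    have a1 := (T0.lamL v' v (r'.Lv h) r'.vR (by omega) vv).2
    obtain ⟨a2, a3, a4⟩ := S.lowR v r.xv r.vR r.on (by omega)
    have B3 := T0.bnd v (r.Lv h) r.vR
    rcases a1.eq_or_lt with q | q
    · rw [q] at a3 a4
      have a5 := (S.losR v' r'.xv r'.vR r'.on (by omega)).2.2.2.2.1
      omega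
    · have := (T0.lamL v' (d.rp s' v) (r'.Lv h) r'.vR (by omega) q).2
      omega
  · exfalso
    obtain ⟨k1, k2⟩ := r.keep h k (by omega)
    have f2 := r.frz s' k (by omega)
    have l3 : d.x s' < d.x ρ := r.left c ss
    have a1 := ((h.tree s' (by omega)).lamR v v' (r.Lv h) r.vR vv (by omega)).1
    have o := r'.on
    omega

/-- A larger key right of the cell that is on the path later in the stay is on the path now. -/
theorem vis (h : d.OK) {t' t : ℕ} {y' y : ℤ} (h1 : t' ≤ t) (h2 : t < d.m) (yy : y' ≤ y)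
    (yR : y < d.R) (hx : ∀ q, t' ≤ q → q ≤ t → d.x q < y') (o : d.lp t y < d.x t)
    (o' : d.lp t' y' < d.x t') : d.lp t' y < d.x t' := by
  rcases yy.eq_or_lt with k | k
  · exact k ▸ o'
  have a1 := grow h h1 h2.le yR fun q q1 q2 => (hx q q1 q2.le).trans k
  have a2 := hx t h1 le_rfl
  have a3 := (h.step t h2).mem
  have a4 := ((h.tree t' (by omega)).lamL y y' (by omega) yR (by omega) k).1
  omega

theorem memP {t : ℕ} {y : ℤ} : y ∈ d.P t ↔ d.x t < y ∧ y < d.R ∧ d.lp t y < d.x t := by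
  simp [Run.P, and_assoc]

theorem rank_le (S : Finset ℕ) (f : ℕ → ℕ) (k : ℕ) (hf : Set.InjOn f S) :
    #(S.filter fun a => f a < k) ≤ k := by
  have := card_le_card_of_injOn (s := S.filter fun a => f a < k) (t := range k) f
    (fun a ha => by simpa using (mem_filter.1 ha).2)
    (hf.mono fun a ha => (mem_filter.1 ha).1)
  simpa using this

theorem below_inj (S : Finset ℕ) : Set.InjOn (fun a => #(S.filter fun z => z < a)) S := by
  have k : ∀ a ∈ S, ∀ a', a < a' → #(S.filter fun z => z < a) < #(S.filter fun z => z < a') :=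
    fun a ha a' l => card_lt_card ⟨fun z hz => by
      simp only [mem_filter] at hz ⊢
      exact ⟨hz.1, by omega⟩, fun hs => by
      have := hs (mem_filter.2 ⟨ha, l⟩)
      simp at this⟩
  intro a ha a' ha' e
  rcases lt_trichotomy a a' with l | l | l
  · exact absurd e (k a ha a' l).ne
  · exact l
  · exact absurd e (k a' ha' a l).ne'

theorem above_inj (S : Finset ℕ) : Set.InjOn (fun a => #(S.filter fun z => a < z)) S := by
  have k : ∀ a, ∀ a' ∈ S, a < a' → #(S.filter fun z => a' < z) < #(S.filter fun z => a < z) :=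
    fun a a' ha l => card_lt_card ⟨fun z hz => by
      simp only [mem_filter] at hz ⊢
      exact ⟨hz.1, by omega⟩, fun hs => by
      have := hs (mem_filter.2 ⟨ha, l⟩)
      simp at this⟩
  intro a ha a' ha' e
  rcases lt_trichotomy a a' with l | l | l
  · exact absurd e (k a a' ha' l).ne'
  · exact l
  · exact absurd e (k a' a ha l).ne

theorem memGR {J : ℕ} {p : ℕ × ℕ × ℕ} : p ∈ GR d sm B J ↔ p.1 < J ∧ p.2.1 < d.m ∧ p.2.2 < d.m ∧
    ∃ s v, Rep d sm B p.1 s v p.2.2 ∧ End d sm p.1 s p.2.1 := by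
  simp [GR, and_assoc]

/-- The next touches of the groups of one stay. -/
noncomputable def Fb (d : Run) (sm : ℕ → ℤ → ℤ → Prop) (B : ℕ → Prop) (b T : ℕ) : Finset ℕ :=
  (range d.m).filter fun ρ => ∃ s v, Rep d sm B b s v ρ ∧ End d sm b s T

theorem card_sig : #((range d.m).sigma d.P) = d.NR := by
  rw [card_sigma]
  rfl

/-- Groups of one level with representatives at one time are equal. -/
theorem eq_of (h : d.OK) (c : Cells sm) {p p' : ℕ × ℕ × ℕ} {t : ℕ} {v v' : ℤ}
    (r : Rep d sm B p.1 t v p.2.2) (e : End d sm p.1 t p.2.1) (r' : Rep d sm B p'.1 t v' p'.2.2)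
    (e' : End d sm p'.1 t p'.2.1) (hb : p.1 = p'.1) : p = p' := by
  obtain ⟨b, T, ρ⟩ := p
  obtain ⟨b', T', ρ'⟩ := p'
  dsimp only at r e r' e' hb
  subst hb
  have := e.uniq e'
  subst this
  rcases lt_trichotomy ρ ρ' with k | k | k
  · exact absurd (two h c r r' e e' k).2.2 (lt_irrefl _)
  · rw [k]
  · exact absurd (two h c r' r e' e k).2.2 (lt_irrefl _)

theorem case1 (h : d.OK) (c : Cells sm) (J th : ℕ) :
    #((GR d sm B J).filter fun p => th + 1 ≤ #((Fb d sm B p.1 p.2.1).filter fun z => z < p.2.2) ∧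
      ∃ s v, Rep d sm B p.1 s v p.2.2 ∧ End d sm p.1 s p.2.1 ∧
        ∀ b' v' ρ', p.1 < b' → ¬ Rep d sm B b' s v' ρ') * th ≤ d.NR := by
  rw [← card_sig, ← mul_one #((range d.m).sigma d.P)]
  refine card_mul_le_card_mul (fun (p : ℕ × ℕ × ℕ) (q : Σ _ : ℕ, ℤ) =>
    ∃ v, Rep d sm B p.1 q.1 v p.2.2 ∧ End d sm p.1 q.1 p.2.1 ∧
      ∀ b' v' ρ', p.1 < b' → ¬ Rep d sm B b' q.1 v' ρ') (fun p hp => ?_) (fun q _ => ?_)
  · obtain ⟨-, k, s, v, r, e, n⟩ := mem_filter.1 hp
    have sm' := r.lt.trans r.ltm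
    have k1 : #((Fb d sm B p.1 p.2.1).filter fun z => z < p.2.2) ≤ #(insert d.R (d.P s)) := by
      refine card_le_card_of_forall_subsingleton (fun z y => ∃ s' v', Rep d sm B p.1 s' v' z ∧
        End d sm p.1 s' p.2.1 ∧ y = d.rp (s' + 1) v') (fun z hz => ?_) (fun y _ => ?_)
      · obtain ⟨hz1, hz2⟩ := mem_filter.1 hz
        obtain ⟨-, s', v', r', e'⟩ := mem_filter.1 hz1
        refine ⟨_, ?_, s', v', r', e', rfl⟩
        obtain ⟨a1, a2, a3⟩ := two h c r' r e' e hz2
        have b1 := (h.tree (s' + 1) (r'.lt.trans r'.ltm)).bnd v' (r'.Lv h) r'.vR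
        rcases b1.2.2.2.eq_or_lt with k2 | k2
        · exact mem_insert.2 (Or.inl k2)
        · have hx : ∀ q, s ≤ q → q ≤ s' → d.x q < d.rp (s + 1) v := fun q q1 q2 =>
            (r.left c (e.mem c r.ins q1 (q2.trans_lt e'.1))).trans r.xr
          refine mem_insert.2 (Or.inr (memP.2 ⟨(hx s le_rfl a3.le).trans a2, k2, ?_⟩))
          exact vis h a3.le (r'.lt.trans r'.ltm) a2.le k2 hx (r'.om h k2) (r.om h (a2.trans k2))
      · rintro z ⟨-, s1, v1, r1, e1, y1⟩ z' ⟨-, s2, v2, r2, e2, y2⟩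
        rcases lt_trichotomy z z' with l | l | l
        · have := (two h c r1 r2 e1 e2 l).2.1
          omega
        · exact l
        · have := (two h c r2 r1 e2 e1 l).2.1
          omega
    have k2 := card_insert_le d.R (d.P s)
    have k3 : #(d.P s) ≤ #(((range d.m).sigma d.P).bipartiteAbove
        (fun (p : ℕ × ℕ × ℕ) (q : Σ _ : ℕ, ℤ) =>
          ∃ v, Rep d sm B p.1 q.1 v p.2.2 ∧ End d sm p.1 q.1 p.2.1 ∧
            ∀ b' v' ρ', p.1 < b' → ¬ Rep d sm B b' q.1 v' ρ') p) :=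
      card_le_card_of_injOn (fun y => ⟨s, y⟩)
        (fun y hy => mem_coe.2 ((mem_bipartiteAbove _).2
          ⟨mem_sigma.2 ⟨mem_range.2 sm', hy⟩, v, r, e, n⟩))
        (fun y _ y' _ k => by simpa using k)
    omega
  · refine card_le_one.2 fun p hp p' hp' => ?_
    obtain ⟨-, v, r, e, n⟩ := (mem_bipartiteBelow _).1 hp
    obtain ⟨-, v', r', e', n'⟩ := (mem_bipartiteBelow _).1 hp'
    refine eq_of h c r e r' e' ?_
    rcases lt_trichotomy p.1 p'.1 with l | l | l
    · exact absurd r' (n _ _ _ l)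
    · exact l
    · exact absurd r (n' _ _ _ l)

/-- The relation between a group and the visits of the next higher representative. -/
def R2 (d : Run) (sm : ℕ → ℤ → ℤ → Prop) (B : ℕ → Prop) (p : ℕ × ℕ × ℕ) (q : Σ _ : ℕ, ℤ) : Prop :=
  ∃ t v b' ρ', Rep d sm B p.1 t v p.2.2 ∧ End d sm p.1 t p.2.1 ∧ q.1 < t ∧
    (∀ k, q.1 ≤ k → k ≤ t → d.x k < q.2) ∧ p.1 < b' ∧ Rep d sm B b' t q.2 ρ' ∧
    ∀ b0 v0 ρ0, p.1 < b0 → Rep d sm B b0 t v0 ρ0 → b' ≤ b0

theorem case2 (h : d.OK) (c : Cells sm) (J th : ℕ) :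
    #((GR d sm B J).filter fun p => th ≤ #((Fb d sm B p.1 p.2.1).filter fun z => p.2.2 < z) ∧
      ∃ s v, Rep d sm B p.1 s v p.2.2 ∧ End d sm p.1 s p.2.1 ∧
        ∃ b' v' ρ', p.1 < b' ∧ Rep d sm B b' s v' ρ') * th ≤ d.NR := by
  rw [← card_sig, ← mul_one #((range d.m).sigma d.P)]
  refine card_mul_le_card_mul (R2 d sm B) (fun p hp => ?_) (fun q _ => ?_)
  · obtain ⟨-, k, t, v, r, e, n⟩ := mem_filter.1 hp
    obtain ⟨u, ρ', hb, ru⟩ := Nat.find_spec n
    have tm := r.lt.trans r.ltm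
    have uo : ¬ sm p.1 (d.x t) u := ru.least p.1 hb r.adm
    have ul : ∀ y, sm p.1 (d.x t) y → y < u := fun y hy => by
      by_contra hn
      exact uo (c.conv _ _ _ y hy ru.xv.le (not_lt.1 hn))
    refine k.trans (card_le_card_of_forall_subsingleton (fun z (q : Σ _ : ℕ, ℤ) =>
      ∃ v', Rep d sm B p.1 q.1 v' z ∧ End d sm p.1 q.1 p.2.1) (fun z hz => ?_) (fun q _ => ?_))
    · obtain ⟨hz1, hz2⟩ := mem_filter.1 hz
      obtain ⟨-, s', v', r', e'⟩ := mem_filter.1 hz1
      obtain ⟨a1, a2, a3⟩ := two h c r r' e e' hz2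
      have ss := same c e e' r.ins r'.ins
      have cell : ∀ k, s' ≤ k → k ≤ t → sm p.1 (d.x s') (d.x k) := fun k k1 k2 =>
        e'.mem c r'.ins k1 (k2.trans_lt e.1)
      have t1 := r'.endle c e'
      have t2 := e.1
      obtain ⟨-, f2⟩ := r'.keep h (q := t) a3 (by omega)
      have xv := r.xv
      have o := ru.on
      have a4 := ((h.tree t tm.le).lamL u v' (ru.Lv h) ru.vR (by omega)
        (ul v' (c.trans _ _ _ _ ss r'.ins))).2
      rw [f2] at a4
      have hx : ∀ k, s' ≤ k → k ≤ t → d.x k < d.rp (s' + 1) v' := fun k k1 k2 =>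
        (r'.left c (cell k k1 k2)).trans r'.xr
      have a5 := vis h a3.le tm a4 ru.vR hx ru.on (r'.om h (a4.trans_lt ru.vR))
      refine ⟨⟨s', u⟩, (mem_bipartiteAbove _).2 ⟨mem_sigma.2 ⟨mem_range.2 (a3.trans tm),
        memP.2 ⟨(hx s' le_rfl a3.le).trans_le a4, ru.vR, a5⟩⟩, t, v, Nat.find n, ρ', r, e, a3,
        fun k k1 k2 => (hx k k1 k2).trans_le a4, hb, ru, fun b0 v0 ρ0 l0 r0 =>
          Nat.find_min' n ⟨v0, ρ0, l0, r0⟩⟩, v', r', e'⟩
    · rintro z ⟨-, v1, r1, e1⟩ z' ⟨-, v2, r2, e2⟩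
      rcases lt_trichotomy z z' with l | l | l
      · exact absurd (two h c r1 r2 e1 e2 l).2.2 (lt_irrefl _)
      · exact l
      · exact absurd (two h c r2 r1 e2 e1 l).2.2 (lt_irrefl _)
  · have key : ∀ {t t' b b' ρ ρ' : ℕ}, Rep d sm B b t q.2 ρ → Rep d sm B b' t' q.2 ρ' → q.1 < t →
        (∀ k, q.1 ≤ k → k ≤ t' → d.x k < q.2) → ¬ t < t' := by
      intro t t' b b' ρ ρ' r r' l hx k
      by_cases hρ : ρ ≤ t'
      · have a1 := hx ρ (by have := r.lt; omega) hρ
        have a2 := r.vx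
        omega
      · obtain ⟨f1, f2⟩ := r.keep h k (not_le.1 hρ).le
        have b1 := (h.tree t' (r'.lt.trans r'.ltm).le).bnd _ (r'.Lv h) r'.vR
        have a1 := r'.on
        have a2 := r'.xv
        exact r.frz t' k (not_le.1 hρ) ⟨by omega, by omega⟩
    have lev : ∀ {t b b' ρ ρ' : ℕ}, Rep d sm B b t q.2 ρ → Rep d sm B b' t q.2 ρ' → b' ≤ b := by
      intro t b b' ρ ρ' r r'
      by_contra hn
      exact r'.least b (not_le.1 hn) r.adm r.ins
    refine card_le_one.2 fun p hp p' hp' => ?_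
    obtain ⟨-, t, v, b1, ρ1, r, e, l, hx, hb, ru, mn⟩ := (mem_bipartiteBelow _).1 hp
    obtain ⟨-, t', v', b2, ρ2, r', e', l', hx', hb', ru', mn'⟩ := (mem_bipartiteBelow _).1 hp'
    have tt : t = t' := by
      have a1 := key ru ru' l hx'
      have a2 := key ru' ru l' hx
      omega
    subst tt
    have b12 := lev ru ru'
    have b21 := lev ru' ru
    refine eq_of h c r e r' e' ?_
    rcases lt_trichotomy p.1 p'.1 with k | k | k
    · have := mn _ _ _ k r'
      omega
    · exact k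
    · have := mn' _ _ _ k r
      omega

theorem case3 (h : d.OK) (c : Cells sm) (J th : ℕ) :
    #((GR d sm B J).filter fun p => #((Fb d sm B p.1 p.2.1).filter fun z => z < p.2.2) < th + 1 ∨
      #((Fb d sm B p.1 p.2.1).filter fun z => p.2.2 < z) < th) ≤
      (2 * th + 1) * #(EP d sm B J) := by
  refine card_le_mul_card_image_of_maps_to (f := fun p : ℕ × ℕ × ℕ => (p.1, p.2.1 - 1))
    (fun p hp => ?_) _ (fun q hq => ?_)
  · obtain ⟨j1, j2, -, s, v, r, e⟩ := memGR.1 (mem_filter.1 hp).1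
    have t1 := e.1
    have i := e.mem c r.ins (q := p.2.1 - 1) (by omega) (by omega)
    have e1 : p.2.1 - 1 + 1 = p.2.1 := by omega
    have hx := (h.step s (r.lt.trans r.ltm)).mem
    simp only [EP, mem_filter, mem_product, mem_range, e1]
    exact ⟨⟨j1, by omega⟩, r.adm, j2, fun k => e.2.2 (c.trans _ _ _ _ i k), d.x s, v, hx.1, r.xv,
      r.vR, c.symm _ _ _ i, c.trans _ _ _ _ (c.symm _ _ _ i) r.ins⟩
  · have a1 := rank_le (Fb d sm B q.1 (q.2 + 1)) _ (th + 1) (below_inj _)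
    have a2 := rank_le (Fb d sm B q.1 (q.2 + 1)) _ th (above_inj _)
    refine le_trans ?_ ((card_union_le _ _).trans (by omega : _ ≤ 2 * th + 1)) (b := #(
      (Fb d sm B q.1 (q.2 + 1)).filter (fun a => #((Fb d sm B q.1 (q.2 + 1)).filter
        fun z => z < a) < th + 1) ∪ (Fb d sm B q.1 (q.2 + 1)).filter fun a =>
          #((Fb d sm B q.1 (q.2 + 1)).filter fun z => a < z) < th))
    refine card_le_card_of_injOn (fun p => p.2.2) (fun p hp => ?_) (fun p hp p' hp' k => ?_)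
    · obtain ⟨hp1, hp2⟩ := mem_filter.1 hp
      obtain ⟨hp3, hp4⟩ := mem_filter.1 hp1
      obtain ⟨-, -, j3, s, v, r, e⟩ := memGR.1 hp3
      have t1 := e.1
      have e1 : p.2.1 - 1 + 1 = p.2.1 := by omega
      subst hp2
      simp only [e1, coe_union, coe_filter, Set.mem_union, Set.mem_ofPred_eq]
      have m : p.2.2 ∈ Fb d sm B p.1 p.2.1 := mem_filter.2 ⟨mem_range.2 j3, s, v, r, e⟩
      rcases hp4 with k | k
      · exact Or.inl ⟨m, k⟩
      · exact Or.inr ⟨m, k⟩
    · obtain ⟨hp1, hp2⟩ := mem_filter.1 hp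
      obtain ⟨hp1', hp2'⟩ := mem_filter.1 hp'
      obtain ⟨-, -, -, s, v, -, e⟩ := memGR.1 (mem_filter.1 hp1).1
      obtain ⟨-, -, -, s', v', -, e'⟩ := memGR.1 (mem_filter.1 hp1').1
      have t1 := e.1
      have t2 := e'.1
      have k1 := hp2.trans hp2'.symm
      simp only [Prod.mk.injEq] at k1
      exact Prod.ext k1.1 (Prod.ext (by omega) k)

/-- The number of groups. -/
theorem groups (h : d.OK) (c : Cells sm) (J th : ℕ) :
    th * #(GR d sm B J) ≤ 2 * d.NR + th * (2 * th + 1) * #(EP d sm B J) := by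
  have a1 := case1 (B := B) h c J th
  have a2 := case2 (B := B) h c J th
  have a3 := Nat.mul_le_mul_left th (case3 (B := B) h c J th)
  rw [mul_comm] at a1 a2
  rw [← mul_assoc] at a3
  refine le_trans ?_ ((add_le_add (add_le_add a1 a2) a3).trans (by omega))
  rw [← mul_add, ← mul_add]
  refine Nat.mul_le_mul_left _ (le_trans (card_le_card fun p hp => ?_)
    ((card_union_le _ _).trans (Nat.add_le_add_right (card_union_le _ _) _)))
  simp only [mem_union, mem_filter]
  obtain ⟨-, -, -, s, v, r, e⟩ := memGR.1 hp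
  by_cases k1 : #((Fb d sm B p.1 p.2.1).filter fun z => z < p.2.2) < th + 1
  · exact Or.inr ⟨hp, Or.inl k1⟩
  by_cases k2 : #((Fb d sm B p.1 p.2.1).filter fun z => p.2.2 < z) < th
  · exact Or.inr ⟨hp, Or.inr k2⟩
  by_cases k3 : ∃ b' v' ρ', p.1 < b' ∧ Rep d sm B b' s v' ρ'
  · exact Or.inl (Or.inr ⟨hp, not_lt.1 k2, s, v, r, e, k3⟩)
  · exact Or.inl (Or.inl ⟨hp, not_lt.1 k1, s, v, r, e, fun b' v' ρ' l r' => k3 ⟨b', v', ρ', l, r'⟩⟩)

end Pool.Agent.P.MP_119182_lc.LW.G2
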