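import Pool.Agent.P.MP_119182_lc.LW.IfaceW
import Pool.Agent.P.MP_119182_lc.LW.G2

/-! Step G2. -/

set_option autoImplicit false

namespace Pool.Agent.P.MP_119182_lc.LW.W

open Finset
open scoped Classical
open NU (Run mr)
open LP (on up low ON)
open _root_.Pool.Agent.P.MP_119182_lc.LT (lw mate frz clr fst hd vis seg len TK Dat Sy)

namespace G2x

theorem mm (a : ℤ) : mr (mr a) = a := by
  unfold mr
  omega

theorem keep {d : Run} (h : d.OK) {t T : ℕ} {y : ℤ} (h1 : t ≤ T) (h2 : T ≤ d.m) (y1 : d.L < y)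
    (y2 : y < d.R) (h3 : frz d t T y) : d.lp T y = d.lp t y ∧ d.rp T y = d.rp t y := by
  induction T, h1 using Nat.le_induction with
  | base => exact ⟨rfl, rfl⟩
  | succ T h1 ih =>
    obtain ⟨e1, e2⟩ := ih (by omega) fun T' a b => h3 T' a (by omega)
    obtain ⟨h4, h5⟩ := h3 T h1 (by omega)
    have h6 := (h.step T (by omega)).off y y1 y2 h4.symm fun k => h5 ⟨y1, y2, h4.symm, k⟩
    exact ⟨h6.1.trans e1, h6.2.trans e2⟩

theorem tele (N : ℕ) (X : ℕ → ℕ) (h : ∀ i, 2 * (i + 1) ^ 2 * X i ≤ N) (B : ℕ) :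
    (B + 1) * ∑ i ∈ range B, X i ≤ B * N := by
  induction B with
  | zero => simp
  | succ B ih =>
    rw [sum_range_succ]
    refine Nat.le_of_mul_le_mul_left (c := B + 1) ?_ (by omega)
    have k := h B
    have k2 := Nat.mul_le_mul_left (B + 2) ih
    nlinarith [Nat.zero_le (X B), Nat.zero_le (B * X B), Nat.zero_le (B * B * X B)]

theorem arith {a th G N E q : ℕ} (h1 : 2 * q * a ≤ th) (h2 : th * G ≤ N + th * E) :
    2 * q * (a * G - a * E) ≤ N := by
  rw [← Nat.mul_sub, ← mul_assoc]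
  refine (Nat.mul_le_mul_right _ h1).trans ?_
  rw [Nat.mul_sub]
  omega

end G2x

open G2x in
theorem p_G2 (hLS : S_LS) (hBLK : S_BLK) (hEE : S_EE) (_hNX : S_NX) (hEMIR : NU.S_EMIR) :
    S_G2 := by
  intro d lev H h K σ B Y c th g h1 h2 h3 h4
  obtain ⟨l1, -, l3, l4, l5, -⟩ := hLS lev
  have hm := (hEMIR d).2 h
  have C : G2.Cells fun b x y => ls lev (mr x) (mr y) ≤ b :=
    ⟨fun b x y k => by rwa [l1], fun b x y z k k' => (l3 _ (mr y) _).trans (max_le k k'),
      fun b x y z k a a' => by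
        rw [l1, l4 (mr z) (mr y) (mr x) (by unfold mr; omega) (by unfold mr; omega)] at k
        rw [l1]
        exact (le_max_right _ _).trans k⟩
  have key : ∀ i, #(Y i) ≤ g i * #(G2.GR d.mir (fun b x y => ls lev (mr x) (mr y) ≤ b)
      (fun b => 2 ^ i ∣ b + σ) (H + 1)) := by
    intro i
    refine card_le_mul_card_image_of_maps_to
      (f := fun p => (bk d lev i σ p, ee d lev (bk d lev i σ p) p.1 + 1, nx d p))
      (fun p hp => ?_) _ (fun q _ => ?_)
    · obtain ⟨⟨f1, f2, f3, f4, f5, f6⟩, f7, f8, f9⟩ := h2 i p hp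
      have f10 := h3 i p hp
      obtain ⟨b1, b2, -, b4⟩ := hBLK i σ (an d lev p.1 p.2)
      change 2 ^ i ∣ bk d lev i σ p + σ at b2
      change ∀ b, _ → _ → bk d lev i σ p ≤ b at b4
      generalize bk d lev i σ p = b at *
      generalize nx d p = ρ at *
      obtain ⟨s, v⟩ := p
      dsimp only at *
      unfold an at f8 b4
      obtain ⟨⟨e1, -⟩, e2, -, e4⟩ := hEE d lev H h b s (by omega)
      have e5 : ee d lev b s < ρ := by
        by_contra hn
        have := (e2 ρ f1.le (not_lt.1 hn)).1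
        omega
      have e6 := (mem_filter.1 (e4 v f7 f8 f10)).2.2
      have e7 := (e2 _ e1 le_rfl).1
      have e8 := l3 (d.x (ee d lev b s)) (d.x s) (d.x (ee d lev b s + 1))
      rw [l1 _ (d.x s)] at e8
      dsimp only at e6
      obtain ⟨v1, v2, -, -, v5⟩ := f3
      have xv : d.x ρ < v := by
        have := f5.2.2.1
        omega
      have kp := (keep h (t := s + 1) f1 f2.le v1 v2 f4).1
      have o := f5.2.2.2.1
      have e9 := l3 (d.x s) v (d.x ρ)
      refine G2.memGR.2 ?_
      dsimp only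
      refine ⟨by omega, show _ < d.m by omega, f2, s, mr v,
        ⟨f1, f2, ?_, ?_, ?_, ?_, ?_, ?_, b2, ?_, ?_, ?_⟩, by omega, fun q q1 q2 => ?_, ?_⟩
      · simp only [Run.mir, mr]
        omega
      · simp only [Run.mir, mr]
        omega
      · simp only [Run.mir, mm]
        unfold mr
        omega
      · intro q q1 q2
        obtain ⟨k1, k2⟩ := keep h (t := s + 1) (T := q) q1 (by omega) v1 v2
          fun T a a' => f4 T a (by omega)
        obtain ⟨k3, k4⟩ := f4 q q1 q2
        simp only [Run.mir, mm]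
        unfold mr
        exact fun k => k4 ⟨v1, v2, k3.symm, by omega, by omega⟩
      · simp only [Run.mir, mr]
        omega
      · simp only [Run.mir, mm]
        unfold mr
        omega
      · simpa only [Run.mir, mm] using f8
      · intro b0 k1 k2
        simp only [Run.mir, mm]
        intro k3
        have := b4 b0 k3 k2
        omega
      · simp only [Run.mir, mm]
        omega
      · simpa only [Run.mir, mm] using (e2 q q1.le (by omega)).1
      · simp only [Run.mir, mm]
        omega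
    · refine le_trans (card_le_card fun p hp => ?_) (h4 i (q.1, q.2.1 - 1) q.2.2)
      obtain ⟨k1, k2⟩ := mem_filter.1 hp
      subst k2
      exact mem_filter.2 ⟨k1, rfl, rfl⟩
  have ep : ∀ i, #(G2.EP d.mir (fun b x y => ls lev (mr x) (mr y) ≤ b)
      (fun b => 2 ^ i ∣ b + σ) (H + 1)) ≤ #((EP d lev H).filter fun p => 2 ^ i ∣ p.1 + σ) := by
    intro i
    refine card_le_card fun p hp => ?_
    simp only [G2.EP, mem_filter] at hp
    obtain ⟨k1, k2, -, k4, y, z, -, yz, -, k5, k6⟩ := hp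
    simp only [Run.mir, mm] at k4 k5 k6
    refine mem_filter.2 ⟨mem_filter.2 ⟨k1, ?_, Or.inr (not_le.1 k4)⟩, k2⟩
    have k7 : ∀ a, a ≠ d.x p.2 → ls lev (d.x p.2) a ≤ p.1 → lw0 lev (d.x p.2) ≤ p.1 + 1 := by
      intro a a1 a2
      unfold lw0
      rcases lt_or_gt_of_ne a1 with k | k
      · have := l5 a (d.x p.2) (d.x p.2) k le_rfl
        rw [l1] at this
        omega
      · have := l5 (d.x p.2) a (d.x p.2 + 1) (by omega) (by omega)
        omega
    by_cases k : mr y = d.x p.2
    · exact k7 (mr z) (by unfold mr at *; omega) k6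
    · exact k7 (mr y) k k5
  let E : ℕ → ℕ := fun i => (2 * th i + 1) * #((EP d lev H).filter fun p => 2 ^ i ∣ p.1 + σ)
  let G : ℕ → ℕ := fun i => #(G2.GR d.mir (fun b x y => ls lev (mr x) (mr y) ≤ b)
      (fun b => 2 ^ i ∣ b + σ) (H + 1))
  let X : ℕ → ℕ := fun i => K * c i * g i * G i - K * c i * g i * E i
  have hX : ∀ i, 2 * (i + 1) ^ 2 * X i ≤ d.mir.NR := by
    intro i
    have a1 : th i * G i ≤ 2 * d.mir.NR + th i * E i := by
      refine (G2.groups hm C (H + 1) (th i)).trans (Nat.add_le_add_left ?_ _)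
      rw [mul_assoc]
      exact Nat.mul_le_mul_left _ (Nat.mul_le_mul_left _ (ep i))
    have a2 := arith (q := 2 * (i + 1) ^ 2) (a := K * c i * g i)
      (le_trans (le_of_eq (by ring)) (h1 i)) a1
    rw [mul_assoc] at a2
    exact Nat.le_of_mul_le_mul_left a2 (by omega)
  have hS : ∑ i ∈ range B, X i ≤ d.mir.NR :=
    Nat.le_of_mul_le_mul_left ((tele _ X hX B).trans (Nat.mul_le_mul_right _ (Nat.le_succ B)))
      (Nat.succ_pos B)
  refine le_trans ?_ (Nat.add_le_add_right hS _)
  rw [mul_sum, mul_sum, ← sum_add_distrib]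
  refine sum_le_sum fun i _ => ?_
  have a1 : K * (c i * #(Y i)) ≤ K * c i * g i * G i := by
    rw [mul_assoc, mul_assoc]
    exact Nat.mul_le_mul_left _ (Nat.mul_le_mul_left _ (key i))
  have a2 : K * (c i * ((2 * th i + 1) * g i *
      #((EP d lev H).filter fun p => 2 ^ i ∣ p.1 + σ))) = K * c i * g i * E i := by
    simp only [E]
    ring
  rw [a2]
  simp only [X]
  omega

end Pool.Agent.P.MP_119182_lc.LW.W
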