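import Pool.Agent.P.MP_119182_lc.LW.IfaceW

/-! Step LS. -/

set_option autoImplicit false

namespace Pool.Agent.P.MP_119182_lc.LW.W

open Finset
open scoped Classical
open NU (Run mr)
open LP (on up low ON)
open _root_.Pool.Agent.P.MP_119182_lc.LT (lw mate frz clr fst hd vis seg len TK Dat Sy)

namespace LSx

lemma ls_le (lev : ℤ → ℕ) {a b : ℤ} (h : a ≤ b) : ls lev a b = lv lev a b := by
  rw [ls, min_eq_left h, max_eq_right h]

lemma split (lev : ℤ → ℕ) {a b c : ℤ} (h1 : a ≤ b) (h2 : b ≤ c) :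
    lv lev a c = max (lv lev a b) (lv lev b c) := by
  rw [lv, lv, lv, ← Ioc_union_Ioc_eq_Ioc h1 h2, sup_union]

lemma le_lv (lev : ℤ → ℕ) {a b g : ℤ} (h1 : a < g) (h2 : g ≤ b) : lev g ≤ lv lev a b :=
  le_sup (f := lev) (mem_Ioc.2 ⟨h1, h2⟩)

lemma lv_le (lev : ℤ → ℕ) {a b : ℤ} {n : ℕ} (h : ∀ g, a < g → g ≤ b → lev g ≤ n) :
    lv lev a b ≤ n :=
  Finset.sup_le fun g hg => h g (mem_Ioc.1 hg).1 (mem_Ioc.1 hg).2

lemma ex (lev : ℤ → ℕ) {a b : ℤ} (h : a < b) : ∃ g, a < g ∧ g ≤ b ∧ lv lev a b = lev g := by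
  obtain ⟨g, hg, e⟩ := exists_mem_eq_sup (Ioc a b) ⟨b, mem_Ioc.2 ⟨h, le_rfl⟩⟩ lev
  exact ⟨g, (mem_Ioc.1 hg).1, (mem_Ioc.1 hg).2, e⟩

end LSx

open LSx in
theorem p_LS :
    S_LS := by
  intro lev
  refine ⟨fun a b => by rw [ls, ls, min_comm, max_comm], fun a => by simp [ls, lv], ?_, ?_, ?_, ?_⟩
  · intro a b c
    refine lv_le lev fun g h1 h2 => ?_
    by_cases h : min a b < g ∧ g ≤ max a b
    · exact (le_lv lev h.1 h.2).trans (le_max_left _ _)
    · exact (le_lv lev (a := min b c) (b := max b c) (by omega) (by omega)).trans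
        (le_max_right _ _)
  · intro a b c h1 h2
    rw [ls_le lev h1, ls_le lev h2, ls_le lev (h1.trans h2), split lev h1 h2]
  · intro a b g h1 h2
    rw [ls_le lev (by omega)]
    exact le_lv lev h1 h2
  · intro L R H hL
    refine ⟨fun a b => lv_le lev fun g _ _ => hL.le g, ?_, ?_, ?_⟩
    · intro a b c h0 h1 h2 h3 e
      rw [ls_le lev h1.le, ls_le lev h2.le] at e
      obtain ⟨g, g1, g2, g3⟩ := ex lev h1
      obtain ⟨k, k1, k2, k3⟩ := ex lev h2
      obtain ⟨z, z1, z2, z3⟩ := hL.uniq g k (by omega) (by omega) (by omega) (by omega)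
      by_cases hz : z ≤ b
      · have := le_lv lev (a := a) (b := b) (g := z) (by omega) hz
        omega
      · have := le_lv lev (a := b) (b := c) (g := z) (by omega) (by omega)
        omega
    · intro a b h0 h1 h2
      rw [ls_le lev (by omega), ls_le lev h2.le, split lev h1 h2.le]
      refine max_eq_right (lv_le lev fun g g1 g2 => ?_)
      exact (hL.top g (by omega) (by omega)).2.le.trans (le_lv lev h2 le_rfl)
    · intro a b h0 h1 h2
      rw [ls_le lev (by omega), ls_le lev h0.le, split lev h0.le h1]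
      refine max_eq_left (lv_le lev fun g g1 g2 => ?_)
      exact (hL.top g (by omega) (by omega)).1.le.trans (le_lv lev (by omega) (by omega))

end Pool.Agent.P.MP_119182_lc.LW.W
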