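import Pool.Agent.P.MP_119182_lc.LW.IfaceW

/-! Step NX. -/

set_option autoImplicit false

namespace Pool.Agent.P.MP_119182_lc.LW.W

open Finset
open scoped Classical
open NU (Run mr)
open LP (on up low ON)
open _root_.Pool.Agent.P.MP_119182_lc.LT (lw mate frz clr fst hd vis seg len TK Dat Sy)

theorem p_NX :
    S_NX := by
  intro d s v ρ h
  obtain ⟨h1, -, -, h4, h5, -⟩ := h
  have hmem : ρ ∈ {r | (s, v).1 < r ∧ on d r (s, v).2} := ⟨h1, h5⟩
  apply le_antisymm
  · exact Nat.sInf_le hmem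
  · have hin : nx d (s, v) ∈ {r | (s, v).1 < r ∧ on d r (s, v).2} :=
      Nat.sInf_mem ⟨ρ, hmem⟩
    by_contra hlt
    exact (h4 (nx d (s, v)) hin.1 (not_le.mp hlt)).2 hin.2

end Pool.Agent.P.MP_119182_lc.LW.W
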