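import Pool.Agent.P.MP_119182_lc.LW.IfaceW

/-! Step ORG. -/

set_option autoImplicit false

namespace Pool.Agent.P.MP_119182_lc.LW.W

open Finset
open scoped Classical
open NU (Run mr)
open LP (on up low ON)
open _root_.Pool.Agent.P.MP_119182_lc.LT (lw mate frz clr fst hd vis seg len TK Dat Sy)

namespace ORGx

/-- The cap of `y` at time `r` is carried from a birth. -/
def Rn (d : Run) (lev : ℤ → ℕ) (cR : ℕ → ℤ → ℕ) (w : Dat) (r : ℕ) (y : ℤ) (c : ℕ) : Prop :=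
  ∃ s v ρ, ρ ≤ r ∧ flip d s v ρ ∧ v < d.x s ∧ hd d ρ v r = y ∧ c = an d lev s v + 1 ∧
    ∀ q, ρ ≤ q → q < r → (d.x q ≠ hd d ρ v q ∧ (on d q (hd d ρ v q) → d.x q < hd d ρ v q)) ∧
      ¬ LT.lo d w q (hd d ρ v q)

/-- The invariant. -/
def Iv (d : Run) (lev : ℤ → ℕ) (cR : ℕ → ℤ → ℕ) (w : Dat) (H r : ℕ) (y : ℤ) : Prop :=
  cR r y = H + 1 ∨
    (∃ s, s < r ∧ on d s y ∧ y < d.x s ∧ frz d (s + 1) r y ∧ cR r y = an d lev s y + 1) ∨
    Rn d lev cR w r y (cR r y)

theorem hd_self (d : Run) (s : ℕ) (v : ℤ) : ∀ r, r ≤ s → hd d s v r = v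
  | 0, _ => rfl
  | r + 1, h => by
    have h1 := hd_self d s v r (by omega)
    have h2 : ¬ (s ≤ r ∧ up d r (hd d s v r)) := fun hh => by omega
    rw [LT.hd, if_neg h2, h1]

theorem seen {d : Run} {lev : ℤ → ℕ} {cR : ℕ → ℤ → ℕ} {w : Dat} {H r : ℕ} {y : ℤ}
    (h : Iv d lev cR w H r y) (hm : r < d.m) (ho : on d r y) (hx : d.x r < y) :
    cR r y = H + 1 ∨ Rn d lev cR w r y (cR r y) := by
  rcases h with h | ⟨s, hs, h1, h2, h3, h4⟩ | h
  · exact Or.inl h
  · refine Or.inr ⟨s, y, r, le_rfl, ⟨hs, hm, h1, h3, ho, ?_⟩, h2, hd_self d r y r le_rfl, h4, ?_⟩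
    · constructor <;> intro h <;> omega
    · intro q h5 h6
      omega
  · exact Or.inr h

theorem ext {d : Run} {lev : ℤ → ℕ} {cR : ℕ → ℤ → ℕ} {w : Dat} {r : ℕ} {y z : ℤ} {c : ℕ}
    (h : Rn d lev cR w r y c) (h1 : d.x r ≠ y) (h2 : on d r y → d.x r < y)
    (h3 : ¬ LT.lo d w r y) (h4 : up d r y → lw d r y = z) (h5 : ¬ up d r y → y = z) :
    Rn d lev cR w (r + 1) z c := by
  obtain ⟨s, v, ρ, a1, a2, a3, a4, a5, a6⟩ := h
  refine ⟨s, v, ρ, by omega, a2, a3, ?_, a5, ?_⟩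
  · rw [LT.hd, a4]
    by_cases hu : up d r y
    · rw [if_pos ⟨a1, hu⟩]
      exact h4 hu
    · rw [if_neg fun hh => hu hh.2]
      exact h5 hu
  · intro q q1 q2
    rcases Nat.lt_succ_iff_lt_or_eq.mp q2 with q3 | q3
    · exact a6 q q1 q3
    · subst q3
      rw [a4]
      exact ⟨⟨h1, h2⟩, h3⟩

theorem step (hMATE : LT.S_MATE) (hPASS : LT.S_PASS) {d : Run} {lev : ℤ → ℕ}
    {cL cR : ℕ → ℤ → ℕ} {w : Dat} {H : ℕ} (A : Al d lev cL cR w H) {r : ℕ} (hm : r < d.m)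
    (ih : ∀ y, Iv d lev cR w H r y) (y : ℤ) : Iv d lev cR w H (r + 1) y := by
  have M := hMATE d A.cp.ok r
  by_cases hx : y = d.x r
  · exact Or.inl (by rw [hx]; exact (A.cp.acc r hm).2)
  by_cases ho : on d r y
  · rcases lt_or_gt_of_ne hx with hl | hl
    · refine Or.inr (Or.inl ⟨r, Nat.lt_succ_self r, ho, hl, ?_, (A.cp.left r hm y ho hl).1⟩)
      intro T t1 t2
      omega
    · have e := (A.cp.right r hm y ho hl).2
      by_cases hu : up d r y
      · rw [if_pos hu] at e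
        exact Or.inl e
      rw [if_neg hu] at e
      unfold inh at e
      by_cases hlo : lo d lev r y
      · rw [if_pos hlo] at e
        obtain ⟨u, hlu⟩ := hlo.1.resolve_left hu
        obtain ⟨m1, m2, -, -, -, m6, m7, -⟩ := M.2.1 y u hlu
        have hyu : y < u := (m7 hl).1
        have hn : ¬ LT.lo d w r u :=
          ((hPASS d w A.sy r hm y ho hl).2.1 u hlu).mp ((A.lo r y).mpr hlo)
        rw [m2] at e
        unfold cp at e
        rw [if_pos (by omega)] at e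
        rcases seen (ih u) hm m6 (by omega) with h | h
        · exact Or.inl (e.trans h)
        · refine Or.inr (Or.inr ?_)
          rw [e]
          exact ext h (by omega) (fun _ => by omega) hn (fun _ => m1) (fun hh => absurd hlu.1 hh)
      · rw [if_neg hlo] at e
        unfold cp at e
        rw [if_pos hl] at e
        rcases seen (ih y) hm ho hl with h | h
        · exact Or.inl (e.trans h)
        · refine Or.inr (Or.inr ?_)
          rw [e]
          exact ext h (by omega) (fun _ => hl) (fun hh => hlo ((A.lo r y).mp hh))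
            (fun hh => absurd hh hu) (fun _ => rfl)
  · have e := (A.cp.off r hm y hx ho).2
    rcases ih y with h | ⟨s, hs, h1, h2, h3, h4⟩ | h
    · exact Or.inl (e.trans h)
    · refine Or.inr (Or.inl ⟨s, by omega, h1, h2, ?_, e.trans h4⟩)
      intro T t1 t2
      rcases Nat.lt_succ_iff_lt_or_eq.mp t2 with t3 | t3
      · exact h3 T t1 t3
      · subst t3
        exact ⟨fun hh => hx hh.symm, ho⟩
    · refine Or.inr (Or.inr ?_)
      rw [e]
      refine ext h (fun hh => hx hh.symm) (fun hh => absurd hh ho) ?_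
        (fun hh => absurd hh.2.1 ho) (fun _ => rfl)
      rintro (⟨hu, -⟩ | ⟨u, hlu, -⟩)
      · exact ho hu.2.1
      · exact ho (M.2.1 y u hlu).2.2.2.1

theorem inv (hMATE : LT.S_MATE) (hPASS : LT.S_PASS) {d : Run} {lev : ℤ → ℕ}
    {cL cR : ℕ → ℤ → ℕ} {w : Dat} {H : ℕ} (A : Al d lev cL cR w H) :
    ∀ r, r ≤ d.m → ∀ y, Iv d lev cR w H r y
  | 0, _, y => Or.inl (A.cp.zero y).2
  | r + 1, h, y => step hMATE hPASS A (by omega) (inv hMATE hPASS A r (by omega)) y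

end ORGx

theorem p_ORG (hLS : S_LS) (hMATE : LT.S_MATE) (_hKEEP : LT.S_KEEP) (_hHD : LT.S_HD)
    (hPASS : LT.S_PASS) : S_ORG := by
  intro d lev cL cR w H A t y hr hx
  have M := hMATE d A.cp.ok t
  have hmo : t < d.m ∧ on d t y := by
    rcases hr.1.1 with hu | ⟨u, hlu⟩
    · exact ⟨hu.1, hu.2.1⟩
    · exact ⟨(M.2.1 y u hlu).2.2.1, (M.2.1 y u hlu).2.2.2.1⟩
  obtain ⟨hm, ho⟩ := hmo
  rcases ORGx.seen (ORGx.inv hMATE hPASS A t hm.le y) hm ho hx with h | h
  · exfalso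
    have h1 := hr.2
    have h2 : tg d lev cL cR t y ≤ al d lev t y := min_le_right _ _
    have h3 : al d lev t y ≤ H := ((hLS lev).2.2.2.2.2 _ _ _ A.cp.lvl).1 _ _
    unfold cp at h1
    rw [if_pos hx] at h1
    omega
  · obtain ⟨s, v, ρ, a1, a2, a3, a4, a5, a6⟩ := h
    refine ⟨s, v, ρ, a2, a3, ⟨a1, hm, a2.2.2.2.2.1, ?_, fun q q1 q2 => (a6 q q1 q2).2, ?_⟩,
      a4, hr, a5⟩
    · intro q q1 q2
      rcases lt_or_eq_of_le q2 with q3 | q3
      · exact (a6 q q1 q3).1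
      · subst q3
        rw [a4]
        exact ⟨by omega, fun _ => hx⟩
    · rw [a4]
      exact (A.lo t y).mpr hr.1

end Pool.Agent.P.MP_119182_lc.LW.W
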