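import Pool.Agent.P.MP_119182_lc.LW.IfaceP

/-! Step PBR. -/

set_option autoImplicit false

namespace Pool.Agent.P.MP_119182_lc.LW.W

open Finset
open scoped Classical
open NU (Run mr)
open LP (on up low ON)
open LT (lw mate frz clr fst hd vis)

lemma pbr_on (d : Run) (t : ℕ) (y : ℤ) : on d t y ↔ LU.tch d t y ∧ y ≠ d.x t := by
  unfold LP.on LU.tch LU.key
  tauto

lemma pbr_up (d : Run) (hd' : d.OK) (t : ℕ) (ht : t < d.m) (y : ℤ) :
    up d t y ↔ LU.up d t y := by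
  unfold LP.up LU.up
  rw [pbr_on]
  constructor
  · rintro ⟨_, ⟨h1, h2⟩, h3, h4⟩
    refine ⟨h1, ?_⟩
    rcases lt_or_gt_of_ne h2 with h | h
    · exact Or.inr ⟨h, h4⟩
    · exact Or.inl ⟨h, h3⟩
  · rintro ⟨h1, h2⟩
    have hb := (hd'.tree (t + 1) ht).bnd y h1.1.1 h1.1.2
    rcases h2 with ⟨h, h3⟩ | ⟨h, h3⟩
    · exact ⟨ht, ⟨h1, by omega⟩, h3, by omega⟩
    · exact ⟨ht, ⟨h1, by omega⟩, by omega, h3⟩

lemma pbr_stay (d : Run) (hd' : d.OK) (y : ℤ) (hy : LU.key d y) (s : ℕ) :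
    ∀ q, s ≤ q → q ≤ d.m →
      (∀ r, s ≤ r → r < q → d.lp r y = d.lp s y → d.rp r y = d.rp s y → ¬ LU.tch d r y) →
      d.lp q y = d.lp s y ∧ d.rp q y = d.rp s y := by
  intro q hq
  induction q, hq using Nat.le_induction with
  | base => intro _ _; exact ⟨rfl, rfl⟩
  | succ q hq ih =>
    intro hm h
    obtain ⟨e1, e2⟩ := ih (by omega) fun r r1 r2 => h r r1 (by omega)
    have := (LU.a_LINK d hd' q (by omega)).2.2.1 y hy (h q hq (by omega) e1 e2)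
    exact ⟨this.1.trans e1, this.2.1.trans e2⟩

theorem p_PBR :
    S_PBR := by
  intro d hd' t ht y
  have hL := LU.a_LINK d hd' t ht
  have hlw : ∀ z, lw d t z = LU.low d t z := fun z => rfl
  have hm1 : ∀ z, LU.up d t z → mate d t z = LU.low d t z := by
    intro z hz
    unfold LT.mate
    rw [if_pos ((pbr_up d hd' t ht z).2 hz), hlw]
  have hm2 : ∀ z, ¬ LU.up d t z → mate d t z = LU.par d t z := by
    intro z hz
    unfold LT.mate LU.par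
    rw [if_neg fun h => hz ((pbr_up d hd' t ht z).1 h)]
  refine ⟨pbr_on d t y, pbr_up d hd' t ht y, hlw y, ⟨?_, ?_⟩, ?_, ?_, ?_⟩
  · rintro ⟨u, hu, hc⟩
    have hu' := (pbr_up d hd' t ht u).1 hu
    obtain ⟨_, _, _, h4, _, h6⟩ := hL.1 u hu'
    have hb := (hd'.tree (t + 1) ht).bnd u hu'.1.1.1 hu'.1.1.2
    have e : LU.low d t u = y := by
      rcases hc with ⟨c1, c2⟩ | ⟨c1, c2⟩ <;> rcases h6 with h6 | h6 <;> omega
    rwa [e] at h4
  · rintro ⟨hu, e⟩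
    obtain ⟨_, _, _, _, _, h6⟩ := hL.1 _ hu
    refine ⟨LU.par d t y, (pbr_up d hd' t ht _).2 hu, ?_⟩
    rw [e] at h6
    rcases h6 with h6 | h6
    · exact Or.inl ⟨h6.1, h6.2.2.2.2.2.1⟩
    · exact Or.inr ⟨h6.1, h6.2.2.2.2.2.1⟩
  · intro hu
    obtain ⟨_, h2, h3, _⟩ := hL.1 y hu
    exact ⟨hm1 y hu, (hm2 _ h2).trans h3⟩
  · rintro ⟨hu, e⟩
    have h2 := (hL.1 _ hu).2.1
    rw [e] at h2
    exact hm2 y h2
  · intro ρ h1 h2 hy
    constructor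
    · rintro ⟨⟨n1, _, n3, n4, n5⟩, hne⟩
      have st : ∀ q, t + 1 ≤ q → q ≤ ρ →
          d.lp q y = d.lp (t + 1) y ∧ d.rp q y = d.rp (t + 1) y := by
        intro q q1 q2
        refine pbr_stay d hd' y hy (t + 1) q q1 (by omega) fun r r1 r2 e1 e2 hr => ?_
        exact n5 r r1 (by omega) ⟨e1 ▸ hr.2.1, e2 ▸ hr.2.2⟩
      refine ⟨fun T T1 T2 => ?_, (pbr_on d ρ y).2 ⟨⟨hy, ?_, ?_⟩, fun h => hne h.symm⟩⟩
      · have e := st T T1 T2.le
        have nt : ¬ LU.tch d T y := fun hr => n5 T T1 T2 ⟨e.1 ▸ hr.2.1, e.2 ▸ hr.2.2⟩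
        refine ⟨fun h => nt ?_, fun h => nt ((pbr_on d T y).1 h).1⟩
        rw [← h]
        exact (LU.a_LINK d hd' T (by omega)).2.2.2.1.1
      · rw [(st ρ n1 le_rfl).1]; exact n3
      · rw [(st ρ n1 le_rfl).2]; exact n4
    · rintro ⟨hf, ho⟩
      have nt : ∀ r, t + 1 ≤ r → r < ρ → ¬ LU.tch d r y := fun r r1 r2 hr =>
        (hf r r1 r2).2 ((pbr_on d r y).2 ⟨hr, fun h => (hf r r1 r2).1 h.symm⟩)
      have st : ∀ q, t + 1 ≤ q → q ≤ ρ →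
          d.lp q y = d.lp (t + 1) y ∧ d.rp q y = d.rp (t + 1) y := fun q q1 q2 =>
        pbr_stay d hd' y hy (t + 1) q q1 (by omega) fun r r1 r2 _ _ => nt r r1 (by omega)
      obtain ⟨o1, o2⟩ := (pbr_on d ρ y).1 ho
      refine ⟨⟨h1, h2, ?_, ?_, fun q q1 q2 hq => ?_⟩, fun h => o2 h.symm⟩
      · rw [← (st ρ h1 le_rfl).1]; exact o1.2.1
      · rw [← (st ρ h1 le_rfl).2]; exact o1.2.2
      · have e := st q q1 q2.le
        exact nt q q1 q2 ⟨hy, e.1 ▸ hq.1, e.2 ▸ hq.2⟩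

end Pool.Agent.P.MP_119182_lc.LW.W
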