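import Pool.Agent.P.MP_119182_lc.LW.IfaceP

/-! Step PCAP. -/

set_option autoImplicit false

namespace Pool.Agent.P.MP_119182_lc.LW.W

open Finset
open scoped Classical
open NU (Run mr)
open LP (on up low ON)
open LT (lw mate frz clr fst hd vis)

theorem pcap_one (hPLV : S_PLV) (hPBR : S_PBR) (d : Run) (lev : ℤ → ℕ) (cL cR : ℕ → ℤ → ℕ)
    (H : ℕ) (h : Cp d lev cL cR H) :
    ∀ s ≤ d.m, ∀ y, LU.key d y →
      lv lev (d.lp s y) y < cL s y ∧ lv lev y (d.rp s y) < cR s y := by
  obtain ⟨l1, l2, l3, l4⟩ := hPLV
  have hH := (l4 _ _ _ _ h.lvl).1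
  intro s
  induction s with
  | zero =>
    intro _ y _
    rw [(h.zero y).1, (h.zero y).2]
    exact ⟨Nat.lt_succ_of_le (hH _ _), Nat.lt_succ_of_le (hH _ _)⟩
  | succ s ih =>
    intro hs y hy
    have hs' : s < d.m := hs
    replace ih := ih hs'.le
    obtain ⟨k1, k2, k3, -, k5⟩ := LU.a_LINK d h.ok s hs'
    have bd := (h.ok.tree s hs'.le).bnd
    by_cases hx : y = d.x s
    · subst hx
      rw [(h.acc s hs').1, (h.acc s hs').2]
      exact ⟨Nat.lt_succ_of_le (hH _ _), Nat.lt_succ_of_le (hH _ _)⟩
    obtain ⟨b1, b2, -, b4, -, b6, -⟩ := hPBR d h.ok s hs' y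
    by_cases ho : on d s y
    swap
    · have ht : ¬ LU.tch d s y := fun ht => ho (b1.2 ⟨ht, hx⟩)
      obtain ⟨e1, e2, -⟩ := k3 y hy ht
      rw [e1, e2, (h.off s hs' y hx ho).1, (h.off s hs' y hx ho).2]
      exact ih y hy
    have ht := (b1.1 ho).1
    rcases lt_or_gt_of_ne hx with hlt | hlt
    · -- left side
      obtain ⟨c1, c2⟩ := h.left s hs' y ho hlt
      refine ⟨?_, ?_⟩
      · rw [c2]
        split_ifs with hu
        · exact Nat.lt_succ_of_le (hH _ _)
        by_cases hi : LU.isl d s y
        · have hp : LU.par d s y = d.lp s y := by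
            unfold LU.par; rw [if_neg (not_lt.2 hlt.le)]
          have hm := b6 hi
          obtain ⟨i1, i2⟩ := hi
          rw [hp] at i1 i2 hm
          obtain ⟨-, -, -, -, -, hc⟩ := k1 _ i1
          rw [i2] at hc
          have hku : LU.key d (d.lp s y) := i1.1.1
          have bu := bd _ hku.1 hku.2
          rcases hc with hc | hc
          · omega
          obtain ⟨-, u1, -, -, u2, -⟩ := hc
          have f1 : lam d lev s y = lv lev (d.lp s y) y := by
            unfold lam far; rw [if_neg (not_lt.2 hlt.le)]; exact (l1 _ _ _ u1.le).2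
          have f2 : lam d lev s (d.lp s y) = lv lev (d.lp s (d.lp s y)) (d.lp s y) := by
            unfold lam far; rw [if_neg (by omega)]; exact (l1 _ _ _ bu.2.1.le).2
          rw [u2, l2 lev _ (d.lp s y) y bu.2.1.le u1.le]
          unfold inh
          split_ifs with hl
          · have := hl.2
            rw [hm, f1, f2] at this
            rw [hm, max_eq_left this.le]
            unfold cp
            rw [if_neg (by omega)]
            exact (ih _ hku).1
          · have : ¬ lam d lev s y < lam d lev s (mate d s y) := fun hh =>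
              hl ⟨Or.inr (b4.2 ⟨by rw [hp]; exact i1, by rw [hp]; exact i2⟩), hh⟩
            rw [hm, f1, f2] at this
            rw [max_eq_right (not_lt.1 this)]
            unfold cp
            rw [if_neg (by omega)]
            exact (ih _ hy).1
        · have hl : ¬ lo d lev s y := fun hl => hl.1.elim hu fun hh => hi (b4.1 hh)
          rw [((k2 y ht (fun hh => hu (b2.2 hh)) hi).2 hlt).2]
          unfold inh cp
          rw [if_neg hl, if_neg (by omega)]
          exact (ih _ hy).1
      · rw [c1]
        unfold an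
        rw [(l1 _ _ _ hlt.le).2]
        exact Nat.lt_succ_of_le (l3 _ _ _ _ _ le_rfl ((k5 y hy).2 hlt))
    · -- right side
      obtain ⟨c1, c2⟩ := h.right s hs' y ho hlt
      refine ⟨?_, ?_⟩
      · rw [c1]
        unfold an
        rw [(l1 _ _ _ hlt.le).1]
        exact Nat.lt_succ_of_le (l3 _ _ _ _ _ ((k5 y hy).1 hlt) le_rfl)
      · rw [c2]
        split_ifs with hu
        · exact Nat.lt_succ_of_le (hH _ _)
        by_cases hi : LU.isl d s y
        · have hp : LU.par d s y = d.rp s y := by
            unfold LU.par; rw [if_pos hlt]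
          have hm := b6 hi
          obtain ⟨i1, i2⟩ := hi
          rw [hp] at i1 i2 hm
          obtain ⟨-, -, -, -, -, hc⟩ := k1 _ i1
          rw [i2] at hc
          have hku : LU.key d (d.rp s y) := i1.1.1
          have bu := bd _ hku.1 hku.2
          rcases hc with hc | hc
          swap
          · omega
          obtain ⟨-, u1, -, -, u2, -⟩ := hc
          have f1 : lam d lev s y = lv lev y (d.rp s y) := by
            unfold lam far; rw [if_pos hlt]; exact (l1 _ _ _ u1.le).1
          have f2 : lam d lev s (d.rp s y) = lv lev (d.rp s y) (d.rp s (d.rp s y)) := by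
            unfold lam far; rw [if_pos (by omega)]; exact (l1 _ _ _ bu.2.2.1.le).1
          rw [u2, l2 lev y (d.rp s y) _ u1.le bu.2.2.1.le]
          unfold inh
          split_ifs with hl
          · have := hl.2
            rw [hm, f1, f2] at this
            rw [hm, max_eq_right this.le]
            unfold cp
            rw [if_pos (by omega)]
            exact (ih _ hku).2
          · have : ¬ lam d lev s y < lam d lev s (mate d s y) := fun hh =>
              hl ⟨Or.inr (b4.2 ⟨by rw [hp]; exact i1, by rw [hp]; exact i2⟩), hh⟩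
            rw [hm, f1, f2] at this
            rw [max_eq_left (not_lt.1 this)]
            unfold cp
            rw [if_pos hlt]
            exact (ih _ hy).2
        · have hl : ¬ lo d lev s y := fun hl => hl.1.elim hu fun hh => hi (b4.1 hh)
          rw [((k2 y ht (fun hh => hu (b2.2 hh)) hi).1 hlt).2]
          unfold inh cp
          rw [if_neg hl, if_pos hlt]
          exact (ih _ hy).2

theorem p_PCAP (hPLV : S_PLV) (hPBR : S_PBR) :
    S_PCAP := by
  intro d lev cL cR H h
  refine ⟨pcap_one hPLV hPBR d lev cL cR H h, ?_⟩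
  intro s t y hy ⟨n1, n2, n3, n4, n5⟩
  have bd := (h.ok.tree s (by omega)).bnd y hy.1 hy.2
  have key : ∀ q, s ≤ q → q ≤ t → d.lp q y = d.lp s y ∧ d.rp q y = d.rp s y ∧
      cL q y = cL s y ∧ cR q y = cR s y := by
    intro q hq
    induction q, hq using Nat.le_induction with
    | base => intro _; exact ⟨rfl, rfl, rfl, rfl⟩
    | succ q hq ih =>
      intro hqt
      obtain ⟨e1, e2, e3, e4⟩ := ih (by omega)
      have hqm : q < d.m := by omega
      have hn := n5 q hq (by omega)
      have ht : ¬ LU.tch d q y := fun ht => hn ⟨e1 ▸ ht.2.1, e2 ▸ ht.2.2⟩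
      have hx : y ≠ d.x q := fun hx => hn ⟨hx ▸ bd.2.1, hx ▸ bd.2.2.1⟩
      have ho : ¬ on d q y := fun ho => ht ((hPBR d h.ok q hqm y).1.1 ho).1
      obtain ⟨g1, g2, -⟩ := (LU.a_LINK d h.ok q hqm).2.2.1 y hy ht
      obtain ⟨g3, g4⟩ := h.off q hqm y hx ho
      exact ⟨g1.trans e1, g2.trans e2, g3.trans e3, g4.trans e4⟩
  obtain ⟨e1, e2, e3, e4⟩ := key t n1 le_rfl
  exact ⟨e1, e2, e3, e4, hy, e1 ▸ n3, e2 ▸ n4⟩

end Pool.Agent.P.MP_119182_lc.LW.W
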