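import Pool.Agent.P.MP_119182_lc.LW.IfaceP

/-! Step PENT. -/

set_option autoImplicit false

namespace Pool.Agent.P.MP_119182_lc.LW.W

open Finset
open scoped Classical
open NU (Run mr)
open LP (on up low ON)
open LT (lw mate frz clr fst hd vis)

theorem p_PENT (hPLV : S_PLV) (_hPBR : S_PBR) (hPCAP : S_PCAP) (hPPV : S_PPV) :
    S_PENT := by
  intro d lev cL cR H hC s hs u t hup hN hhi hlo
  obtain ⟨l1, l2, l3, -⟩ := hPLV
  obtain ⟨v1, v2, -⟩ := hPPV d lev cL cR H hC (s + 1) u
  obtain ⟨-, -, -, -, v5, -⟩ := hPPV d lev cL cR H hC t u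
  have hk : LU.key d u := hup.1.1
  by_cases hx : d.x t = u
  · refine v2 fun t' ht' => ?_
    have := (LU.a_HOLD d hC.ok).2.2.2.2.2.2 (s + 1) t t' _ _ hN ht'
    rw [← this]; exact hx
  rw [v1 t hN hx]
  suffices h : al d lev t u ≤ lam d lev t u by
    have h2 : bs d lev cL cR t u = 0 := by
      unfold bs
      omega
    omega
  obtain ⟨e1, e2, -, -, htc⟩ := (hPCAP d lev cL cR H hC).2 (s + 1) t u hk hN
  obtain ⟨-, -, -, -, -, hcase⟩ := (LU.a_LINK d hC.ok s hs).1 u hup
  have hT := hC.ok.tree s hs.le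
  obtain ⟨-, b1, b2, -⟩ := hT.bnd u hk.1 hk.2
  obtain ⟨-, t1, t2⟩ := htc
  generalize LU.low d s u = p at hhi hlo hcase
  rcases hcase with ⟨a1, a2, a3, -, -, a6, a7⟩ | ⟨a1, a2, a3, -, -, a6, a7⟩
  · have hxu : d.x s < u := lt_trans a1 a2
    rw [e1, a6] at t1
    rw [e2, a7] at t2
    have q1 : lam d lev s u = lv lev u (d.rp s u) := by
      unfold lam far
      rw [if_pos hxu, (l1 lev _ _ b2.le).1]
    have q2 : lam d lev s p = lv lev p u := by
      unfold lam far
      rw [if_pos a1, a3, (l1 lev _ _ a2.le).1]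
    have q3 := l2 lev p u (d.rp s u) a2.le b2.le
    rw [q1, q2] at hhi hlo
    by_cases hc : lv lev u (d.rp s u) < lv lev p u
    · have h1 : u ≤ d.x t := (hhi hc).1 hxu
      have h2 : ¬ d.x t < u := not_lt.mpr h1
      unfold al lam far
      rw [if_neg h2, e1, a6, (l1 lev _ _ t1.le).2, (l1 lev _ _ a2.le).2]
      have := l3 lev p (d.x t) p (d.rp s u) le_rfl t2.le
      omega
    · have h1 : d.x t ≤ u := (hlo hc).1 hxu
      have h2 : d.x t < u := lt_of_le_of_ne h1 hx
      unfold al lam far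
      rw [if_pos h2, e2, a7, (l1 lev _ _ t2.le).1, (l1 lev _ _ b2.le).1]
      have := l3 lev (d.x t) (d.rp s u) p (d.rp s u) t1.le le_rfl
      omega
  · have hxu : u < d.x s := lt_trans a2 a1
    rw [e1, a7] at t1
    rw [e2, a6] at t2
    have q1 : lam d lev s u = lv lev (d.lp s u) u := by
      unfold lam far
      rw [if_neg (not_lt.mpr hxu.le), (l1 lev _ _ b1.le).2]
    have q2 : lam d lev s p = lv lev u p := by
      unfold lam far
      rw [if_neg (not_lt.mpr a1.le), a3, (l1 lev _ _ a2.le).2]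
    have q3 := l2 lev (d.lp s u) u p b1.le a2.le
    rw [q1, q2] at hhi hlo
    by_cases hc : lv lev (d.lp s u) u < lv lev u p
    · have h1 : d.x t ≤ u := (hhi hc).2 hxu
      have h2 : d.x t < u := lt_of_le_of_ne h1 hx
      unfold al lam far
      rw [if_pos h2, e2, a6, (l1 lev _ _ t2.le).1, (l1 lev _ _ a2.le).1]
      have := l3 lev (d.x t) p (d.lp s u) p t1.le le_rfl
      omega
    · have h1 : u ≤ d.x t := (hlo hc).2 hxu
      have h2 : ¬ d.x t < u := not_lt.mpr h1
      unfold al lam far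
      rw [if_neg h2, e1, a7, (l1 lev _ _ t1.le).2, (l1 lev _ _ b1.le).2]
      have := l3 lev (d.lp s u) (d.x t) (d.lp s u) p le_rfl t2.le
      omega

end Pool.Agent.P.MP_119182_lc.LW.W
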