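import Pool.Agent.P.MP_119182_lc.LW.IfaceP

/-! Step PLOW. -/

set_option autoImplicit false

namespace Pool.Agent.P.MP_119182_lc.LW.W

open Finset
open scoped Classical
open NU (Run mr)
open LP (on up low ON)
open LT (lw mate frz clr fst hd vis)

/-- The levels and caps of the two nodes of a link. -/
theorem plow_facts (hPLV : S_PLV) (hPBR : S_PBR) (hPCAP : S_PCAP) (d : Run) (lev : ℤ → ℕ)
    (cL cR : ℕ → ℤ → ℕ) (H : ℕ) (hC : Cp d lev cL cR H) (s : ℕ) (hs : s < d.m) (u p : ℤ)
    (hu : LU.up d s u) (hp : p = LU.low d s u) :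
    lam d lev s p ≠ lam d lev s u ∧
    al d lev s p = max (an d lev s p) (lam d lev s p) ∧
    al d lev s u = max (an d lev s p) (max (lam d lev s p) (lam d lev s u)) ∧
    lam d lev s p < cp d cL cR s p ∧ lam d lev s u < cp d cL cR s u ∧
    ∀ t, LU.Nx d (s + 1) p t → ¬ LU.beyond d s p t →
      lam d lev t p = max (lam d lev s p) (lam d lev s u) ∧
      al d lev t p ≤ max (an d lev s p) (max (lam d lev s p) (lam d lev s u)) ∧
      cp d cL cR t p = inh d lev cL cR s p := by
  obtain ⟨hls, hmx, hmo, hL⟩ := hPLV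
  obtain ⟨-, hne, -⟩ := hL d.L d.R lev H hC.lvl
  obtain ⟨hc1, hc2⟩ := hPCAP d lev cL cR H hC
  obtain ⟨tp, nup, -, -, -, hcase⟩ := (LU.a_LINK d hC.ok s hs).1 u hu
  rw [← hp] at tp nup hcase
  have ku : LU.key d u := hu.1.1
  have kp : LU.key d p := tp.1
  obtain ⟨bu1, bu2, bu3, bu4⟩ := (hC.ok.tree s hs.le).bnd u ku.1 ku.2
  have cu := hc1 s hs.le u ku
  have cq := hc1 s hs.le p kp
  have nup' : ¬ up d s p := fun h => nup ((hPBR d hC.ok s hs p).2.1.1 h)
  rcases hcase with ⟨h1, h2, h3, h4, h5, -, -⟩ | ⟨h1, h2, h3, h4, h5, -, -⟩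
  · have xu : d.x s < u := h1.trans h2
    have onp : on d s p := (hPBR d hC.ok s hs p).1.2 ⟨tp, h1.ne'⟩
    have e1 : lam d lev s p = lv lev p u := by
      simp only [lam, far, if_pos h1, h3]; exact (hls lev p u h2.le).1
    have e2 : lam d lev s u = lv lev u (d.rp s u) := by
      simp only [lam, far, if_pos xu]; exact (hls lev u _ bu3.le).1
    have e3 : an d lev s p = lv lev (d.x s) p := (hls lev _ p h1.le).1
    have e4 : lv lev (d.x s) (d.rp s u) =
        max (lv lev (d.x s) p) (max (lv lev p u) (lv lev u (d.rp s u))) := by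
      rw [hmx lev (d.x s) p _ h1.le (h2.trans bu3).le, hmx lev p u _ h2.le bu3.le]
    rw [e1, e2, e3]
    refine ⟨hne p u _ kp.1.le h2 bu3 bu4, ?_, ?_, ?_, ?_, ?_⟩
    · simp only [al, far, if_pos h1, h3]
      rw [(hls lev _ u xu.le).1, hmx lev (d.x s) p u h1.le h2.le]
    · simp only [al, far, if_pos xu]
      rw [(hls lev _ _ (xu.trans bu3).le).1, e4]
    · simp only [cp, if_pos h1]; rw [← h3]; exact cq.2
    · simp only [cp, if_pos xu]; exact cu.2
    · intro t ht hb
      have xt : d.x t < p := by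
        by_contra hx
        exact hb ⟨fun _ => not_lt.1 hx, fun h => absurd h h1.not_gt⟩
      obtain ⟨-, g2, -, g4, -⟩ := hc2 (s + 1) t p kp ht
      have xs : d.x s < d.x t := by rw [← h4]; exact ht.2.2.1
      refine ⟨?_, ?_, ?_⟩
      · simp only [lam, far, if_pos xt, g2, h5]
        rw [(hls lev p _ (h2.trans bu3).le).1, hmx lev p u _ h2.le bu3.le]
      · simp only [al, far, if_pos xt, g2, h5]
        rw [(hls lev _ _ (xt.trans (h2.trans bu3)).le).1, ← e4]
        exact hmo lev _ _ _ _ xs.le le_rfl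
      · simp only [cp, if_pos xt, g4]
        rw [(hC.right s hs p onp h1).2, if_neg nup']
  · have xu : u < d.x s := h2.trans h1
    have onp : on d s p := (hPBR d hC.ok s hs p).1.2 ⟨tp, h1.ne⟩
    have e1 : lam d lev s p = lv lev u p := by
      simp only [lam, far, if_neg h1.not_gt, h3]; exact (hls lev u p h2.le).2
    have e2 : lam d lev s u = lv lev (d.lp s u) u := by
      simp only [lam, far, if_neg xu.not_gt]; exact (hls lev _ u bu2.le).2
    have e3 : an d lev s p = lv lev p (d.x s) := (hls lev p _ h1.le).2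
    have e4 : lv lev (d.lp s u) (d.x s) =
        max (lv lev p (d.x s)) (max (lv lev u p) (lv lev (d.lp s u) u)) := by
      rw [hmx lev (d.lp s u) p _ (bu2.trans h2).le h1.le, hmx lev _ u p bu2.le h2.le]
      omega
    rw [e1, e2, e3]
    refine ⟨(hne _ u p bu1 bu2 h2 kp.2.le).symm, ?_, ?_, ?_, ?_, ?_⟩
    · simp only [al, far, if_neg h1.not_gt, h3]
      rw [(hls lev u _ xu.le).2, hmx lev u p _ h2.le h1.le, max_comm]
    · simp only [al, far, if_neg xu.not_gt]
      rw [(hls lev _ _ (bu2.trans xu).le).2, e4]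
    · simp only [cp, if_neg h1.not_gt]; rw [← h3]; exact cq.1
    · simp only [cp, if_neg xu.not_gt]; exact cu.1
    · intro t ht hb
      have xt : p < d.x t := by
        by_contra hx
        exact hb ⟨fun h => absurd h h1.not_gt, fun _ => not_lt.1 hx⟩
      obtain ⟨g1, -, g3, -, -⟩ := hc2 (s + 1) t p kp ht
      have xs : d.x t < d.x s := by rw [← h4]; exact ht.2.2.2.1
      refine ⟨?_, ?_, ?_⟩
      · simp only [lam, far, if_neg xt.not_gt, g1, h5]
        rw [(hls lev _ p (bu2.trans h2).le).2, hmx lev _ u p bu2.le h2.le, max_comm]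
      · simp only [al, far, if_neg xt.not_gt, g1, h5]
        rw [(hls lev _ _ ((bu2.trans h2).trans xt).le).2, ← e4]
        exact hmo lev _ _ _ _ le_rfl xs.le
      · simp only [cp, if_neg xt.not_gt, g3]
        rw [(hC.left s hs p onp h1).2, if_neg nup']

theorem p_PLOW (hPLV : S_PLV) (hPBR : S_PBR) (hPCAP : S_PCAP) (hPPV : S_PPV) (hPSP : S_PSP) :
    S_PLOW := by
  intro d lev cL cR H hC s hs u hu
  obtain ⟨p, hp⟩ : ∃ p, p = LU.low d s u := ⟨_, rfl⟩
  obtain ⟨f1, f2, f3, f4, f5, f6⟩ := plow_facts hPLV hPBR hPCAP d lev cL cR H hC s hs u p hu hp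
  obtain ⟨tp, nup, -, isp, -, -⟩ := (LU.a_LINK d hC.ok s hs).1 u hu
  obtain ⟨-, bup, blw, -, bm, -⟩ := hPBR d hC.ok s hs u
  obtain ⟨m1, m2⟩ := bm hu
  obtain ⟨pi1, pi2⟩ := ((LU.a_PI d (val d lev cL cR) hC.ok).1 s hs).1 u hu
  have hlo : lo d lev s p ↔ lam d lev s p < lam d lev s u := by
    unfold lo
    rw [hp, m2]
    exact ⟨fun h => h.2, fun h => ⟨Or.inr ((hPBR d hC.ok s hs _).2.2.2.1.2 isp), h⟩⟩
  have hpv : ∀ k, (∀ t, LU.Nx d (s + 1) p t → ¬ LU.beyond d s p t → bs d lev cL cR t p ≤ k) →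
      pv d lev cL cR (s + 1) p ≤ k := by
    intro k hk
    by_cases h : ∀ t, LU.Nx d (s + 1) p t → d.x t = p
    · rw [(hPPV d lev cL cR H hC (s + 1) p).2.1 h]; exact Nat.zero_le _
    · push Not at h
      obtain ⟨t, ht, hx⟩ := h
      by_cases hb : LU.beyond d s p t
      · rw [(hPSP d lev cL cR H hC s hs).2.1 p t (hp ▸ tp) (hp ▸ nup) ht hb]
        exact Nat.zero_le _
      · rw [(hPPV d lev cL cR H hC (s + 1) p).1 t ht hx]
        exact (hPPV d lev cL cR H hC t p).2.2.2.2.1.trans (hk t ht hb)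
  have hhot : ¬ hot d lev s u → max (lam d lev s p) (lam d lev s u) < an d lev s p := by
    intro h
    by_contra h'
    exact h ⟨bup.2 hu, by rw [blw, ← hp]; exact not_lt.1 h'⟩
  rw [← hp] at m1 m2 pi1 pi2 ⊢
  by_cases hi : lam d lev s u < lam d lev s p
  · have e : hh d lev s u = p := by unfold hh; rw [← hp, if_pos hi]
    have nlo : ¬ lo d lev s p := fun h => hi.not_gt (hlo.1 h)
    rw [e]
    refine ⟨(pi1 (by rw [hp] at hi; exact hi)).2, by unfold sh; rw [if_neg nlo], ?_, ?_⟩
    · refine hpv _ fun t ht hb => ?_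
      obtain ⟨g1, g2, g3⟩ := f6 t ht hb
      unfold inh at g3
      rw [if_neg nlo] at g3
      unfold bs
      rw [g1, g3, f2]
      omega
    · intro h
      have := hhot h
      unfold bs
      rw [f2]
      omega
  · have e : hh d lev s u = u := by unfold hh; rw [← hp, if_neg hi]
    have nlo : ¬ lo d lev s u := fun h => hi (by have := h.2; rwa [m1] at this)
    have ylo : lo d lev s p := hlo.2 (by omega)
    rw [e]
    refine ⟨(pi2 (by rw [hp] at hi; exact hi)).2, by unfold sh; rw [if_neg nlo], ?_, ?_⟩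
    · refine hpv _ fun t ht hb => ?_
      obtain ⟨g1, g2, g3⟩ := f6 t ht hb
      unfold inh at g3
      rw [if_pos ylo, m2] at g3
      unfold bs
      rw [g1, g3, f3]
      omega
    · intro h
      have := hhot h
      unfold bs
      rw [f3]
      omega

end Pool.Agent.P.MP_119182_lc.LW.W
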