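import Pool.Agent.P.MP_119182_lc.LW.IfaceP

/-! Step PLV. -/

set_option autoImplicit false

namespace Pool.Agent.P.MP_119182_lc.LW.W

open Finset
open scoped Classical
open NU (Run mr)
open LP (on up low ON)
open LT (lw mate frz clr fst hd vis)

theorem plv_le (lev : ℤ → ℕ) (a b y : ℤ) (h1 : a < y) (h2 : y ≤ b) : lev y ≤ lv lev a b := by
  unfold lv
  exact Finset.le_sup (f := lev) (mem_Ioc.2 ⟨h1, h2⟩)

theorem plv_sup (lev : ℤ → ℕ) (a b : ℤ) (k : ℕ) (h : ∀ y, a < y → y ≤ b → lev y ≤ k) :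
    lv lev a b ≤ k := by
  unfold lv
  exact Finset.sup_le fun y hy => h y (mem_Ioc.1 hy).1 (mem_Ioc.1 hy).2

theorem plv_ex (lev : ℤ → ℕ) (a b : ℤ) (h : a < b) :
    ∃ y, a < y ∧ y ≤ b ∧ lv lev a b = lev y := by
  obtain ⟨y, hy, e⟩ := Finset.exists_mem_eq_sup (Ioc a b) (nonempty_Ioc.2 h) lev
  exact ⟨y, (mem_Ioc.1 hy).1, (mem_Ioc.1 hy).2, e⟩

theorem p_PLV :
    S_PLV := by
  refine ⟨?_, ?_, ?_, ?_⟩
  · intro lev a b h
    unfold ls
    rw [min_eq_left h, max_eq_right h, min_eq_right h, max_eq_left h]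
    exact ⟨rfl, rfl⟩
  · intro lev a b c h1 h2
    unfold lv
    rw [← Finset.Ioc_union_Ioc_eq_Ioc h1 h2, Finset.sup_union]
  · intro lev a b a' b' h1 h2
    exact plv_sup lev a b _ fun y p q => plv_le lev a' b' y (by omega) (by omega)
  · intro L R lev H hl
    refine ⟨fun a b => plv_sup lev a b H fun y _ _ => hl.le y, ?_, ?_⟩
    · intro a b c h1 h2 h3 h4 e
      obtain ⟨y, p1, p2, ey⟩ := plv_ex lev a b h2
      obtain ⟨z, q1, q2, ez⟩ := plv_ex lev b c h3
      obtain ⟨w, w1, w2, hw⟩ := hl.uniq y z (by omega) (by omega) (by omega) (by omega)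
      by_cases hb : w ≤ b
      · have := plv_le lev a b w (by omega) hb
        omega
      · have := plv_le lev b c w (by omega) (by omega)
        omega
    · intro a h1 h2
      constructor
      · refine le_antisymm (plv_sup lev a R _ fun y p q => ?_) (plv_le lev a R R h2 le_rfl)
        rcases eq_or_lt_of_le q with e | e
        · rw [e]
        · exact (hl.top y (by omega) e).2.le
      · refine le_antisymm (plv_sup lev L a _ fun y p q => ?_)
          (plv_le lev L a (L + 1) (by omega) (by omega))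
        by_cases e : y = L + 1
        · rw [e]
        · exact (hl.top y (by omega) (by omega)).1.le

end Pool.Agent.P.MP_119182_lc.LW.W
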