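import Pool.Agent.P.MP_119182_lc.LW.IfaceP

/-! Step POK. -/

set_option autoImplicit false

namespace Pool.Agent.P.MP_119182_lc.LW.W

open Finset
open scoped Classical
open NU (Run mr)
open LP (on up low ON)
open LT (lw mate frz clr fst hd vis)

theorem pok_on (hPBR : S_PBR) {d : Run} (hd : d.OK) {s : ℕ} (hs : s < d.m) {u : ℤ}
    (hu : LU.up d s u) : on d s u ∧ on d s (LU.low d s u) := by
  obtain ⟨h1, _, _, _, _, h6⟩ := (LU.a_LINK d hd s hs).1 u hu
  refine ⟨(hPBR d hd s hs u).1.2 ⟨hu.1, ?_⟩, (hPBR d hd s hs _).1.2 ⟨h1, ?_⟩⟩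
  · rcases hu.2 with h | h <;> omega
  · rcases h6 with h | h <;> omega

theorem pok_v {d : Run} {lev : ℤ → ℕ} {cL cR : ℕ → ℤ → ℕ} {s : ℕ} (hs : s < d.m) {y : ℤ}
    (hy : on d s y) : (val d lev cL cR).v s y = sh d lev cL cR s y := by
  simp only [val]
  rw [if_pos ⟨hs, hy⟩]

theorem pok_v' {d : Run} {lev : ℤ → ℕ} {cL cR : ℕ → ℤ → ℕ} {s : ℕ} {y : ℤ}
    (hy : ¬ on d s y) : (val d lev cL cR).v s y = pv d lev cL cR s y := by
  simp only [val]
  rw [if_neg fun h => hy h.2]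

theorem pok_v0 {d : Run} {lev : ℤ → ℕ} {cL cR : ℕ → ℤ → ℕ} {s : ℕ} {y : ℤ} :
    (val d lev cL cR).v0 (s + 1) y = pv d lev cL cR (s + 1) y := by
  simp only [val]
  rw [if_neg (Nat.succ_ne_zero s)]

theorem pok_gap (hPBR : S_PBR) (hPLOW : S_PLOW) (hPUPP : S_PUPP) {d : Run} {lev : ℤ → ℕ}
    {cL cR : ℕ → ℤ → ℕ} {H : ℕ} (hc : Cp d lev cL cR H) {s : ℕ} (hs : s < d.m) {u : ℤ}
    (hu : LU.up d s u) :
    (val d lev cL cR).g s u ≤ (val d lev cL cR).v s (LU.pi d (val d lev cL cR) s (LU.low d s u)) ∧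
    (val d lev cL cR).v0 (s + 1) (LU.low d s u) ≤ (val d lev cL cR).g s u ∧
    (val d lev cL cR).v0 (s + 1) u + (val d lev cL cR).g s u ≤
      (val d lev cL cR).v s (LU.pi d (val d lev cL cR) s u) := by
  obtain ⟨o1, o2⟩ := pok_on hPBR hc.ok hs hu
  obtain ⟨a1, a2, a3, _⟩ := hPLOW d lev cL cR H hc s hs u hu
  have a4 := hPUPP d lev cL cR H hc s hs u hu
  have hg : (val d lev cL cR).g s u = bs d lev cL cR s (hh d lev s u) := rfl
  have o3 : on d s (hh d lev s u) := by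
    unfold hh
    split_ifs
    · exact o2
    · exact o1
  have o4 : on d s (LU.pi d (val d lev cL cR) s u) := by
    have h5 := ((LU.a_LINK d hc.ok s hs).1 u hu).2.2.2.2.1
    unfold LU.pi
    split_ifs with h1 h2
    · exact o2
    · exact absurd h2.1 h5
    · exact o1
  rw [hg, a1, pok_v hs o3, pok_v hs o4, pok_v0, pok_v0, a2]
  exact ⟨le_rfl, a3, a4⟩

theorem p_POK (hPBR : S_PBR) (hPPV : S_PPV) (hPSP : S_PSP) (hPLOW : S_PLOW) (hPUPP : S_PUPP) (hPENT : S_PENT) :
    S_POK := by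
  intro d lev cL cR H hc
  refine ⟨?_, ?_, ?_, ?_, ?_, ?_, ?_, ?_⟩
  · intro s y
    obtain ⟨_, _, _, b4, b5, b6, _⟩ := hPPV d lev cL cR H hc s y
    simp only [val]
    split_ifs with h1 h2 h2
    · exact Nat.zero_le _
    · exact Nat.zero_le _
    · rw [b4 h2.1 h2.2]; exact b5.trans b6
    · exact le_rfl
  · intro y
    simp [val]
  · intro s hs y hk ht
    rw [pok_v0, pok_v' fun h => ht ((hPBR d hc.ok s hs y).1.1 h).1]
    exact (hPPV d lev cL cR H hc s y).2.2.1 hs hk ht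
  · intro s hs
    rw [pok_v0]
    exact (hPSP d lev cL cR H hc s hs).1
  · intro s hs y hk
    by_cases ht : LU.tch d s y
    · by_cases hx : y = d.x s
      · rw [pok_v0, hx, (hPSP d lev cL cR H hc s hs).1]
        exact Nat.zero_le _
      · have ho : on d s y := (hPBR d hc.ok s hs y).1.2 ⟨ht, hx⟩
        by_cases hu : LU.up d s y
        · have := (pok_gap hPBR hPLOW hPUPP hc hs hu).2.2
          omega
        · by_cases hi : LU.isl d s y
          · obtain ⟨g1, g2, _⟩ := pok_gap hPBR hPLOW hPUPP hc hs hi.1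
            rw [hi.2] at g1 g2
            exact g2.trans g1
          · have e : LU.pi d (val d lev cL cR) s y = y := by
              unfold LU.pi
              rw [if_neg fun h => hu h.1, if_neg fun h => hi h.1]
            rw [e, pok_v0, pok_v hs ho]
            exact (hPSP d lev cL cR H hc s hs).2.2 y ho hu hi
    · obtain ⟨_, _, hu, hi⟩ := (LU.a_LINK d hc.ok s hs).2.2.1 y hk ht
      have e : LU.pi d (val d lev cL cR) s y = y := by
        unfold LU.pi
        rw [if_neg fun h => hu h.1, if_neg fun h => hi h.1]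
      rw [e, pok_v0, pok_v' fun h => ht ((hPBR d hc.ok s hs y).1.1 h).1]
      exact ((hPPV d lev cL cR H hc s y).2.2.1 hs hk ht).le
  · intro s hs u hu
    exact pok_gap hPBR hPLOW hPUPP hc hs hu
  · intro s hs y t ht hu hn hb
    rw [pok_v0]
    exact (hPSP d lev cL cR H hc s hs).2.1 y t ht hu hn hb
  · intro s hs u t hu hn h1 h2
    rw [pok_v0]
    exact hPENT d lev cL cR H hc s hs u t hu hn h1 h2

end Pool.Agent.P.MP_119182_lc.LW.W
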