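import Pool.Agent.P.MP_119182_lc.LW.IfaceP

/-! Step PPR. -/

set_option autoImplicit false

namespace Pool.Agent.P.MP_119182_lc.LW.W

open Finset
open scoped Classical
open NU (Run mr)
open LP (on up low ON)
open LT (lw mate frz clr fst hd vis)

theorem ppr_eb (d : Run) (lev : ℤ → ℕ) :
    #((LT.TK d).filter fun p => eb d lev p.1 p.2) ≤ #(EFF d lev) := by
  refine card_le_card_of_forall_subsingleton (fun p q => p.2 = q.2 ∧ flip d q.1 p.2 p.1) ?_ ?_
  · rintro ⟨t, y⟩ hp
    obtain ⟨h1, s, h2, h3⟩ := mem_filter.1 hp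
    obtain ⟨h4, h5⟩ := mem_product.1 h1
    refine ⟨(s, y), mem_filter.2 ⟨mem_product.2 ⟨mem_range.2 ?_, h5⟩, t, h2, h3⟩, rfl, h2⟩
    exact h2.1.trans h2.2.1
  · rintro ⟨s, y⟩ - ⟨t, z⟩ ⟨-, e1, h1⟩ ⟨t', z'⟩ ⟨-, e2, h2⟩
    dsimp only at e1 e2 h1 h2
    subst e1 e2
    rcases lt_trichotomy t t' with l | l | l
    · exact absurd h1.2.2.2.2.1 (h2.2.2.2.1 t h1.1 l).2
    · rw [l]
    · exact absurd h2.2.2.2.2.1 (h1.2.2.2.1 t' h2.1 l).2

theorem p_PPR (_hPLV : S_PLV) (_hPBR : S_PBR) (hPPV : S_PPV) :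
    S_PPR := by
  intro d lev cL cR H hC
  have key : ∀ p ∈ LT.TK d, Nat.size ((val d lev cL cR).v p.1 p.2 - (val d lev cL cR).v0 p.1 p.2) ^ 3
      ≤ (if p.1 = 0 then Nat.size (H + 1) ^ 3 else 0) + (if eb d lev p.1 p.2 then 1 else 0) +
        (if rz d lev cL cR p.1 p.2 ∧ d.x p.1 < p.2 then
          Nat.size (tg d lev cL cR p.1 p.2 + 1 - cp d cL cR p.1 p.2) ^ 3 else 0) +
        (if rz d lev cL cR p.1 p.2 ∧ p.2 < d.x p.1 then
          Nat.size (tg d lev cL cR p.1 p.2 + 1 - cp d cL cR p.1 p.2) ^ 3 else 0) := by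
    rintro ⟨s, y⟩ hp
    have hs : s < d.m := mem_range.1 (mem_product.1 hp).1
    obtain ⟨-, -, -, a4, -, -, a7, a8⟩ := hPPV d lev cL cR H hC s y
    dsimp only [val]
    by_cases h0 : s = 0
    · rw [if_pos h0, if_pos h0]
      refine le_trans ?_ ((Nat.le_add_right _ _).trans ((Nat.le_add_right _ _).trans
        (Nat.le_add_right _ _)))
      refine Nat.pow_le_pow_left (Nat.size_le_size ?_) 3
      split_ifs <;> omega
    rw [if_neg h0, if_neg h0]
    by_cases ho : on d s y
    swap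
    · rw [if_neg fun k => ho k.2, Nat.sub_self]
      simp
    rw [if_pos ⟨hs, ho⟩, a4 hs ho]
    have tl : tg d lev cL cR s y ≤ al d lev s y := min_le_right _ _
    by_cases hr : rz d lev cL cR s y
    · have e : Nat.size (sh d lev cL cR s y - pre d lev cL cR s y) ^ 3 ≤
          Nat.size (tg d lev cL cR s y + 1 - cp d cL cR s y) ^ 3 := by
        refine Nat.pow_le_pow_left (Nat.size_le_size ?_) 3
        have := hr.2
        rw [sh, if_pos hr.1, pre, bs]
        split_ifs <;> omega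
      rcases lt_or_gt_of_ne ho.2.2.1 with l | l
      · rw [if_pos (⟨hr, l⟩ : rz d lev cL cR s y ∧ y < d.x s)]
        omega
      · rw [if_pos (⟨hr, l⟩ : rz d lev cL cR s y ∧ d.x s < y)]
        omega
    · have e : sh d lev cL cR s y = bs d lev cL cR s y := by
        rw [sh]
        split_ifs with hl
        · have : ¬ cp d cL cR s y < tg d lev cL cR s y := fun k => hr ⟨hl, k⟩
          rw [bs]
          omega
        · rfl
      rw [e, pre]
      by_cases he : eb d lev s y
      · rw [if_pos he, if_pos he]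
        have : Nat.size (bs d lev cL cR s y - (bs d lev cL cR s y - 1)) ^ 3 ≤ Nat.size 1 ^ 3 :=
          Nat.pow_le_pow_left (Nat.size_le_size (by omega)) 3
        rw [Nat.size_one] at this
        omega
      · rw [if_neg he, Nat.sub_self]
        simp
  refine (sum_le_sum key).trans ?_
  rw [sum_add_distrib, sum_add_distrib, sum_add_distrib, WR, WL, sum_filter, sum_filter]
  refine Nat.add_le_add_right (Nat.add_le_add_right (Nat.add_le_add ?_ ?_) _) _
  · rw [← sum_filter, sum_const, smul_eq_mul]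
    refine Nat.mul_le_mul_right _ ?_
    have : ((LT.TK d).filter fun p => p.1 = 0) ⊆ {0} ×ˢ d.keys := fun p hp =>
      mem_product.2 ⟨mem_singleton.2 (mem_filter.1 hp).2, (mem_product.1 (mem_filter.1 hp).1).2⟩
    refine (card_le_card this).trans ?_
    rw [card_product, card_singleton, one_mul, Run.keys, Int.card_Ioo]
    omega
  · rw [← card_filter]
    exact ppr_eb d lev

end Pool.Agent.P.MP_119182_lc.LW.W
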