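import Pool.Agent.P.MP_119182_lc.LW.IfaceP

/-! Step PPV. -/

set_option autoImplicit false

namespace Pool.Agent.P.MP_119182_lc.LW.W

open Finset
open scoped Classical
open NU (Run mr)
open LP (on up low ON)
open LT (lw mate frz clr fst hd vis)

theorem ppv_uniq (d : Run) (s r r' : ℕ) (y : ℤ) (h : LU.Nx d s y r) (h' : LU.Nx d s y r') :
    r = r' := by
  obtain ⟨a1, -, a3, a4, a5⟩ := h
  obtain ⟨b1, -, b3, b4, b5⟩ := h'
  rcases lt_trichotomy r r' with e | e | e
  · exact (b5 r a1 e ⟨a3, a4⟩).elim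
  · exact e
  · exact (a5 r' b1 e ⟨b3, b4⟩).elim

theorem ppv_one (d : Run) (lev : ℤ → ℕ) (cL cR : ℕ → ℤ → ℕ) (s t : ℕ) (y : ℤ)
    (h : LU.Nx d s y t) (hx : d.x t ≠ y) : pv d lev cL cR s y = pre d lev cL cR t y := by
  have e : {k | ∃ t, LU.Nx d s y t ∧ d.x t ≠ y ∧ k = pre d lev cL cR t y} =
      {pre d lev cL cR t y} := by
    ext k
    simp only [Set.mem_ofPred_eq, Set.mem_singleton_iff]
    constructor
    · rintro ⟨t', a, -, c⟩
      rw [ppv_uniq d s t t' y h a]
      exact c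
    · intro c
      exact ⟨t, h, hx, c⟩
  unfold pv
  rw [e, csSup_singleton]

theorem ppv_none (d : Run) (lev : ℤ → ℕ) (cL cR : ℕ → ℤ → ℕ) (s : ℕ) (y : ℤ)
    (h : ∀ t, LU.Nx d s y t → d.x t = y) : pv d lev cL cR s y = 0 := by
  have e : {k | ∃ t, LU.Nx d s y t ∧ d.x t ≠ y ∧ k = pre d lev cL cR t y} = ∅ := by
    ext k
    simp only [Set.mem_ofPred_eq, Set.mem_empty_iff_false, iff_false]
    rintro ⟨t', a, b, -⟩
    exact b (h t' a)
  unfold pv
  rw [e]
  exact csSup_empty

theorem p_PPV (hPLV : S_PLV) (hPBR : S_PBR) (hPCAP : S_PCAP) :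
    S_PPV := by
  intro d lev cL cR H hC s y
  have hal : ∀ t z, al d lev t z ≤ H := fun t z => (hPLV.2.2.2 _ _ lev H hC.lvl).1 _ _
  have h1 : ∀ t z, pre d lev cL cR t z ≤ bs d lev cL cR t z := by
    intro t z
    unfold pre
    split_ifs <;> omega
  have h2 : ∀ t z, bs d lev cL cR t z ≤ H := by
    intro t z
    have := hal t z
    unfold bs
    omega
  refine ⟨fun t a b => ppv_one d lev cL cR s t y a b, ppv_none d lev cL cR s y,
    fun hs hk ht => ?_, fun hs ho => ?_, h1 s y, ?_, ?_, ?_⟩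
  · obtain ⟨e1, e2, -⟩ := (LU.a_LINK d hC.ok s hs).2.2.1 y hk ht
    have e : ∀ t, LU.Nx d (s + 1) y t ↔ LU.Nx d s y t := by
      intro t
      unfold LU.Nx LU.First
      rw [e1, e2]
      constructor
      · rintro ⟨a1, a2, a3, a4, a5⟩
        refine ⟨by omega, a2, a3, a4, fun q b1 b2 b3 => ?_⟩
        rcases b1.eq_or_lt with b | b
        · subst b
          exact ht ⟨hk, b3.1, b3.2⟩
        · exact a5 q b b2 b3
      · rintro ⟨a1, a2, a3, a4, a5⟩
        refine ⟨?_, a2, a3, a4, fun q b1 b2 b3 => a5 q (by omega) b2 b3⟩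
        rcases a1.eq_or_lt with b | b
        · subst b
          exact (ht ⟨hk, a3, a4⟩).elim
        · exact b
    unfold pv
    simp only [e]
  · refine ppv_one d lev cL cR s s y ⟨le_rfl, hs, ho.2.2.2.1, ho.2.2.2.2, fun q a b => ?_⟩
      ho.2.2.1.symm
    omega
  · unfold sh
    split_ifs
    · exact le_max_left _ _
    · exact le_rfl
  · have a := h2 s y
    have b := hal s y
    have c : tg d lev cL cR s y ≤ al d lev s y := min_le_right _ _
    unfold sh
    split_ifs
    · exact max_le a (by omega)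
    · exact a
  · by_cases h : ∀ t, LU.Nx d s y t → d.x t = y
    · rw [ppv_none d lev cL cR s y h]
      exact Nat.zero_le _
    · push Not at h
      obtain ⟨t, a, b⟩ := h
      rw [ppv_one d lev cL cR s t y a b]
      exact (h1 t y).trans (h2 t y)

end Pool.Agent.P.MP_119182_lc.LW.W
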