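import Pool.Agent.P.MP_119182_lc.LW.IfaceP

/-! Step PSP. -/

set_option autoImplicit false

namespace Pool.Agent.P.MP_119182_lc.LW.W

open Finset
open scoped Classical
open NU (Run mr)
open LP (on up low ON)
open LT (lw mate frz clr fst hd vis)

lemma psp_le (hPPV : S_PPV) {d : Run} {lev : ℤ → ℕ} {cL cR : ℕ → ℤ → ℕ} {H : ℕ}
    (hC : Cp d lev cL cR H) {s B : ℕ} {y : ℤ}
    (h : ∀ t, LU.Nx d s y t → d.x t ≠ y → pre d lev cL cR t y ≤ B) : pv d lev cL cR s y ≤ B := by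
  by_cases e : ∃ t, LU.Nx d s y t ∧ d.x t ≠ y
  · obtain ⟨t, h1, h2⟩ := e
    rw [(hPPV d lev cL cR H hC s y).1 t h1 h2]
    exact h t h1 h2
  · rw [(hPPV d lev cL cR H hC s y).2.1 fun t ht => by_contra fun h2 => e ⟨t, ht, h2⟩]
    exact Nat.zero_le _

lemma psp_flip {d : Run} {lev : ℤ → ℕ} {cL cR : ℕ → ℤ → ℕ} {s t : ℕ} {y : ℤ}
    (hf : flip d s y t) (h1 : lam d lev t y = an d lev s y)
    (h2 : cp d cL cR t y = an d lev s y + 1) : pre d lev cL cR t y ≤ 0 := by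
  unfold pre
  split_ifs with e
  · unfold bs
    omega
  · have : ¬ an d lev s y < al d lev t y := fun h => e ⟨s, hf, h⟩
    unfold bs
    omega

theorem p_PSP (hPLV : S_PLV) (hPBR : S_PBR) (hPCAP : S_PCAP) (hPPV : S_PPV) :
    S_PSP := by
  intro d lev cL cR H hC s hs
  obtain ⟨l1, -, l3, l4⟩ := hPLV
  obtain ⟨-, -, l5⟩ := l4 d.L d.R lev H hC.lvl
  obtain ⟨-, k2, -, ⟨k4, -, -, k5, k6⟩, -⟩ := LU.a_LINK d hC.ok s hs
  have cap := (hPCAP d lev cL cR H hC).2 (s + 1)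
  have p1 : pv d lev cL cR (s + 1) (d.x s) = 0 := by
    refine Nat.le_zero.1 (psp_le hPPV hC fun t ht hne => ?_)
    obtain ⟨c1, c2, -, -, c5⟩ := cap t _ k4.1 ht
    obtain ⟨⟨a1, a2⟩, a3, a4⟩ := c5
    rw [c1, k5] at a3
    rw [c2, k6] at a4
    refine (hPPV d lev cL cR H hC t _).2.2.2.2.1.trans ?_
    have : al d lev t (d.x s) = lam d lev t (d.x s) := by
      unfold al lam far
      split_ifs with e
      · rw [c2, k6, (l1 lev _ _ a4.le).1, (l1 lev _ _ a2.le).1, (l5 _ a3 a4).1, (l5 _ a1 a2).1]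
      · rw [c1, k5, (l1 lev _ _ a3.le).2, (l1 lev _ _ a1.le).2, (l5 _ a3 a4).2, (l5 _ a1 a2).2]
    unfold bs
    omega
  have p2 : ∀ y t, LU.tch d s y → ¬ LU.up d s y → LU.Nx d (s + 1) y t → LU.beyond d s y t →
      pv d lev cL cR (s + 1) y = 0 := by
    intro y t hy hu ht hb
    by_cases e : y = d.x s
    · rw [e]
      exact p1
    refine Nat.le_zero.1 (psp_le hPPV hC fun t' ht' hne => ?_)
    obtain rfl : t = t' := (LU.a_HOLD d hC.ok).2.2.2.2.2.2 _ _ _ _ _ ht ht'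
    obtain ⟨c1, c2, c3, c4, -⟩ := cap t _ hy.1 ht
    obtain ⟨b1, -, -, -, -, -, b7⟩ := hPBR d hC.ok s hs y
    have hon : on d s y := b1.2 ⟨hy, e⟩
    have hst : s < t := ht.1
    obtain ⟨f1, f2⟩ := (b7 t hst ht.2.1 hy.1).1 ⟨ht, hne⟩
    rcases lt_or_gt_of_ne e with h | h
    · have h' : d.x t < y := lt_of_le_of_ne (hb.2 h) hne
      have r1 : d.rp (s + 1) y = d.x s := by_contra fun r => hu ⟨hy, Or.inr ⟨h, r⟩⟩
      refine psp_flip ⟨hst, ht.2.1, hon, f1, f2, iff_of_false h.not_gt h'.not_gt⟩ ?_ ?_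
      · unfold lam an far
        rw [if_pos h', c2, r1, (l1 lev _ _ h.le).1, (l1 lev _ _ h.le).2]
      · unfold cp
        rw [if_pos h', c4, (hC.left s hs y hon h).1]
    · have h' : y < d.x t := lt_of_le_of_ne (hb.1 h) hne.symm
      have r1 : d.lp (s + 1) y = d.x s := by_contra fun r => hu ⟨hy, Or.inl ⟨h, r⟩⟩
      refine psp_flip ⟨hst, ht.2.1, hon, f1, f2, iff_of_true h h'⟩ ?_ ?_
      · unfold lam an far
        rw [if_neg h'.not_gt, c1, r1, (l1 lev _ _ h.le).1, (l1 lev _ _ h.le).2]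
      · unfold cp
        rw [if_neg h'.not_gt, c3, (hC.right s hs y hon h).1]
  refine ⟨p1, p2, fun y hon hu hi => ?_⟩
  obtain ⟨b1, b2, -, b4, -⟩ := hPBR d hC.ok s hs y
  obtain ⟨hy, e⟩ := b1.1 hon
  refine psp_le hPPV hC fun t ht hne => ?_
  by_cases hb : LU.beyond d s y t
  · rw [← (hPPV d lev cL cR H hC (s + 1) y).1 t ht hne, p2 y t hy hu ht hb]
    exact Nat.zero_le _
  refine (hPPV d lev cL cR H hC t y).2.2.2.2.1.trans
    (le_trans ?_ (hPPV d lev cL cR H hC s y).2.2.2.2.2.1)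
  obtain ⟨c1, c2, c3, c4, -⟩ := cap t _ hy.1 ht
  obtain ⟨-, -, n1, n2, -⟩ := ht
  have hup : ¬ up d s y := fun h => hu (b2.1 h)
  have hin : inh d lev cL cR s y = cp d cL cR s y :=
    if_neg fun h => h.1.elim hup fun h' => hi (b4.1 h')
  have hk := hon
  obtain ⟨-, -, -, o1, o2⟩ := hk
  have key : lam d lev t y = lam d lev s y ∧ cp d cL cR t y = cp d cL cR s y ∧
      al d lev t y ≤ al d lev s y := by
    rcases lt_or_gt_of_ne e with h | h
    · have h' : y < d.x t := by_contra fun r =>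
        hb ⟨fun r' => absurd h r'.not_gt, fun _ => not_lt.1 r⟩
      obtain ⟨r1, r2⟩ := (k2 y hy hu hi).2 h
      rw [r1] at n2
      rw [r2] at n1
      refine ⟨?_, ?_, ?_⟩
      · unfold lam far
        rw [if_neg h'.not_gt, if_neg h.not_gt, c1, r2]
      · rw [← hin]
        unfold cp
        rw [if_neg h'.not_gt, c3, (hC.left s hs y hon h).2, if_neg hup]
      · unfold al far
        rw [if_neg h'.not_gt, if_neg h.not_gt, c1, r2, (l1 lev _ _ n1.le).2, (l1 lev _ _ o1.le).2]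
        exact l3 lev _ _ _ _ le_rfl n2.le
    · have h' : d.x t < y := by_contra fun r =>
        hb ⟨fun _ => not_lt.1 r, fun r' => absurd h r'.not_gt⟩
      obtain ⟨r1, r2⟩ := (k2 y hy hu hi).1 h
      rw [r1] at n1
      rw [r2] at n2
      refine ⟨?_, ?_, ?_⟩
      · unfold lam far
        rw [if_pos h', if_pos h, c2, r2]
      · rw [← hin]
        unfold cp
        rw [if_pos h', c4, (hC.right s hs y hon h).2, if_neg hup]
      · unfold al far
        rw [if_pos h', if_pos h, c2, r2, (l1 lev _ _ n2.le).1, (l1 lev _ _ o2.le).1]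
        exact l3 lev _ _ _ _ n1.le le_rfl
  obtain ⟨e1, e2, e3⟩ := key
  unfold bs
  omega

end Pool.Agent.P.MP_119182_lc.LW.W
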