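import Pool.Agent.P.MP_119182_lc.LW.IfaceP

/-! Step PUPP. -/

set_option autoImplicit false

namespace Pool.Agent.P.MP_119182_lc.LW.W

open Finset
open scoped Classical
open NU (Run mr)
open LP (on up low ON)
open LT (lw mate frz clr fst hd vis)

theorem pupp_pre (d : Run) (lev : ℤ → ℕ) (cL cR : ℕ → ℤ → ℕ) (t : ℕ) (y : ℤ) :
    pre d lev cL cR t y ≤ min (cp d cL cR t y) (al d lev t y) - lam d lev t y ∧
    (eb d lev t y →
      pre d lev cL cR t y = min (cp d cL cR t y) (al d lev t y) - lam d lev t y - 1) := by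
  unfold pre bs
  refine ⟨?_, fun h => by rw [if_pos h]⟩
  split_ifs <;> omega

theorem pupp_hi (a b c k k' v : ℕ) (h : c < b) (h1 : b < k) (h2 : v ≤ max b c - min b c) :
    v + (min k (max a b) - b) ≤
      max (min k' (max (max a b) c) - c)
        (min (max b (min (max a b) k)) (max (max a b) c) - c) := by
  refine le_trans ?_ (le_max_right _ _)
  rw [max_eq_left h.le, min_eq_right h.le] at h2
  omega

theorem pupp_lo (a b c k k' v : ℕ) (h : b < c) (h1 : c < k) (h2 : v ≤ max b c - min b c)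
    (h3 : v ≤ max a b - b) :
    v + (min k (max (max a b) c) - c) ≤
      max (min k' (max a b) - b) (min (max c (min (max (max a b) c) k)) (max a b) - b) := by
  refine le_trans ?_ (le_max_right _ _)
  rw [max_eq_right h.le, min_eq_left h.le] at h2
  have h4 : b ≤ max a b := le_max_right _ _
  generalize max a b = A at *
  omega

theorem p_PUPP (hPLV : S_PLV) (hPBR : S_PBR) (hPCAP : S_PCAP) (hPPV : S_PPV) :
    S_PUPP := by
  intro d lev cL cR H hC s hs u hu
  have hd := hC.ok
  obtain ⟨L1, L2, L3, L4⟩ := hPLV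
  obtain ⟨-, L5, -⟩ := L4 d.L d.R lev H hC.lvl
  obtain ⟨C1, C2⟩ := hPCAP d lev cL cR H hC
  obtain ⟨K1, -, -, -, -⟩ := LU.a_LINK d hd s hs
  obtain ⟨tp, -, -, ip, -, hcase⟩ := K1 u hu
  have B := hPBR d hd s hs
  have hmu : mate d s u = LU.low d s u := ((B u).2.2.2.2.1 hu).1
  have hmp : mate d s (LU.low d s u) = u := ((B u).2.2.2.2.1 hu).2
  have hup : up d s u := (B u).2.1.2 hu
  have hlow : ∃ u', low d s (LU.low d s u) u' := (B _).2.2.2.1.2 ip
  have hon : on d s u := hup.2.1
  have ku : LU.key d u := hu.1.1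
  have kp : LU.key d (LU.low d s u) := tp.1
  have hpi := ((LU.a_PI d (val d lev cL cR) hd).1 s hs).1 u hu
  have T0 := hd.tree s hs.le
  have bu := T0.bnd u ku.1 ku.2
  have cu := C1 s hs.le u ku
  have cpp := C1 s hs.le _ kp
  have hk1 := kp.1
  have hk2 := kp.2
  have main : ∃ a b c : ℕ, lam d lev s (LU.low d s u) = b ∧ lam d lev s u = c ∧
      al d lev s (LU.low d s u) = max a b ∧ al d lev s u = max (max a b) c ∧ b ≠ c ∧
      b < cp d cL cR s (LU.low d s u) ∧ c < cp d cL cR s u ∧
      pv d lev cL cR (s + 1) u ≤ max b c - min b c ∧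
      (b < c → pv d lev cL cR (s + 1) u ≤ max a b - b) := by
    generalize LU.low d s u = p at *
    rcases hcase with ⟨e1, e2, e3, -, -, e6, e7⟩ | ⟨e1, e2, e3, -, -, e6, e7⟩
    · have hxu : d.x s < u := by omega
      have han : an d lev s u = max (lv lev (d.x s) p) (lv lev p u) := by
        rw [an, (L1 lev _ _ hxu.le).1, L2 lev _ p _ e1.le e2.le]
      have hpw := L2 lev p u (d.rp s u) e2.le bu.2.2.1.le
      refine ⟨lv lev (d.x s) p, lv lev p u, lv lev u (d.rp s u), ?_, ?_, ?_, ?_,
        L5 _ _ _ (by omega) e2 bu.2.2.1 bu.2.2.2, ?_, ?_, ?_⟩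
      · rw [lam, far, if_pos e1, e3, (L1 lev _ _ e2.le).1]
      · rw [lam, far, if_pos hxu, (L1 lev _ _ bu.2.2.1.le).1]
      · rw [al, far, if_pos e1, e3, (L1 lev _ _ hxu.le).1, L2 lev _ p _ e1.le e2.le]
      · rw [al, far, if_pos hxu, (L1 lev _ _ (by omega : d.x s ≤ d.rp s u)).1,
          L2 lev _ u _ hxu.le bu.2.2.1.le, L2 lev _ p _ e1.le e2.le]
      · rw [cp, if_pos e1, ← e3]; exact cpp.2
      · rw [cp, if_pos hxu]; exact cu.2
      by_cases hx : ∃ t, LU.Nx d (s + 1) u t ∧ d.x t ≠ u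
      · obtain ⟨t, ht, hne⟩ := hx
        rw [(hPPV d lev cL cR H hC (s + 1) u).1 t ht hne]
        obtain ⟨f1, f2, f3, f4, f5⟩ := C2 (s + 1) t u ku ht
        obtain ⟨g1, g2, g3, g4, -⟩ := id ht
        obtain ⟨P1, P2⟩ := pupp_pre d lev cL cR t u
        rcases lt_or_gt_of_ne hne with h | h
        · have i1 : lam d lev t u = lv lev u (d.rp s u) := by
            rw [lam, far, if_pos h, f2, e7, (L1 lev _ _ bu.2.2.1.le).1]
          have i2 : al d lev t u = lv lev (d.x t) (d.rp s u) := by
            rw [al, far, if_pos h, f2, e7, (L1 lev _ _ (by omega : d.x t ≤ d.rp s u)).1]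
          have i3 := L3 lev (d.x t) (d.rp s u) p (d.rp s u) (by omega) le_rfl
          constructor <;> omega
        · have i1 : lam d lev t u = lv lev p u := by
            rw [lam, far, if_neg (by omega), f1, e6, (L1 lev _ _ e2.le).2]
          have i2 : al d lev t u = lv lev p (d.x t) := by
            rw [al, far, if_neg (by omega), f1, e6, (L1 lev _ _ (by omega : p ≤ d.x t)).2]
          have i3 := L3 lev p (d.x t) p (d.rp s u) le_rfl (by omega)
          have i4 : cp d cL cR t u = an d lev s u + 1 := by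
            rw [cp, if_neg (by omega), f3, (hC.right s hs u hon hxu).1]
          have i5 := ((B u).2.2.2.2.2.2 t (by omega) g2 ku).1 ⟨ht, hne⟩
          by_cases h6 : an d lev s u < al d lev t u
          · have P3 := P2 ⟨s, ⟨by omega, g2, hon, i5.1, i5.2, by omega⟩, h6⟩
            constructor <;> omega
          · constructor <;> omega
      · rw [(hPPV d lev cL cR H hC (s + 1) u).2.1 fun t ht => by
          by_contra h; exact hx ⟨t, ht, h⟩]
        exact ⟨Nat.zero_le _, fun _ => Nat.zero_le _⟩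
    · have hxu : u < d.x s := by omega
      have han : an d lev s u = max (lv lev p (d.x s)) (lv lev u p) := by
        rw [an, (L1 lev _ _ hxu.le).2, L2 lev _ p _ e2.le e1.le, max_comm]
      have hpw := L2 lev (d.lp s u) u p bu.2.1.le e2.le
      refine ⟨lv lev p (d.x s), lv lev u p, lv lev (d.lp s u) u, ?_, ?_, ?_, ?_,
        (L5 _ _ _ bu.1 bu.2.1 e2 (by omega)).symm, ?_, ?_, ?_⟩
      · rw [lam, far, if_neg (by omega), e3, (L1 lev _ _ e2.le).2]
      · rw [lam, far, if_neg (by omega), (L1 lev _ _ bu.2.1.le).2]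
      · rw [al, far, if_neg (by omega), e3, (L1 lev _ _ hxu.le).2, L2 lev _ p _ e2.le e1.le,
          max_comm]
      · rw [al, far, if_neg (by omega), (L1 lev _ _ (by omega : d.lp s u ≤ d.x s)).2,
          L2 lev _ u _ bu.2.1.le hxu.le, L2 lev _ p _ e2.le e1.le]
        omega
      · rw [cp, if_neg (by omega), ← e3]; exact cpp.1
      · rw [cp, if_neg (by omega)]; exact cu.1
      by_cases hx : ∃ t, LU.Nx d (s + 1) u t ∧ d.x t ≠ u
      · obtain ⟨t, ht, hne⟩ := hx
        rw [(hPPV d lev cL cR H hC (s + 1) u).1 t ht hne]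
        obtain ⟨f1, f2, f3, f4, f5⟩ := C2 (s + 1) t u ku ht
        obtain ⟨g1, g2, g3, g4, -⟩ := id ht
        obtain ⟨P1, P2⟩ := pupp_pre d lev cL cR t u
        rcases lt_or_gt_of_ne hne with h | h
        · have i1 : lam d lev t u = lv lev u p := by
            rw [lam, far, if_pos h, f2, e6, (L1 lev _ _ e2.le).1]
          have i2 : al d lev t u = lv lev (d.x t) p := by
            rw [al, far, if_pos h, f2, e6, (L1 lev _ _ (by omega : d.x t ≤ p)).1]
          have i3 := L3 lev (d.x t) p (d.lp s u) p (by omega) le_rfl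
          have i4 : cp d cL cR t u = an d lev s u + 1 := by
            rw [cp, if_pos h, f4, (hC.left s hs u hon hxu).1]
          have i5 := ((B u).2.2.2.2.2.2 t (by omega) g2 ku).1 ⟨ht, hne⟩
          by_cases h6 : an d lev s u < al d lev t u
          · have P3 := P2 ⟨s, ⟨by omega, g2, hon, i5.1, i5.2, by omega⟩, h6⟩
            constructor <;> omega
          · constructor <;> omega
        · have i1 : lam d lev t u = lv lev (d.lp s u) u := by
            rw [lam, far, if_neg (by omega), f1, e7, (L1 lev _ _ bu.2.1.le).2]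
          have i2 : al d lev t u = lv lev (d.lp s u) (d.x t) := by
            rw [al, far, if_neg (by omega), f1, e7, (L1 lev _ _ (by omega : d.lp s u ≤ d.x t)).2]
          have i3 := L3 lev (d.lp s u) (d.x t) (d.lp s u) p le_rfl (by omega)
          constructor <;> omega
      · rw [(hPPV d lev cL cR H hC (s + 1) u).2.1 fun t ht => by
          by_contra h; exact hx ⟨t, ht, h⟩]
        exact ⟨Nat.zero_le _, fun _ => Nat.zero_le _⟩
  obtain ⟨a, b, c, m1, m2, m3, m4, m5, m6, m7, m8, m9⟩ := main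
  by_cases hhi : lam d lev s u < lam d lev s (LU.low d s u)
  · have hlo : lo d lev s u := ⟨Or.inl hup, by rw [hmu]; exact hhi⟩
    rw [(hpi.1 hhi).1, hh, if_pos hhi, sh, if_pos hlo, tg, hmu, bs, bs, m1, m2, m3, m4]
    exact pupp_hi a b c _ _ _ (by rw [← m1, ← m2]; exact hhi) m6 m8
  · have hbc : b < c := lt_of_le_of_ne (by rw [← m1, ← m2]; exact not_lt.1 hhi) m5
    have hlo : lo d lev s (LU.low d s u) := ⟨Or.inr hlow, by rw [hmp, m1, m2]; exact hbc⟩
    rw [(hpi.2 hhi).1, hh, if_neg hhi, sh, if_pos hlo, tg, hmp, bs, bs, m1, m2, m3, m4]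
    exact pupp_lo a b c _ _ _ hbc m7 m8 (m9 hbc)

end Pool.Agent.P.MP_119182_lc.LW.W
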