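import Pool.Agent.P.MP_119182_lc.LW.IfaceW

/-! Step RUN. -/

set_option autoImplicit false

namespace Pool.Agent.P.MP_119182_lc.LW.W

open Finset
open scoped Classical
open NU (Run mr)
open LP (on up low ON)
open _root_.Pool.Agent.P.MP_119182_lc.LT (lw mate frz clr fst hd vis seg len TK Dat Sy)

theorem run_frz {d : Run} {lev : ℤ → ℕ} {cL cR : ℕ → ℤ → ℕ} {H : ℕ} (h : Cp d lev cL cR H)
    (a : ℕ) (z : ℤ) : ∀ c, a ≤ c → c ≤ d.m → frz d a c z → cR c z = cR a z := by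
  intro c hc
  induction c, hc using Nat.le_induction with
  | base => intro _ _; rfl
  | succ c hc ih =>
    intro h1 h2
    have k := h2 c hc (by omega)
    rw [(h.off c (by omega) z k.1.symm k.2).2]
    exact ih (by omega) fun T t1 t2 => h2 T t1 (by omega)

theorem run_far {d : Run} {lev : ℤ → ℕ} {t : ℕ} {y : ℤ} (h : d.x t < y) :
    lam d lev t y = ls lev y (d.rp t y) ∧ al d lev t y = ls lev (d.x t) (d.rp t y) := by
  unfold lam al far
  rw [if_pos h]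
  exact ⟨rfl, rfl⟩

theorem run_step (hLS : S_LS) (hMATE : LT.S_MATE) (hPASS : LT.S_PASS) {d : Run} {lev : ℤ → ℕ}
    {cL cR : ℕ → ℤ → ℕ} {w : Dat} {H : ℕ} (hA : Al d lev cL cR w H) {b : ℕ} {h z : ℤ}
    (hb : b < d.m) (ho : on d b h) (hx : d.x b < h) (hl : ¬ LT.lo d w b h)
    (hz : z = hd d b h (b + 1)) :
    cR (b + 1) z = cR b h ∧ ls lev z (d.rp (b + 1) z) = lam d lev b h ∧ z ≤ h ∧
      d.rp b h ≤ d.rp (b + 1) z ∧ ls lev (d.x b) (d.rp (b + 1) z) ≤ al d lev b h := by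
  obtain ⟨-, -, -, s4, -, s6⟩ := hLS lev
  have hd' := hA.cp.ok
  obtain ⟨m1, m2, m3⟩ := hMATE d hd' b
  obtain ⟨p1, p2, p3, p4, -, -, -, p8⟩ := (hPASS d w hA.sy b hb h ho hx).1 hl z hz
  rw [hA.lo] at hl
  have c := (hA.cp.right b hb z p1 p3).2
  rw [if_neg p2] at c
  have bd := (hd'.tree b hb.le).bnd h ho.1 ho.2.1
  obtain ⟨f1, f2⟩ := run_far (lev := lev) hx
  have ch : cp d cL cR b h = cR b h := if_pos hx
  rcases p8 with e | e
  · subst e
    have c2 : cR (b + 1) z = cR b z := by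
      rw [c, inh, if_neg hl, ch]
    by_cases hu : ∃ u, low d b z u
    · obtain ⟨u, hu⟩ := hu
      obtain ⟨-, q2, -, -, -, q6, q7, -⟩ := m2 z u hu
      obtain ⟨r1, r2, -, -, r5, -⟩ := q7 hx
      have bu := (hd'.tree b hb.le).bnd u q6.1 q6.2.1
      obtain ⟨g1, -⟩ := run_far (lev := lev) (hx.trans r1)
      have le : lam d lev b u ≤ lam d lev b z := by
        by_contra h3
        exact hl ⟨Or.inr ⟨u, hu⟩, by rw [q2]; omega⟩
      have e1 := s4 z u (d.rp b u) r1.le (by omega)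
      have e2 := s4 (d.x b) u (d.rp b u) (by omega) (by omega)
      have e3 := s4 (d.x b) z u (by omega) (by omega)
      rw [r2] at f1 f2
      rw [r5, r2]
      exact ⟨c2, by omega, le_rfl, by omega, by omega⟩
    · have k := ((m3 z hb ho p2 fun u h3 => hu ⟨u, h3⟩).1 hx).2
      rw [k]
      exact ⟨c2, f1.symm, le_rfl, le_rfl, f2.ge⟩
  · obtain ⟨q1, q2, -, -, -, -, q7, -⟩ := m2 z h e
    obtain ⟨r1, r2, -, -, r5, -⟩ := q7 p3
    obtain ⟨g1, -⟩ := run_far (lev := lev) p3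
    rw [r2] at g1
    have le : lam d lev b z ≤ lam d lev b h := by
      by_contra h3
      exact hl ⟨Or.inl e.1, by rw [(m1 h e.1).2, q1]; omega⟩
    have ne := (s6 d.L d.R H hA.cp.lvl).2.1 z h (d.rp b h) p1.1.le r1 (by omega) (by omega)
    have lz : lo d lev b z := ⟨Or.inr ⟨h, e⟩, by rw [q2]; omega⟩
    have e1 := s4 z h (d.rp b h) r1.le (by omega)
    rw [r5]
    exact ⟨by rw [c, inh, if_pos lz, q2, ch], by omega, p4, le_rfl, f2.ge⟩

theorem p_RUN (hLS : S_LS) (hMATE : LT.S_MATE) (hKEEP : LT.S_KEEP) (_hSPINE : LT.S_SPINE)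
    (hHD : LT.S_HD) (hPASS : LT.S_PASS) (hVIS : LT.S_VIS) : S_RUN := by
  intro d lev cL cR w H hA
  obtain ⟨s1, -, s3, s4, -, -⟩ := hLS lev
  obtain ⟨h1, -, -, h4, -, -, h7⟩ := hHD d w hA.sy
  have hd' := hA.cp.ok
  have main : ∀ ρ v t, seg d w ρ v t → ∀ c, c ∈ vis d ρ v t →
      (cR c (hd d ρ v c) = cR ρ v ∧ lam d lev c (hd d ρ v c) = lam d lev ρ v ∧
        hd d ρ v c ≤ v ∧ d.rp ρ v ≤ d.rp c (hd d ρ v c)) ∧
      ∀ r ∈ vis d ρ v t, r ≤ c → al d lev c (hd d ρ v c) ≤ al d lev r (hd d ρ v r) := by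
    intro ρ v t hs c
    induction c using Nat.strong_induction_on with
    | _ c ih =>
      intro hc
      have ci := mem_Icc.1 (mem_filter.1 hc).1
      rcases Nat.eq_or_lt_of_le ci.1 with e | e
      · subst e
        rw [h1 ρ v ρ le_rfl]
        refine ⟨⟨rfl, rfl, le_rfl, le_rfl⟩, fun r hr h2 => ?_⟩
        have ri := mem_Icc.1 (mem_filter.1 hr).1
        rw [show r = ρ by omega, h1 ρ v ρ le_rfl]
      · obtain ⟨b, hb, hbc, k⟩ := hVIS d w hA.sy ρ v t c hs hc e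
        obtain ⟨k1, k2, k3, k4, k5, k6, k7, k8⟩ := k _ rfl
        obtain ⟨⟨i1, i2, i3, i4⟩, i5⟩ := ih b hbc hb
        have bi := mem_Icc.1 (mem_filter.1 hb).1
        have tm := hs.2.1
        obtain ⟨a1, a2, a3, a4, a5⟩ := run_step hLS hMATE hPASS hA (b := b) (by omega)
          (mem_filter.1 hb).2 k4 k3 k2.symm
        obtain ⟨f1, f2⟩ := run_far (lev := lev) k7
        have fz := run_frz hA.cp (b + 1) _ c hbc (by omega) k5
        have e1 := s4 (d.x b) (d.x c) _ k6.2.1.le k6.2.2.1.le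
        rw [k8] at f1 f2
        refine ⟨⟨by rw [fz, a1, i1], by rw [f1, a2, i2], a3.trans i3, by rw [k8]; omega⟩,
          fun r hr h2 => ?_⟩
        rcases Nat.eq_or_lt_of_le h2 with e2 | e2
        · rw [e2]
        · by_cases h3 : r ≤ b
          · have := i5 r hr h3
            omega
          · exfalso
            have e3 := h7 ρ v t (b + 1) r (by omega) (by omega)
              (by rw [k1]; exact fun T t1 t2 => k5 T t1 (by omega)) hs
            have o := (mem_filter.1 hr).2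
            rw [e3, k1] at o
            exact (k5 r (by omega) e2).2 o
  have part : ∀ ρ v t, seg d w ρ v t → ∀ r ∈ vis d ρ v t, cR r (hd d ρ v r) = cR ρ v ∧
      lam d lev r (hd d ρ v r) = lam d lev ρ v ∧
      al d lev t (hd d ρ v t) ≤ al d lev r (hd d ρ v r) ∧
      hd d ρ v r ≤ v ∧ d.rp ρ v ≤ d.rp r (hd d ρ v r) := by
    intro ρ v t hs r hr
    obtain ⟨⟨i1, i2, i3, i4⟩, -⟩ := main ρ v t hs r hr
    exact ⟨i1, i2, (main ρ v t hs t (h4 ρ v t hs).2.1).2 r hr (mem_Icc.1 (mem_filter.1 hr).1).2,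
      i3, i4⟩
  refine ⟨part, ?_⟩
  rintro s v ρ t y b ⟨⟨f1, f2, f3, f4, f5, -⟩, hv, hs, hy, -, hc⟩ hb ht r hr
  obtain ⟨i1, i2, i3, i4, i5⟩ := part ρ v t hs r hr
  obtain ⟨j1, -⟩ := part ρ v t hs t (h4 ρ v t hs).2.1
  have ri := mem_Icc.1 (mem_filter.1 hr).1
  have xr := (hs.2.2.2.1 r ri.1 ri.2).2 (mem_filter.1 hr).2
  have xρ := (hs.2.2.2.1 ρ le_rfl hs.1).2
  rw [h1 ρ v ρ le_rfl] at xρ
  obtain ⟨g1, -⟩ := run_far (lev := lev) (xρ f5)
  obtain ⟨g2, g3⟩ := run_far (lev := lev) xr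
  have kp := ((hKEEP d w hA.sy (s + 1) ρ v f1 f2.le f3.1 f3.2.1).2 f4).2.1
  have st := hd'.step s (by omega)
  have tr := hd'.tree (s + 1) (by omega)
  have r1 := (tr.lamL (d.x s) v st.mem.1 st.mem.2 (by rw [st.root.1]; exact f3.1) hv).2
  have r2 := tr.bnd v f3.1 f3.2.1
  have e1 := s4 v (d.rp ρ v) (d.x s) (by omega) (by omega)
  have e2 := s4 (hd d ρ v r) v (d.rp r (hd d ρ v r)) i4 (by omega)
  have e3 := s3 (d.x s) v (hd d ρ v r)
  have e4 := s3 (d.x s) v (d.rp r (hd d ρ v r))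
  have e5 := s3 (d.x r) (d.x s) (d.rp r (hd d ρ v r))
  have e6 := s1 v (d.x s)
  have e7 := s1 v (hd d ρ v r)
  have e8 := s1 (d.x r) (d.x s)
  have e9 : tg d lev cL cR t y ≤ al d lev t y := min_le_right _ _
  have e10 : an d lev s v = ls lev (d.x s) v := rfl
  rw [hy] at i3 j1
  exact ⟨by rw [i1, ← j1, hc], by omega, by omega, by omega⟩

end Pool.Agent.P.MP_119182_lc.LW.W
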