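import Pool.Agent.P.MP_119182_lc.LW.IfaceW

/-! Step WR. -/

set_option autoImplicit false

namespace Pool.Agent.P.MP_119182_lc.LW.W

open Finset
open scoped Classical
open NU (Run mr)
open LP (on up low ON)
open _root_.Pool.Agent.P.MP_119182_lc.LT (lw mate frz clr fst hd vis seg len TK Dat Sy)

lemma wr_ru (d : Run) (lev : ℤ → ℕ) (H σ c : ℕ) : RU d lev H σ c =
    ∑ i ∈ range (H + 1), (i + 1) ^ c * #((EP d lev H).filter fun p => 2 ^ i ∣ p.1 + σ) := by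
  unfold RU
  simp only [sum_filter]
  rw [sum_comm]
  refine sum_congr rfl fun i _ => ?_
  rw [← sum_filter, sum_const, smul_eq_mul, mul_comm]

lemma wr_ari (K i n : ℕ) (hK : 1 ≤ K) :
    K * (8 * (i + 1) ^ 3 * ((2 * (4 * K * (i + 1) ^ 2 * (8 * (i + 1) ^ 3) *
      (2 * (K * (8 * (i + 1) ^ 3)))) + 1) * (2 * (K * (8 * (i + 1) ^ 3))) * n)) ≤
      140000 * K ^ 4 * ((i + 1) ^ 14 * n) := by
  have h : 1 ≤ K ^ 2 * (i + 1) ^ 8 := Nat.one_le_iff_ne_zero.2 (by positivity)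
  calc _ = 128 * K ^ 2 * (i + 1) ^ 6 * n * (1024 * (K ^ 2 * (i + 1) ^ 8) + 1) := by ring
    _ ≤ 128 * K ^ 2 * (i + 1) ^ 6 * n * (1025 * (K ^ 2 * (i + 1) ^ 8)) :=
        Nat.mul_le_mul_left _ (by omega)
    _ = 131200 * (K ^ 4 * ((i + 1) ^ 14 * n)) := by ring
    _ ≤ 140000 * (K ^ 4 * ((i + 1) ^ 14 * n)) := Nat.mul_le_mul_right _ (by norm_num)
    _ = _ := by ring

lemma wr_scale {T M : ℕ} (h : M + 1 < T) :
    Nat.size (T + 1 - (M + 1)) ^ 3 ≤ 8 * (Nat.log 2 (T - M - 1) + 1) ^ 3 ∧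
      2 ^ Nat.log 2 (T - M - 1) ≤ T - M - 1 := by
  refine ⟨?_, Nat.pow_log_le_self 2 (by omega)⟩
  have h1 := Nat.lt_pow_succ_log_self (b := 2) (by norm_num) (T - M - 1)
  have h2 : Nat.size (T + 1 - (M + 1)) ≤ Nat.log 2 (T - M - 1) + 2 := by
    rw [Nat.size_le, pow_succ]
    simp only [Nat.succ_eq_add_one] at h1
    omega
  calc _ ≤ (2 * (Nat.log 2 (T - M - 1) + 1)) ^ 3 := Nat.pow_le_pow_left (by omega) 3
    _ = _ := by ring

theorem p_WR (hLS : S_LS) (hBLK : S_BLK) (hAL : S_AL) (hORG : S_ORG) (hRUN : S_RUN) (hG1 : S_G1)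
    (hNX : S_NX) (hG2 : S_G2) (hHD : LT.S_HD) (hLEN : LT.S_LEN) :
    S_WR := by
  refine ⟨140000, fun d lev cL cR H hc K σ => ?_⟩
  rcases Nat.eq_zero_or_pos K with rfl | hK
  · simp
  obtain ⟨w, hw⟩ := hAL d lev cL cR H hc
  set RZ := (TK d).filter fun p => rz d lev cL cR p.1 p.2 ∧ d.x p.1 < p.2 with hRZ
  have ex : ∀ p : ℕ × ℤ, ∃ (q : ℕ × ℤ) (ρ : ℕ), p ∈ RZ → bir d lev cL cR w q.1 q.2 ρ p.1 p.2 := by
    intro p
    by_cases hp : p ∈ RZ
    · obtain ⟨h1, h2⟩ := (mem_filter.1 hp).2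
      obtain ⟨s, v, ρ, h⟩ := hORG d lev cL cR w H hw p.1 p.2 h1 h2
      exact ⟨(s, v), ρ, fun _ => h⟩
    · exact ⟨p, 0, fun h => absurd h hp⟩
  choose bq br hb using ex
  have tgH : ∀ t y, tg d lev cL cR t y ≤ H := fun t y =>
    (min_le_right _ _).trans (((hLS lev).2.2.2.2.2 _ _ H hc.lvl).1 _ _)
  set c : ℕ → ℕ := fun i => 8 * (i + 1) ^ 3 with hcd
  set sc : ℕ × ℤ → ℕ := fun p =>
    Nat.log 2 (tg d lev cL cR p.1 p.2 - an d lev (bq p).1 (bq p).2 - 1) with hsc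
  have F : ∀ p ∈ RZ,
      Nat.size (tg d lev cL cR p.1 p.2 + 1 - cp d cL cR p.1 p.2) ^ 3 ≤ c (sc p) ∧ sc p < H + 1 ∧
        bk d lev (sc p) σ (bq p) + 1 < tg d lev cL cR p.1 p.2 := by
    intro p hp
    obtain ⟨h1, h2⟩ := (mem_filter.1 hp).2
    have e : cp d cL cR p.1 p.2 = an d lev (bq p).1 (bq p).2 + 1 := by
      rw [cp, if_pos h2]
      exact (hb p hp).2.2.2.2.2
    have h3 := h1.2
    rw [e] at h3 ⊢
    obtain ⟨s1, s2⟩ := wr_scale h3
    have s3 := (hBLK (sc p) σ (an d lev (bq p).1 (bq p).2)).2.2.1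
    have s4 := tgH p.1 p.2
    have s5 : sc p < 2 ^ sc p := Nat.lt_two_pow_self
    have s6 : 2 ^ sc p ≤ tg d lev cL cR p.1 p.2 - an d lev (bq p).1 (bq p).2 - 1 := s2
    refine ⟨s1, by omega, ?_⟩
    unfold bk
    omega
  set Y : ℕ → Finset (ℕ × ℤ) := fun i =>
    (TK d).filter fun q => ∃ ρ, gb d lev cL cR w (bk d lev i σ q) (K * c i) q.1 q.2 ρ with hY
  have G := hG2 d lev H hc.ok K σ (H + 1) Y c
    (fun i => 4 * K * (i + 1) ^ 2 * c i * (2 * (K * c i))) (fun i => 2 * (K * c i))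
    (fun _ => le_rfl) (fun i q hq => ?_) (fun i q hq => ?_) (fun i κ ρ => ?_)
  rotate_left
  · obtain ⟨ρ, t, y, h1, h2, h3, -⟩ := (mem_filter.1 hq).2
    have e : nx d q = ρ := hNX d q.1 q.2 ρ h1.1
    rw [e]
    exact ⟨h1.1, h1.2.1, h2, ((hRUN d lev cL cR w H hw).2 _ _ _ _ _ _ h1 h2 (by omega) ρ
      ((hHD d w hw.sy).2.2.2.1 _ _ _ h1.2.2.1).1).2.2.2⟩
  · obtain ⟨ρ, t, y, -, -, h3, -⟩ := (mem_filter.1 hq).2
    have := tgH t y
    omega
  · refine (card_le_card fun q hq => ?_).trans (hG1 d lev cL cR w H hw κ.1 (K * c i) ρ κ.2)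
    obtain ⟨h1, h2, h3⟩ := mem_filter.1 hq
    obtain ⟨h4, ρ', h5⟩ := mem_filter.1 h1
    have e : nx d q = ρ' := by
      obtain ⟨t, y, h6, -⟩ := h5
      exact hNX d q.1 q.2 ρ' h6.1
    rw [← h2, ← h3, e]
    exact mem_filter.2 ⟨h4, h5, rfl⟩
  set old : ℕ × ℤ → Prop := fun p => K * c (sc p) < #(vis d (br p) (bq p).2 p.1) with hold
  have O : ∑ p ∈ RZ.filter old, K * c (sc p) ≤ #(ON d) := by
    refine le_trans ?_ (hLEN d w hw.sy).1
    refine le_trans (sum_le_sum fun p hp => ?_)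
      (sum_le_sum_of_subset ((filter_subset _ _).trans (filter_subset _ _)))
    obtain ⟨h1, h2⟩ := mem_filter.1 hp
    have b := hb p h1
    have := (hLEN d w hw.sy).2 _ _ _ b.2.2.1
    rw [b.2.2.2.1] at this
    exact h2.le.trans this
  have N : ∑ p ∈ RZ.filter fun p => ¬ old p, c (sc p) ≤ ∑ i ∈ range (H + 1), c i * #(Y i) := by
    rw [← sum_fiberwise_of_maps_to (t := range (H + 1)) (g := sc)
      fun p hp => mem_range.2 (F p (mem_filter.1 hp).1).2.1]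
    refine sum_le_sum fun i _ => ?_
    rw [sum_congr rfl (g := fun _ => c i) fun p hp => by rw [(mem_filter.1 hp).2], sum_const,
      smul_eq_mul, mul_comm]
    refine Nat.mul_le_mul_left _ (card_le_card_of_injOn bq (fun p hp => ?_) ?_)
    · obtain ⟨h1, h2⟩ := mem_filter.1 (mem_coe.1 hp)
      obtain ⟨h3, h4⟩ := mem_filter.1 h1
      have b := hb p h3
      subst h2
      refine mem_coe.2 (mem_filter.2 ⟨?_, br p, p.1, p.2, b, (hBLK _ _ _).1, (F p h3).2.2,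
        not_lt.1 h4⟩)
      have f := b.1
      exact mem_product.2 ⟨mem_range.2 (f.1.trans f.2.1), mem_Ioo.2 ⟨f.2.2.1.1, f.2.2.1.2.1⟩⟩
    · intro p hp p' hp' h
      have b := hb p (mem_filter.1 (mem_filter.1 (mem_coe.1 hp)).1).1
      have b' := hb p' (mem_filter.1 (mem_filter.1 (mem_coe.1 hp')).1).1
      rw [← h] at b'
      have e : br p' = br p := (hNX d _ _ _ b'.1).symm.trans (hNX d _ _ _ b.1)
      rw [e] at b'
      have e1 : p.1 = p'.1 := (hHD d w hw.sy).2.2.1 _ _ _ _ b.2.2.1 b'.2.2.1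
      refine Prod.ext e1 ?_
      rw [← b.2.2.2.1, ← b'.2.2.2.1, e1]
  have R : K * ∑ i ∈ range (H + 1), c i * ((2 * (4 * K * (i + 1) ^ 2 * c i * (2 * (K * c i))) + 1) *
      (2 * (K * c i)) * #((EP d lev H).filter fun p => 2 ^ i ∣ p.1 + σ)) ≤
      140000 * K ^ 4 * RU d lev H σ 14 := by
    rw [wr_ru, mul_sum, mul_sum]
    exact sum_le_sum fun i _ => wr_ari K i _ hK
  have S : K * WR d lev cL cR ≤ ∑ p ∈ RZ.filter old, K * c (sc p) +
      K * ∑ p ∈ RZ.filter fun p => ¬ old p, c (sc p) := by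
    rw [mul_sum, sum_filter_add_sum_filter_not, WR, mul_sum]
    exact sum_le_sum fun p hp => Nat.mul_le_mul_left _ (F p hp).1
  have N' := Nat.mul_le_mul_left K N
  omega

end Pool.Agent.P.MP_119182_lc.LW.W
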