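import Pool.Agent.P.MP_119182_lc.LP.TSTEP
import Pool.Agent.P.MP_119182_lc.LP.TLINK
import Pool.Agent.P.MP_119182_lc.NU.TEMIR
import Pool.Agent.P.MP_119182_lc.LT.TMATE
import Pool.Agent.P.MP_119182_lc.LT.TEX
import Pool.Agent.P.MP_119182_lc.LT.TKEEP
import Pool.Agent.P.MP_119182_lc.LT.THD
import Pool.Agent.P.MP_119182_lc.LT.TPASS
import Pool.Agent.P.MP_119182_lc.LT.TSPINE
import Pool.Agent.P.MP_119182_lc.LT.TVIS
import Pool.Agent.P.MP_119182_lc.LT.TLEN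
import Pool.Agent.P.MP_119182_lc.LW.TPLV
import Pool.Agent.P.MP_119182_lc.LW.TPBR
import Pool.Agent.P.MP_119182_lc.LW.TPCAP
import Pool.Agent.P.MP_119182_lc.LW.TPPV
import Pool.Agent.P.MP_119182_lc.LW.TPSP
import Pool.Agent.P.MP_119182_lc.LW.TPLOW
import Pool.Agent.P.MP_119182_lc.LW.TPUPP
import Pool.Agent.P.MP_119182_lc.LW.TPENT
import Pool.Agent.P.MP_119182_lc.LW.TPOK
import Pool.Agent.P.MP_119182_lc.LW.TPPR
import Pool.Agent.P.MP_119182_lc.LW.TPLUG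
import Pool.Agent.P.MP_119182_lc.LW.TCPEX
import Pool.Agent.P.MP_119182_lc.LW.TCPMA
import Pool.Agent.P.MP_119182_lc.LW.TCPMIR
import Pool.Agent.P.MP_119182_lc.LW.TLS
import Pool.Agent.P.MP_119182_lc.LW.TBLK
import Pool.Agent.P.MP_119182_lc.LW.TEE
import Pool.Agent.P.MP_119182_lc.LW.TAL
import Pool.Agent.P.MP_119182_lc.LW.TORG
import Pool.Agent.P.MP_119182_lc.LW.TRUN
import Pool.Agent.P.MP_119182_lc.LW.TG1A
import Pool.Agent.P.MP_119182_lc.LW.TG1B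
import Pool.Agent.P.MP_119182_lc.LW.TG1
import Pool.Agent.P.MP_119182_lc.LW.TNX
import Pool.Agent.P.MP_119182_lc.LW.TG2
import Pool.Agent.P.MP_119182_lc.LW.TWR

/-! The half with the caps, assembled. -/

set_option autoImplicit false

namespace Pool.Agent.P.MP_119182_lc.LW.W

theorem a_PLUG : S_PLUG :=
  have hPCAP := p_PCAP p_PLV p_PBR
  have hPPV := p_PPV p_PLV p_PBR hPCAP
  have hPSP := p_PSP p_PLV p_PBR hPCAP hPPV
  have hPLOW := p_PLOW p_PLV p_PBR hPCAP hPPV hPSP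
  p_PLUG p_PBR hPLOW
    (p_POK p_PBR hPPV hPSP hPLOW (p_PUPP p_PLV p_PBR hPCAP hPPV) (p_PENT p_PLV p_PBR hPCAP hPPV))
    (p_PPR p_PLV p_PBR hPPV)

theorem a_CPMIR : S_CPMIR := p_CPMIR p_PBR p_CPMA

theorem a_WR : S_WR :=
  have hSTEP := LP.p_STEP LP.p_LINK
  have hMATE := LT.p_MATE LP.p_LINK hSTEP
  have hKEEP := LT.p_KEEP hSTEP
  have hHD := LT.p_HD hMATE
  have hPASS := LT.p_PASS hMATE
  have hSPINE := LT.p_SPINE hMATE
  have hVIS := LT.p_VIS hMATE hKEEP hSPINE hHD hPASS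
  have hEE := p_EE p_LS
  have hRUN := p_RUN p_LS hMATE hKEEP hSPINE hHD hPASS hVIS
  have hG1A := p_G1A p_LS hEE hRUN hMATE hKEEP
  have hG1B := p_G1B p_LS hEE hRUN hG1A hMATE hKEEP hSPINE hHD hPASS hVIS
  p_WR p_LS p_BLK (p_AL p_LS hMATE (LT.p_EX hMATE hSTEP)) (p_ORG p_LS hMATE hKEEP hHD hPASS) hRUN
    (p_G1 hG1B hMATE hSPINE hHD) p_NX (p_G2 p_LS p_BLK hEE p_NX NU.p_EMIR) hHD (LT.p_LEN hHD)

end Pool.Agent.P.MP_119182_lc.LW.W
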