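import Pool.Agent.P.MP_119182_lc.LW.IfaceF

/-! Step ABS. -/

set_option autoImplicit false

namespace Pool.Agent.P.MP_119182_lc.LW

open Finset
open scoped Classical
open NU (Run mr)
open LU (key tch up low LK)

theorem abs_mono (d : Run) (lev : ℤ → ℕ) (top top' c c' : ℕ) (h : top ≤ top') (hc : c ≤ c') :
    Z d lev top c ≤ Z d lev top' c' := by
  unfold Z
  have hsub : EP d lev top ⊆ EP d lev top' := by
    intro p hp
    obtain ⟨h1, h2⟩ := mem_filter.1 hp
    obtain ⟨h3, h4⟩ := mem_product.1 h1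
    have := mem_range.1 h3
    exact mem_filter.2 ⟨mem_product.2 ⟨mem_range.2 (by omega), h4⟩, h2⟩
  exact le_trans (sum_le_sum fun p _ => Nat.pow_le_pow_right (by omega) hc)
    (sum_le_sum_of_subset hsub)

theorem abs_card (d : Run) (lev : ℤ → ℕ) (top : ℕ) : #(EP d lev top) ≤ Z d lev top 0 := by
  rw [card_eq_sum_ones]
  exact sum_le_sum fun _ _ => Nat.one_le_pow _ _ (by omega)

theorem p_ABS (hH1 : G_H1) (hW : G_W) (hH2 : S_H2) (hMIR : S_MIR) (hEMIR : NU.S_EMIR) :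
    S_ABS := by
  obtain ⟨c1, hW⟩ := hW
  obtain ⟨c2, hH1⟩ := hH1
  obtain ⟨C1, hW⟩ := hW 200
  obtain ⟨C2, hH1⟩ := hH1 (4 * C1)
  refine ⟨max c1 c2, C1 + C2 + 4 * C1 ^ 2, fun d lev σ H ok lv hH => ?_⟩
  have okm := (hEMIR d).2 ok
  obtain ⟨m1, -, m2, m3⟩ := hMIR.2.2.2 d lev σ H (σ + H + 1) c2
  have w := hW d lev σ H ok lv hH
  have a1 := hH1 d lev σ H ok lv hH
  have a2 := hH1 d.mir (ml lev) σ H okm (m1 lv) hH
  have f1 := hH2 d lev σ H (2 * C1) ok lv
  have f2 := hH2 d.mir (ml lev) σ H (2 * C1) okm (m1 lv)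
  have k1 : (d.mir.R - d.mir.L).toNat = (d.R - d.L).toNat := by
    change (mr d.L - mr d.R).toNat = _
    unfold mr
    omega
  have k2 : d.mir.m = d.m := rfl
  rw [k1, k2, m3] at a2
  rw [k2, m2] at f2
  have z1 := abs_mono d lev (σ + H + 3) (σ + H + 3) c1 (max c1 c2) le_rfl (le_max_left _ _)
  have z2 := abs_mono d lev (σ + H + 1) (σ + H + 3) c2 (max c1 c2) (by omega) (le_max_right _ _)
  have z3 := (abs_card d lev (σ + H + 1)).trans
    (abs_mono d lev (σ + H + 1) (σ + H + 3) 0 (max c1 c2) (by omega) (Nat.zero_le _))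
  have n1 : (d.R - d.L).toNat ≤ (d.R - d.L).toNat * (Nat.size H + 1) ^ 3 :=
    Nat.le_mul_of_pos_right _ (by positivity)
  unfold HOT at w
  generalize (d.R - d.L).toNat * (Nat.size H + 1) ^ 3 = P at *
  generalize (d.R - d.L).toNat = n at *
  generalize Z d lev (σ + H + 3) (max c1 c2) = Y at *
  generalize Z d lev (σ + H + 3) c1 = Y1 at *
  generalize Z d lev (σ + H + 1) c2 = Y2 at *
  generalize #(EP d lev (σ + H + 1)) = E at *
  generalize #(NEAR d lev) = A at *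
  generalize #(FAR d lev) = F at *
  generalize #(NEAR d.mir (ml lev)) = A' at *
  generalize #(FAR d.mir (ml lev)) = F' at *
  obtain ⟨X, hX⟩ : ∃ X, X = P + d.m + Y := ⟨_, rfl⟩
  rw [← hX]
  have b1 : C2 * (n + d.m + Y2) ≤ C2 * X := Nat.mul_le_mul_left _ (by omega)
  have b2 : (2 * C1) ^ 2 * (d.m + E) ≤ 4 * (C1 ^ 2 * X) := by
    rw [mul_pow, mul_assoc]
    exact Nat.mul_le_mul (by norm_num) (Nat.mul_le_mul_left _ (by omega))
  have b3 : C1 * (P + d.m + Y1 + (A + F + A' + F')) ≤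
      C1 * X + (C1 * A + C1 * F + C1 * A' + C1 * F') := by
    rw [← mul_add, ← mul_add, ← mul_add, ← mul_add]
    exact Nat.mul_le_mul_left _ (by omega)
  have b4 : (C1 + C2 + 4 * C1 ^ 2) * X = C1 * X + C2 * X + 4 * (C1 ^ 2 * X) := by ring
  rw [mul_assoc] at a1 a2
  rw [mul_assoc, mul_assoc] at f1 f2
  omega

end Pool.Agent.P.MP_119182_lc.LW
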