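import Pool.Agent.P.MP_119182_lc.LW.DefsR

/-! Levels on the boundaries between keys, read from a reference tree. -/

set_option autoImplicit false

namespace Pool.Agent.P.MP_119182_lc.LW

/-- The level of the boundary between `y - 1` and `y` when the root has height `h`. -/
def levF : BT → ℕ → ℕ → ℕ
  | BT.nil, _, _ => 0
  | BT.node l k r, h, y =>
    if y = k then 2 * h + 1 else if y = k + 1 then 2 * h
    else if y < k then levF l (h - 1) y else levF r (h - 1) y

theorem ref_split {l r : BT} {k a s : ℕ} (h : (BT.node l k r).keys = List.range' a s) :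
    ∃ s1 s2, l.keys = List.range' a s1 ∧ k = a + s1 ∧ r.keys = List.range' (k + 1) s2 ∧
      s = s1 + s2 + 1 := by
  have h' : List.range' a s = l.keys ++ k :: r.keys := h.symm
  obtain ⟨s1, hs1, h1, h2⟩ := List.range'_eq_append_iff.1 h'
  obtain ⟨h3, h4, h5⟩ := List.range'_eq_cons_iff.1 h2.symm
  have e : k = a + s1 := by omega
  refine ⟨s1, s - s1 - 1, h1, e, ?_, by omega⟩
  rw [h5, e]

theorem ref_le : ∀ (T : BT) (h y : ℕ), T.ht ≤ h → levF T h y ≤ 2 * h + 1 := by
  intro T
  induction T with
  | nil => intro h y _; simp [levF]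
  | node l k r ihl ihr =>
    intro h y hh
    simp only [BT.ht] at hh
    have h1 := ihl (h - 1) y (by omega)
    have h2 := ihr (h - 1) y (by omega)
    simp only [levF]
    split_ifs <;> omega

theorem ref_uniq : ∀ (T : BT) (h a s : ℕ), T.keys = List.range' a s → T.ht ≤ h →
    ∀ y z, a < y → y < z → z < a + s → levF T h y = levF T h z →
      ∃ c, y < c ∧ c < z ∧ levF T h y < levF T h c := by
  intro T
  induction T with
  | nil =>
    intro h a s hk _ y z h1 h2 h3 _
    have : s = 0 := by
      have := congrArg List.length hk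
      simpa [BT.keys] using this.symm
    omega
  | node l k r ihl ihr =>
    intro h a s hk hh y z h1 h2 h3 he
    obtain ⟨s1, s2, e1, e2, e3, e4⟩ := ref_split hk
    simp only [BT.ht] at hh
    have ly := ref_le l (h - 1) y (by omega)
    have lz := ref_le l (h - 1) z (by omega)
    have ry := ref_le r (h - 1) y (by omega)
    have rz := ref_le r (h - 1) z (by omega)
    by_cases c1 : z < k
    · have f : ∀ c, c < k → levF (BT.node l k r) h c = levF l (h - 1) c := fun c hc => by
        simp only [levF]
        rw [if_neg (by omega), if_neg (by omega), if_pos hc]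
      rw [f y (by omega), f z c1] at he
      obtain ⟨c, g1, g2, g3⟩ := ihl (h - 1) a s1 e1 (by omega) y z h1 h2 (by omega) he
      exact ⟨c, g1, g2, by rw [f y (by omega), f c (by omega)]; exact g3⟩
    by_cases c2 : k + 1 < y
    · have f : ∀ c, k + 1 < c → levF (BT.node l k r) h c = levF r (h - 1) c := fun c hc => by
        simp only [levF]
        rw [if_neg (by omega), if_neg (by omega), if_neg (by omega)]
      rw [f y c2, f z (by omega)] at he
      obtain ⟨c, g1, g2, g3⟩ := ihr (h - 1) (k + 1) s2 e3 (by omega) y z c2 h2 (by omega) he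
      exact ⟨c, g1, g2, by rw [f y c2, f c (by omega)]; exact g3⟩
    by_cases c3 : y < k ∧ k + 1 < z
    · refine ⟨k, c3.1, by omega, ?_⟩
      simp only [levF]
      rw [if_neg (by omega), if_neg (by omega), if_pos c3.1, if_pos trivial]
      omega
    · exfalso
      simp only [levF] at he
      split_ifs at he <;> omega

theorem ref_low : ∀ (T : BT) (h a s : ℕ), T.keys = List.range' a s → T.ht ≤ h →
    ∀ x z, a ≤ x → x < a + s → (z = x ∨ z = x + 1) → a < z → z < a + s →
      2 * h ≤ levF T h z + 2 * T.dep x := by
  intro T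
  induction T with
  | nil =>
    intro h a s hk _ x z h1 h2 _ _ _
    have : s = 0 := by
      have := congrArg List.length hk
      simpa [BT.keys] using this.symm
    omega
  | node l k r ihl ihr =>
    intro h a s hk hh x z h1 h2 h3 h4 h5
    obtain ⟨s1, s2, e1, e2, e3, e4⟩ := ref_split hk
    simp only [BT.ht] at hh
    simp only [levF, BT.dep]
    by_cases c1 : z = k
    · rw [if_pos c1]; omega
    by_cases c2 : z = k + 1
    · rw [if_neg c1, if_pos c2]; omega
    rw [if_neg c1, if_neg c2]
    by_cases c3 : z < k
    · have := ihl (h - 1) a s1 e1 (by omega) x z h1 (by omega) h3 h4 (by omega)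
      rw [if_pos c3, if_pos (by omega)]
      omega
    · have := ihr (h - 1) (k + 1) s2 e3 (by omega) x z (by omega) (by omega) h3 (by omega)
        (by omega)
      rw [if_neg c3, if_neg (by omega), if_pos (by omega)]
      omega

theorem ref_jump : ∀ (T : BT) (h a s : ℕ), T.keys = List.range' a s → T.ht ≤ h →
    ∀ x y g z, a ≤ x → x < a + s → a ≤ y → y < a + s → min x y < g → g ≤ max x y →
      (z = x ∨ z = x + 1 ∨ z = y ∨ z = y + 1) → a < z → z < a + s →
      levF T h g ≤ levF T h z + 2 * T.dist x y + 1 := by
  intro T
  induction T with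
  | nil => intro h a s _ _ x y g z _ _ _ _ _ _ _ _ _; simp [levF]
  | node l k r ihl ihr =>
    intro h a s hk hh x y g z h1 h2 h3 h4 h5 h6 h7 h8 h9
    have top := ref_le (BT.node l k r) h g hh
    have lx := ref_low (BT.node l k r) h a s hk hh x z h1 h2
    have ly := ref_low (BT.node l k r) h a s hk hh y z h3 h4
    obtain ⟨s1, s2, e1, e2, e3, e4⟩ := ref_split hk
    simp only [BT.ht] at hh
    by_cases c1 : x < k ∧ y < k
    · have hd : (BT.node l k r).dist x y = l.dist x y := by
        simp only [BT.dist]; rw [if_pos c1]
      have f : ∀ c, c < k → levF (BT.node l k r) h c = levF l (h - 1) c := fun c hc => by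
        simp only [levF]
        rw [if_neg (by omega), if_neg (by omega), if_pos hc]
      by_cases c : z = k
      · have : levF (BT.node l k r) h z = 2 * h + 1 := by simp only [levF]; rw [if_pos c]
        omega
      · rw [hd, f g (by omega), f z (by omega)]
        exact ihl (h - 1) a s1 e1 (by omega) x y g z h1 (by omega) h3 (by omega) h5 h6 h7 h8
          (by omega)
    by_cases c2 : k < x ∧ k < y
    · have hd : (BT.node l k r).dist x y = r.dist x y := by
        simp only [BT.dist]; rw [if_neg c1, if_pos c2]
      have f : ∀ c, k + 1 < c → levF (BT.node l k r) h c = levF r (h - 1) c := fun c hc => by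
        simp only [levF]
        rw [if_neg (by omega), if_neg (by omega), if_neg (by omega)]
      by_cases c : z = k + 1
      · have : levF (BT.node l k r) h z = 2 * h := by
          simp only [levF]; rw [if_neg (by omega), if_pos c]
        omega
      · rw [hd, f g (by omega), f z (by omega)]
        exact ihr (h - 1) (k + 1) s2 e3 (by omega) x y g z (by omega) (by omega) (by omega)
          (by omega) h5 h6 h7 (by omega) (by omega)
    · have hd : (BT.node l k r).dist x y =
          (BT.node l k r).dep x + (BT.node l k r).dep y := by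
        simp only [BT.dist]; rw [if_neg c1, if_neg c2]
      rcases h7 with h7 | h7 | h7 | h7
      · have := lx (Or.inl h7) h8 h9; omega
      · have := lx (Or.inr h7) h8 h9; omega
      · have := ly (Or.inl h7) h8 h9; omega
      · have := ly (Or.inr h7) h8 h9; omega

/-- Levels with a unique maximum on each interval whose jumps are bounded by tree distances. -/
theorem ref_lev (n : ℕ) (R : BT) (hR : R.keys = List.range' 1 n) :
    ∃ lev : ℤ → ℕ,
      (∀ a b : ℤ, 1 ≤ a → a < b → b ≤ n + 1 → lev a = lev b →
        ∃ c, a < c ∧ c < b ∧ lev a < lev c) ∧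
      (∀ y, lev y ≤ 2 * R.ht + 3) ∧
      (∀ y : ℤ, 1 < y → y < n + 1 → lev y < lev 1 ∧ lev y < lev (n + 1)) ∧
      ∀ (x y : ℕ) (g z : ℤ), 1 ≤ x → x ≤ n → 1 ≤ y → y ≤ n → min (x : ℤ) y < g →
        g ≤ max (x : ℤ) y → (z = x ∨ z = x + 1 ∨ z = y ∨ z = y + 1) →
        lev g ≤ lev z + 2 * R.dist x y + 1 := by
  have hle : ∀ y, levF R R.ht y ≤ 2 * R.ht + 1 := fun y => ref_le R R.ht y le_rfl
  refine ⟨fun y => if y = n + 1 then 2 * R.ht + 3 else if y = 1 then 2 * R.ht + 2
    else levF R R.ht y.toNat, ?_, ?_, ?_, ?_⟩
  · intro a b h1 h2 h3 he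
    have la := hle a.toNat
    have lb := hle b.toNat
    by_cases c1 : b = n + 1
    · exfalso
      simp only at he
      split_ifs at he <;> omega
    by_cases c2 : a = 1
    · exfalso
      simp only at he
      split_ifs at he <;> omega
    simp only at he ⊢
    rw [if_neg (by omega), if_neg c2, if_neg c1, if_neg (by omega)] at he
    obtain ⟨c, g1, g2, g3⟩ := ref_uniq R R.ht 1 n hR le_rfl a.toNat b.toNat (by omega) (by omega)
      (by omega) he
    refine ⟨c, by omega, by omega, ?_⟩
    rw [if_neg (by omega), if_neg c2, if_neg (by omega), if_neg (by omega), Int.toNat_natCast]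
    exact g3
  · intro y
    have := hle y.toNat
    simp only
    split_ifs <;> omega
  · intro y h1 h2
    have := hle y.toNat
    simp only
    split_ifs <;> omega
  · intro x y g z h1 h2 h3 h4 h5 h6 h7
    have lg := hle g.toNat
    simp only
    rw [if_neg (by omega), if_neg (by omega)]
    by_cases c1 : z = n + 1
    · rw [if_pos c1]; omega
    by_cases c2 : z = 1
    · rw [if_neg c1, if_pos c2]; omega
    rw [if_neg c1, if_neg c2]
    exact ref_jump R R.ht 1 n hR le_rfl x y g.toNat z.toNat h1 (by omega) h3 (by omega)
      (by omega) (by omega) (by omega) (by omega) (by omega)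

end Pool.Agent.P.MP_119182_lc.LW
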