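import Mathlib

/-! The ruler sequence has bounded moments on the average over a shift. -/

set_option autoImplicit false

namespace Pool.Agent.P.MP_119182_lc.LW.Ruler

open Finset
open scoped Classical

/-- The weight of all scales `j < S + 2` with `2 ^ j ∣ b`. -/
def wt (c S b : ℕ) : ℕ := ∑ j ∈ (range (S + 2)).filter fun j => 2 ^ j ∣ b, (j + 1) ^ c

/-- Multiples of `e` in an interval of length `N`. -/
theorem cnt (q a N e : ℕ) (he : 0 < e) :
    e * #((Ico a (a + N)).filter fun s => e ∣ q + s) ≤ N + e := by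
  have h1 : #((Ico a (a + N)).filter fun s => e ∣ q + s) ≤ #(Ico 0 (N / e + 1)) := by
    refine card_le_card_of_injOn (fun s => (s - a) / e) ?_ ?_
    · intro s hs
      have hs' := mem_Ico.1 (mem_filter.1 (mem_coe.1 hs)).1
      refine mem_coe.2 (mem_Ico.2 ⟨Nat.zero_le _, Nat.lt_succ_of_le ?_⟩)
      exact Nat.div_le_div_right (by omega)
    · intro s hs t ht hst
      obtain ⟨hs1, hs2⟩ := mem_filter.1 (mem_coe.1 hs)
      obtain ⟨ht1, ht2⟩ := mem_filter.1 (mem_coe.1 ht)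
      have hs' := mem_Ico.1 hs1
      have ht' := mem_Ico.1 ht1
      have hst' : (s - a) / e = (t - a) / e := hst
      have e1 := Nat.div_add_mod (s - a) e
      have e2 := Nat.div_add_mod (t - a) e
      have l1 := Nat.mod_lt (s - a) he
      have l2 := Nat.mod_lt (t - a) he
      rw [hst'] at e1
      rcases le_total s t with h | h
      · have hd : e ∣ t - s := by
          have := Nat.dvd_sub ht2 hs2
          rwa [show q + t - (q + s) = t - s by omega] at this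
        have := Nat.eq_zero_of_dvd_of_lt hd (by omega)
        omega
      · have hd : e ∣ s - t := by
          have := Nat.dvd_sub hs2 ht2
          rwa [show q + s - (q + t) = s - t by omega] at this
        have := Nat.eq_zero_of_dvd_of_lt hd (by omega)
        omega
  rw [Nat.card_Ico, Nat.sub_zero] at h1
  calc e * #((Ico a (a + N)).filter fun s => e ∣ q + s) ≤ e * (N / e + 1) :=
        Nat.mul_le_mul_left _ h1
    _ ≤ N + e := by
        rw [mul_add, mul_one]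
        exact Nat.add_le_add_right (Nat.mul_div_le N e) e

/-- The series of `(j + 1) ^ c / 2 ^ j` has bounded sums. -/
theorem ser (c : ℕ) : ∃ C : ℕ, ∀ J : ℕ,
    ∑ j ∈ range J, ((j : ℝ) + 1) ^ c / 2 ^ j ≤ C := by
  have h0 : Summable fun n : ℕ => (n : ℝ) ^ c * (1 / 2 : ℝ) ^ n :=
    summable_pow_mul_geometric_of_norm_lt_one c (by norm_num)
  have h1 : Summable fun n : ℕ => 2 * (((n + 1 : ℕ) : ℝ) ^ c * (1 / 2 : ℝ) ^ (n + 1)) :=
    ((summable_nat_add_iff 1).2 h0).mul_left 2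
  have h2 : Summable fun n : ℕ => ((n : ℝ) + 1) ^ c / 2 ^ n := by
    refine h1.congr fun n => ?_
    push_cast
    rw [pow_succ, one_div, inv_pow]
    field_simp
  obtain ⟨C, hC⟩ := exists_nat_ge (∑' n : ℕ, ((n : ℝ) + 1) ^ c / 2 ^ n)
  refine ⟨C, fun J => le_trans ?_ hC⟩
  exact h2.sum_le_tsum _ fun n _ => by positivity

/-- The mean of the weight over an interval of length `2 ^ S`. -/
theorem mean (c : ℕ) : ∃ C : ℕ, ∀ S q a : ℕ,
    ∑ s ∈ Ico a (a + 2 ^ S), wt c S (q + s) ≤ C * 2 ^ S := by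
  obtain ⟨C, hC⟩ := ser c
  refine ⟨3 * C, fun S q a => ?_⟩
  have h1 : ∑ s ∈ Ico a (a + 2 ^ S), wt c S (q + s) =
      ∑ j ∈ range (S + 2), (j + 1) ^ c * #((Ico a (a + 2 ^ S)).filter fun s => 2 ^ j ∣ q + s) := by
    simp only [wt, sum_filter]
    rw [sum_comm]
    refine sum_congr rfl fun j _ => ?_
    rw [← sum_filter, sum_const, smul_eq_mul, mul_comm]
  have h2 : ∀ j ∈ range (S + 2),
      (((j + 1) ^ c * #((Ico a (a + 2 ^ S)).filter fun s => 2 ^ j ∣ q + s) : ℕ) : ℝ) ≤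
        3 * 2 ^ S * (((j : ℝ) + 1) ^ c / 2 ^ j) := by
    intro j hj
    have hj' : j ≤ S + 1 := by have := mem_range.1 hj; omega
    have k1 := cnt q a (2 ^ S) (2 ^ j) (by positivity)
    have k2 : 2 ^ j ≤ 2 * 2 ^ S := by
      rw [← pow_succ']
      exact Nat.pow_le_pow_right (by norm_num) hj'
    have k3 : 2 ^ j * #((Ico a (a + 2 ^ S)).filter fun s => 2 ^ j ∣ q + s) ≤ 3 * 2 ^ S := by
      omega
    have k4 : (2 : ℝ) ^ j * (#((Ico a (a + 2 ^ S)).filter fun s => 2 ^ j ∣ q + s) : ℝ) ≤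
        3 * 2 ^ S := by exact_mod_cast k3
    have hp : (0 : ℝ) < 2 ^ j := by positivity
    have k5 : (#((Ico a (a + 2 ^ S)).filter fun s => 2 ^ j ∣ q + s) : ℝ) ≤ 3 * 2 ^ S / 2 ^ j := by
      rw [le_div_iff₀ hp, mul_comm]
      exact k4
    push_cast
    calc ((j : ℝ) + 1) ^ c * (#((Ico a (a + 2 ^ S)).filter fun s => 2 ^ j ∣ q + s) : ℝ)
        ≤ ((j : ℝ) + 1) ^ c * (3 * 2 ^ S / 2 ^ j) :=
          mul_le_mul_of_nonneg_left k5 (by positivity)
      _ = 3 * 2 ^ S * (((j : ℝ) + 1) ^ c / 2 ^ j) := by ring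
  have h3 : ((∑ s ∈ Ico a (a + 2 ^ S), wt c S (q + s) : ℕ) : ℝ) ≤ ((3 * C * 2 ^ S : ℕ) : ℝ) := by
    rw [h1, Nat.cast_sum]
    refine (sum_le_sum h2).trans ?_
    rw [← mul_sum]
    push_cast
    calc 3 * 2 ^ S * ∑ j ∈ range (S + 2), ((j : ℝ) + 1) ^ c / 2 ^ j ≤ 3 * 2 ^ S * (C : ℝ) :=
          mul_le_mul_of_nonneg_left (hC _) (by positivity)
      _ = 3 * C * 2 ^ S := by ring
  exact_mod_cast h3

/-- Some shift in an interval of length `2 ^ S` is good for a whole weighted family. -/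
theorem avg (c : ℕ) : ∃ C : ℕ, ∀ (S a : ℕ) (ι : Type) (I : Finset ι) (f w : ι → ℕ),
    ∃ s, a ≤ s ∧ s < a + 2 ^ S ∧ ∑ i ∈ I, w i * wt c S (f i + s) ≤ C * ∑ i ∈ I, w i := by
  obtain ⟨C, hC⟩ := mean c
  refine ⟨C, fun S a ι I f w => ?_⟩
  have hne : (Ico a (a + 2 ^ S)).Nonempty :=
    nonempty_Ico.2 (Nat.lt_add_of_pos_right (by positivity))
  have h1 : ∑ s ∈ Ico a (a + 2 ^ S), ∑ i ∈ I, w i * wt c S (f i + s) ≤
      ∑ _s ∈ Ico a (a + 2 ^ S), C * ∑ i ∈ I, w i := by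
    rw [sum_comm, sum_const, Nat.card_Ico, Nat.add_sub_cancel_left, smul_eq_mul, mul_sum, mul_sum]
    refine sum_le_sum fun i _ => ?_
    rw [← mul_sum]
    calc w i * ∑ s ∈ Ico a (a + 2 ^ S), wt c S (f i + s) ≤ w i * (C * 2 ^ S) :=
          Nat.mul_le_mul_left _ (hC S (f i) a)
      _ = 2 ^ S * (C * w i) := by ring
  obtain ⟨s, hs, hle⟩ := exists_le_of_sum_le hne h1
  exact ⟨s, (mem_Ico.1 hs).1, (mem_Ico.1 hs).2, hle⟩

/-- One scale is part of the weight. -/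
theorem le_wt (c S b j : ℕ) (hj : j < S + 2) (hd : 2 ^ j ∣ b) : (j + 1) ^ c ≤ wt c S b :=
  single_le_sum (f := fun j => (j + 1) ^ c) (fun _ _ => Nat.zero_le _)
    (mem_filter.2 ⟨mem_range.2 hj, hd⟩)

/-- A positive number below `2 ^ (S + 2)` has only scales below `S + 2`. -/
theorem scale_lt (S b j : ℕ) (hb : 0 < b) (hlt : b < 2 ^ (S + 2)) (hd : 2 ^ j ∣ b) :
    j < S + 2 :=
  (Nat.pow_lt_pow_iff_right (by norm_num : 1 < 2)).1 (lt_of_le_of_lt (Nat.le_of_dvd hb hd) hlt)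

/-- The ruler function is bounded by the weight. -/
theorem val_le (c S b : ℕ) (hb : 0 < b) (hlt : b < 2 ^ (S + 2)) :
    (padicValNat 2 b + 1) ^ c ≤ wt c S b :=
  le_wt c S b _ (scale_lt S b _ hb hlt pow_padicValNat_dvd) pow_padicValNat_dvd

/-- The same for the ruler function. -/
theorem avg_val (c : ℕ) : ∃ C : ℕ, ∀ (S a : ℕ) (ι : Type) (I : Finset ι) (f w : ι → ℕ),
    1 ≤ a → (∀ i ∈ I, f i + a ≤ 2 ^ (S + 1)) →
    ∃ s, a ≤ s ∧ s < a + 2 ^ S ∧
      ∑ i ∈ I, w i * (padicValNat 2 (f i + s) + 1) ^ c ≤ C * ∑ i ∈ I, w i := by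
  obtain ⟨C, hC⟩ := avg c
  refine ⟨C, fun S a ι I f w ha hf => ?_⟩
  obtain ⟨s, h1, h2, h3⟩ := hC S a ι I f w
  refine ⟨s, h1, h2, le_trans (sum_le_sum fun i hi => Nat.mul_le_mul_left _ ?_) h3⟩
  have := hf i hi
  have e1 : 2 ^ (S + 1) = 2 * 2 ^ S := by rw [pow_succ']
  have e2 : 2 ^ (S + 2) = 4 * 2 ^ S := by rw [pow_add]; ring
  exact val_le c S _ (by omega) (by omega)

end Pool.Agent.P.MP_119182_lc.LW.Ruler
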