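import Pool.Agent.P.MP_119182_lc.LW.Base
import Pool.Agent.P.MP_119182_lc.LW.Ref
import Pool.Agent.P.MP_119182_lc.LW.Ruler

/-! The weighted number of epochs is bounded by the distances in the reference tree. -/

set_option autoImplicit false

namespace Pool.Agent.P.MP_119182_lc.LW

open Finset
open scoped Classical
open NU (Run mr)

/-- If an epoch of level `b` starts at `s + 1`, a boundary of level at least `b` is crossed. -/
theorem bud_cross (d : Run) (lev : ℤ → ℕ) (b s : ℕ) (hb : 1 ≤ b)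
    (h : ep d lev b (s + 1) = s + 1) :
    ∃ g, min (d.x (s + 1)) (d.x s) < g ∧ g ≤ max (d.x (s + 1)) (d.x s) ∧ b ≤ lev g := by
  by_contra hc
  push Not at hc
  have h1 : cell lev b (d.x (s + 1)) (d.x s) := by
    unfold cell lv
    rw [Finset.sup_lt_iff (show (⊥ : ℕ) < b from hb)]
    intro g hg
    exact hc g (mem_Ioc.1 hg).1 (mem_Ioc.1 hg).2
  have h2 : cell lev b (d.x (s + 1)) (d.x (s + 1)) := by
    unfold cell lv
    rw [Finset.sup_lt_iff (show (⊥ : ℕ) < b from hb)]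
    intro g hg
    have := mem_Ioc.1 hg
    omega
  have h3 : ep d lev b (s + 1) ≤ s := by
    unfold ep
    refine Nat.sInf_le ?_
    intro r r1 r2
    rcases (by omega : r = s ∨ r = s + 1) with e | e
    · rw [e]; exact h1
    · rw [e]; exact h2
  omega

theorem bud3 (c : ℕ) : ∃ C : ℕ, ∀ (n : ℕ) (R : BT) (d : Run) (a : ℕ → ℕ),
    R.keys = List.range' 1 n → d.L = 0 → d.R = n + 1 → (∀ i, d.x i = a i) →
    (∀ i < d.m, 1 ≤ a i ∧ a i ≤ n) →
    ∃ (lev : ℤ → ℕ) (σ : ℕ), Lv d.L d.R lev σ (2 * R.ht + 4) ∧ 2 * R.ht + 4 ≤ σ ∧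
      Z d lev (σ + (2 * R.ht + 4) + 3) c ≤
        C * (d.m + R.ht + 1 + ∑ i ∈ range (d.m - 1), R.dist (a i) (a (i + 1))) := by
  obtain ⟨C, hC⟩ := Ruler.avg_val c
  refine ⟨7 * C, fun n R d a hR hL hRR hx ha => ?_⟩
  obtain ⟨l0, hu, hle, -, hj⟩ := ref_lev n R hR
  obtain ⟨H, hH⟩ : ∃ H, H = 2 * R.ht + 4 := ⟨_, rfl⟩
  rw [← hH]
  let len : ℕ → ℕ := fun s => if s = 0 then H + 2 else 2 * R.dist (a (s - 1)) (a s) + 1
  let I : Finset (ℕ × ℕ) := (range (H + 3) ×ˢ range d.m).filter fun p =>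
    bot l0 (d.x p.2) ≤ p.1 ∧ p.1 ≤ bot l0 (d.x p.2) + len p.2
  have hpow : H + 2 + (H + 1) ≤ 2 ^ (H + 1 + 1) := by
    have := Nat.lt_two_pow_self (n := H + 1)
    rw [pow_succ]; omega
  obtain ⟨s, hs1, -, hs3⟩ := hC (H + 1) (H + 1) (ℕ × ℕ) I (fun p => p.1) (fun _ => 1) (by omega)
    (fun p hp => by
      have := mem_range.1 (mem_product.1 (mem_filter.1 hp).1).1
      show p.1 + (H + 1) ≤ _
      omega)
  refine ⟨fun y => l0 y + s, s - 1, ⟨fun y _ _ => ?_, fun u v h1 h2 h3 h4 => ?_⟩, by omega, ?_⟩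
  · have := hle y
    constructor <;> omega
  · obtain ⟨e, e1, e2, e3⟩ := hu u v (by omega) h2 (by omega) (by omega)
    exact ⟨e, e1, e2, by omega⟩
  have hsub : EP d (fun y => l0 y + s) (s - 1 + H + 3) ⊆ I.image fun p => (p.1 + s, p.2) := by
    intro p hp
    obtain ⟨h1, h2, h3⟩ := mem_filter.1 hp
    obtain ⟨h4, h5⟩ := mem_product.1 h1
    have h4' := mem_range.1 h4
    have h5' := mem_range.1 h5
    have h2' : bot l0 (d.x p.2) + s ≤ p.1 := by
      simp only [bot] at h2 ⊢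
      omega
    refine mem_image.2 ⟨(p.1 - s, p.2), mem_filter.2 ⟨mem_product.2 ⟨mem_range.2 (by
      show p.1 - s < _
      omega), h5⟩, by
      show bot l0 (d.x p.2) ≤ p.1 - s
      omega, ?_⟩, Prod.ext (by
      show p.1 - s + s = p.1
      omega) rfl⟩
    show p.1 - s ≤ bot l0 (d.x p.2) + len p.2
    rcases Nat.eq_zero_or_eq_succ_pred p.2 with e | e
    · have : len p.2 = H + 2 := by simp only [len]; rw [if_pos e]
      omega
    · obtain ⟨r, hr⟩ : ∃ r, p.2 = r + 1 := ⟨_, e⟩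
      have hl : len p.2 = 2 * R.dist (a r) (a (r + 1)) + 1 := by
        simp only [len]; rw [if_neg (by omega), hr, Nat.add_sub_cancel]
      rw [hr] at h3 h5'
      obtain ⟨g, g1, g2, g3⟩ := bud_cross d _ p.1 r (by omega) h3
      rw [hx, hx] at g1 g2
      have a1 := ha r (by omega)
      have a2 := ha (r + 1) h5'
      have j1 := hj (a r) (a (r + 1)) g (a (r + 1)) a1.1 a1.2 a2.1 a2.2 (by omega) (by omega)
        (Or.inr (Or.inr (Or.inl rfl)))
      have j2 := hj (a r) (a (r + 1)) g (a (r + 1) + 1) a1.1 a1.2 a2.1 a2.2 (by omega) (by omega)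
        (Or.inr (Or.inr (Or.inr rfl)))
      rw [hl, hr, hx]
      simp only [bot] at g3 ⊢
      omega
  have hZ : Z d (fun y => l0 y + s) (s - 1 + H + 3) c ≤
      ∑ p ∈ I, 1 * (padicValNat 2 (p.1 + s) + 1) ^ c := by
    unfold Z
    refine le_trans (sum_le_sum_of_subset hsub) ?_
    refine le_trans (sum_image_le_of_nonneg fun _ _ => Nat.zero_le _) ?_
    exact le_of_eq (sum_congr rfl fun p _ => by rw [one_mul])
  have hI : #I ≤ ∑ t ∈ range d.m, (len t + 1) := by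
    have h1 : I ⊆ (range d.m).biUnion fun t =>
        (Icc (bot l0 (d.x t)) (bot l0 (d.x t) + len t)).image fun b => (b, t) := by
      intro p hp
      obtain ⟨h1, h2, h3⟩ := mem_filter.1 hp
      exact mem_biUnion.2 ⟨p.2, (mem_product.1 h1).2,
        mem_image.2 ⟨p.1, mem_Icc.2 ⟨h2, h3⟩, rfl⟩⟩
    refine le_trans (card_le_card h1) (le_trans card_biUnion_le (sum_le_sum fun t _ => ?_))
    refine le_trans card_image_le ?_
    rw [Nat.card_Icc]
    omega
  have hS : ∑ t ∈ range d.m, (len t + 1) ≤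
      7 * (d.m + R.ht + 1 + ∑ i ∈ range (d.m - 1), R.dist (a i) (a (i + 1))) := by
    rcases Nat.eq_zero_or_eq_succ_pred d.m with e | e
    · rw [e]; simp
    · obtain ⟨k, hk⟩ : ∃ k, d.m = k + 1 := ⟨_, e⟩
      rw [hk, sum_range_succ', Nat.add_sub_cancel]
      have e1 : ∑ t ∈ range k, (len (t + 1) + 1) =
          2 * ∑ i ∈ range k, R.dist (a i) (a (i + 1)) + 2 * k := by
        rw [mul_sum, show 2 * k = ∑ _i ∈ range k, 2 by simp [mul_comm], ← sum_add_distrib]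
        refine sum_congr rfl fun t _ => ?_
        simp only [len]
        rw [if_neg (by omega), Nat.add_sub_cancel]
      have e2 : len 0 = H + 2 := by simp only [len]; rw [if_pos trivial]
      rw [e1, e2]
      omega
  refine le_trans hZ (le_trans hs3 ?_)
  rw [← card_eq_sum_ones, mul_comm 7 C, mul_assoc]
  exact Nat.mul_le_mul_left _ (le_trans hI hS)

theorem bud_mono (d : Run) (lev : ℤ → ℕ) (top top' c c' : ℕ) (h : top ≤ top') (hc : c ≤ c') :
    Z d lev top c ≤ Z d lev top' c' := by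
  unfold Z
  have hsub : EP d lev top ⊆ EP d lev top' := by
    intro p hp
    obtain ⟨h1, h2⟩ := mem_filter.1 hp
    obtain ⟨h3, h4⟩ := mem_product.1 h1
    have := mem_range.1 h3
    exact mem_filter.2 ⟨mem_product.2 ⟨mem_range.2 (by omega), h4⟩, h2⟩
  exact le_trans (sum_le_sum fun p _ => Nat.pow_le_pow_right (by omega) hc)
    (sum_le_sum_of_subset hsub)

theorem bud (c : ℕ) : ∃ C : ℕ, ∀ (n : ℕ) (R : BT) (d : Run) (a : ℕ → ℕ),
    R.keys = List.range' 1 n → d.L = 0 → d.R = n + 1 → (∀ i, d.x i = a i) →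
    (∀ i < d.m, 1 ≤ a i ∧ a i ≤ n) →
    ∃ (lev : ℤ → ℕ) (σ : ℕ), Lv d.L d.R lev σ (2 * R.ht + 4) ∧ 2 * R.ht + 4 ≤ σ ∧
      Z d lev (σ + (2 * R.ht + 4) + 1) c ≤
        C * (d.m + R.ht + 1 + ∑ i ∈ range (d.m - 1), R.dist (a i) (a (i + 1))) := by
  obtain ⟨C, hC⟩ := bud3 c
  refine ⟨C, fun n R d a h1 h2 h3 h4 h5 => ?_⟩
  obtain ⟨lev, σ, g1, g2, g3⟩ := hC n R d a h1 h2 h3 h4 h5
  exact ⟨lev, σ, g1, g2, le_trans (bud_mono d lev _ _ c c (by omega) le_rfl) g3⟩

end Pool.Agent.P.MP_119182_lc.LW
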