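import Pool.Agent.P.MP_119182_lc.LW.IfaceF
import Pool.Agent.P.MP_119182_lc.LW.Bud

/-! Step BUD. -/

set_option autoImplicit false

namespace Pool.Agent.P.MP_119182_lc.LW

theorem p_BUD (_hCELL : S_CELL) (_hEP : S_EP) :
    S_BUD := fun c => bud3 c

end Pool.Agent.P.MP_119182_lc.LW
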