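import Pool.Agent.P.MP_119182_lc.LT.Iface

/-! Static levels, cells, epochs and caps. -/

set_option autoImplicit false

namespace Pool.Agent.P.MP_119182_lc.LW.W

open Finset
open scoped Classical
open NU (Run mr)
open LP (on up low ON)
open LT (lw mate frz clr fst hd vis)

/-- The largest level of a boundary in `(a, b]`; boundary `y` lies between `y - 1` and `y`. -/
noncomputable def lv (lev : ℤ → ℕ) (a b : ℤ) : ℕ := (Ioc a b).sup lev

/-- The largest level of a boundary between two points. -/
noncomputable def ls (lev : ℤ → ℕ) (a b : ℤ) : ℕ := lv lev (min a b) (max a b)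

/-- The mirrored levels. -/
def ml (lev : ℤ → ℕ) (g : ℤ) : ℕ := lev (-g)

/-- Levels with a unique maximum on each interval; the outer boundaries are on top. -/
structure Lev (L R : ℤ) (lev : ℤ → ℕ) (H : ℕ) : Prop where
  uniq : ∀ a b, L < a → a < b → b ≤ R → lev a = lev b → ∃ c, a < c ∧ c < b ∧ lev a < lev c
  top : ∀ y, L + 1 < y → y < R → lev y < lev (L + 1) ∧ lev y < lev R
  le : ∀ y, lev y ≤ H

section
variable (d : Run) (lev : ℤ → ℕ)

/-- The smaller level of the two boundaries of a key. -/
def lw0 (x : ℤ) : ℕ := min (lev x) (lev (x + 1))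

/-- The first time from `s` on after which the access leaves the cell of level `b` (or the
last time). The cell of level `b` of `x` is the set of all `y` with `ls lev x y ≤ b`. -/
noncomputable def ee (b s : ℕ) : ℕ :=
  sInf {e | s ≤ e ∧ (d.m ≤ e + 1 ∨ b < ls lev (d.x e) (d.x (e + 1)))}

/-- The epochs that are paid: level and last time. -/
noncomputable def EP (H : ℕ) : Finset (ℕ × ℕ) :=
  (range (H + 1) ×ˢ range d.m).filter fun p => lw0 lev (d.x p.2) ≤ p.1 + 1 ∧
    (d.m ≤ p.2 + 1 ∨ p.1 < ls lev (d.x p.2) (d.x (p.2 + 1)))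

/-- The level between the access and a node. -/
noncomputable def an (t : ℕ) (y : ℤ) : ℕ := ls lev (d.x t) y

/-- The far end of the token shown by `y`. -/
noncomputable def far (t : ℕ) (y : ℤ) : ℤ := if d.x t < y then d.rp t y else d.lp t y

/-- The level of the token shown by `y`. -/
noncomputable def lam (t : ℕ) (y : ℤ) : ℕ := ls lev y (far d t y)

/-- The level of the viewer of the token shown by `y`. -/
noncomputable def al (t : ℕ) (y : ℤ) : ℕ := ls lev (d.x t) (far d t y)

/-- The token of `y` is the lower one of a link. -/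
def lo (t : ℕ) (y : ℤ) : Prop :=
  (up d t y ∨ ∃ u, low d t y u) ∧ lam d lev t y < lam d lev t (mate d t y)

/-- Hot links, named by the upper node. -/
def hot (t : ℕ) (u : ℤ) : Prop :=
  up d t u ∧ an d lev t (lw d t u) ≤ max (lam d lev t (lw d t u)) (lam d lev t u)

/-- All hot links. -/
noncomputable def HOT : Finset (ℕ × ℤ) := (LT.TK d).filter fun p => hot d lev p.1 p.2

/-- The node `v` is touched at `s` and next at `ρ`, from the other side. -/
def flip (s : ℕ) (v : ℤ) (ρ : ℕ) : Prop :=
  s < ρ ∧ ρ < d.m ∧ on d s v ∧ frz d (s + 1) ρ v ∧ on d ρ v ∧ (d.x s < v ↔ v < d.x ρ)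

/-- The births whose cap is below the first viewer. -/
noncomputable def EFF : Finset (ℕ × ℤ) :=
  (LT.TK d).filter fun p => ∃ ρ, flip d p.1 p.2 ρ ∧ an d lev p.1 p.2 < al d lev ρ p.2

variable (cL cR : ℕ → ℤ → ℕ)

/-- The cap of the token shown. -/
noncomputable def cp (t : ℕ) (y : ℤ) : ℕ := if d.x t < y then cR t y else cL t y

/-- The level to which a low token is raised. -/
noncomputable def tg (t : ℕ) (y : ℤ) : ℕ :=
  min (max (lam d lev t (mate d t y))
    (min (al d lev t (mate d t y)) (cp d cL cR t (mate d t y)))) (al d lev t y)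

/-- A raise. -/
def rz (t : ℕ) (y : ℤ) : Prop := lo d lev t y ∧ cp d cL cR t y < tg d lev cL cR t y

/-- The cap that a node which is not an upper node inherits. -/
noncomputable def inh (t : ℕ) (y : ℤ) : ℕ :=
  if lo d lev t y then cp d cL cR t (mate d t y) else cp d cL cR t y

/-- The rules for the caps of the left and of the right token. -/
structure Cp (H : ℕ) : Prop where
  ok : d.OK
  lvl : Lev d.L d.R lev H
  zero : ∀ y, cL 0 y = H + 1 ∧ cR 0 y = H + 1
  acc : ∀ t < d.m, cL (t + 1) (d.x t) = H + 1 ∧ cR (t + 1) (d.x t) = H + 1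
  off : ∀ t < d.m, ∀ y, y ≠ d.x t → ¬ on d t y → cL (t + 1) y = cL t y ∧ cR (t + 1) y = cR t y
  right : ∀ t < d.m, ∀ y, on d t y → d.x t < y → cL (t + 1) y = an d lev t y + 1 ∧
    cR (t + 1) y = if up d t y then H + 1 else inh d lev cL cR t y
  left : ∀ t < d.m, ∀ y, on d t y → y < d.x t → cR (t + 1) y = an d lev t y + 1 ∧
    cL (t + 1) y = if up d t y then H + 1 else inh d lev cL cR t y

/-- The price of the raises of right tokens. -/
noncomputable def WR : ℕ :=
  ∑ p ∈ (LT.TK d).filter fun p => rz d lev cL cR p.1 p.2 ∧ d.x p.1 < p.2,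
    Nat.size (tg d lev cL cR p.1 p.2 + 1 - cp d cL cR p.1 p.2) ^ 3

/-- The price of the raises of left tokens. -/
noncomputable def WL : ℕ :=
  ∑ p ∈ (LT.TK d).filter fun p => rz d lev cL cR p.1 p.2 ∧ p.2 < d.x p.1,
    Nat.size (tg d lev cL cR p.1 p.2 + 1 - cp d cL cR p.1 p.2) ^ 3

end

/-- The ruler weight of the epochs for the shift `σ` and the exponent `c`. -/
noncomputable def RU (d : Run) (lev : ℤ → ℕ) (H σ c : ℕ) : ℕ :=
  ∑ p ∈ EP d lev H, ∑ i ∈ (range (H + 1)).filter fun i => 2 ^ i ∣ p.1 + σ, (i + 1) ^ c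

end Pool.Agent.P.MP_119182_lc.LW.W
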