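import Pool.Agent.P.MP_119182_lc.LW.Base
import Pool.Agent.P.MP_119182_lc.LW.WBase
import Pool.Agent.P.MP_119182_lc.NU.Lib

/-! From the bound with outer boundaries on top to the bound with shifted levels. -/

set_option autoImplicit false

namespace Pool.Agent.P.MP_119182_lc.LW

open Finset
open scoped Classical
open NU (Run mr)

/-- The bound for all links with the outer boundaries on top. -/
def brg_All : Prop :=
  ∃ c : ℕ, ∀ K : ℕ, ∃ C : ℕ, ∀ (d : Run) (lev : ℤ → ℕ) (H σ : ℕ), d.OK → W.Lev d.L d.R lev H →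
    K * #((LT.TK d).filter fun p => LP.up d p.1 p.2) ≤ d.NR + d.mir.NR +
      C * ((d.R - d.L).toNat * Nat.size (H + 1) ^ 3 + d.m + W.RU d lev H σ c + #(W.HOT d lev))

/-- The levels without the shift, with the outer boundaries on top. -/
noncomputable def brg_lev (L R : ℤ) (lev : ℤ → ℕ) (σ H : ℕ) (y : ℤ) : ℕ :=
  if y = L + 1 then H + 1 else if y = R then H + 2 else
    if L + 1 < y ∧ y < R then lev y - σ else 0

theorem brg_in (L R : ℤ) (lev : ℤ → ℕ) (σ H : ℕ) (y : ℤ) (h1 : L + 1 < y) (h2 : y < R) :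
    brg_lev L R lev σ H y = lev y - σ := by
  unfold brg_lev
  rw [if_neg (by omega), if_neg (by omega), if_pos ⟨h1, h2⟩]

theorem brg_left (L R : ℤ) (lev : ℤ → ℕ) (σ H : ℕ) : brg_lev L R lev σ H (L + 1) = H + 1 := by
  unfold brg_lev
  rw [if_pos rfl]

theorem brg_right (L R : ℤ) (lev : ℤ → ℕ) (σ H : ℕ) (h : L + 1 < R) :
    brg_lev L R lev σ H R = H + 2 := by
  unfold brg_lev
  rw [if_neg (by omega), if_pos rfl]

theorem brg_Lev {L R : ℤ} {lev : ℤ → ℕ} {σ H : ℕ} (h : Lv L R lev σ H) :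
    W.Lev L R (brg_lev L R lev σ H) (H + 2) := by
  refine ⟨?_, ?_, ?_⟩
  · intro a b h1 h2 h3 h4
    have ha := h.bnd a h1 (by omega)
    have hb := h.bnd b (by omega) h3
    by_cases e1 : a = L + 1
    · exfalso
      rw [e1, brg_left] at h4
      by_cases e2 : b = R
      · rw [e2, brg_right _ _ _ _ _ (by omega)] at h4
        omega
      · rw [brg_in _ _ _ _ _ b (by omega) (by omega)] at h4
        omega
    · rw [brg_in _ _ _ _ _ a (by omega) (by omega)] at h4 ⊢
      by_cases e2 : b = R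
      · exfalso
        rw [e2, brg_right _ _ _ _ _ (by omega)] at h4
        omega
      · rw [brg_in _ _ _ _ _ b (by omega) (by omega)] at h4
        obtain ⟨c, c1, c2, c3⟩ := h.uniq a b h1 h2 h3 (by omega)
        refine ⟨c, c1, c2, ?_⟩
        rw [brg_in _ _ _ _ _ c (by omega) (by omega)]
        omega
  · intro y h1 h2
    have hy := h.bnd y (by omega) (by omega)
    rw [brg_in _ _ _ _ _ y h1 h2, brg_left, brg_right _ _ _ _ _ (by omega)]
    omega
  · intro y
    unfold brg_lev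
    split_ifs with h1 h2 h3
    · omega
    · omega
    · have := h.bnd y (by omega) (by omega)
      omega
    · omega

theorem brg_ge {L R : ℤ} {lev : ℤ → ℕ} {σ H : ℕ} (h : Lv L R lev σ H) (y : ℤ) (h1 : L < y)
    (h2 : y ≤ R) : lev y ≤ brg_lev L R lev σ H y + σ := by
  have := h.bnd y h1 h2
  unfold brg_lev
  split_ifs with a1 a2 a3
  · omega
  · omega
  · omega
  · omega

theorem brg_lv (L R : ℤ) (lev : ℤ → ℕ) (σ H : ℕ) (a b : ℤ) (h1 : L < a) (h2 : b < R) :
    W.lv (brg_lev L R lev σ H) a b = lv lev a b - σ := by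
  unfold W.lv lv
  apply le_antisymm
  · apply Finset.sup_le
    intro y hy
    rw [mem_Ioc] at hy
    rw [brg_in _ _ _ _ _ y (by omega) (by omega)]
    have : lev y ≤ (Ioc a b).sup lev := Finset.le_sup (f := lev) (mem_Ioc.2 hy)
    omega
  · rw [Nat.sub_le_iff_le_add]
    apply Finset.sup_le
    intro y hy
    have k : brg_lev L R lev σ H y ≤ (Ioc a b).sup (brg_lev L R lev σ H) :=
      Finset.le_sup (f := brg_lev L R lev σ H) hy
    rw [mem_Ioc] at hy
    rw [brg_in _ _ _ _ _ y (by omega) (by omega)] at k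
    omega

theorem brg_up (d : Run) (hd : d.OK) (t : ℕ) (ht : t < d.m) (u : ℤ) :
    LP.up d t u ↔ LU.up d t u := by
  unfold LP.up LP.on LU.up LU.tch LU.key
  constructor
  · rintro ⟨_, ⟨a1, a2, a3, a4, a5⟩, a6, a7⟩
    refine ⟨⟨⟨a1, a2⟩, a4, a5⟩, ?_⟩
    rcases lt_or_gt_of_ne a3 with k | k
    · exact Or.inr ⟨k, a7⟩
    · exact Or.inl ⟨k, a6⟩
  · rintro ⟨⟨⟨a1, a2⟩, a4, a5⟩, k⟩
    have hb := (hd.tree (t + 1) (by omega)).bnd u a1 a2
    rcases k with ⟨k1, k2⟩ | ⟨k1, k2⟩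
    · exact ⟨ht, ⟨a1, a2, by omega, a4, a5⟩, k2, by omega⟩
    · exact ⟨ht, ⟨a1, a2, by omega, a4, a5⟩, by omega, k2⟩

/-- A right link that is hot or reaches the right end. -/
def brg_hot (d : Run) (lev : ℤ → ℕ) (t : ℕ) (u : ℤ) : Prop :=
  LU.up d t u ∧ d.x t < u ∧ (d.rp t u = d.R ∨ lv lev (d.x t) (LU.low d t u) ≤
    max (lv lev (LU.low d t u) u) (lv lev u (d.rp t u)))

theorem brg_count (hCELL : S_CELL) (hVIS : S_VIS) (hLINK : LU.S_LINK) (d : Run) (hd : d.OK)
    (lev : ℤ → ℕ) (σ H : ℕ) (h : Lv d.L d.R lev σ H) :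
    #((range d.m ×ˢ d.keys).filter fun p => brg_hot d lev p.1 p.2) ≤
      #(NEAR d lev) + #(FAR d lev) + d.m := by
  have hsub : ((range d.m ×ˢ d.keys).filter fun p => brg_hot d lev p.1 p.2) ⊆
      (NEAR d lev ∪ FAR d lev) ∪ ((range d.m ×ˢ d.keys).filter fun p =>
        LU.up d p.1 p.2 ∧ d.x p.1 < p.2 ∧ d.rp p.1 p.2 = d.R) := by
    intro p hp
    rw [mem_filter] at hp
    obtain ⟨hm, hu, hx, hc⟩ := hp
    have ht : p.1 < d.m := mem_range.1 (mem_product.1 hm).1
    rcases hc with hc | hc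
    · exact mem_union_right _ (mem_filter.2 ⟨hm, hu, hx, hc⟩)
    · apply mem_union_left
      obtain ⟨_, _, _, _, _, hl⟩ := (hLINK d hd p.1 ht).1 p.2 hu
      have hxm := (hd.step p.1 ht).mem
      have hk : d.L < p.2 ∧ p.2 < d.R := hu.1.1
      have hb := (hd.tree p.1 ht.le).bnd p.2 hk.1 hk.2
      have hlo : d.x p.1 < LU.low d p.1 p.2 ∧ LU.low d p.1 p.2 < p.2 := by
        rcases hl with hl | hl
        · exact ⟨hl.1, hl.2.1⟩
        · omega
      have n1 := hCELL.2.2.2.2.2.2.1 _ _ lev σ H h (d.x p.1) (LU.low d p.1 p.2) p.2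
        (by omega) hlo.1 hlo.2 (by omega)
      have n2 := hCELL.2.2.2.2.2.2.1 _ _ lev σ H h (d.x p.1) p.2 (d.rp p.1 p.2)
        (by omega) hx (by omega) (by omega)
      have e1 := hCELL.1 lev (d.x p.1) (LU.low d p.1 p.2) p.2 hlo.1.le hlo.2.le
      by_cases hn : lv lev (d.x p.1) (LU.low d p.1 p.2) < lv lev (LU.low d p.1 p.2) p.2
      · exact mem_union_left _ (mem_filter.2 ⟨hm, hu, hx, hn⟩)
      · refine mem_union_right _ (mem_filter.2 ⟨hm, hu, hx, by omega, by omega⟩)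
  have h3 : #((range d.m ×ˢ d.keys).filter fun p =>
      LU.up d p.1 p.2 ∧ d.x p.1 < p.2 ∧ d.rp p.1 p.2 = d.R) ≤ d.m := by
    refine le_trans (card_le_card_of_injOn (t := range d.m) (fun p => p.1) ?_ ?_) (by simp)
    · intro p hp
      exact (mem_product.1 (mem_filter.1 hp).1).1
    · intro p hp q hq e
      have hp' := mem_filter.1 (mem_coe.1 hp)
      have hq' := mem_filter.1 (mem_coe.1 hq)
      obtain ⟨t, u⟩ := p
      obtain ⟨t', u'⟩ := q
      have e' : t = t' := e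
      subst e'
      have ht : t < d.m := mem_range.1 (mem_product.1 hp'.1).1
      obtain ⟨_, a1, a2, a3⟩ := hp'
      obtain ⟨_, b1, b2, b3⟩ := hq'
      simp only at a1 a2 a3 b1 b2 b3
      have ka : d.L < u ∧ u < d.R := a1.1.1
      have kb : d.L < u' ∧ u' < d.R := b1.1.1
      obtain ⟨_, _, _, _, _, la⟩ := (hLINK d hd t ht).1 u a1
      obtain ⟨_, _, _, _, _, lb⟩ := (hLINK d hd t ht).1 u' b1
      rcases lt_trichotomy u u' with k | k | k
      · have := (hVIS d hd).2.2.2 t u u' ht a1 b1 a2 k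
        omega
      · rw [k]
      · have := (hVIS d hd).2.2.2 t u' u ht b1 a1 b2 k
        omega
  have h1 := card_le_card hsub
  have h2 := card_union_le (NEAR d lev ∪ FAR d lev) ((range d.m ×ˢ d.keys).filter fun p =>
        LU.up d p.1 p.2 ∧ d.x p.1 < p.2 ∧ d.rp p.1 p.2 = d.R)
  have h4 := card_union_le (NEAR d lev) (FAR d lev)
  omega

theorem brg_ls (lev : ℤ → ℕ) (a b : ℤ) (h : a ≤ b) :
    W.ls lev a b = W.lv lev a b ∧ W.ls lev b a = W.lv lev a b := by
  unfold W.ls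
  rw [min_eq_left h, max_eq_right h, min_eq_right h, max_eq_left h]
  exact ⟨rfl, rfl⟩

theorem brg_side (hCELL : S_CELL) (hMIR : S_MIR) (hLINK : LU.S_LINK) (hMIRA : LU.S_MIRA)
    (d : Run) (hd : d.OK) (lev : ℤ → ℕ) (σ H : ℕ) (h : Lv d.L d.R lev σ H) (t : ℕ) (u : ℤ)
    (hh : W.hot d (brg_lev d.L d.R lev σ H) t u) :
    brg_hot d lev t u ∨ brg_hot d.mir (ml lev) t (mr u) := by
  obtain ⟨hu, hc⟩ := hh
  have ht : t < d.m := hu.1
  have hu' := (brg_up d hd t ht u).1 hu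
  have hlw : LT.lw d t u = LU.low d t u := rfl
  rw [hlw] at hc
  obtain ⟨_, _, _, _, _, hl⟩ := (hLINK d hd t ht).1 u hu'
  have hxm := (hd.step t ht).mem
  have hk : d.L < u ∧ u < d.R := hu'.1.1
  have hb := (hd.tree t ht.le).bnd u hk.1 hk.2
  have h8 := hCELL.2.2.2.2.2.2.2 _ _ lev σ H h
  rcases hl with hl | hl
  · left
    refine ⟨hu', by omega, ?_⟩
    by_cases hR : d.rp t u = d.R
    · exact Or.inl hR
    · right
      unfold W.an W.lam W.far at hc
      rw [if_pos hl.1, if_pos (show d.x t < u by omega), hl.2.2.1,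
        (brg_ls _ _ _ hl.1.le).1, (brg_ls _ _ _ hl.2.1.le).1,
        (brg_ls _ u (d.rp t u) (by omega)).1, brg_lv _ _ _ _ _ _ _ (by omega) (by omega),
        brg_lv _ _ _ _ _ _ _ (by omega) (by omega),
        brg_lv _ _ _ _ _ _ _ (by omega) (by omega)] at hc
      have a1 := h8 (d.x t) (LU.low d t u) (by omega) hl.1 (by omega)
      have a2 := h8 (LU.low d t u) u (by omega) hl.2.1 (by omega)
      omega
  · right
    have hm := hMIRA d ⟨fun _ _ => 0, fun _ _ => 0, fun _ _ => True, fun _ _ => 0⟩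
    have ex : d.mir.x t = mr (d.x t) := rfl
    have er : d.mir.rp t (mr u) = mr (d.lp t u) := by
      show mr (d.lp t (mr (mr u))) = _
      rw [NU.mr_mr]
    have eR : d.mir.R = mr d.L := rfl
    refine ⟨(hm.2.2.1 t u).2 hu', by rw [ex, NU.mr_lt]; omega, ?_⟩
    rw [er, eR, ex, hm.2.2.2.1 t u hu', hMIR.1, hMIR.1, hMIR.1]
    by_cases hL : d.lp t u = d.L
    · exact Or.inl (by rw [hL])
    · right
      unfold W.an W.lam W.far at hc
      rw [if_neg (show ¬ d.x t < LU.low d t u by omega), if_neg (show ¬ d.x t < u by omega),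
        hl.2.2.1, (brg_ls _ _ _ hl.1.le).2, (brg_ls _ _ _ hl.2.1.le).2,
        (brg_ls _ (d.lp t u) u (by omega)).2, brg_lv _ _ _ _ _ _ _ (by omega) (by omega),
        brg_lv _ _ _ _ _ _ _ (by omega) (by omega),
        brg_lv _ _ _ _ _ _ _ (by omega) (by omega)] at hc
      have a1 := h8 (LU.low d t u) (d.x t) (by omega) hl.1 (by omega)
      have a2 := h8 u (LU.low d t u) (by omega) hl.2.1 (by omega)
      omega

theorem brg_HOT (hCELL : S_CELL) (hVIS : S_VIS) (hMIR : S_MIR) (hLINK : LU.S_LINK)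
    (hMIRA : LU.S_MIRA) (d : Run) (hd : d.OK) (lev : ℤ → ℕ) (σ H : ℕ)
    (h : Lv d.L d.R lev σ H) :
    #(W.HOT d (brg_lev d.L d.R lev σ H)) ≤ HOT d lev + 2 * d.m := by
  have hm := hMIRA d ⟨fun _ _ => 0, fun _ _ => 0, fun _ _ => True, fun _ _ => 0⟩
  have hd' : d.mir.OK := hm.2.2.2.2.2.2.2.1 hd
  have h' : Lv d.mir.L d.mir.R (ml lev) σ H := (hMIR.2.2.2 d lev σ H 0 0).1 h
  have c1 := brg_count hCELL hVIS hLINK d hd lev σ H h
  have c2 := brg_count hCELL hVIS hLINK d.mir hd' (ml lev) σ H h'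
  have em : d.mir.m = d.m := rfl
  have hsub : W.HOT d (brg_lev d.L d.R lev σ H) ⊆
      ((range d.m ×ˢ d.keys).filter fun p => brg_hot d lev p.1 p.2) ∪
      ((range d.mir.m ×ˢ d.mir.keys).filter fun p => brg_hot d.mir (ml lev) p.1 p.2).image
        fun p => (p.1, mr p.2) := by
    intro p hp
    obtain ⟨hp1, hp2⟩ := mem_filter.1 hp
    rcases brg_side hCELL hMIR hLINK hMIRA d hd lev σ H h p.1 p.2 hp2 with k | k
    · exact mem_union_left _ (mem_filter.2 ⟨hp1, k⟩)
    · refine mem_union_right _ (mem_image.2 ⟨(p.1, mr p.2), mem_filter.2 ⟨?_, k⟩, ?_⟩)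
      · have kk : d.mir.L < mr p.2 ∧ mr p.2 < d.mir.R := k.1.1.1
        exact mem_product.2 ⟨(mem_product.1 hp1).1, mem_Ioo.2 kk⟩
      · simp only [NU.mr_mr]
  have h1 := card_le_card hsub
  have h2 := card_union_le ((range d.m ×ˢ d.keys).filter fun p => brg_hot d lev p.1 p.2)
    (((range d.mir.m ×ˢ d.mir.keys).filter fun p => brg_hot d.mir (ml lev) p.1 p.2).image
        fun p => (p.1, mr p.2))
  have h3 := card_image_le (s := (range d.mir.m ×ˢ d.mir.keys).filter fun p =>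
    brg_hot d.mir (ml lev) p.1 p.2) (f := fun p : ℕ × ℤ => (p.1, mr p.2))
  unfold HOT
  omega

theorem brg_wt (n B c : ℕ) (hn : n ≠ 0) :
    ∑ i ∈ (range B).filter fun i => 2 ^ i ∣ n, (i + 1) ^ c ≤ (padicValNat 2 n + 1) ^ (c + 1) := by
  have hsub : ((range B).filter fun i => 2 ^ i ∣ n) ⊆ range (padicValNat 2 n + 1) := by
    intro i hi
    have := (padicValNat_dvd_iff_le (p := 2) hn).1 (mem_filter.1 hi).2
    exact mem_range.2 (by omega)
  refine le_trans (sum_le_sum_of_subset hsub) ?_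
  refine le_trans (sum_le_card_nsmul _ _ ((padicValNat 2 n + 1) ^ c) ?_) ?_
  · intro i hi
    exact Nat.pow_le_pow_left (by have := mem_range.1 hi; omega) c
  · rw [card_range, smul_eq_mul, pow_succ, mul_comm]

theorem brg_RU (hCELL : S_CELL) (hEP : S_EP) (d : Run) (hd : d.OK) (lev : ℤ → ℕ) (σ H c : ℕ)
    (h : Lv d.L d.R lev σ H) :
    W.RU d (brg_lev d.L d.R lev σ H) (H + 2) (σ + 1) c ≤ Z d lev (σ + H + 3) (c + 1) := by
  have h8 := hCELL.2.2.2.2.2.2.2 _ _ lev σ H h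
  have hmem : ∀ p ∈ W.EP d (brg_lev d.L d.R lev σ H) (H + 2),
      (p.1 + (σ + 1), ep d lev (p.1 + (σ + 1)) p.2) ∈ EP d lev (σ + H + 3) := by
    intro p hp
    obtain ⟨hp1, hp2, _⟩ := mem_filter.1 hp
    have hb : p.1 < H + 2 + 1 := mem_range.1 (mem_product.1 hp1).1
    have ht : p.2 < d.m := mem_range.1 (mem_product.1 hp1).2
    have E := hEP d lev (p.1 + (σ + 1)) p.2 (by omega)
    refine E.2.2.2.2.2.2.1 _ ht (by omega) ?_
    have hs := E.1
    have hc := (E.2.1 _ le_rfl hs).1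
    have x1 := (hd.step p.2 ht).mem
    have x2 := (hd.step (ep d lev (p.1 + (σ + 1)) p.2) (by omega)).mem
    rcases lt_trichotomy (d.x p.2) (d.x (ep d lev (p.1 + (σ + 1)) p.2)) with k | k | k
    · have a1 := ((hCELL.2.2.2.2.1 lev _ _ _ k.le).1).1 hc
      have a2 := h8 _ _ (by omega) k (by omega)
      omega
    · rw [← k]
      have g1 := brg_ge h (d.x p.2) (by omega) (by omega)
      have g2 := brg_ge h (d.x p.2 + 1) (by omega) (by omega)
      unfold W.lw0 at hp2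
      unfold bot
      omega
    · have a1 := ((hCELL.2.2.2.2.1 lev _ _ _ k.le).2).1 hc
      have a2 := h8 _ _ (by omega) k (by omega)
      omega
  have hlt : ∀ b e e', (b, e) ∈ W.EP d (brg_lev d.L d.R lev σ H) (H + 2) → e < e' → e' < d.m →
      ep d lev (b + (σ + 1)) e < ep d lev (b + (σ + 1)) e' := by
    intro b e e' hp k ht
    obtain ⟨_, _, hp3⟩ := mem_filter.1 hp
    simp only at hp3
    have x1 := (hd.step e (by omega)).mem
    have x2 := (hd.step (e + 1) (by omega)).mem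
    have hn : ¬ cell lev (b + (σ + 1)) (d.x e) (d.x (e + 1)) := by
      unfold cell
      rcases hp3 with k' | k'
      · omega
      · unfold W.ls at k'
        rw [brg_lv _ _ _ _ _ _ _ (by omega) (by omega)] at k'
        omega
    have a1 := (hEP d lev (b + (σ + 1)) e' (by omega)).2.2.2.1 e k hn
    have a2 := (hEP d lev (b + (σ + 1)) e (by omega)).1
    omega
  have hinj : Set.InjOn (fun p : ℕ × ℕ => (p.1 + (σ + 1), ep d lev (p.1 + (σ + 1)) p.2))
      (W.EP d (brg_lev d.L d.R lev σ H) (H + 2) : Set (ℕ × ℕ)) := by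
    intro p hp q hq e
    obtain ⟨b, t⟩ := p
    obtain ⟨b', t'⟩ := q
    simp only [Prod.mk.injEq] at e
    have eb : b = b' := by omega
    subst eb
    have hp' := mem_coe.1 hp
    have hq' := mem_coe.1 hq
    have t1 : t < d.m := mem_range.1 (mem_product.1 (mem_filter.1 hp').1).2
    have t2 : t' < d.m := mem_range.1 (mem_product.1 (mem_filter.1 hq').1).2
    rcases lt_trichotomy t t' with k | k | k
    · have := hlt b t t' hp' k t2
      omega
    · rw [k]
    · have := hlt b t' t hq' k t1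
      omega
  unfold W.RU Z
  calc _ ≤ ∑ p ∈ W.EP d (brg_lev d.L d.R lev σ H) (H + 2),
        (padicValNat 2 (p.1 + (σ + 1)) + 1) ^ (c + 1) :=
        sum_le_sum fun p _ => brg_wt _ _ _ (by omega)
    _ = ∑ q ∈ (W.EP d (brg_lev d.L d.R lev σ H) (H + 2)).image
        (fun p : ℕ × ℕ => (p.1 + (σ + 1), ep d lev (p.1 + (σ + 1)) p.2)),
        (padicValNat 2 q.1 + 1) ^ (c + 1) := by
        rw [sum_image hinj]
    _ ≤ _ := by
        apply sum_le_sum_of_subset
        intro q hq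
        obtain ⟨p, hp, rfl⟩ := mem_image.1 hq
        exact hmem p hp

theorem brg_size (H : ℕ) : Nat.size (H + 2 + 1) ^ 3 ≤ 8 * (Nat.size H + 1) ^ 3 := by
  have h1 : H < 2 ^ Nat.size H := Nat.lt_size_self H
  have h2 : Nat.size (H + 2 + 1) ≤ Nat.size H + 2 := by
    rw [Nat.size_le, pow_add]
    omega
  calc Nat.size (H + 2 + 1) ^ 3 ≤ (2 * (Nat.size H + 1)) ^ 3 :=
        Nat.pow_le_pow_left (by omega) 3
    _ = 8 * (Nat.size H + 1) ^ 3 := by ring

theorem brg_main (hCELL : S_CELL) (hEP : S_EP) (hVIS : S_VIS) (hMIR : S_MIR) (hLINK : LU.S_LINK)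
    (hMIRA : LU.S_MIRA) (hALL : brg_All) : G_W := by
  obtain ⟨c, hc⟩ := hALL
  refine ⟨c + 1, fun K => ?_⟩
  obtain ⟨C, hC⟩ := hc K
  refine ⟨8 * C, fun d lev σ H hd h _ => ?_⟩
  have h0 := hC d (brg_lev d.L d.R lev σ H) (H + 2) (σ + 1) hd (brg_Lev h)
  have e : LU.LK d = (LT.TK d).filter fun p => LP.up d p.1 p.2 := by
    unfold LU.LK LT.TK
    apply filter_congr
    intro p hp
    exact (brg_up d hd p.1 (mem_range.1 (mem_product.1 hp).1) p.2).symm
  have h1 := brg_HOT hCELL hVIS hMIR hLINK hMIRA d hd lev σ H h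
  have h2 := brg_RU hCELL hEP d hd lev σ H c h
  have h3 := Nat.mul_le_mul_left (d.R - d.L).toNat (brg_size H)
  rw [e]
  refine le_trans h0 (Nat.add_le_add_left ?_ _)
  rw [mul_comm 8 C, mul_assoc]
  apply Nat.mul_le_mul_left
  have e3 : (d.R - d.L).toNat * (8 * (Nat.size H + 1) ^ 3) =
      8 * ((d.R - d.L).toNat * (Nat.size H + 1) ^ 3) := by ring
  omega

end Pool.Agent.P.MP_119182_lc.LW
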