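import Pool.Agent.P.MP_119182_lc.LW.IfaceB
import Pool.Agent.P.MP_119182_lc.LW.Bridge

/-! Step BW. -/

set_option autoImplicit false

namespace Pool.Agent.P.MP_119182_lc.LW

theorem p_BW (hCELL : S_CELL) (hEP : S_EP) (hVIS : S_VIS) (hMIR : S_MIR) (hLINK : LU.S_LINK)
    (hMIRA : LU.S_MIRA) (hALL : G_ALL) : S_BW :=
  brg_main hCELL hEP hVIS hMIR hLINK hMIRA ⟨14, hALL⟩

end Pool.Agent.P.MP_119182_lc.LW
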