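import Pool.Agent.P.MP_119182_lc.LW.IfaceF

/-! Step FIN. -/

set_option autoImplicit false

namespace Pool.Agent.P.MP_119182_lc.LW

open Finset
open scoped Classical
open NU (Run mr)
open LU (key tch up low LK)

theorem fin_ht (R : BT) : R.ht ≤ R.keys.length := by
  induction R with
  | nil => simp [BT.ht]
  | node l k r il ir =>
    simp only [BT.ht, BT.keys, List.length_append, List.length_cons]
    omega

theorem fin_size (h : ℕ) : (Nat.size (2 * h + 4) + 1) ^ 3 ≤ 64 * (Nat.log 2 h + 1) ^ 3 := by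
  have h1 : h < 2 ^ (Nat.log 2 h + 1) := Nat.lt_pow_succ_log_self (by norm_num) h
  have h2 : 1 ≤ 2 ^ Nat.log 2 h := Nat.one_le_two_pow
  have h3 : Nat.size (2 * h + 4) ≤ Nat.log 2 h + 3 := by
    rw [Nat.size_le]
    rw [pow_succ] at h1
    rw [pow_add]
    omega
  calc (Nat.size (2 * h + 4) + 1) ^ 3 ≤ (4 * (Nat.log 2 h + 1)) ^ 3 :=
        Nat.pow_le_pow_left (by omega) 3
    _ = _ := by ring

theorem p_FIN (hABS : S_ABS) (hBUD : S_BUD) (hLK : S_LK) (hALGA : NU.S_ALGA) (hBRG : NU.S_BRG)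
    (hTURN : NU.S_TURN) : S_FIN := by
  obtain ⟨c, C, hC⟩ := hABS
  obtain ⟨C2, hB⟩ := hBUD c
  refine ⟨C * (128 + 2 * C2) + 40, fun n m T R a h1 h2 h3 => ?_⟩
  rcases Nat.eq_zero_or_pos n with rfl | hn
  · rcases Nat.eq_zero_or_pos m with rfl | hm
    · simp [cost]
    · have := h3 0 hm
      omega
  have k1 : R.ht ≤ n := by simpa [h2] using fin_ht R
  have k2 := fin_size R.ht
  have k3 : n ≤ n * (Nat.log 2 R.ht + 1) ^ 3 := Nat.le_mul_of_pos_right _ (by positivity)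
  have k4 : (n + 1) * (Nat.size (2 * R.ht + 4) + 1) ^ 3 ≤ 128 * (n * (Nat.log 2 R.ht + 1) ^ 3) :=
    calc (n + 1) * (Nat.size (2 * R.ht + 4) + 1) ^ 3
        ≤ (2 * n) * (64 * (Nat.log 2 R.ht + 1) ^ 3) := Nat.mul_le_mul (by omega) k2
      _ = _ := by ring
  obtain ⟨D, hD⟩ : ∃ D, D = ∑ i ∈ range (m - 1), R.dist (a i) (a (i + 1)) := ⟨_, rfl⟩
  rw [← hD]
  generalize n * (Nat.log 2 R.ht + 1) ^ 3 = A at k3 k4 ⊢
  have main : ∀ f : Run, f.OK → f.L = 0 → f.R = (n : ℤ) + 1 → f.m = m →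
      (∀ i, f.x i = (a i : ℤ)) →
      100 * (f.LamR + f.mir.LamR) ≤ f.NR + f.mir.NR + C * ((128 + 2 * C2) * (A + m + D)) := by
    intro f hf f1 f2 f3 f4
    obtain ⟨lev, σ, b1, b2, b3⟩ := hB n R f a h2 f1 f2 f4 (by rw [f3]; exact h3)
    have l1 := hC f lev σ _ hf b1 b2
    have l2 := hLK f hf
    have l3 : (f.R - f.L).toNat = n + 1 := by omega
    rw [l3, f3] at l1
    rw [f3, ← hD] at b3
    generalize Z f lev _ c = W at l1 b3
    have l4 : C2 * (m + R.ht + 1 + D) ≤ C2 * (2 * (A + m + D)) :=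
      Nat.mul_le_mul_left _ (by omega)
    have l5 : (128 + 2 * C2) * (A + m + D) = 128 * (A + m + D) + C2 * (2 * (A + m + D)) := by ring
    have l6 : C * ((n + 1) * (Nat.size (2 * R.ht + 4) + 1) ^ 3 + m + W) ≤
        C * ((128 + 2 * C2) * (A + m + D)) :=
      Nat.mul_le_mul_left _ (by omega)
    omega
  obtain ⟨d, d1, d2, d3, d4, d5, d6, d7, d8⟩ := hBRG n m 0 T a h1 h3
  obtain ⟨e, e1, e2, e3, e4⟩ := hALGA d d5
  have t := hTURN d e d5 e2 e1 d6 d7
  obtain ⟨f1, f2, f3, f4⟩ := e1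
  have c1 : d.L = 0 := by simpa using d1
  have c2 : d.R = (n : ℤ) + 1 := by simpa using d2
  have c3 : ∀ i, d.x i = (a i : ℤ) := fun i => by simp [d4]
  have l1 := main d d5 c1 c2 d3 c3
  have l2 := main e e2 (f1.trans c1) (f2.trans c2) (f3.trans d3) fun i => by rw [f4]; exact c3 i
  rw [f3, d3] at e3 e4
  have k5 : (d.R - d.L).toNat = n + 1 := by omega
  rw [k5, d3] at t
  have k6 : (C * (128 + 2 * C2) + 40) * (A + m + D) =
      C * ((128 + 2 * C2) * (A + m + D)) + 40 * (A + m + D) := by ring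
  omega

end Pool.Agent.P.MP_119182_lc.LW
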