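import Pool.Agent.P.MP_119182_lc.LW.WBase
import Pool.Agent.P.MP_119182_lc.LU.All

/-! The values given by levels and caps. -/

set_option autoImplicit false

namespace Pool.Agent.P.MP_119182_lc.LW.W

open Finset
open scoped Classical
open NU (Run mr)
open LP (on up low ON)
open LT (lw mate frz clr fst hd vis)

section
variable (d : Run) (lev : ℤ → ℕ) (cL cR : ℕ → ℤ → ℕ)

/-- The capped value of the token shown. -/
noncomputable def bs (t : ℕ) (y : ℤ) : ℕ := min (cp d cL cR t y) (al d lev t y) - lam d lev t y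

/-- The value shown after the raise of a low token. -/
noncomputable def sh (t : ℕ) (y : ℤ) : ℕ :=
  if lo d lev t y then max (bs d lev cL cR t y) (tg d lev cL cR t y - lam d lev t y)
  else bs d lev cL cR t y

/-- The touch `t` of `y` follows a birth whose cap is below the viewer. -/
def eb (t : ℕ) (y : ℤ) : Prop := ∃ s, flip d s y t ∧ an d lev s y < al d lev t y

/-- The value before the raises of the touch. -/
noncomputable def pre (t : ℕ) (y : ℤ) : ℕ :=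
  if eb d lev t y then bs d lev cL cR t y - 1 else bs d lev cL cR t y

/-- The value before the raises of the next touch. -/
noncomputable def pv (s : ℕ) (y : ℤ) : ℕ :=
  sSup {k | ∃ t, LU.Nx d s y t ∧ d.x t ≠ y ∧ k = pre d lev cL cR t y}

/-- The holder of the high token of the link of `u`. -/
noncomputable def hh (s : ℕ) (u : ℤ) : ℤ :=
  if lam d lev s u < lam d lev s (LU.low d s u) then LU.low d s u else u

/-- The values. -/
noncomputable def val : LU.Val where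
  v0 := fun s y => if s = 0 then 0 else pv d lev cL cR s y
  v := fun s y => if s < d.m ∧ on d s y then sh d lev cL cR s y else pv d lev cL cR s y
  hi := fun s u => lam d lev s u < lam d lev s (LU.low d s u)
  g := fun s u => bs d lev cL cR s (hh d lev s u)

end

-- deps:
/-- Levels. -/
def S_PLV : Prop :=
  (∀ (lev : ℤ → ℕ) (a b : ℤ), a ≤ b → ls lev a b = lv lev a b ∧ ls lev b a = lv lev a b) ∧
  (∀ (lev : ℤ → ℕ) (a b c : ℤ), a ≤ b → b ≤ c → lv lev a c = max (lv lev a b) (lv lev b c)) ∧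
  (∀ (lev : ℤ → ℕ) (a b a' b' : ℤ), a' ≤ a → b ≤ b' → lv lev a b ≤ lv lev a' b') ∧
  ∀ (L R : ℤ) (lev : ℤ → ℕ) (H : ℕ), Lev L R lev H →
    (∀ a b, lv lev a b ≤ H) ∧
    (∀ a b c, L ≤ a → a < b → b < c → c ≤ R → lv lev a b ≠ lv lev b c) ∧
    (∀ a, L < a → a < R → lv lev a R = lev R ∧ lv lev L a = lev (L + 1))

-- deps:
/-- The two sets of names for a step. -/
def S_PBR : Prop :=
  ∀ d : Run, d.OK → ∀ t < d.m, ∀ y,
    (on d t y ↔ LU.tch d t y ∧ y ≠ d.x t) ∧ (up d t y ↔ LU.up d t y) ∧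
    lw d t y = LU.low d t y ∧ ((∃ u, low d t y u) ↔ LU.isl d t y) ∧
    (LU.up d t y → mate d t y = LU.low d t y ∧ mate d t (LU.low d t y) = y) ∧
    (LU.isl d t y → mate d t y = LU.par d t y) ∧
    ∀ ρ, t < ρ → ρ < d.m → LU.key d y →
      (LU.Nx d (t + 1) y ρ ∧ d.x ρ ≠ y ↔ frz d (t + 1) ρ y ∧ on d ρ y)

-- deps: PLV PBR
/-- Caps exceed the levels of their tokens and do not change while the node is not touched. -/
def S_PCAP : Prop :=
  ∀ (d : Run) (lev : ℤ → ℕ) (cL cR : ℕ → ℤ → ℕ) (H : ℕ), Cp d lev cL cR H →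
    (∀ s ≤ d.m, ∀ y, LU.key d y → lv lev (d.lp s y) y < cL s y ∧ lv lev y (d.rp s y) < cR s y) ∧
    ∀ s t y, LU.key d y → LU.Nx d s y t → d.lp t y = d.lp s y ∧ d.rp t y = d.rp s y ∧
      cL t y = cL s y ∧ cR t y = cR s y ∧ LU.tch d t y

-- deps: PLV PBR PCAP
/-- The value before the next touch. -/
def S_PPV : Prop :=
  ∀ (d : Run) (lev : ℤ → ℕ) (cL cR : ℕ → ℤ → ℕ) (H : ℕ), Cp d lev cL cR H → ∀ s y,
    (∀ t, LU.Nx d s y t → d.x t ≠ y → pv d lev cL cR s y = pre d lev cL cR t y) ∧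
    ((∀ t, LU.Nx d s y t → d.x t = y) → pv d lev cL cR s y = 0) ∧
    (s < d.m → LU.key d y → ¬ LU.tch d s y → pv d lev cL cR (s + 1) y = pv d lev cL cR s y) ∧
    (s < d.m → on d s y → pv d lev cL cR s y = pre d lev cL cR s y) ∧
    pre d lev cL cR s y ≤ bs d lev cL cR s y ∧ bs d lev cL cR s y ≤ sh d lev cL cR s y ∧
    sh d lev cL cR s y ≤ H ∧ pv d lev cL cR s y ≤ H

-- deps: PLV PBR PCAP PPV
/-- Nodes that are not upper nodes. -/
def S_PSP : Prop :=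
  ∀ (d : Run) (lev : ℤ → ℕ) (cL cR : ℕ → ℤ → ℕ) (H : ℕ), Cp d lev cL cR H → ∀ s < d.m,
    pv d lev cL cR (s + 1) (d.x s) = 0 ∧
    (∀ y t, LU.tch d s y → ¬ LU.up d s y → LU.Nx d (s + 1) y t → LU.beyond d s y t →
      pv d lev cL cR (s + 1) y = 0) ∧
    ∀ y, on d s y → ¬ LU.up d s y → ¬ LU.isl d s y →
      pv d lev cL cR (s + 1) y ≤ sh d lev cL cR s y

-- deps: PLV PBR PCAP PPV PSP
/-- The lower node and the gap. -/
def S_PLOW : Prop :=
  ∀ (d : Run) (lev : ℤ → ℕ) (cL cR : ℕ → ℤ → ℕ) (H : ℕ), Cp d lev cL cR H → ∀ s < d.m, ∀ u,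
    LU.up d s u →
    LU.pi d (val d lev cL cR) s (LU.low d s u) = hh d lev s u ∧
    sh d lev cL cR s (hh d lev s u) = bs d lev cL cR s (hh d lev s u) ∧
    pv d lev cL cR (s + 1) (LU.low d s u) ≤ bs d lev cL cR s (hh d lev s u) ∧
    (¬ hot d lev s u → 1 ≤ bs d lev cL cR s (hh d lev s u))

-- deps: PLV PBR PCAP PPV
/-- The upper node. -/
def S_PUPP : Prop :=
  ∀ (d : Run) (lev : ℤ → ℕ) (cL cR : ℕ → ℤ → ℕ) (H : ℕ), Cp d lev cL cR H → ∀ s < d.m, ∀ u,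
    LU.up d s u →
    pv d lev cL cR (s + 1) u + bs d lev cL cR s (hh d lev s u) ≤
      sh d lev cL cR s (LU.pi d (val d lev cL cR) s u)

-- deps: PLV PBR PCAP PPV
def S_PENT : Prop :=
  ∀ (d : Run) (lev : ℤ → ℕ) (cL cR : ℕ → ℤ → ℕ) (H : ℕ), Cp d lev cL cR H → ∀ s < d.m, ∀ u t,
    LU.up d s u → LU.Nx d (s + 1) u t →
    (lam d lev s u < lam d lev s (LU.low d s u) → LU.beyond d s u t) →
    (¬ lam d lev s u < lam d lev s (LU.low d s u) → LU.within d s u t) →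
    pv d lev cL cR (s + 1) u = 0

-- deps: PBR PPV PSP PLOW PUPP PENT
def S_POK : Prop :=
  ∀ (d : Run) (lev : ℤ → ℕ) (cL cR : ℕ → ℤ → ℕ) (H : ℕ), Cp d lev cL cR H →
    LU.OK d (val d lev cL cR)

-- deps: PLV PBR PPV
def S_PPR : Prop :=
  ∀ (d : Run) (lev : ℤ → ℕ) (cL cR : ℕ → ℤ → ℕ) (H : ℕ), Cp d lev cL cR H →
    LU.price d (val d lev cL cR) ≤ (d.R - d.L).toNat * Nat.size (H + 1) ^ 3 + #(EFF d lev) +
      WR d lev cL cR + WL d lev cL cR

-- deps: PBR PLOW POK PPR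
def S_PLUG : Prop :=
  ∃ C : ℕ, ∀ (K : ℕ) (d : Run) (lev : ℤ → ℕ) (cL cR : ℕ → ℤ → ℕ) (H : ℕ), Cp d lev cL cR H →
    K * #((LT.TK d).filter fun p => up d p.1 p.2 ∧ ¬ hot d lev p.1 p.2) ≤
      2 * (d.NR + d.mir.NR) + C * K ^ 2 * ((d.R - d.L).toNat * Nat.size (H + 1) ^ 3 +
        #(EFF d lev) + WR d lev cL cR + WL d lev cL cR)

-- deps:
def S_CPEX : Prop :=
  ∀ (d : Run) (lev : ℤ → ℕ) (H : ℕ), d.OK → Lev d.L d.R lev H → ∃ cL cR, Cp d lev cL cR H

-- deps: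
/-- The definitions in the mirror. -/
def S_CPMA : Prop :=
  ∀ (d : Run) (lev : ℤ → ℕ) (cL cR : ℕ → ℤ → ℕ),
    (∀ a b, ls (ml lev) (mr a) (mr b) = ls lev a b) ∧
    (∀ y, lw0 (ml lev) (mr y) = lw0 lev y) ∧
    ∀ t y, (on d.mir t (mr y) ↔ on d t y) ∧ (up d.mir t (mr y) ↔ up d t y) ∧
      (∀ u, low d.mir t (mr y) (mr u) ↔ low d t y u) ∧
      an d.mir (ml lev) t (mr y) = an d lev t y ∧
      (y ≠ d.x t → lw d.mir t (mr y) = mr (lw d t y) ∧ mate d.mir t (mr y) = mr (mate d t y) ∧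
        lam d.mir (ml lev) t (mr y) = lam d lev t y ∧ al d.mir (ml lev) t (mr y) = al d lev t y ∧
        cp d.mir (fun s z => cR s (mr z)) (fun s z => cL s (mr z)) t (mr y) = cp d cL cR t y) ∧
      ∀ ρ, on d t y → on d ρ y → (flip d.mir t (mr y) ρ ↔ flip d t y ρ)

-- deps: PBR CPMA
def S_CPMIR : Prop :=
  ∀ (d : Run) (lev : ℤ → ℕ) (cL cR : ℕ → ℤ → ℕ) (H : ℕ), Cp d lev cL cR H →
    Cp d.mir (ml lev) (fun s z => cR s (mr z)) (fun s z => cL s (mr z)) H ∧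
    WL d lev cL cR = WR d.mir (ml lev) (fun s z => cR s (mr z)) (fun s z => cL s (mr z)) ∧
    EP d.mir (ml lev) H = EP d lev H ∧ (∀ σ c, RU d.mir (ml lev) H σ c = RU d lev H σ c) ∧
    #(HOT d.mir (ml lev)) = #(HOT d lev) ∧ #(EFF d.mir (ml lev)) = #(EFF d lev) ∧
    #(ON d.mir) = #(ON d)

end Pool.Agent.P.MP_119182_lc.LW.W
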