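import Pool.Agent.P.MP_119182_lc.LW.WBase

/-! The price of the raises: births, groups and their number. -/

set_option autoImplicit false

namespace Pool.Agent.P.MP_119182_lc.LW.W

open Finset
open scoped Classical
open NU (Run mr)
open LP (on up low ON)
open _root_.Pool.Agent.P.MP_119182_lc.LT (lw mate frz clr fst hd vis seg len TK Dat Sy)

/-- The least level from `M` on whose shift is a multiple of `2 ^ i`. -/
noncomputable def blk (i σ M : ℕ) : ℕ := sInf {b | M ≤ b ∧ 2 ^ i ∣ b + σ}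

section
variable (d : Run) (lev : ℤ → ℕ) (cL cR : ℕ → ℤ → ℕ) (w : Dat)

/-- Caps together with threads whose low tokens are those of lower level. -/
structure Al (H : ℕ) : Prop where
  cp : Cp d lev cL cR H
  sy : Sy d w
  lo : ∀ t y, LT.lo d w t y ↔ lo d lev t y

/-- The raise `(t, y)` comes from the birth `(s, v)` that is first seen at `ρ`. -/
def bir (s : ℕ) (v : ℤ) (ρ t : ℕ) (y : ℤ) : Prop :=
  flip d s v ρ ∧ v < d.x s ∧ seg d w ρ v t ∧ hd d ρ v t = y ∧ rz d lev cL cR t y ∧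
    cR t y = an d lev s v + 1

/-- A birth inside the cell of level `b` that is raised above `b + 1` within `θ` visits. -/
def gb (b θ s : ℕ) (v : ℤ) (ρ : ℕ) : Prop :=
  ∃ t y, bir d lev cL cR w s v ρ t y ∧ an d lev s v ≤ b ∧ b + 1 < tg d lev cL cR t y ∧
    #(vis d ρ v t) ≤ θ

/-- A birth inside the cell of level `b` that is first seen from outside the cell. -/
def fb (b s : ℕ) (v : ℤ) (ρ : ℕ) : Prop :=
  flip d s v ρ ∧ v < d.x s ∧ an d lev s v ≤ b ∧ b < ls lev (d.x s) (d.x ρ)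

/-- The next touch. -/
noncomputable def nx (p : ℕ × ℤ) : ℕ := sInf {r | p.1 < r ∧ on d r p.2}

/-- The block of a birth at scale `i`. -/
noncomputable def bk (i σ : ℕ) (p : ℕ × ℤ) : ℕ := blk i σ (an d lev p.1 p.2)

/-- The class of a birth at scale `i`: block and end of the epoch. -/
noncomputable def cls (i σ : ℕ) (p : ℕ × ℤ) : ℕ × ℕ :=
  (bk d lev i σ p, ee d lev (bk d lev i σ p) p.1)

/-- A set of births of scale `i`. -/
def Bs (i σ : ℕ) (Y : Finset (ℕ × ℤ)) : Prop :=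
  ∀ p ∈ Y, fb d lev (bk d lev i σ p) p.1 p.2 (nx d p)

end

-- deps:
def S_LS : Prop :=
  ∀ lev : ℤ → ℕ,
    (∀ a b, ls lev a b = ls lev b a) ∧ (∀ a, ls lev a a = 0) ∧
    (∀ a b c, ls lev a c ≤ max (ls lev a b) (ls lev b c)) ∧
    (∀ a b c, a ≤ b → b ≤ c → ls lev a c = max (ls lev a b) (ls lev b c)) ∧
    (∀ a b g, a < g → g ≤ b → lev g ≤ ls lev a b) ∧
    ∀ L R H, Lev L R lev H → (∀ a b, ls lev a b ≤ H) ∧
      (∀ a b c, L ≤ a → a < b → b < c → c ≤ R → ls lev a b ≠ ls lev b c) ∧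
      (∀ a b, L < a → a ≤ b → b < R → ls lev a R = ls lev b R) ∧
      ∀ a b, L < a → a ≤ b → b < R → ls lev L b = ls lev L a

-- deps:
def S_BLK : Prop :=
  ∀ i σ M : ℕ, M ≤ blk i σ M ∧ 2 ^ i ∣ blk i σ M + σ ∧ blk i σ M < M + 2 ^ i ∧
    ∀ b, M ≤ b → 2 ^ i ∣ b + σ → blk i σ M ≤ b

-- deps: LS
def S_EE : Prop :=
  ∀ (d : Run) (lev : ℤ → ℕ) (H : ℕ), d.OK → ∀ b s, s < d.m →
    (s ≤ ee d lev b s ∧ ee d lev b s < d.m) ∧
    (∀ r, s ≤ r → r ≤ ee d lev b s → ls lev (d.x s) (d.x r) ≤ b ∧ ee d lev b r = ee d lev b s) ∧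
    (∀ r, s ≤ r → r < d.m → ee d lev b r = ee d lev b s → r ≤ ee d lev b s) ∧
    ∀ v, v < d.x s → ls lev (d.x s) v ≤ b → b ≤ H → (b, ee d lev b s) ∈ EP d lev H

-- deps: LS LT.MATE LT.EX
def S_AL : Prop :=
  ∀ (d : Run) (lev : ℤ → ℕ) (cL cR : ℕ → ℤ → ℕ) (H : ℕ), Cp d lev cL cR H →
    ∃ w, Al d lev cL cR w H

-- deps: LS LT.MATE LT.KEEP LT.HD LT.PASS
/-- Induction on the time: a right cap is `H + 1`, or fresh, or carried from a birth. -/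
def S_ORG : Prop :=
  ∀ (d : Run) (lev : ℤ → ℕ) (cL cR : ℕ → ℤ → ℕ) (w : Dat) (H : ℕ), Al d lev cL cR w H →
    ∀ t y, rz d lev cL cR t y → d.x t < y → ∃ s v ρ, bir d lev cL cR w s v ρ t y

-- deps: LS LT.MATE LT.KEEP LT.SPINE LT.HD LT.PASS LT.VIS
/-- Along a segment the cap and the level stay and the viewer falls. -/
def S_RUN : Prop :=
  ∀ (d : Run) (lev : ℤ → ℕ) (cL cR : ℕ → ℤ → ℕ) (w : Dat) (H : ℕ), Al d lev cL cR w H →
    (∀ ρ v t, seg d w ρ v t → ∀ r ∈ vis d ρ v t, cR r (hd d ρ v r) = cR ρ v ∧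
      lam d lev r (hd d ρ v r) = lam d lev ρ v ∧
      al d lev t (hd d ρ v t) ≤ al d lev r (hd d ρ v r) ∧
      hd d ρ v r ≤ v ∧ d.rp ρ v ≤ d.rp r (hd d ρ v r)) ∧
    ∀ s v ρ t y b, bir d lev cL cR w s v ρ t y → an d lev s v ≤ b → b < tg d lev cL cR t y →
      ∀ r ∈ vis d ρ v t, cR r (hd d ρ v r) = an d lev s v + 1 ∧
        ls lev (d.x s) (hd d ρ v r) ≤ b ∧ ls lev (d.x s) (d.rp r (hd d ρ v r)) ≤ b ∧
        b < ls lev (d.x s) (d.x r)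

-- deps: LS EE RUN LT.MATE LT.KEEP
/-- At the first view the tokens between two births of a group have small caps. -/
def S_G1A : Prop :=
  ∀ (d : Run) (lev : ℤ → ℕ) (cL cR : ℕ → ℤ → ℕ) (w : Dat) (H : ℕ), Al d lev cL cR w H →
    ∀ b s1 v1 s2 v2 ρ z, fb d lev b s1 v1 ρ → fb d lev b s2 v2 ρ →
    ee d lev b s1 = ee d lev b s2 → on d ρ z → v1 < z → z < v2 → cR ρ z ≤ b + 1

-- deps: LS EE RUN G1A LT.MATE LT.KEEP LT.SPINE LT.HD LT.PASS LT.VIS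
/-- Two births of a group share their visits, and the tokens between keep small caps. -/
def S_G1B : Prop :=
  ∀ (d : Run) (lev : ℤ → ℕ) (cL cR : ℕ → ℤ → ℕ) (w : Dat) (H : ℕ), Al d lev cL cR w H →
    ∀ b s1 v1 t1 y1 s2 v2 t2 y2 ρ, bir d lev cL cR w s1 v1 ρ t1 y1 →
    bir d lev cL cR w s2 v2 ρ t2 y2 → an d lev s1 v1 ≤ b → an d lev s2 v2 ≤ b →
    b < tg d lev cL cR t1 y1 → b < tg d lev cL cR t2 y2 → ee d lev b s1 = ee d lev b s2 →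
    v1 < v2 → ∀ r, ρ ≤ r → r ≤ t1 → r ≤ t2 → hd d ρ v1 r < hd d ρ v2 r ∧
      (on d r (hd d ρ v1 r) ↔ on d r (hd d ρ v2 r)) ∧
      (on d r (hd d ρ v1 r) → ∀ z, on d r z → hd d ρ v1 r ≤ z → z ≤ hd d ρ v2 r →
        cR r z ≤ b + 1 ∧ lam d lev r z ≤ b)

-- deps: G1B LT.MATE LT.SPINE LT.HD
def S_G1 : Prop :=
  ∀ (d : Run) (lev : ℤ → ℕ) (cL cR : ℕ → ℤ → ℕ) (w : Dat) (H : ℕ), Al d lev cL cR w H →
    ∀ b θ ρ e, #((TK d).filter fun p => gb d lev cL cR w b θ p.1 p.2 ρ ∧ ee d lev b p.1 = e) ≤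
      2 * θ

-- deps:
def S_NX : Prop := ∀ (d : Run) (s : ℕ) (v : ℤ) (ρ : ℕ), flip d s v ρ → nx d (s, v) = ρ

-- deps: LS BLK EE NX NU.EMIR
def S_G2 : Prop :=
  ∀ (d : Run) (lev : ℤ → ℕ) (H : ℕ), d.OK → ∀ (K σ B : ℕ) (Y : ℕ → Finset (ℕ × ℤ))
    (c th g : ℕ → ℕ), (∀ i, 4 * K * (i + 1) ^ 2 * c i * g i ≤ th i) →
    (∀ i, Bs d lev i σ (Y i)) → (∀ i, ∀ p ∈ Y i, bk d lev i σ p ≤ H) →
    (∀ i κ ρ, #((Y i).filter fun p => cls d lev i σ p = κ ∧ nx d p = ρ) ≤ g i) →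
    K * ∑ i ∈ range B, c i * #(Y i) ≤ d.mir.NR +
      K * ∑ i ∈ range B, c i * ((2 * th i + 1) * g i *
        #((EP d lev H).filter fun p => 2 ^ i ∣ p.1 + σ))

-- deps: LS BLK AL ORG RUN G1 NX G2 LT.HD LT.LEN
def S_WR : Prop :=
  ∃ C : ℕ, ∀ (d : Run) (lev : ℤ → ℕ) (cL cR : ℕ → ℤ → ℕ) (H : ℕ), Cp d lev cL cR H → ∀ K σ,
    K * WR d lev cL cR ≤ #(ON d) + d.mir.NR + C * K ^ 4 * RU d lev H σ 14

end Pool.Agent.P.MP_119182_lc.LW.W
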