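import Pool.Agent.P.MP_119182_lc.LW.WBase

/-! The number of effective births. -/

set_option autoImplicit false

namespace Pool.Agent.P.MP_119182_lc.LW.W

open Finset
open scoped Classical
open NU (Run mr)
open LP (on up low ON)
open LT (lw mate frz clr fst hd vis)

theorem eff_le (lev : ℤ → ℕ) (a b y : ℤ) (h1 : a < y) (h2 : y ≤ b) : lev y ≤ lv lev a b :=
  le_sup (f := lev) (mem_Ioc.2 ⟨h1, h2⟩)

theorem eff_mono (lev : ℤ → ℕ) (a b a' b' : ℤ) (h1 : a' ≤ a) (h2 : b ≤ b') :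
    lv lev a b ≤ lv lev a' b' :=
  sup_mono (Ioc_subset_Ioc h1 h2)

theorem eff_split (lev : ℤ → ℕ) (a b c : ℤ) : lv lev a c ≤ max (lv lev a b) (lv lev b c) := by
  refine Finset.sup_le fun y hy => ?_
  rw [mem_Ioc] at hy
  rcases le_or_gt y b with h | h
  · exact le_max_of_le_left (eff_le lev a b y hy.1 h)
  · exact le_max_of_le_right (eff_le lev b c y h hy.2)

theorem eff_ex (lev : ℤ → ℕ) (a b : ℤ) (h : a < b) :
    ∃ y, a < y ∧ y ≤ b ∧ lev y = lv lev a b := by
  obtain ⟨y, hy, e⟩ := exists_mem_eq_sup (Ioc a b) ⟨b, mem_Ioc.2 ⟨h, le_rfl⟩⟩ lev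
  rw [mem_Ioc] at hy
  exact ⟨y, hy.1, hy.2, e.symm⟩

theorem eff_ls (lev : ℤ → ℕ) (a b : ℤ) (h : a ≤ b) :
    ls lev a b = lv lev a b ∧ ls lev b a = lv lev a b := by
  simp [ls, h]

theorem eff_tri (lev : ℤ → ℕ) (a b c : ℤ) : ls lev a c ≤ max (ls lev a b) (ls lev b c) := by
  unfold ls
  refine Finset.sup_le (s := Ioc (min a c) (max a c)) (f := lev) fun y hy => ?_
  rw [mem_Ioc] at hy
  obtain ⟨h1, h2⟩ := hy
  by_cases h : min a b < y ∧ y ≤ max a b
  · exact le_max_of_le_left (eff_le lev _ _ y h.1 h.2)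
  · refine le_max_of_le_right (eff_le lev _ _ y ?_ ?_) <;> omega

theorem eff_comm (lev : ℤ → ℕ) (a b : ℤ) : ls lev a b = ls lev b a := by
  simp [ls, min_comm, max_comm]

theorem eff_self (lev : ℤ → ℕ) (a : ℤ) : ls lev a a = 0 := by simp [ls, lv]

theorem eff_lw0 (lev : ℤ → ℕ) (a b : ℤ) (h : a ≠ b) : lw0 lev a ≤ ls lev a b := by
  rcases lt_or_gt_of_ne h with k | k
  · exact (min_le_right _ _).trans (eff_le lev _ _ (a + 1) (by omega) (by omega))
  · exact (min_le_left _ _).trans (eff_le lev _ _ a (by omega) (by omega))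

theorem eff_two {L R : ℤ} {lev : ℤ → ℕ} {H : ℕ} (hl : Lev L R lev H) (a b c e : ℤ) (M : ℕ)
    (h0 : L ≤ a) (h1 : a < b) (h2 : b ≤ c) (h3 : c < e) (h4 : e ≤ R) (k1 : lv lev a b = M)
    (k2 : lv lev c e = M) : M < lv lev a e := by
  obtain ⟨g, g1, g2, g3⟩ := eff_ex lev a b h1
  obtain ⟨g', g4, g5, g6⟩ := eff_ex lev c e h3
  obtain ⟨z, z1, z2, z3⟩ := hl.uniq g g' (by omega) (by omega) (by omega) (by omega)
  have := eff_le lev a e z (by omega) (by omega)
  omega

theorem eff_frz (d : Run) (hd : d.OK) (a : ℕ) (h : ℤ) (h1 : d.L < h) (h2 : h < d.R) :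
    ∀ b, a ≤ b → b ≤ d.m → frz d a b h → d.lp b h = d.lp a h ∧ d.rp b h = d.rp a h := by
  intro b hab
  induction b, hab using Nat.le_induction with
  | base => intro _ _; exact ⟨rfl, rfl⟩
  | succ b hab ih =>
    intro hb hf
    have i := ih (by omega) fun T t1 t2 => hf T t1 (by omega)
    have f := hf b hab (by omega)
    have o := (hd.step b (by omega)).off h h1 h2 (Ne.symm f.1)
      fun k => f.2 ⟨h1, h2, Ne.symm f.1, k.1, k.2⟩
    exact ⟨o.1.trans i.1, o.2.trans i.2⟩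

theorem eff_root (d : Run) (hd : d.OK) (s : ℕ) (hs : s < d.m) (y : ℤ) (h1 : d.L < y)
    (h2 : y < d.R) : (d.x s < y → d.x s ≤ d.lp (s + 1) y) ∧
      (y < d.x s → d.rp (s + 1) y ≤ d.x s) := by
  have st := hd.step s hs
  have tr := hd.tree (s + 1) (by omega)
  constructor
  · intro h
    exact (tr.lamR (d.x s) y st.mem.1 st.mem.2 h (by rw [st.root.2]; exact h2)).1
  · intro h
    exact (tr.lamL (d.x s) y st.mem.1 st.mem.2 (by rw [st.root.1]; exact h1) h).2

theorem eff_stayR (d : Run) (hd : d.OK) (s : ℕ) (y : ℤ) (h2 : y < d.R) (hy : d.x s < y) :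
    ∀ t, s + 1 ≤ t → t ≤ d.m → (∀ T, s ≤ T → T < t → d.x T ≤ d.x s) → d.x s ≤ d.lp t y := by
  intro t ht
  induction t, ht using Nat.le_induction with
  | base =>
    intro hm _
    have := (hd.step s (by omega)).mem
    exact (eff_root d hd s (by omega) y (by omega) h2).1 hy
  | succ t ht ih =>
    intro hm hT
    have i := ih (by omega) fun T t1 t2 => hT T t1 (by omega)
    have k := hT t (by omega) (by omega)
    have := (hd.step s (by omega)).mem
    have o := (hd.step t (by omega)).off y (by omega) h2 (by omega) (by omega)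
    omega

theorem eff_stayL (d : Run) (hd : d.OK) (s : ℕ) (y : ℤ) (h1 : d.L < y) (hy : y < d.x s) :
    ∀ t, s + 1 ≤ t → t ≤ d.m → (∀ T, s ≤ T → T < t → d.x s ≤ d.x T) → d.rp t y ≤ d.x s := by
  intro t ht
  induction t, ht using Nat.le_induction with
  | base =>
    intro hm _
    have := (hd.step s (by omega)).mem
    exact (eff_root d hd s (by omega) y h1 (by omega)).2 hy
  | succ t ht ih =>
    intro hm hT
    have i := ih (by omega) fun T t1 t2 => hT T t1 (by omega)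
    have k := hT t (by omega) (by omega)
    have := (hd.step s (by omega)).mem
    have o := (hd.step t (by omega)).off y h1 (by omega) (by omega) (by omega)
    omega

theorem eff_ee (d : Run) (lev : ℤ → ℕ) (b s : ℕ) (hs : s < d.m) :
    s ≤ ee d lev b s ∧ ee d lev b s < d.m ∧
      (d.m ≤ ee d lev b s + 1 ∨ b < ls lev (d.x (ee d lev b s)) (d.x (ee d lev b s + 1))) ∧
      ∀ T, s ≤ T → T ≤ ee d lev b s → ls lev (d.x s) (d.x T) ≤ b := by
  have hne : (d.m - 1) ∈ {e | s ≤ e ∧ (d.m ≤ e + 1 ∨ b < ls lev (d.x e) (d.x (e + 1)))} :=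
    ⟨by omega, Or.inl (by omega)⟩
  have h1 := Nat.sInf_mem ⟨_, hne⟩
  have h2 := Nat.sInf_le hne
  refine ⟨h1.1, ?_, h1.2, ?_⟩
  · unfold ee; omega
  · intro T hT
    induction T, hT using Nat.le_induction with
    | base => intro _; rw [eff_self]; omega
    | succ T hT ih =>
      intro hle
      have i := ih (by omega)
      have hn : T ∉ {e | s ≤ e ∧ (d.m ≤ e + 1 ∨ b < ls lev (d.x e) (d.x (e + 1)))} :=
        Nat.notMem_of_lt_sInf (by unfold ee at hle; omega)
      have k : ls lev (d.x T) (d.x (T + 1)) ≤ b := by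
        by_contra hc
        exact hn ⟨hT, Or.inr (by omega)⟩
      have := eff_tri lev (d.x s) (d.x T) (d.x (T + 1))
      omega

/-- A birth at a node that is not an upper node, on the right. -/
def eff_R (d : Run) (lev : ℤ → ℕ) (s : ℕ) (v : ℤ) : Prop :=
  s < d.m ∧ v < d.R ∧ d.x s < v ∧ d.lp s v < d.x s ∧ d.lp (s + 1) v = d.x s ∧
    ∃ ρ, s < ρ ∧ ρ < d.m ∧ frz d (s + 1) ρ v ∧ v < d.x ρ ∧ d.x ρ < d.rp (s + 1) v ∧
      lv lev (d.x s) v < lv lev (d.x s) (d.x ρ)

/-- A birth at a node that is not an upper node, on the left. -/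
def eff_L (d : Run) (lev : ℤ → ℕ) (s : ℕ) (v : ℤ) : Prop :=
  s < d.m ∧ d.L < v ∧ v < d.x s ∧ d.x s < d.rp s v ∧ d.rp (s + 1) v = d.x s ∧
    ∃ ρ, s < ρ ∧ ρ < d.m ∧ frz d (s + 1) ρ v ∧ d.x ρ < v ∧ d.lp (s + 1) v < d.x ρ ∧
      lv lev v (d.x s) < lv lev (d.x ρ) (d.x s)

theorem eff_R_left (d : Run) (hd : d.OK) (lev : ℤ → ℕ) (s : ℕ) (v : ℤ) (h : eff_R d lev s v)
    (t : ℕ) (hc : ∀ T, s ≤ T → T ≤ t → ls lev (d.x s) (d.x T) ≤ lv lev (d.x s) v) :
    ∀ T, s ≤ T → T ≤ t → d.x T ≤ d.x s := by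
  obtain ⟨hs, hv, hx, _, hl, ρ, r1, r2, hf, r3, r4, r5⟩ := h
  have mem := (hd.step s hs).mem
  have hρ : t < ρ := by
    by_contra hc'
    have := hc ρ (by omega) (by omega)
    rw [(eff_ls lev _ _ (by omega)).1] at this
    omega
  intro T t1 t2
  rcases Nat.eq_or_lt_of_le t1 with e | e
  · rw [← e]
  by_contra hc'
  have f := hf T (by omega) (by omega)
  have z := eff_frz d hd (s + 1) v (by omega) hv T (by omega) (by omega)
    fun T' a b => hf T' a (by omega)
  have k : d.rp (s + 1) v ≤ d.x T := by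
    by_contra hk
    exact f.2 ⟨by omega, hv, Ne.symm f.1, by omega, by omega⟩
  have := hc T t1 t2
  rw [(eff_ls lev _ _ (by omega)).1] at this
  have := eff_mono lev (d.x s) (d.x ρ) (d.x s) (d.x T) le_rfl (by omega)
  omega

theorem eff_L_right (d : Run) (hd : d.OK) (lev : ℤ → ℕ) (s : ℕ) (v : ℤ) (h : eff_L d lev s v)
    (t : ℕ) (hc : ∀ T, s ≤ T → T ≤ t → ls lev (d.x s) (d.x T) ≤ lv lev v (d.x s)) :
    ∀ T, s ≤ T → T ≤ t → d.x s ≤ d.x T := by
  obtain ⟨hs, hv, hx, _, hl, ρ, r1, r2, hf, r3, r4, r5⟩ := h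
  have mem := (hd.step s hs).mem
  have hρ : t < ρ := by
    by_contra hc'
    have := hc ρ (by omega) (by omega)
    rw [(eff_ls lev _ _ (by omega)).2] at this
    omega
  intro T t1 t2
  rcases Nat.eq_or_lt_of_le t1 with e | e
  · rw [← e]
  by_contra hc'
  have f := hf T (by omega) (by omega)
  have z := eff_frz d hd (s + 1) v hv (by omega) T (by omega) (by omega)
    fun T' a b => hf T' a (by omega)
  have k : d.x T ≤ d.lp (s + 1) v := by
    by_contra hk
    exact f.2 ⟨hv, by omega, Ne.symm f.1, by omega, by omega⟩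
  have := hc T t1 t2
  rw [(eff_ls lev _ _ (by omega)).2] at this
  have := eff_mono lev (d.x ρ) (d.x s) (d.x T) (d.x s) (by omega) le_rfl
  omega

theorem eff_R_same (d : Run) (hd : d.OK) (lev : ℤ → ℕ) (s : ℕ) (v v' : ℤ) (h : eff_R d lev s v)
    (h' : eff_R d lev s v') (e : lv lev (d.x s) v = lv lev (d.x s) v') : ¬ v < v' := by
  intro k
  obtain ⟨hs, hv, hx, _, hl, ρ, r1, r2, hf, r3, r4, r5⟩ := h
  obtain ⟨_, hv', hx', _, hl', _⟩ := h'
  have mem := (hd.step s hs).mem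
  have := ((hd.tree (s + 1) (by omega)).lamL v' v (by omega) hv' (by omega) k).2
  have := eff_mono lev (d.x s) (d.x ρ) (d.x s) v' le_rfl (by omega)
  omega

theorem eff_L_same (d : Run) (hd : d.OK) (lev : ℤ → ℕ) (s : ℕ) (v v' : ℤ) (h : eff_L d lev s v)
    (h' : eff_L d lev s v') (e : lv lev v (d.x s) = lv lev v' (d.x s)) : ¬ v' < v := by
  intro k
  obtain ⟨hs, hv, hx, _, hl, ρ, r1, r2, hf, r3, r4, r5⟩ := h
  obtain ⟨_, hv', hx', _, hl', _⟩ := h'
  have mem := (hd.step s hs).mem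
  have := ((hd.tree (s + 1) (by omega)).lamR v' v hv' (by omega) k (by omega)).1
  have := eff_mono lev (d.x ρ) (d.x s) v' (d.x s) (by omega) le_rfl
  omega

theorem eff_R_lt (d : Run) (hd : d.OK) (lev : ℤ → ℕ) (H : ℕ) (hl : Lev d.L d.R lev H)
    (s s' : ℕ) (v v' : ℤ) (h : eff_R d lev s v) (h' : eff_R d lev s' v')
    (e : lv lev (d.x s) v = lv lev (d.x s') v')
    (hc : ∀ T, s ≤ T → T ≤ s' → ls lev (d.x s) (d.x T) ≤ lv lev (d.x s) v) : ¬ s < s' := by
  intro k
  have a := eff_R_left d hd lev s v h s' hc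
  obtain ⟨hs, hv, hx, _, _⟩ := h
  obtain ⟨hs', hv', hx', hp', _⟩ := h'
  have mem' := (hd.step s' hs').mem
  have a1 := a s' (by omega) le_rfl
  have b : v' ≤ d.x s := by
    by_contra hb
    have := eff_stayR d hd s v' hv' (by omega) s' (by omega) (by omega)
      fun T t1 t2 => a T t1 (by omega)
    omega
  have t := eff_two hl (d.x s') v' (d.x s) v _ (by omega) hx' b hx (by omega) e.symm rfl
  have t2 := eff_split lev (d.x s') (d.x s) v
  have t3 := hc s' (by omega) le_rfl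
  rw [(eff_ls lev _ _ a1).2] at t3
  omega

theorem eff_L_lt (d : Run) (hd : d.OK) (lev : ℤ → ℕ) (H : ℕ) (hl : Lev d.L d.R lev H)
    (s s' : ℕ) (v v' : ℤ) (h : eff_L d lev s v) (h' : eff_L d lev s' v')
    (e : lv lev v (d.x s) = lv lev v' (d.x s'))
    (hc : ∀ T, s ≤ T → T ≤ s' → ls lev (d.x s) (d.x T) ≤ lv lev v (d.x s)) : ¬ s < s' := by
  intro k
  have a := eff_L_right d hd lev s v h s' hc
  obtain ⟨hs, hv, hx, _, _⟩ := h
  obtain ⟨hs', hv', hx', hp', _⟩ := h'
  have mem' := (hd.step s' hs').mem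
  have a1 := a s' (by omega) le_rfl
  have b : d.x s ≤ v' := by
    by_contra hb
    have := eff_stayL d hd s v' hv' (by omega) s' (by omega) (by omega)
      fun T t1 t2 => a T t1 (by omega)
    omega
  have t := eff_two hl v (d.x s) v' (d.x s') _ (by omega) hx b hx' (by omega) rfl e.symm
  have t2 := eff_split lev v (d.x s) (d.x s')
  have t3 := hc s' (by omega) le_rfl
  rw [(eff_ls lev _ _ a1).1] at t3
  omega

theorem eff_mem (d : Run) (lev : ℤ → ℕ) (H : ℕ) (hl : ∀ y, lev y ≤ H) (s : ℕ) (hs : s < d.m)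
    (v : ℤ) (hv : v ≠ d.x s) :
    (ls lev (d.x s) v, ee d lev (ls lev (d.x s) v) s) ∈ EP d lev H := by
  obtain ⟨e1, e2, e3, e4⟩ := eff_ee d lev (ls lev (d.x s) v) s hs
  have hH : ls lev (d.x s) v ≤ H :=
    Finset.sup_le (s := Ioc (min (d.x s) v) (max (d.x s) v)) (f := lev) fun y _ => hl y
  rw [EP, mem_filter, mem_product, mem_range, mem_range]
  refine ⟨⟨by dsimp only; omega, e2⟩, ?_, e3⟩
  dsimp only
  have e5 := e4 _ e1 le_rfl
  by_cases k : d.x (ee d lev (ls lev (d.x s) v) s) = d.x s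
  · rw [k]
    have := eff_lw0 lev (d.x s) v (Ne.symm hv)
    omega
  · have := eff_lw0 lev _ _ k
    have := eff_comm lev (d.x (ee d lev (ls lev (d.x s) v) s)) (d.x s)
    omega

theorem eff_cardR (d : Run) (hd : d.OK) (lev : ℤ → ℕ) (H : ℕ) (hl : Lev d.L d.R lev H) :
    #((LT.TK d).filter fun p => eff_R d lev p.1 p.2) ≤ #(EP d lev H) := by
  refine card_le_card_of_injOn
    (fun p => (ls lev (d.x p.1) p.2, ee d lev (ls lev (d.x p.1) p.2) p.1)) ?_ ?_
  · intro p hp
    rw [mem_coe, mem_filter] at hp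
    have h := hp.2
    exact mem_coe.2 (eff_mem d lev H hl.le p.1 h.1 p.2 (ne_of_gt h.2.2.1))
  · rintro ⟨s, v⟩ hp ⟨s', v'⟩ hp' e
    rw [mem_coe, mem_filter] at hp hp'
    have h := hp.2
    have h' := hp'.2
    dsimp only at h h' e
    rw [Prod.mk.injEq] at e
    obtain ⟨e1, e2⟩ := e
    have c := eff_ee d lev (ls lev (d.x s) v) s h.1
    have c' := eff_ee d lev (ls lev (d.x s') v') s' h'.1
    have l1 := (eff_ls lev _ _ h.2.2.1.le).1
    have l2 := (eff_ls lev _ _ h'.2.2.1.le).1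
    have n1 := eff_R_lt d hd lev H hl s s' v v' h h' (by omega)
      fun T t1 t2 => by have := c.2.2.2 T t1 (by omega); omega
    have n2 := eff_R_lt d hd lev H hl s' s v' v h' h (by omega)
      fun T t1 t2 => by have := c'.2.2.2 T t1 (by omega); omega
    have es : s = s' := by omega
    subst es
    have m1 := eff_R_same d hd lev s v v' h h' (by omega)
    have m2 := eff_R_same d hd lev s v' v h' h (by omega)
    have ev : v = v' := by omega
    rw [ev]

theorem eff_cardL (d : Run) (hd : d.OK) (lev : ℤ → ℕ) (H : ℕ) (hl : Lev d.L d.R lev H) :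
    #((LT.TK d).filter fun p => eff_L d lev p.1 p.2) ≤ #(EP d lev H) := by
  refine card_le_card_of_injOn
    (fun p => (ls lev (d.x p.1) p.2, ee d lev (ls lev (d.x p.1) p.2) p.1)) ?_ ?_
  · intro p hp
    rw [mem_coe, mem_filter] at hp
    have h := hp.2
    exact mem_coe.2 (eff_mem d lev H hl.le p.1 h.1 p.2 (ne_of_lt h.2.2.1))
  · rintro ⟨s, v⟩ hp ⟨s', v'⟩ hp' e
    rw [mem_coe, mem_filter] at hp hp'
    have h := hp.2
    have h' := hp'.2
    dsimp only at h h' e
    rw [Prod.mk.injEq] at e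
    obtain ⟨e1, e2⟩ := e
    have c := eff_ee d lev (ls lev (d.x s) v) s h.1
    have c' := eff_ee d lev (ls lev (d.x s') v') s' h'.1
    have l1 := (eff_ls lev _ _ h.2.2.1.le).2
    have l2 := (eff_ls lev _ _ h'.2.2.1.le).2
    have n1 := eff_L_lt d hd lev H hl s s' v v' h h' (by omega)
      fun T t1 t2 => by have := c.2.2.2 T t1 (by omega); omega
    have n2 := eff_L_lt d hd lev H hl s' s v' v h' h (by omega)
      fun T t1 t2 => by have := c'.2.2.2 T t1 (by omega); omega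
    have es : s = s' := by omega
    subst es
    have m1 := eff_L_same d hd lev s v v' h h' (by omega)
    have m2 := eff_L_same d hd lev s v' v h' h (by omega)
    have ev : v = v' := by omega
    rw [ev]

theorem eff_cases (d : Run) (hd : d.OK) (lev : ℤ → ℕ) (s : ℕ) (v : ℤ) (ρ : ℕ)
    (hf : flip d s v ρ) (he : an d lev s v < al d lev ρ v) :
    hot d lev s v ∨ eff_R d lev s v ∨ eff_L d lev s v := by
  obtain ⟨r1, r2, ⟨o1, o2, o3, o4, o5⟩, fz, ⟨_, _, q3, q4, q5⟩, sd⟩ := hf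
  have z := eff_frz d hd (s + 1) v o1 o2 ρ (by omega) (by omega) fz
  have st := hd.step s (by omega)
  have bd := (hd.tree (s + 1) (by omega)).bnd v o1 o2
  have bd0 := (hd.tree s (by omega)).bnd v o1 o2
  unfold an al far at he
  rcases lt_or_gt_of_ne o3 with k | k
  · have k2 : d.x ρ < v := by
      by_contra hc
      have := sd.2 (by omega)
      omega
    rw [if_pos k2, (eff_ls lev _ _ k.le).2, (eff_ls lev _ _ (by omega)).1, z.2] at he
    by_cases u : d.rp (s + 1) v = d.x s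
    · refine Or.inr (Or.inr ⟨by omega, o1, k, o5, u, ρ, r1, r2, fz, k2, by omega, ?_⟩)
      rw [u] at he
      exact he
    · obtain ⟨a1, a2, a3, a4, a5, _⟩ := st.losL v o1 k o5 u
      refine Or.inl ⟨⟨by omega, ⟨o1, o2, o3, o4, o5⟩, by omega, u⟩, ?_⟩
      have w : lw d s v = d.rp (s + 1) v := by unfold LT.lw; rw [if_neg (by omega)]
      unfold an lam far
      rw [w, if_neg (by omega), if_neg (by omega), a4, (eff_ls lev _ _ a1.le).2,
        (eff_ls lev _ _ a2.le).2, (eff_ls lev _ _ bd0.2.1.le).2]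
      have b1 := eff_mono lev (d.rp (s + 1) v) (d.x s) v (d.x s) a2.le le_rfl
      have b2 := eff_mono lev (d.x ρ) (d.rp (s + 1) v) (d.lp s v) (d.rp (s + 1) v)
        (by omega) le_rfl
      have b3 := eff_split lev (d.lp s v) v (d.rp (s + 1) v)
      omega
  · have k2 : v < d.x ρ := sd.1 k
    rw [if_neg (by omega), (eff_ls lev _ _ k.le).1, (eff_ls lev _ _ (by omega)).2, z.1] at he
    by_cases u : d.lp (s + 1) v = d.x s
    · refine Or.inr (Or.inl ⟨by omega, o2, k, o4, u, ρ, r1, r2, fz, k2, by omega, ?_⟩)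
      rw [u] at he
      exact he
    · obtain ⟨a1, a2, a3, a4, a5, _⟩ := st.losR v k o2 o4 u
      refine Or.inl ⟨⟨by omega, ⟨o1, o2, o3, o4, o5⟩, u, by omega⟩, ?_⟩
      have w : lw d s v = d.lp (s + 1) v := by unfold LT.lw; rw [if_pos k]
      unfold an lam far
      rw [w, if_pos a1, if_pos k, a4, (eff_ls lev _ _ a1.le).1,
        (eff_ls lev _ _ a2.le).1, (eff_ls lev _ _ bd0.2.2.1.le).1]
      have b1 := eff_mono lev (d.x s) (d.lp (s + 1) v) (d.x s) v le_rfl a2.le
      have b2 := eff_mono lev (d.lp (s + 1) v) (d.x ρ) (d.lp (s + 1) v) (d.rp s v)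
        le_rfl (by omega)
      have b3 := eff_split lev (d.lp (s + 1) v) v (d.rp s v)
      omega

/-- Effective births are hot links or are counted by epochs. -/
theorem eff_main (d : Run) (lev : ℤ → ℕ) (H : ℕ) (hd : d.OK) (hl : Lev d.L d.R lev H) :
    #(EFF d lev) ≤ #(HOT d lev) + 2 * #(EP d lev H) := by
  have h : EFF d lev ⊆ HOT d lev ∪ (((LT.TK d).filter fun p => eff_R d lev p.1 p.2) ∪
      ((LT.TK d).filter fun p => eff_L d lev p.1 p.2)) := by
    intro p hp
    rw [EFF, mem_filter] at hp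
    obtain ⟨hp, ρ, hf, he⟩ := hp
    rcases eff_cases d hd lev p.1 p.2 ρ hf he with k | k | k
    · exact mem_union_left _ (mem_filter.2 ⟨hp, k⟩)
    · exact mem_union_right _ (mem_union_left _ (mem_filter.2 ⟨hp, k⟩))
    · exact mem_union_right _ (mem_union_right _ (mem_filter.2 ⟨hp, k⟩))
  have h1 := card_le_card h
  have h2 := card_union_le (HOT d lev) (((LT.TK d).filter fun p => eff_R d lev p.1 p.2) ∪
      ((LT.TK d).filter fun p => eff_L d lev p.1 p.2))
  have h3 := card_union_le ((LT.TK d).filter fun p => eff_R d lev p.1 p.2)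
      ((LT.TK d).filter fun p => eff_L d lev p.1 p.2)
  have h4 := eff_cardR d hd lev H hl
  have h5 := eff_cardL d hd lev H hl
  omega

end Pool.Agent.P.MP_119182_lc.LW.W
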