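import Pool.Agent.P.MP_119182_lc.LW.IfaceB
import Pool.Agent.P.MP_119182_lc.LW.IfaceW
import Pool.Agent.P.MP_119182_lc.LW.IfaceP
import Pool.Agent.P.MP_119182_lc.LW.TEFF
import Pool.Agent.P.MP_119182_lc.GP.Iface2

/-! The end statement of the half with the caps. -/

set_option autoImplicit false

namespace Pool.Agent.P.MP_119182_lc.LW

open Finset
open scoped Classical
open NU (Run mr)

theorem gall_arith (K C1 C2 T cold hot N NR NM ons wr wl A E m ru ep : ℕ)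
    (hT : T ≤ cold + hot) (hN : N = NR + NM) (hon : ons ≤ N)
    (h1 : 8 * K * cold ≤ 2 * N + C1 * (8 * K) ^ 2 * (A + E + wr + wl))
    (h2 : C1 * (8 * K) ^ 2 * wr ≤ ons + NM + C2 * ru)
    (h3 : C1 * (8 * K) ^ 2 * wl ≤ ons + NR + C2 * ru)
    (h4 : E ≤ hot + 2 * ep) (h5 : ep ≤ ru) :
    K * T ≤ N + (2 * (C1 * (8 * K) ^ 2) + 2 * C2 + K) * (A + m + ru + hot) := by
  generalize C1 * (8 * K) ^ 2 = D at *
  have a1 : K * T ≤ K * cold + K * hot := by
    rw [← mul_add]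
    exact Nat.mul_le_mul_left K hT
  have a2 : D * (A + E + wr + wl) = D * A + D * E + D * wr + D * wl := by ring
  have a3 : D * E ≤ D * hot + 2 * (D * ru) := by
    calc D * E ≤ D * (hot + 2 * ru) := Nat.mul_le_mul_left D (by omega)
      _ = D * hot + 2 * (D * ru) := by ring
  have a4 : (2 * D + 2 * C2 + K) * (A + m + ru + hot) =
      2 * (D * A) + 2 * (D * m) + 2 * (D * ru) + 2 * (D * hot) + 2 * (C2 * A) + 2 * (C2 * m) +
        2 * (C2 * ru) + 2 * (C2 * hot) + K * A + K * m + K * ru + K * hot := by ring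
  have a5 : 8 * K * cold = 8 * (K * cold) := by ring
  omega

theorem gall_ep (d : Run) (lev : ℤ → ℕ) (H σ c : ℕ) : #(W.EP d lev H) ≤ W.RU d lev H σ c := by
  unfold W.RU
  rw [card_eq_sum_ones]
  apply sum_le_sum
  intro p _
  have h0 : 0 ∈ (range (H + 1)).filter fun i => 2 ^ i ∣ p.1 + σ :=
    mem_filter.2 ⟨mem_range.2 (by omega), by simp⟩
  have := single_le_sum (f := fun i => (i + 1) ^ c) (fun i _ => Nat.zero_le _) h0
  simpa using this

theorem p_GALL (hWR : W.S_WR) (hEX : W.S_CPEX) (hMIR : W.S_CPMIR) (hPLUG : W.S_PLUG)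
    (hSIDE : GP.S_SIDE) (hEMIR : NU.S_EMIR) : G_ALL := by
  intro K
  obtain ⟨C1, h1⟩ := hPLUG
  obtain ⟨C2, h2⟩ := hWR
  refine ⟨2 * (C1 * (8 * K) ^ 2) + 2 * (C2 * (C1 * (8 * K) ^ 2) ^ 4) + K, ?_⟩
  intro d lev H σ hd hl
  obtain ⟨cL, cR, hc⟩ := hEX d lev H hd hl
  obtain ⟨m1, m2, _, m4, _, _, m7⟩ := hMIR d lev cL cR H hc
  have k1 := h1 (8 * K) d lev cL cR H hc
  have k2 := h2 d lev cL cR H hc (C1 * (8 * K) ^ 2) σ
  have k3 := h2 d.mir _ _ _ H m1 (C1 * (8 * K) ^ 2) σ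
  rw [← m2, m4, m7, (hEMIR d).1] at k3
  have k4 := W.eff_main d lev H hd hl
  have k5 := gall_ep d lev H σ 14
  have k6 := (hSIDE d hd).2.1
  have hT : #((LT.TK d).filter fun p => LP.up d p.1 p.2) ≤
      #((LT.TK d).filter fun p => LP.up d p.1 p.2 ∧ ¬ W.hot d lev p.1 p.2) + #(W.HOT d lev) := by
    refine le_trans (card_le_card ?_) (card_union_le _ _)
    intro p hp
    obtain ⟨a1, a2⟩ := mem_filter.1 hp
    by_cases a3 : W.hot d lev p.1 p.2
    · exact mem_union_right _ (mem_filter.2 ⟨a1, a3⟩)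
    · exact mem_union_left _ (mem_filter.2 ⟨a1, a2, a3⟩)
  exact gall_arith K C1 (C2 * (C1 * (8 * K) ^ 2) ^ 4) _ _ _ _ d.NR d.mir.NR _ _ _ _ _ d.m _ _
    hT rfl k6 k1 k2 k3 k4 k5

end Pool.Agent.P.MP_119182_lc.LW
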