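import Pool.Agent.P.MP_119182_lc.LU.Iface

/-! Far hot links of an abstract run with static levels on the boundaries. -/

set_option autoImplicit false

namespace Pool.Agent.P.MP_119182_lc.LW.H2

open Finset
open scoped Classical
open NU (Run)
open LU (key tch up low LK)

/-- The largest level of a boundary in `(a, b]`. -/
noncomputable def lv (lev : ℤ → ℕ) (a b : ℤ) : ℕ := (Ioc a b).sup lev

/-- The largest level of a boundary between two keys. -/
noncomputable def dl (lev : ℤ → ℕ) (a b : ℤ) : ℕ := lv lev (min a b) (max a b)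

section defs
variable (d : Run) (lev : ℤ → ℕ)

/-- Right links whose upper node lies in a higher annulus than the lower node. -/
noncomputable def near : Finset (ℕ × ℤ) :=
  (LK d).filter fun p => d.x p.1 < p.2 ∧
    lv lev (d.x p.1) (low d p.1 p.2) < lv lev (low d p.1 p.2) p.2

/-- Right links whose two nodes lie in one annulus and whose right end lies in a higher one. -/
noncomputable def far : Finset (ℕ × ℤ) :=
  (LK d).filter fun p => d.x p.1 < p.2 ∧
    lv lev (low d p.1 p.2) p.2 ≤ lv lev (d.x p.1) (low d p.1 p.2) ∧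
    lv lev (d.x p.1) (low d p.1 p.2) < lv lev p.2 (d.rp p.1 p.2)

/-- Starts of nontrivial epochs: a time and a level. -/
noncomputable def EP (H : ℕ) : Finset (ℕ × ℕ) :=
  (range d.m ×ˢ range (H + 1)).filter fun p => lev (d.x p.1 + 1) ≤ p.2 ∧
    (p.1 = 0 ∨ p.2 ≤ dl lev (d.x (p.1 - 1)) (d.x p.1))

/-- All jumps between the times `s` and `t` are below `a`. -/
def Same (a s t : ℕ) : Prop := ∀ q, s ≤ q → q < t → dl lev (d.x q) (d.x (q + 1)) < a

theorem ex_same (a t : ℕ) : ∃ s, Same d lev a s t := ⟨t, fun q h1 h2 => by omega⟩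

/-- The start of the epoch. -/
noncomputable def ep (a t : ℕ) : ℕ := Nat.find (ex_same d lev a t)

/-- A node of annulus `a` has its first visit of the epoch at `r`. -/
def Inc (r a : ℕ) : Prop :=
  ∃ u, tch d r u ∧ d.x r < u ∧ lv lev (d.x r) u = a ∧
    ∀ q, ep d lev a r ≤ q → q < r → ¬ tch d q u

noncomputable def INC (H : ℕ) : Finset (ℕ × ℕ) :=
  (range d.m ×ˢ range (H + 1)).filter fun p => Inc d lev p.1 p.2

noncomputable def vis (t : ℕ) (u : ℤ) : Finset ℕ :=
  (Icc (ep d lev (lv lev (d.x t) u) t) t).filter fun q => tch d q u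

end defs

variable {d : Run} {lev : ℤ → ℕ}

theorem lv_mono {a b a' b' : ℤ} (h1 : a' ≤ a) (h2 : b ≤ b') : lv lev a b ≤ lv lev a' b' :=
  Finset.sup_mono (Ioc_subset_Ioc h1 h2)

theorem lv_split {a b c : ℤ} (h1 : a ≤ b) (h2 : b ≤ c) :
    lv lev a c = max (lv lev a b) (lv lev b c) := by
  unfold lv
  rw [← Finset.Ioc_union_Ioc_eq_Ioc h1 h2, Finset.sup_union]

theorem lv_le {H : ℕ} {L R : ℤ} (hH : ∀ y, L < y → y ≤ R → lev y ≤ H) {a b : ℤ} (ha : L ≤ a)
    (hb : b ≤ R) : lv lev a b ≤ H :=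
  Finset.sup_le fun y hy => hH y (by have := (mem_Ioc.1 hy).1; omega)
    (by have := (mem_Ioc.1 hy).2; omega)

theorem le_lv {a b y : ℤ} (h1 : a < y) (h2 : y ≤ b) : lev y ≤ lv lev a b :=
  Finset.le_sup (f := lev) (mem_Ioc.2 ⟨h1, h2⟩)

theorem dl_comm (a b : ℤ) : dl lev a b = dl lev b a := by
  unfold dl; rw [min_comm, max_comm]

theorem dl_tri (a b c : ℤ) : dl lev a c ≤ max (dl lev a b) (dl lev b c) := by
  unfold dl lv
  refine Finset.sup_le fun y hy => ?_
  rw [mem_Ioc] at hy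
  by_cases h : min a b < y ∧ y ≤ max a b
  · exact le_max_of_le_left (Finset.le_sup (f := lev) (mem_Ioc.2 h))
  · refine le_max_of_le_right (Finset.le_sup (f := lev) (mem_Ioc.2 ?_))
    omega

theorem dl_step {y y' u : ℤ} {a : ℕ} (h1 : y < u) (h2 : lv lev y u = a) (h3 : dl lev y y' < a) :
    y' < u ∧ lv lev y' u = a := by
  unfold dl at h3
  have hlt : y' < u := by
    by_contra hc
    have : lv lev y u ≤ lv lev (min y y') (max y y') := lv_mono (by omega) (by omega)
    omega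
  refine ⟨hlt, ?_⟩
  rcases le_total y y' with h | h
  · rw [min_eq_left h, max_eq_right h] at h3
    have := lv_split (lev := lev) h hlt.le
    omega
  · rw [min_eq_right h, max_eq_left h] at h3
    have := lv_split (lev := lev) h h1.le
    omega

theorem same_dl {a s t : ℕ} (h : Same d lev a s t) {q : ℕ} (hq : s ≤ q) :
    ∀ q', q < q' → q' ≤ t → dl lev (d.x q) (d.x q') < a := by
  intro q' h1
  induction q', h1 using Nat.le_induction with
  | base => intro h2; exact h q hq (by omega)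
  | succ k hk ih =>
    intro h2
    have e1 := ih (by omega)
    have e2 := h k (by omega) (by omega)
    have := dl_tri (lev := lev) (d.x q) (d.x k) (d.x (k + 1))
    omega

theorem same_ann {a s t : ℕ} (h : Same d lev a s t) {q q' : ℕ} (hq : s ≤ q) (hq2 : q ≤ t)
    (hq' : s ≤ q') (hq2' : q' ≤ t) {u : ℤ} (h1 : d.x q < u) (h2 : lv lev (d.x q) u = a) :
    d.x q' < u ∧ lv lev (d.x q') u = a := by
  rcases lt_trichotomy q q' with hlt | rfl | hlt
  · exact dl_step h1 h2 (same_dl h hq q' hlt hq2')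
  · exact ⟨h1, h2⟩
  · exact dl_step h1 h2 (by rw [dl_comm]; exact same_dl h hq' q hlt hq2)

theorem ep_same (a t : ℕ) : Same d lev a (ep d lev a t) t := Nat.find_spec (ex_same d lev a t)

theorem ep_le_of {a s t : ℕ} (h : Same d lev a s t) : ep d lev a t ≤ s :=
  Nat.find_min' (ex_same d lev a t) h

theorem ep_le (a t : ℕ) : ep d lev a t ≤ t := ep_le_of fun q h1 h2 => by omega

theorem ep_jump {a t : ℕ} (h : ep d lev a t ≠ 0) :
    a ≤ dl lev (d.x (ep d lev a t - 1)) (d.x (ep d lev a t)) := by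
  by_contra hc
  have : ep d lev a t ≤ ep d lev a t - 1 := by
    refine ep_le_of fun q h1 h2 => ?_
    by_cases hq : q = ep d lev a t - 1
    · have e : q + 1 = ep d lev a t := by omega
      rw [e, hq]; omega
    · exact ep_same a t q (by omega) h2
  omega

theorem ep_eq {a t r : ℕ} (h1 : ep d lev a t ≤ r) (h2 : r ≤ t) : ep d lev a r = ep d lev a t := by
  apply le_antisymm
  · exact ep_le_of fun q a1 a2 => ep_same a t q a1 (by omega)
  · refine ep_le_of fun q a1 a2 => ?_
    by_cases hq : q < r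
    · exact ep_same a r q a1 hq
    · exact ep_same a t q (by omega) a2

theorem ep_anti {a a' : ℕ} (h : a ≤ a') (t : ℕ) : ep d lev a' t ≤ ep d lev a t :=
  ep_le_of fun q a1 a2 => lt_of_lt_of_le (ep_same a t q a1 a2) h

theorem lp_step (hd : d.OK) {s : ℕ} (hs : s < d.m) {y : ℤ} (hk : key d y) (hx : d.x s < y) :
    d.x s ≤ d.lp (s + 1) y ∧ d.lp s y ≤ d.lp (s + 1) y ∧
      (¬ tch d s y → d.lp (s + 1) y = d.lp s y) ∧
      (tch d s y → ¬ up d s y → d.lp (s + 1) y = d.x s) := by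
  have st := hd.step s hs
  have hb := (hd.tree s hs.le).bnd y hk.1 hk.2
  by_cases ht : d.lp s y < d.x s
  · have htc : tch d s y := ⟨hk, ht, by omega⟩
    by_cases he : d.lp (s + 1) y = d.x s
    · exact ⟨by omega, by omega, fun h => absurd htc h, fun _ _ => he⟩
    · have := st.losR y hx hk.2 ht he
      exact ⟨by omega, by omega, fun h => absurd htc h,
        fun _ h => absurd ⟨htc, Or.inl ⟨hx, he⟩⟩ h⟩
  · have := (st.off y hk.1 hk.2 (by omega) (fun h => ht h.1)).1
    exact ⟨by omega, by omega, fun _ => this, fun h => absurd h.2.1 ht⟩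

theorem lp_grow (hd : d.OK) {y : ℤ} (hk : key d y) {s : ℕ} :
    ∀ t, s ≤ t → t ≤ d.m → (∀ q, s ≤ q → q < t → d.x q < y) → d.lp s y ≤ d.lp t y := by
  intro t h1
  induction t, h1 using Nat.le_induction with
  | base => intro _ _; exact le_rfl
  | succ k hk2 ih =>
    intro h2 h3
    have e1 := ih (by omega) fun q a1 a2 => h3 q a1 (by omega)
    have e2 := (lp_step hd (s := k) (by omega) hk (h3 k hk2 (by omega))).2.1
    omega

theorem lp_stay (hd : d.OK) {y : ℤ} (hk : key d y) {s : ℕ} :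
    ∀ t, s ≤ t → t ≤ d.m → (∀ q, s ≤ q → q < t → d.x q < y ∧ ¬ tch d q y) →
      d.lp t y = d.lp s y := by
  intro t h1
  induction t, h1 using Nat.le_induction with
  | base => intro _ _; rfl
  | succ k hk2 ih =>
    intro h2 h3
    have e1 := ih (by omega) fun q a1 a2 => h3 q a1 (by omega)
    have e3 := h3 k hk2 (by omega)
    have e2 := (lp_step hd (s := k) (by omega) hk e3.1).2.2.1 e3.2
    omega

theorem lp_rec (hd : d.OK) {y : ℤ} (hk : key d y) {s : ℕ} (ht : tch d s y) :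
    ∀ t, s < t → t ≤ d.m → (∀ q, s ≤ q → q < t → d.x q < y ∧ ¬ up d q y) →
      ∃ r, s ≤ r ∧ r < t ∧ d.lp t y = d.x r := by
  intro t h1
  induction t, h1 using Nat.le_induction with
  | base =>
    intro h2 h3
    have e3 := h3 s le_rfl (by omega)
    exact ⟨s, le_rfl, by omega, (lp_step hd (s := s) (by omega) hk e3.1).2.2.2 ht e3.2⟩
  | succ k hk2 ih =>
    intro h2 h3
    obtain ⟨r, r1, r2, r3⟩ := ih (by omega) fun q a1 a2 => h3 q a1 (by omega)
    have e3 := h3 k (by omega) (by omega)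
    have e2 := lp_step hd (s := k) (by omega) hk e3.1
    by_cases hc : tch d k y
    · exact ⟨k, by omega, by omega, e2.2.2.2 hc e3.2⟩
    · exact ⟨r, r1, by omega, by rw [e2.2.2.1 hc, r3]⟩

theorem up_low (hd : d.OK) {s : ℕ} (hs : s < d.m) {u : ℤ} (hu : up d s u) (hx : d.x s < u) :
    low d s u = d.lp (s + 1) u ∧ d.x s < low d s u ∧ low d s u < u := by
  have e : low d s u = d.lp (s + 1) u := by unfold low; rw [if_pos hx]
  have hne : d.lp (s + 1) u ≠ d.x s := by
    rcases hu.2 with h | h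
    · exact h.2
    · omega
  have := (hd.step s hs).losR u hx hu.1.1.2 hu.1.2.1 hne
  rw [e]; exact ⟨rfl, this.1, this.2.1⟩

theorem mem_far (hd : d.OK) {p : ℕ × ℤ} (hp : p ∈ far d lev) :
    p.1 < d.m ∧ up d p.1 p.2 ∧ d.x p.1 < p.2 ∧
      lv lev (d.x p.1) p.2 < lv lev p.2 (d.rp p.1 p.2) := by
  unfold far LK at hp
  simp only [mem_filter, mem_product, mem_range] at hp
  obtain ⟨⟨⟨h1, _⟩, h2⟩, h3, h4, h5⟩ := hp
  obtain ⟨_, e2, e3⟩ := up_low hd h1 h2 h3
  have := lv_split (lev := lev) e2.le e3.le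
  exact ⟨h1, h2, h3, by omega⟩

theorem far_one (hd : d.OK) {t : ℕ} {u u' : ℤ} (h : (t, u) ∈ far d lev) (h' : (t, u') ∈ far d lev)
    (hlt : u < u') : lv lev (d.x t) u < lv lev (d.x t) u' := by
  obtain ⟨a1, a2, a3, a4⟩ := mem_far hd h
  obtain ⟨_, b2, b3, _⟩ := mem_far hd h'
  simp only at a1 a2 a3 a4 b2 b3
  have hr : d.rp t u ≤ u' := by
    by_contra hc
    have := ((hd.tree t a1.le).lamR u u' a2.1.1.1 a2.1.1.2 hlt (by omega)).1
    have := b2.1.2.1
    omega
  have : lv lev u (d.rp t u) ≤ lv lev (d.x t) u' := lv_mono a3.le hr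
  omega

theorem card_F1 (hd : d.OK) :
    #((far d lev).filter fun p =>
      ∃ s, ep d lev (lv lev (d.x p.1) p.2) p.1 ≤ s ∧ s < p.1 ∧ up d s p.2) ≤ #(near d lev) := by
  refine Finset.card_le_card_of_forall_subsingleton
    (fun p b : ℕ × ℤ => b.2 = p.2 ∧ b.1 < p.1 ∧ ∀ q, b.1 < q → q < p.1 → ¬ up d q p.2) ?_ ?_
  · rintro ⟨t, u⟩ hp
    rw [mem_filter] at hp
    obtain ⟨hf, s0, s1, s2, s3⟩ := hp
    obtain ⟨a1, a2, a3, _⟩ := mem_far hd hf
    simp only at a1 a2 a3 s1 s2 s3
    obtain ⟨s, hs, hmax⟩ := Finset.exists_max_image ((range t).filter fun q => up d q u) id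
      ⟨s0, by simp [s2, s3]⟩
    rw [mem_filter, mem_range] at hs
    have hs0 : s0 ≤ s := hmax s0 (by simp [s2, s3])
    have hS := ep_same (d := d) (lev := lev) (lv lev (d.x t) u) t
    have hann : ∀ q, ep d lev (lv lev (d.x t) u) t ≤ q → q ≤ t →
        d.x q < u ∧ lv lev (d.x q) u = lv lev (d.x t) u := fun q q1 q2 =>
      same_ann hS (ep_le _ _) le_rfl q1 q2 a3 rfl
    have hxs := hann s (by omega) hs.1.le
    obtain ⟨e1, e2, e3⟩ := up_low hd (s := s) (by omega) hs.2 hxs.1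
    have hg : d.lp (s + 1) u ≤ d.lp t u :=
      lp_grow hd a2.1.1 t (by omega) a1.le fun q q1 q2 => (hann q (by omega) q2.le).1
    have hlx : d.lp t u < d.x t := a2.1.2.1
    have hdl := same_dl hS (q := s) (by omega) t hs.1 le_rfl
    have i1 : lv lev (d.x s) (low d s u) ≤ dl lev (d.x s) (d.x t) :=
      lv_mono (by omega) (by omega)
    have i2 : lv lev (d.x t) u ≤ lv lev (low d s u) u := lv_mono (by omega) le_rfl
    refine ⟨(s, u), ?_, rfl, hs.1, fun q q1 q2 hq => ?_⟩
    · unfold near LK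
      simp only [mem_filter, mem_product, mem_range]
      exact ⟨⟨⟨by omega, mem_Ioo.2 a2.1.1⟩, hs.2⟩, hxs.1, by omega⟩
    · have := hmax q (by simp only [mem_filter, mem_range]; exact ⟨q2, hq⟩)
      simp only [id] at this q1
      omega
  · rintro ⟨s, v⟩ _ ⟨t, u⟩ h1 ⟨t', u'⟩ h2
    simp only [Set.mem_setOf_eq, coe_filter, mem_filter] at h1 h2
    obtain ⟨⟨f1, _⟩, a1, a2, a3⟩ := h1
    obtain ⟨⟨f2, _⟩, b1, b2, b3⟩ := h2
    have hu : u = u' := by rw [← a1, ← b1]
    subst hu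
    have c1 := (mem_far hd f1).2.1
    have c2 := (mem_far hd f2).2.1
    rcases lt_trichotomy t t' with h | h | h
    · exact absurd c1 (b3 t a2 h)
    · rw [h]
    · exact absurd c2 (a3 t' b2 h)

theorem card_ON (d : Run) :
    #((range d.m ×ˢ d.keys).filter fun p : ℕ × ℤ => p.2 ∈ d.P p.1) ≤ d.NR := by
  unfold Run.NR
  calc _ ≤ #((range d.m).biUnion fun i => (d.P i).image fun v => (i, v)) := by
        refine card_le_card fun p hp => ?_
        simp only [mem_filter, mem_product] at hp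
        exact mem_biUnion.2 ⟨p.1, hp.1.1, mem_image.2 ⟨p.2, hp.2, rfl⟩⟩
    _ ≤ _ := card_biUnion_le.trans (sum_le_sum fun i _ => card_image_le)

theorem card_F2 (hd : d.OK) (K : ℕ) :
    #((far d lev).filter fun p =>
      (¬ ∃ s, ep d lev (lv lev (d.x p.1) p.2) p.1 ≤ s ∧ s < p.1 ∧ up d s p.2) ∧
        K ≤ #(vis d lev p.1 p.2)) * K ≤ d.NR := by
  refine le_trans ?_ (card_ON d)
  rw [← mul_one #((range d.m ×ˢ d.keys).filter fun p : ℕ × ℤ => p.2 ∈ d.P p.1)]
  refine Finset.card_mul_le_card_mul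
    (fun p b : ℕ × ℤ => b.2 = p.2 ∧ b.1 ∈ vis d lev p.1 p.2) ?_ ?_
  · rintro ⟨t, u⟩ hp
    rw [mem_filter] at hp
    obtain ⟨hf, _, hK⟩ := hp
    obtain ⟨a1, a2, a3, _⟩ := mem_far hd hf
    simp only at a1 a2 a3 hK
    refine hK.trans (card_le_card_of_injOn (fun q => (q, u)) ?_ ?_)
    · intro q hq
      have hq' := hq
      unfold vis at hq'
      simp only [coe_filter, mem_Icc, Set.mem_setOf_eq] at hq'
      have hx := (same_ann (ep_same (d := d) (lev := lev) (lv lev (d.x t) u) t) (ep_le _ _) le_rfl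
        hq'.1.1 hq'.1.2 a3 rfl).1
      simp only [coe_bipartiteAbove, Set.mem_setOf_eq, mem_filter, mem_product, mem_range]
      refine ⟨⟨⟨by omega, mem_Ioo.2 a2.1.1⟩, ?_⟩, trivial, hq⟩
      unfold Run.P
      exact mem_filter.2 ⟨mem_Ioo.2 ⟨hx, a2.1.1.2⟩, hq'.2.2.1⟩
    · intro q _ q' _ h
      exact (Prod.mk.inj h).1
  · rintro ⟨q, v⟩ _
    refine card_le_one.2 ?_
    rintro ⟨t, u⟩ h1 ⟨t', u'⟩ h2
    rw [mem_bipartiteBelow, mem_filter] at h1 h2
    obtain ⟨⟨f1, n1, _⟩, a1, a2⟩ := h1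
    obtain ⟨⟨f2, n2, _⟩, b1, b2⟩ := h2
    simp only at a1 a2 b1 b2 n1 n2
    have hu : u = u' := by rw [← a1, ← b1]
    subst hu
    have c1 := (mem_far hd f1).2.1
    have c2 := (mem_far hd f2).2.1
    unfold vis at a2 b2
    simp only [mem_filter, mem_Icc] at a2 b2
    rcases lt_trichotomy t t' with h | h | h
    · exact absurd ⟨t, by omega, h, c1⟩ n2
    · rw [h]
    · exact absurd ⟨t', by omega, h, c2⟩ n1

/-- The first visit in the epoch. -/
noncomputable def fst (d : Run) (lev : ℤ → ℕ) (t : ℕ) (u : ℤ) : ℕ :=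
  sInf (vis d lev t u : Set ℕ)

theorem fst_spec {t : ℕ} {u : ℤ} (ht : tch d t u) :
    ep d lev (lv lev (d.x t) u) t ≤ fst d lev t u ∧ fst d lev t u ≤ t ∧
      tch d (fst d lev t u) u ∧
      ∀ q, ep d lev (lv lev (d.x t) u) t ≤ q → q < fst d lev t u → ¬ tch d q u := by
  have hm : t ∈ (vis d lev t u : Set ℕ) := by
    unfold vis
    simp only [coe_filter, mem_Icc, Set.mem_setOf_eq]
    exact ⟨⟨ep_le _ _, le_rfl⟩, ht⟩
  have h1 : fst d lev t u ∈ (vis d lev t u : Set ℕ) := Nat.sInf_mem ⟨t, hm⟩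
  have h2 := h1
  unfold vis at h2
  simp only [coe_filter, mem_Icc, Set.mem_setOf_eq] at h2
  refine ⟨h2.1.1, h2.1.2, h2.2, fun q q1 q2 hq => ?_⟩
  have : fst d lev t u ≤ q := by
    apply Nat.sInf_le
    unfold vis
    simp only [coe_filter, mem_Icc, Set.mem_setOf_eq]
    exact ⟨⟨q1, by omega⟩, hq⟩
  omega

theorem card_F3 (hd : d.OK) (K H : ℕ)
    (hH : ∀ y, d.L < y → y ≤ d.R → lev y ≤ H) :
    #((far d lev).filter fun p =>
      (¬ ∃ s, ep d lev (lv lev (d.x p.1) p.2) p.1 ≤ s ∧ s < p.1 ∧ up d s p.2) ∧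
        #(vis d lev p.1 p.2) < K) ≤ K * #(INC d lev H) := by
  refine Finset.card_le_mul_card_image_of_maps_to
    (f := fun p : ℕ × ℤ => (fst d lev p.1 p.2, lv lev (d.x p.1) p.2)) ?_ K ?_
  · rintro ⟨t, u⟩ hp
    rw [mem_filter] at hp
    obtain ⟨a1, a2, a3, _⟩ := mem_far hd hp.1
    simp only at a1 a2 a3
    obtain ⟨f1, f2, f3, f4⟩ := fst_spec (lev := lev) a2.1
    have hx := same_ann (ep_same (d := d) (lev := lev) (lv lev (d.x t) u) t) (ep_le _ _) le_rfl
      f1 f2 a3 rfl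
    unfold INC
    simp only [mem_filter, mem_product, mem_range]
    refine ⟨⟨by omega, Nat.lt_succ_of_le (lv_le hH (hd.step t a1).mem.1.le a2.1.1.2.le)⟩, u, f3, hx.1, hx.2, ?_⟩
    rw [ep_eq f1 f2]
    exact f4
  · rintro ⟨r, a⟩ _
    set S := ((far d lev).filter fun p =>
      (¬ ∃ s, ep d lev (lv lev (d.x p.1) p.2) p.1 ≤ s ∧ s < p.1 ∧ up d s p.2) ∧
        #(vis d lev p.1 p.2) < K).filter
      fun p : ℕ × ℤ => (fst d lev p.1 p.2, lv lev (d.x p.1) p.2) = (r, a) with hS
    rcases S.eq_empty_or_nonempty with he | hne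
    · rw [he]; simp
    obtain ⟨⟨T, U⟩, hT, hmax⟩ := Finset.exists_max_image S (fun p => p.1) hne
    have hmem : ∀ p ∈ S, p ∈ far d lev ∧
        (¬ ∃ s, ep d lev (lv lev (d.x p.1) p.2) p.1 ≤ s ∧ s < p.1 ∧ up d s p.2) ∧
        #(vis d lev p.1 p.2) < K ∧ fst d lev p.1 p.2 = r ∧ lv lev (d.x p.1) p.2 = a := by
      intro p hp
      rw [hS, mem_filter, mem_filter] at hp
      exact ⟨hp.1.1, hp.1.2.1, hp.1.2.2, (Prod.mk.inj hp.2).1, (Prod.mk.inj hp.2).2⟩
    obtain ⟨F, N, V, E1, E2⟩ := hmem _ hT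
    obtain ⟨A1, A2, A3, _⟩ := mem_far hd F
    simp only at A1 A2 A3 N V E1 E2
    obtain ⟨G1, G2, G3, _⟩ := fst_spec (lev := lev) A2.1
    rw [E1] at G1 G2 G3
    refine le_trans (card_le_card_of_injOn (fun p => p.1) ?_ ?_) V.le
    · rintro ⟨t, u⟩ hp
      have hle : t ≤ T := hmax _ hp
      obtain ⟨f, _, _, e1, e2⟩ := hmem _ hp
      obtain ⟨a1, a2, a3, _⟩ := mem_far hd f
      simp only at a1 a2 a3 e1 e2
      obtain ⟨g1, g2, _, _⟩ := fst_spec (lev := lev) a2.1
      rw [e1] at g1 g2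
      have hU : ∀ q, r ≤ q → q ≤ T → d.x q < U := fun q q1 q2 =>
        (same_ann (ep_same (d := d) (lev := lev) (lv lev (d.x T) U) T) (ep_le _ _) le_rfl
          (by omega) q2 A3 rfl).1
      have hu : ∀ q, r ≤ q → q ≤ t → d.x q < u := fun q q1 q2 =>
        (same_ann (ep_same (d := d) (lev := lev) (lv lev (d.x t) u) t) (ep_le _ _) le_rfl
          (by omega) q2 a3 rfl).1
      unfold vis
      simp only [coe_filter, mem_Icc, Set.mem_setOf_eq]
      refine ⟨⟨by omega, hle⟩, ?_⟩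
      rcases eq_or_lt_of_le g2 with h | h
      · rw [← h]; exact G3
      · obtain ⟨k, k1, k2, k3⟩ := lp_rec hd A2.1.1 G3 t h a1.le fun q q1 q2 =>
          ⟨hU q q1 (by omega), fun hq => N ⟨q, by omega, by omega, hq⟩⟩
        have i1 := (lp_step hd (s := k) (by omega) a2.1.1 (hu k k1 k2.le)).1
        have i2 : d.lp (k + 1) u ≤ d.lp t u :=
          lp_grow hd a2.1.1 t (by omega) a1.le fun q q1 q2 => hu q (by omega) q2.le
        have i3 : d.lp t u < d.x t := a2.1.2.1
        have i4 := (hd.tree t a1.le).bnd U A2.1.1.1 A2.1.1.2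
        have i5 := hU t g2 hle
        exact ⟨A2.1.1, by omega, by omega⟩
    · rintro ⟨t, u⟩ hp ⟨t', u'⟩ hp' h
      simp only at h
      subst h
      obtain ⟨f, _, _, _, e2⟩ := hmem _ hp
      obtain ⟨f', _, _, _, e2'⟩ := hmem _ hp'
      simp only at e2 e2'
      rcases lt_trichotomy u u' with h | h | h
      · have := far_one hd f f' h; omega
      · rw [h]
      · have := far_one hd f' f h; omega

theorem inc_late (hd : d.OK) {r r' a a' : ℕ} (hm : r' < d.m) (h1 : Inc d lev r a)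
    (h2 : Inc d lev r' a') (hr : r < r') (ha : a < a') (he : ep d lev a r' ≤ r) : False := by
  obtain ⟨u, u1, u2, u3, _⟩ := h1
  obtain ⟨v, v1, v2, v3, v4⟩ := h2
  have e1 := ep_anti (d := d) (lev := lev) ha.le r'
  have b1 := same_ann (ep_same (d := d) (lev := lev) a r') he hr.le (ep_le _ _) le_rfl u2 u3
  have hv : ∀ q, r ≤ q → q ≤ r' → d.x q < v := fun q q1 q2 =>
    (same_ann (ep_same (d := d) (lev := lev) a' r') (ep_le _ _) le_rfl (by omega) q2 v2 v3).1
  have huv : u < v := by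
    by_contra hc
    have : lv lev (d.x r') v ≤ lv lev (d.x r') u := lv_mono le_rfl (by omega)
    omega
  have hst := lp_stay hd v1.1 r' hr.le hm.le fun q q1 q2 =>
    ⟨hv q q1 q2.le, v4 q (by omega) q2⟩
  have i1 : d.lp r' v < d.x r' := v1.2.1
  have i2 := ((hd.tree r (by omega)).lamL v u v1.1.1 v1.1.2 (by omega) huv).1
  have i3 : d.lp r u < d.x r := u1.2.1
  have i4 := (hd.tree r (by omega)).bnd v v1.1.1 v1.1.2
  have i5 := hv r le_rfl hr.le
  exact v4 r (by omega) hr ⟨v1.1, by omega, by omega⟩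

theorem card_INC (hd : d.OK) (H : ℕ) : #(INC d lev H) ≤ d.m + #(EP d lev H) := by
  rw [← card_filter_add_card_filter_not (s := INC d lev H)
    (fun p => ¬ ∃ a, a < p.2 ∧ Inc d lev p.1 a)]
  refine add_le_add ?_ ?_
  · rw [← card_range d.m]
    refine card_le_card_of_injOn (fun p => p.1) ?_ ?_
    · intro p hp
      unfold INC at hp
      simp only [coe_filter, mem_filter, mem_product, Set.mem_setOf_eq] at hp
      exact mem_coe.2 hp.1.1.1
    · rintro ⟨r, a⟩ hp ⟨r', a'⟩ hp' h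
      simp only at h
      subst h
      unfold INC at hp hp'
      simp only [coe_filter, mem_filter, Set.mem_setOf_eq] at hp hp'
      rcases lt_trichotomy a a' with h | h | h
      · exact absurd ⟨a, h, hp.1.2⟩ hp'.2
      · rw [h]
      · exact absurd ⟨a', h, hp'.1.2⟩ hp.2
  · refine Finset.card_le_card_of_forall_subsingleton
      (fun (p b : ℕ × ℕ) => Inc d lev p.1 b.2 ∧ b.2 < p.2 ∧ b.1 = ep d lev b.2 p.1 ∧
        ∀ c, b.2 < c → c < p.2 → ¬ Inc d lev p.1 c) ?_ ?_
    · rintro ⟨r, a⟩ hp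
      unfold INC at hp
      simp only [mem_filter, mem_product, mem_range, not_not] at hp
      obtain ⟨⟨⟨p1, p2⟩, _⟩, a0, p4, p5⟩ := hp
      obtain ⟨b, hb, hmax⟩ := Finset.exists_max_image
        ((range a).filter fun c => Inc d lev r c) id
        ⟨a0, mem_filter.2 ⟨mem_range.2 p4, p5⟩⟩
      rw [mem_filter, mem_range] at hb
      refine ⟨(ep d lev b r, b), ?_, hb.2, hb.1, rfl, fun c c1 c2 hc => ?_⟩
      · obtain ⟨u, _, u2, u3, _⟩ := hb.2
        have e1 := ep_le (d := d) (lev := lev) b r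
        have e2 := same_ann (ep_same (d := d) (lev := lev) b r) e1 le_rfl le_rfl e1 u2 u3
        have e3 : lev (d.x (ep d lev b r) + 1) ≤ lv lev (d.x (ep d lev b r)) u :=
          le_lv (by omega) (by omega)
        unfold EP
        simp only [mem_filter, mem_product, mem_range]
        refine ⟨⟨by omega, by omega⟩, by omega, ?_⟩
        by_cases h0 : ep d lev b r = 0
        · exact Or.inl h0
        · exact Or.inr (ep_jump h0)
      · have := hmax c (mem_filter.2 ⟨mem_range.2 c2, hc⟩)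
        simp only [id] at this c1
        omega
    · rintro ⟨e, b⟩ _ ⟨r, a⟩ h1 ⟨r', a'⟩ h2
      unfold INC at h1 h2
      simp only [Set.mem_setOf_eq, coe_filter, mem_filter, mem_product, mem_range] at h1 h2
      obtain ⟨⟨⟨⟨p1, _⟩, p2⟩, _⟩, a1, a2, a3, a4⟩ := h1
      obtain ⟨⟨⟨⟨q1, _⟩, q2⟩, _⟩, b1, b2, b3, b4⟩ := h2
      have i1 := ep_le (d := d) (lev := lev) b r
      have i2 := ep_le (d := d) (lev := lev) b r'
      rcases lt_trichotomy r r' with h | h | h
      · exact (inc_late hd q1 a1 q2 h b2 (by omega)).elim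
      · subst h
        rcases lt_trichotomy a a' with h | h | h
        · exact absurd p2 (b4 a a2 h)
        · rw [h]
        · exact absurd q2 (a4 a' b2 h)
      · exact (inc_late hd p1 b1 p2 h a2 (by omega)).elim

/-- Far hot links are paid by the path, the near hot links and the epochs. -/
theorem far_le (hd : d.OK) (K H : ℕ)
    (hH : ∀ y, d.L < y → y ≤ d.R → lev y ≤ H) :
    K * #(far d lev) ≤ d.NR + K * #(near d lev) + K ^ 2 * (d.m + #(EP d lev H)) := by
  have h1 := card_F1 (lev := lev) hd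
  have h2 := card_F2 (lev := lev) hd K
  have h3 := card_F3 hd K H hH
  have h4 := card_INC (lev := lev) hd H
  have hsub : far d lev ⊆
      ((far d lev).filter fun p =>
        ∃ s, ep d lev (lv lev (d.x p.1) p.2) p.1 ≤ s ∧ s < p.1 ∧ up d s p.2) ∪
      (((far d lev).filter fun p =>
        (¬ ∃ s, ep d lev (lv lev (d.x p.1) p.2) p.1 ≤ s ∧ s < p.1 ∧ up d s p.2) ∧
          K ≤ #(vis d lev p.1 p.2)) ∪
      ((far d lev).filter fun p =>
        (¬ ∃ s, ep d lev (lv lev (d.x p.1) p.2) p.1 ≤ s ∧ s < p.1 ∧ up d s p.2) ∧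
          #(vis d lev p.1 p.2) < K)) := by
    intro p hp
    simp only [mem_union, mem_filter]
    by_cases c1 : ∃ s, ep d lev (lv lev (d.x p.1) p.2) p.1 ≤ s ∧ s < p.1 ∧ up d s p.2
    · exact Or.inl ⟨hp, c1⟩
    · by_cases c2 : K ≤ #(vis d lev p.1 p.2)
      · exact Or.inr (Or.inl ⟨hp, c1, c2⟩)
      · exact Or.inr (Or.inr ⟨hp, c1, by omega⟩)
  have h5 := (card_le_card hsub).trans ((card_union_le _ _).trans
    (Nat.add_le_add_left (card_union_le _ _) _))
  have h6 := h3.trans (Nat.mul_le_mul_left K h4)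
  have h7 := Nat.mul_le_mul_left K h5
  have h8 := Nat.mul_le_mul_left K h6
  have h9 := Nat.mul_le_mul_left K h1
  nlinarith

/-- The number of epochs is at most the sum of the jumps above the own level. -/
theorem card_EP (d : Run) (lev : ℤ → ℕ) (H : ℕ) :
    #(EP d lev H) ≤ (H + 1) +
      ∑ t ∈ range (d.m - 1), (dl lev (d.x t) (d.x (t + 1)) + 1 - lev (d.x (t + 1) + 1)) := by
  have hsub : EP d lev H ⊆ ((range (H + 1)).image fun a => (0, a)) ∪
      (range (d.m - 1)).biUnion fun t =>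
        (Ico (lev (d.x (t + 1) + 1)) (dl lev (d.x t) (d.x (t + 1)) + 1)).image
          fun a => (t + 1, a) := by
    rintro ⟨e, a⟩ hp
    unfold EP at hp
    simp only [mem_filter, mem_product, mem_range] at hp
    obtain ⟨⟨p1, p2⟩, p3, p4⟩ := hp
    rcases e with _ | e
    · exact mem_union_left _ (mem_image.2 ⟨a, mem_range.2 p2, rfl⟩)
    · refine mem_union_right _ (mem_biUnion.2 ⟨e, mem_range.2 (by omega), mem_image.2 ⟨a, ?_, rfl⟩⟩)
      rcases p4 with h | h
      · omega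
      · simp only [Nat.add_sub_cancel] at h
        exact mem_Ico.2 ⟨p3, by omega⟩
  refine (card_le_card hsub).trans ((card_union_le _ _).trans (add_le_add ?_ ?_))
  · exact card_image_le.trans (by rw [card_range])
  · exact card_biUnion_le.trans (sum_le_sum fun t _ => card_image_le.trans (by rw [Nat.card_Ico]))

end Pool.Agent.P.MP_119182_lc.LW.H2
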