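import Pool.Agent.P.MP_119182_lc.LW.IfaceF
import Pool.Agent.P.MP_119182_lc.LW.Far

/-! Step H2. -/

set_option autoImplicit false

namespace Pool.Agent.P.MP_119182_lc.LW

open Finset
open scoped Classical
open NU (Run mr)
open LU (key tch up low LK)

theorem h2_far (d : Run) (lev : ℤ → ℕ) : FAR d lev ⊆ H2.far d lev := by
  intro p hp
  unfold FAR far at hp
  unfold H2.far LK
  simp only [mem_filter] at hp ⊢
  exact ⟨⟨hp.1, hp.2.1⟩, hp.2.2.1, hp.2.2.2.1.le, hp.2.2.2.2⟩

theorem h2_near (d : Run) (lev : ℤ → ℕ) : H2.near d lev ⊆ NEAR d lev := by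
  intro p hp
  unfold H2.near LK at hp
  unfold NEAR near
  simp only [mem_filter] at hp ⊢
  exact ⟨hp.1.1, hp.1.2, hp.2.1, hp.2.2⟩

theorem h2_ep {d : Run} {lev : ℤ → ℕ} {σ H : ℕ} (hd : d.OK) (hl : Lv d.L d.R lev σ H) :
    #(H2.EP d lev (σ + H)) ≤ #(EP d lev (σ + H + 1)) := by
  refine card_le_card_of_injOn (fun p => (p.2, p.1)) ?_ ?_
  · rintro ⟨e, a⟩ hp
    unfold H2.EP at hp
    simp only [coe_filter, mem_product, mem_range, Set.mem_ofPred_eq] at hp
    obtain ⟨⟨p1, p2⟩, p3, p4⟩ := hp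
    have hx := (hd.step e p1).mem
    have hb := (hl.bnd (d.x e + 1) (by omega) (by omega)).1
    have hm : e ∈ {s | ∀ r, s ≤ r → r ≤ e → cell lev a (d.x e) (d.x r)} := by
      intro r r1 r2
      have : r = e := by omega
      subst this
      unfold cell lv
      simp only [min_self, max_self, Ioc_self, sup_empty]
      exact lt_of_le_of_lt (Nat.zero_le σ) (by omega)
    unfold EP
    simp only [coe_filter, mem_product, mem_range, Set.mem_ofPred_eq]
    refine ⟨⟨by omega, p1⟩, (min_le_right _ _).trans p3, ?_⟩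
    unfold ep
    apply le_antisymm (Nat.sInf_le hm)
    rcases p4 with h | h
    · omega
    · by_contra hc
      have h2 := Nat.sInf_mem ⟨e, hm⟩ (e - 1) (by omega) (by omega)
      have h3 : H2.dl lev (d.x e) (d.x (e - 1)) < a := h2
      rw [H2.dl_comm] at h3
      omega
  · rintro ⟨e, a⟩ _ ⟨e', a'⟩ _ h
    simp only [Prod.mk.injEq] at h ⊢
    exact ⟨h.2, h.1⟩

theorem h2_all : S_H2 := by
  intro d lev σ H K hd hl
  have h1 := H2.far_le hd K (σ + H) fun y a b => (hl.bnd y a b).2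
  have h2 := Nat.mul_le_mul_left K (card_le_card (h2_far d lev))
  have h3 := Nat.mul_le_mul_left K (card_le_card (h2_near d lev))
  have h4 := Nat.mul_le_mul_left (K ^ 2) (Nat.add_le_add_left (h2_ep hd hl) d.m)
  omega

theorem p_H2 : S_H2 := h2_all

end Pool.Agent.P.MP_119182_lc.LW
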