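import Pool.Agent.P.MP_119182_lc.LW.IfaceF

/-! Step LK. -/

set_option autoImplicit false

namespace Pool.Agent.P.MP_119182_lc.LW

open Finset
open scoped Classical
open NU (Run mr)
open LU (key tch up low LK)

theorem p_LK :
    S_LK := by
  intro d hd
  rw [← card_filter_add_card_filter_not (s := LK d) fun p => d.x p.1 < p.2]
  refine Nat.add_le_add ?_ ?_
  · unfold Run.LamR
    rw [← card_sigma]
    refine card_le_card_of_injOn (fun p => (p.1, p.2)) ?_ ?_
    · rintro ⟨i, u⟩ hp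
      simp only [coe_sigma, Set.mem_sigma_iff, mem_coe, mem_range, Run.U, Run.P, mem_filter,
        mem_Ioo] at hp
      obtain ⟨hi, ⟨⟨p1, p2⟩, p3⟩, p4⟩ := hp
      have q1 := (hd.step i hi).mem
      have q2 := (hd.tree i hi.le).bnd u (by omega) p2
      simp only [LK, Run.keys, mem_coe, mem_filter, mem_product, mem_range, mem_Ioo]
      exact ⟨⟨⟨hi, by omega, p2⟩, ⟨⟨by omega, p2⟩, p3, by omega⟩, Or.inl ⟨p1, p4⟩⟩, p1⟩
    · rintro ⟨i, u⟩ - ⟨j, v⟩ - h
      obtain ⟨rfl, rfl⟩ := Prod.mk.inj h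
      rfl
  · unfold Run.LamR
    rw [← card_sigma]
    refine card_le_card_of_injOn (fun p => (p.1, mr p.2)) ?_ ?_
    · rintro ⟨i, u⟩ hp
      simp only [coe_sigma, Set.mem_sigma_iff, mem_coe, mem_range, Run.U, Run.P, mem_filter,
        mem_Ioo, Run.mir] at hp
      obtain ⟨hi, ⟨⟨p1, p2⟩, p3⟩, p4⟩ := hp
      have q1 := (hd.step i hi).mem
      have r1 : d.L < mr u := by unfold mr at *; omega
      have r2 : mr u < d.x i := by unfold mr at *; omega
      have r3 : d.x i < d.rp i (mr u) := by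
        generalize d.rp i (mr u) = z at p3 ⊢
        unfold mr at p3
        omega
      have r4 : d.rp (i + 1) (mr u) ≠ d.x i := fun h => p4 (by rw [h])
      have q2 := (hd.tree i hi.le).bnd (mr u) r1 (by omega)
      simp only [LK, Run.keys, mem_coe, mem_filter, mem_product, mem_range, mem_Ioo]
      exact ⟨⟨⟨hi, r1, by omega⟩, ⟨⟨r1, by omega⟩, by omega, r3⟩, Or.inr ⟨r2, r4⟩⟩, by omega⟩
    · rintro ⟨i, u⟩ - ⟨j, v⟩ - h
      obtain ⟨h1, h2⟩ := Prod.mk.inj h
      have h3 : u = v := by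
        simp only [mr] at h2
        omega
      subst h1 h3
      rfl

end Pool.Agent.P.MP_119182_lc.LW
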