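import Pool.Agent.P.MP_119182_lc.LW.Base

/-! Step MIR. -/

set_option autoImplicit false

namespace Pool.Agent.P.MP_119182_lc.LW

open Finset
open scoped Classical
open NU (Run mr)
open LU (key tch up low LK)

theorem mir_lv (lev : ℤ → ℕ) (a b : ℤ) : lv (ml lev) (mr b) (mr a) = lv lev a b := by
  unfold lv ml mr
  apply le_antisymm
  · refine Finset.sup_le fun y hy => ?_
    rw [mem_Ioc] at hy
    exact Finset.le_sup (f := lev) (mem_Ioc.2 ⟨by omega, by omega⟩)
  · refine Finset.sup_le fun y hy => ?_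
    rw [mem_Ioc] at hy
    have h : -y ∈ Ioc (-1 - b) (-1 - a) := mem_Ioc.2 ⟨by omega, by omega⟩
    have h2 := Finset.le_sup (f := fun y => lev (-y)) h
    simpa using h2

theorem mir_cell (lev : ℤ → ℕ) (j : ℕ) (a b : ℤ) :
    cell (ml lev) j (mr a) (mr b) ↔ cell lev j a b := by
  have h1 : min (mr a) (mr b) = mr (max a b) := by
    unfold mr
    omega
  have h2 : max (mr a) (mr b) = mr (min a b) := by
    unfold mr
    omega
  unfold cell
  rw [h1, h2, mir_lv]

theorem mir_bot (lev : ℤ → ℕ) (a : ℤ) : bot (ml lev) (mr a) = bot lev a := by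
  unfold bot ml mr
  have h1 : -(-1 - a) = a + 1 := by omega
  have h2 : -(-1 - a + 1) = a := by omega
  rw [h1, h2, min_comm]

theorem mir_ep (d : Run) (lev : ℤ → ℕ) (b t : ℕ) : ep d.mir (ml lev) b t = ep d lev b t := by
  unfold ep
  have h : ∀ r, cell (ml lev) b (d.mir.x t) (d.mir.x r) ↔ cell lev b (d.x t) (d.x r) :=
    fun r => mir_cell lev b (d.x t) (d.x r)
  simp only [h]

theorem mir_EP (d : Run) (lev : ℤ → ℕ) (top : ℕ) : EP d.mir (ml lev) top = EP d lev top := by
  unfold EP
  have hm : d.mir.m = d.m := rfl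
  rw [hm]
  refine Finset.filter_congr fun p _ => ?_
  have h : bot (ml lev) (d.mir.x p.2) = bot lev (d.x p.2) := mir_bot lev (d.x p.2)
  rw [h, mir_ep]

theorem p_MIR : S_MIR := by
  refine ⟨mir_lv, mir_cell, ?_, ?_⟩
  · intro lev
    funext y
    simp [ml]
  · intro d lev σ H top c
    refine ⟨fun h => ⟨?_, ?_⟩, mir_ep d lev, mir_EP d lev top, ?_⟩
    · intro y h1 h2
      have e1 : d.mir.L = -1 - d.R := rfl
      have e2 : d.mir.R = -1 - d.L := rfl
      exact h.bnd (-y) (by omega) (by omega)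
    · intro a b h1 h2 h3 h4
      have e1 : d.mir.L = -1 - d.R := rfl
      have e2 : d.mir.R = -1 - d.L := rfl
      obtain ⟨c, c1, c2, c3⟩ := h.uniq (-b) (-a) (by omega) (by omega) (by omega) h4.symm
      refine ⟨-c, by omega, by omega, ?_⟩
      have h5 : lev (-a) = lev (-b) := h4
      show lev (-a) < lev (- -c)
      rw [neg_neg, h5]
      exact c3
    · unfold Z
      rw [mir_EP]

end Pool.Agent.P.MP_119182_lc.LW
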