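import Pool.Agent.P.MP_119182_lc.NU.TALGA
import Pool.Agent.P.MP_119182_lc.NU.TBRG
import Pool.Agent.P.MP_119182_lc.NU.TTURN
import Pool.Agent.P.MP_119182_lc.NU.TWCNT
import Pool.Agent.P.MP_119182_lc.NU.TTSPL
import Pool.Agent.P.MP_119182_lc.NU.TNS
import Pool.Agent.P.MP_119182_lc.NU.TDBL
import Pool.Agent.P.MP_119182_lc.NU.TLW
import Pool.Agent.P.MP_119182_lc.GP.TSIDE
import Pool.Agent.P.MP_119182_lc.LW.Caps
import Pool.Agent.P.MP_119182_lc.LW.AllH1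
import Pool.Agent.P.MP_119182_lc.LW.TGALL
import Pool.Agent.P.MP_119182_lc.LW.TBW
import Pool.Agent.P.MP_119182_lc.LW.TMIR
import Pool.Agent.P.MP_119182_lc.LW.TH2
import Pool.Agent.P.MP_119182_lc.LW.TABS
import Pool.Agent.P.MP_119182_lc.LW.TBUD
import Pool.Agent.P.MP_119182_lc.LW.TLK
import Pool.Agent.P.MP_119182_lc.LW.TFIN

/-! The bound by the distances in a reference tree, assembled. -/

set_option autoImplicit false

namespace Pool.Agent.P.MP_119182_lc.LW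

theorem a_GW : G_W :=
  p_BW p_CELL (p_EP p_CELL) (p_VIS LU.p_LINK) p_MIR LU.p_LINK LU.a_MIRA
    (p_GALL W.a_WR W.p_CPEX W.a_CPMIR W.a_PLUG GP.p_SIDE NU.p_EMIR)

theorem a_FIN : S_FIN :=
  p_FIN (p_ABS a_H1 a_GW p_H2 p_MIR NU.p_EMIR) (p_BUD p_CELL (p_EP p_CELL)) p_LK
    (NU.p_ALGA NU.p_EMIR) NU.p_BRG
    (NU.p_TURN NU.p_EMIR NU.p_WCNT NU.p_TSPL NU.p_NS (NU.p_DBL NU.p_LW))

end Pool.Agent.P.MP_119182_lc.LW
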