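import Pool.Agent.P.MP_119182_lc.LW.Base

/-! Step CELL. -/

set_option autoImplicit false

namespace Pool.Agent.P.MP_119182_lc.LW

open Finset
open scoped Classical
open NU (Run mr)
open LU (key tch up low LK)

theorem cell_split (lev : ℤ → ℕ) (a b c : ℤ) (h1 : a ≤ b) (h2 : b ≤ c) :
    lv lev a c = max (lv lev a b) (lv lev b c) := by
  unfold lv
  rw [← Ioc_union_Ioc_eq_Ioc h1 h2, sup_union]

theorem cell_le (lev : ℤ → ℕ) (a b y : ℤ) (h1 : a < y) (h2 : y ≤ b) : lev y ≤ lv lev a b :=
  le_sup (f := lev) (mem_Ioc.2 ⟨h1, h2⟩)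

theorem cell_ex (lev : ℤ → ℕ) (a b : ℤ) (h : a < b) :
    ∃ y, a < y ∧ y ≤ b ∧ lev y = lv lev a b := by
  obtain ⟨y, hy, e⟩ := exists_mem_eq_sup (Ioc a b) (nonempty_Ioc.2 h) lev
  exact ⟨y, (mem_Ioc.1 hy).1, (mem_Ioc.1 hy).2, e.symm⟩

theorem cell_self (lev : ℤ → ℕ) (a : ℤ) : lv lev a a = 0 := by
  simp [lv]

theorem cell_mono (lev : ℤ → ℕ) (a b a' b' : ℤ) (h1 : a ≤ a') (h2 : b' ≤ b) :
    lv lev a' b' ≤ lv lev a b :=
  sup_mono (Ioc_subset_Ioc h1 h2)

theorem cell_iff (lev : ℤ → ℕ) (j : ℕ) (x y : ℤ) (h : x ≤ y) :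
    (cell lev j x y ↔ lv lev x y < j) ∧ (cell lev j y x ↔ lv lev x y < j) := by
  unfold cell
  rw [min_eq_left h, max_eq_right h, min_eq_right h, max_eq_left h]
  exact ⟨Iff.rfl, Iff.rfl⟩

theorem cell_trans (lev : ℤ → ℕ) (j : ℕ) (x y z : ℤ) (h1 : cell lev j x y)
    (h2 : cell lev j y z) : cell lev j x z := by
  unfold cell at *
  have a1 := cell_split lev (min (min x y) z) y (max (max x y) z) (by omega) (by omega)
  have a2 := cell_mono lev (min (min x y) z) (max (max x y) z) (min x z) (max x z)
    (by omega) (by omega)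
  have a3 : lv lev (min (min x y) z) y < j := by
    rcases le_total x z with h | h
    · exact lt_of_le_of_lt (cell_mono lev _ _ _ _ (by omega) (by omega)) h1
    · exact lt_of_le_of_lt (cell_mono lev _ _ _ _ (by omega) (by omega)) h2
  have a4 : lv lev y (max (max x y) z) < j := by
    rcases le_total x z with h | h
    · exact lt_of_le_of_lt (cell_mono lev _ _ _ _ (by omega) (by omega)) h2
    · exact lt_of_le_of_lt (cell_mono lev _ _ _ _ (by omega) (by omega)) h1
  omega

theorem p_CELL : S_CELL := by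
  refine ⟨cell_split, fun lev a => ⟨cell_self lev a, ?_⟩, cell_le, cell_ex, cell_iff,
    fun lev j x y z => ⟨fun h => ?_, fun h => ?_, cell_trans lev j x y z, fun h h1 h2 => ?_,
      fun j' h1 h2 => lt_of_lt_of_le h2 h1, fun h h1 h2 => ?_, fun h h1 h2 => ?_⟩,
    fun L R lev σ H hL a b c h1 h2 h3 h4 e => ?_, fun L R lev σ H hL a b h1 h2 h3 => ?_⟩
  · obtain ⟨y, y1, y2, e⟩ := cell_ex lev a (a + 1) (by omega)
    rw [← e, show y = a + 1 by omega]
  · rw [(cell_iff lev j x x le_rfl).1, cell_self]
    omega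
  · unfold cell at *
    rwa [min_comm, max_comm]
  · rw [(cell_iff lev j x z (h1.trans h2)).1, cell_split lev x y z h1 h2] at h
    rw [(cell_iff lev j x y h1).1, (cell_iff lev j y z h2).1]
    omega
  · rcases le_total x y with l | l
    · rw [(cell_iff lev j x y l).1] at h
      have l2 : y < z := by
        by_contra hc
        have := cell_mono lev x y x z le_rfl (by omega)
        omega
      have := cell_split lev x y z l l2.le
      exact ⟨l2, by omega⟩
    · rw [(cell_iff lev j y x l).2] at h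
      have := cell_split lev y x z l h1.le
      exact ⟨by omega, by omega⟩
  · rcases le_total x y with l | l
    · rw [(cell_iff lev j x y l).1] at h
      have := cell_split lev z x y h1.le l
      exact ⟨by omega, by omega⟩
    · rw [(cell_iff lev j y x l).2] at h
      have l2 : z < y := by
        by_contra hc
        have := cell_mono lev y x z x (by omega) le_rfl
        omega
      have := cell_split lev z y x l2.le l
      exact ⟨l2, by omega⟩
  · obtain ⟨y, y1, y2, e1⟩ := cell_ex lev a b h2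
    obtain ⟨z, z1, z2, e2⟩ := cell_ex lev b c h3
    obtain ⟨w, w1, w2, w3⟩ := hL.uniq y z (by omega) (by omega) (by omega) (by omega)
    have := cell_le lev a c w (by omega) (by omega)
    have := cell_split lev a b c h2.le h3.le
    omega
  · obtain ⟨y, y1, y2, e1⟩ := cell_ex lev a b h2
    have b1 := hL.bnd y (by omega) (by omega)
    have b2 := cell_le lev a b (a + 1) (by omega) (by omega)
    have b3 := cell_le lev a b b h2 le_rfl
    unfold bot
    omega

end Pool.Agent.P.MP_119182_lc.LW
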