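import Pool.Agent.P.MP_119182_lc.LW.IfaceH1

/-! Step CLS. -/

set_option autoImplicit false

namespace Pool.Agent.P.MP_119182_lc.LW

open Finset
open scoped Classical
open NU (Run mr)
open LU (key tch up low LK)

theorem cls_s0 (d : Run) (e : ℕ × ℤ) : s0 d e ≤ e.1 :=
  Nat.sInf_le (fun _ h1 h2 => absurd h2 (not_lt.2 h1))

theorem cls_l (p : ℕ → Prop) (a : ℕ) (ha : 1 ≤ a) (hp : ¬ p a) :
    ∃ l, l < a ∧ (1 ≤ l → p l) ∧ ∀ q, l < q → q ≤ a → ¬ p q := by
  refine ⟨Nat.findGreatest p (a - 1), ?_, ?_, ?_⟩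
  · have := Nat.findGreatest_le (P := p) (a - 1)
    omega
  · intro h
    exact Nat.findGreatest_of_ne_zero rfl (by omega)
  · intro q h1 h2
    rcases lt_or_eq_of_le h2 with h3 | h3
    · exact Nat.findGreatest_is_greatest h1 (by omega)
    · rw [h3]
      exact hp

theorem p_CLS (hCELL : S_CELL) (hEP : S_EP) (hFIB : S_FIB) (hSAW : S_SAW) (hARI : S_ARI) :
    S_CLS := by
  intro d lev σ H K hd hL e he
  obtain ⟨hmem, hn⟩ := mem_filter.1 he
  have htm : e.1 < d.m := mem_range.1 (mem_product.1 hmem).1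
  have hrl : rl d e := ⟨htm, hn.1, hn.2.1⟩
  obtain ⟨f0, f1, -, -, -⟩ := hFIB d lev hd
  obtain ⟨g1, g2, g3, -, g5⟩ := f1 e hrl
  have hxl : d.x e.1 < low d e.1 e.2 := ((f0 _ htm _).1 g2).2
  have hxL : d.L < d.x e.1 := (hd.step _ htm).mem.1
  have huR : e.2 < d.R := hn.1.1.1.2
  obtain ⟨c1, -, -, -, c5, -, -, c8⟩ := hCELL
  have hsplit := c1 lev (d.x e.1) (low d e.1 e.2) e.2 hxl.le g3.le
  have hlt : al d lev e < au d lev e := by
    have h1 := hn.2.2
    unfold al au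
    rw [hsplit]
    exact lt_max_of_lt_right h1
  have hau : au d lev e ≤ σ + H := (c8 _ _ lev σ H hL _ _ hxL.le hn.2.1 huR.le).2.1
  have hal : σ < al d lev e := (c8 _ _ lev σ H hL _ _ hxL.le hxl (by omega)).1
  by_cases hold : K ≤ age d e
  · exact Or.inl ((mem_Sel d _ e).2 ⟨hmem, hrl, hold⟩)
  right
  have hy : age d e < K := not_le.1 hold
  by_cases hE : s0 d e ≤ ep d lev (al d lev e) e.1
  · have hq : cq d lev 0 e = al d lev e := by simp [cq]
    have hh : ch d lev 0 e = al d lev e + 1 := by simp [ch, hq]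
    refine ⟨0, by omega, Or.inl ((mem_Sel d _ e).2 ⟨hmem, ⟨hrl, by omega, by omega, ?_⟩, ?_⟩)⟩
    · rw [hq]
      refine (hEP d lev (al d lev e) e.1 (by omega)).2.2.2.2.2.2.2 _ (low d e.1 e.2) htm (by omega)
        hxl.ne' ?_
      rw [min_eq_left hxl.le, max_eq_right hxl.le]
      exact le_rfl
    · have h1 := hSAW d lev (al d lev e) (al d lev e + 1) e hd (by omega) hrl hE (by omega)
      unfold rank
      rw [hq, hh]
      omega
  obtain ⟨l, l1, l2, l3⟩ := cls_l (fun b => s0 d e ≤ ep d lev b e.1) (al d lev e) (by omega) hE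
  obtain ⟨j, j1, j2, j3⟩ := hARI.1 l _ _ l1 hlt
  have hq : cq d lev j e = al d lev e / 2 ^ j * 2 ^ j := rfl
  have hh : ch d lev j e = cq d lev j e + 2 ^ j := rfl
  rw [← hq] at j1 j2 j3
  have hqa : cq d lev j e ≤ al d lev e := Nat.div_mul_le_self _ _
  have hq1 : 1 ≤ cq d lev j e := by omega
  have hj : j < 2 ^ j := Nat.lt_two_pow_self
  have hlate : ep d lev (cq d lev j e) e.1 < s0 d e := not_le.1 (l3 _ j1 hqa)
  have hs := cls_s0 d e
  have hBs : Bs d lev (σ + H + 1) j e := by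
    refine ⟨hrl, hq1, by omega, ?_⟩
    have hE2 := hEP d lev (cq d lev j e) e.1 hq1
    have hc := (hE2.2.1 (e.1 - 1) (by omega) (by omega)).1
    exact hE2.2.2.2.2.2.2.2 _ (d.x (e.1 - 1)) htm (by omega) (g5 (by omega)) (le_of_lt hc)
  refine ⟨j, by omega, ?_⟩
  rcases j3 with hA | hB
  · by_cases hr : rank d lev j e < K
    · exact Or.inl ((mem_Sel d _ e).2 ⟨hmem, hBs, hr⟩)
    by_cases ht : #(Tst d lev e.1 (ch d lev j e) (σ + H + 1)) < K * (j + 1) ^ 2
    · exact Or.inr (Or.inl ((mem_Sel d _ e).2 ⟨hmem, hBs, by omega, ht⟩))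
    refine Or.inr (Or.inr (Or.inr (Or.inl ((mem_Sel d _ e).2 ⟨hmem, hBs, hy, ?_, not_lt.1 hr, ?_⟩))))
    · intro b b1 b2
      have hbl : b ≤ l := by omega
      exact le_trans (l2 (by omega)) ((hEP d lev b e.1 b1).2.2.2.2.1 l hbl)
    · exact le_trans (not_lt.1 ht) (card_le_card (filter_subset _ _))
  · by_cases ht : #(Tst d lev e.1 (ch d lev j e) (ch d lev j e + 2 ^ j)) < K * (j + 1) ^ 2
    · exact Or.inr (Or.inr (Or.inl ((mem_Sel d _ e).2 ⟨hmem, hBs, by omega, ht⟩)))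
    · exact Or.inr (Or.inr (Or.inr (Or.inr ((mem_Sel d _ e).2 ⟨hmem, hBs, not_lt.1 ht⟩))))

end Pool.Agent.P.MP_119182_lc.LW
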