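import Pool.Agent.P.MP_119182_lc.LW.IfaceH1

/-! Step CNT. -/

set_option autoImplicit false

namespace Pool.Agent.P.MP_119182_lc.LW

open Finset
open scoped Classical
open NU (Run mr)
open LU (key tch up low LK)

theorem cnt_sel {d : Run} {p : ℕ × ℤ → Prop} {e : ℕ × ℤ} :
    e ∈ Sel d p ↔ e ∈ range d.m ×ˢ d.keys ∧ p e := by
  unfold Sel
  exact mem_filter

theorem cnt_fib {d : Run} {lev : ℤ → ℕ} {top j q s : ℕ} {e : ℕ × ℤ}
    (h0 : e ∈ range d.m ×ˢ d.keys) (h : Bs d lev top j e) (h1 : cq d lev j e = q)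
    (h2 : ep d lev q e.1 = s) : e ∈ Fib d lev q (q + 2 ^ j) s ∧ ch d lev j e = q + 2 ^ j := by
  have e1 : ch d lev j e = q + 2 ^ j := by unfold ch; rw [h1]
  refine ⟨?_, e1⟩
  unfold Fib
  refine cnt_sel.2 ⟨h0, h.1, h2, ?_, ?_, ?_⟩
  · rw [← h1]; unfold cq; exact Nat.div_mul_le_self _ _
  · rw [← h1]; unfold cq
    exact Nat.lt_div_mul_add (Nat.pos_of_ne_zero (by positivity))
  · rw [← e1]; exact h.2.2.1

theorem p_CNT (hFST : S_FST) (hLST : S_LST) (hFSUM : S_FSUM) :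
    S_CNT := by
  intro d lev top K J hd
  refine ⟨hFSUM d lev top K J (fun j => CF d lev top K j) (fun j e he => ?_) (fun j q s hq => ?_),
    hFSUM d lev top K J (fun j => CA d lev top K j) (fun j e he => ?_) (fun j q s hq => ?_),
    hFSUM d lev top K J (fun j => CB d lev top K j) (fun j e he => ?_) (fun j q s hq => ?_)⟩
  · exact (cnt_sel.1 he).2.1
  · refine le_trans (card_le_card fun e he => ?_)
      ((hFST d lev q (q + 2 ^ j) s K hd).trans (Nat.le_mul_of_pos_right _ (by positivity)))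
    obtain ⟨h1, h2, h3⟩ := mem_filter.1 he
    obtain ⟨h4, h5, h6⟩ := cnt_sel.1 h1
    obtain ⟨h7, h8⟩ := cnt_fib h4 h5 h2 h3
    refine mem_filter.2 ⟨h7, ?_⟩
    unfold rank at h6
    rwa [h8, h2, h3] at h6
  · exact (cnt_sel.1 he).2.1
  · refine le_trans (card_le_card fun e he => ?_)
      (hLST d lev q (q + 2 ^ j) top s (K * (j + 1) ^ 2) hd hq)
    obtain ⟨h1, h2, h3⟩ := mem_filter.1 he
    obtain ⟨h4, h5, h6, h9⟩ := cnt_sel.1 h1
    obtain ⟨h7, h8⟩ := cnt_fib h4 h5 h2 h3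
    refine mem_filter.2 ⟨h7, h6, ?_⟩
    rwa [h8] at h9
  · exact (cnt_sel.1 he).2.1
  · refine le_trans (card_le_card fun e he => ?_)
      (hLST d lev q (q + 2 ^ j) (q + 2 ^ j + 2 ^ j) s (K * (j + 1) ^ 2) hd hq)
    obtain ⟨h1, h2, h3⟩ := mem_filter.1 he
    obtain ⟨h4, h5, h6, h9⟩ := cnt_sel.1 h1
    obtain ⟨h7, h8⟩ := cnt_fib h4 h5 h2 h3
    rw [h8] at h6 h9
    exact mem_filter.2 ⟨h7, h6, h9⟩

end Pool.Agent.P.MP_119182_lc.LW
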