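import Pool.Agent.P.MP_119182_lc.LW.Base

/-! Step EP. -/

set_option autoImplicit false

namespace Pool.Agent.P.MP_119182_lc.LW

open Finset
open scoped Classical
open NU (Run mr)
open LU (key tch up low LK)

theorem p_EP (hCELL : S_CELL) : S_EP := by
  obtain ⟨c1, -, c3, c4, c5, c6, -, -⟩ := hCELL
  have A : ∀ (d : Run) (lev : ℤ → ℕ) (b t : ℕ), 1 ≤ b →
      (∀ r, ep d lev b t ≤ r → r ≤ t → cell lev b (d.x t) (d.x r)) ∧
      ∀ s, (∀ r, s ≤ r → r ≤ t → cell lev b (d.x t) (d.x r)) → ep d lev b t ≤ s := by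
    intro d lev b t hb
    refine ⟨?_, fun s hs => Nat.sInf_le hs⟩
    have ne : {s | ∀ r, s ≤ r → r ≤ t → cell lev b (d.x t) (d.x r)}.Nonempty :=
      ⟨t + 1, fun r h1 h2 => by omega⟩
    exact Nat.sInf_mem ne
  have B : ∀ (d : Run) (lev : ℤ → ℕ) (b t : ℕ), 1 ≤ b → ep d lev b t ≤ t := by
    intro d lev b t hb
    refine (A d lev b t hb).2 t fun r h1 h2 => ?_
    rw [show r = t by omega]
    exact (c6 lev b (d.x t) 0 0).1 hb
  have C : ∀ (d : Run) (lev : ℤ → ℕ) (b t : ℕ), 1 ≤ b → ∀ r, ep d lev b t ≤ r → r ≤ t →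
      ep d lev b r = ep d lev b t := by
    intro d lev b t hb r h1 h2
    have k := (A d lev b t hb).1 r h1 h2
    have k' := (c6 lev b _ _ 0).2.1 k
    apply le_antisymm
    · exact (A d lev b r hb).2 _ fun q q1 q2 =>
        (c6 lev b _ _ _).2.2.1 k' ((A d lev b t hb).1 q q1 (by omega))
    · refine (A d lev b t hb).2 _ fun q q1 q2 => ?_
      by_cases hq : q ≤ r
      · exact (c6 lev b _ _ _).2.2.1 k ((A d lev b r hb).1 q q1 hq)
      · exact (A d lev b t hb).1 q (by omega) q2
  intro d lev b t hb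
  have E : ∀ top, t < d.m → b ≤ top → bot lev (d.x (ep d lev b t)) ≤ b →
      (b, ep d lev b t) ∈ EP d lev top := by
    intro top ht h1 h2
    have := B d lev b t hb
    exact mem_filter.2 ⟨mem_product.2 ⟨mem_range.2 (by omega), mem_range.2 (by omega)⟩, h2,
      C d lev b t hb _ le_rfl this⟩
  refine ⟨B d lev b t hb, fun r h1 h2 => ⟨(A d lev b t hb).1 r h1 h2, C d lev b t hb r h1 h2⟩,
    fun s _ h => (A d lev b t hb).2 s h, fun r h1 h2 => ?_, fun b' h => ?_, fun t' h => ?_, E,
    fun top y ht h1 hy h2 => E top ht h1 ?_⟩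
  · by_contra hc
    exact h2 ((c6 lev b _ _ _).2.2.1 ((c6 lev b _ _ 0).2.1 ((A d lev b t hb).1 r (by omega) h1.le))
      ((A d lev b t hb).1 (r + 1) (by omega) h1))
  · exact (A d lev b' t (by omega)).2 _ fun r r1 r2 =>
      (c6 lev b _ _ 0).2.2.2.2.1 b' h ((A d lev b t hb).1 r r1 r2)
  · by_cases hc : ep d lev b t' ≤ t
    · exact (C d lev b t' hb t hc h).le
    · have := B d lev b t hb
      omega
  · have k := (A d lev b t hb).1 _ le_rfl (B d lev b t hb)
    have F : ∀ a z : ℤ, a ≠ z → bot lev a ≤ lv lev (min a z) (max a z) := by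
      intro a z h
      unfold bot
      rcases lt_or_gt_of_ne h with l | l
      · have := c3 lev (min a z) (max a z) (a + 1) (by omega) (by omega)
        omega
      · have := c3 lev (min a z) (max a z) a (by omega) (by omega)
        omega
    by_cases e : d.x (ep d lev b t) = d.x t
    · rw [e]
      exact (F _ y (Ne.symm hy)).trans h2
    · have := F _ _ e
      have k2 := (c6 lev b _ _ 0).2.1 k
      unfold cell at k2
      omega

end Pool.Agent.P.MP_119182_lc.LW
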