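import Pool.Agent.P.MP_119182_lc.LW.IfaceH1

/-! Step FIB. -/

set_option autoImplicit false

namespace Pool.Agent.P.MP_119182_lc.LW

open Finset
open scoped Classical
open NU (Run mr)
open LU (key tch up low LK)

theorem fib_P (d : Run) (hd : d.OK) (t : ℕ) (ht : t < d.m) (v : ℤ) :
    v ∈ d.P t ↔ tch d t v ∧ d.x t < v := by
  have hx := (hd.step t ht).mem
  unfold Run.P
  rw [mem_filter, mem_Ioo]
  constructor
  · rintro ⟨⟨h1, h2⟩, h3⟩
    have hb := (hd.tree t ht.le).bnd v (by omega) h2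
    exact ⟨⟨⟨by omega, h2⟩, h3, by omega⟩, h1⟩
  · rintro ⟨h1, h2⟩
    exact ⟨⟨h2, h1.1.2⟩, h1.2.1⟩

theorem fib_low (hLINK : LU.S_LINK) (d : Run) (hd : d.OK) (e : ℕ × ℤ) (he : rl d e) :
    tch d e.1 (low d e.1 e.2) ∧ d.x e.1 < low d e.1 e.2 ∧ low d e.1 e.2 < e.2 ∧
      d.lp (e.1 + 1) e.2 = low d e.1 e.2 := by
  obtain ⟨h1, h2, h3⟩ := he
  obtain ⟨L1, -⟩ := hLINK d hd e.1 h1
  obtain ⟨a1, -, -, -, -, h | h⟩ := L1 e.2 h2
  · exact ⟨a1, h.1, h.2.1, h.2.2.2.2.2.1⟩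
  · omega

theorem fib_mono (hCELL : S_CELL) (lev : ℤ → ℕ) (a b c : ℤ) (h1 : a ≤ b) (h2 : b ≤ c) :
    lv lev a b ≤ lv lev a c := by
  rw [hCELL.1 lev a b c h1 h2]
  exact le_max_left _ _

theorem fib_one (hCELL : S_CELL) (hVIS : S_VIS) (d : Run) (lev : ℤ → ℕ)
    (hd : d.OK) (e e' : ℕ × ℤ) (h : ℕ) (he : rl d e) (he' : rl d e') (ht : e.1 = e'.1)
    (h2 : h ≤ au d lev e) (h3 : al d lev e' < h) : ¬ e.2 < e'.2 := by
  intro hlt
  obtain ⟨t, u⟩ := e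
  obtain ⟨t', u'⟩ := e'
  simp only at ht hlt
  subst ht
  have h4 := (hVIS d hd).2.2.2 t u u' he.1 he.2.1 he'.2.1 he.2.2 hlt
  have hb := (hd.tree t he.1.le).bnd u he.2.1.1.1.1 he.2.1.1.1.2
  have hx : d.x t < u := he.2.2
  have h5 := fib_mono hCELL lev (d.x t) u (low d t u') hx.le (by omega)
  unfold au at h2
  unfold al at h3
  simp only at h2 h3
  omega

theorem fib_left (hCELL : S_CELL) (hEP : S_EP) (d : Run) (lev : ℤ → ℕ) (b t' t : ℕ) (v : ℤ)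
    (hb : 1 ≤ b) (h1 : ep d lev b t ≤ t') (h2 : t' ≤ t) (hx : d.x t' < v)
    (hv : b ≤ lv lev (d.x t') v) (r : ℕ) (h3 : ep d lev b t ≤ r) (h4 : r ≤ t) :
    d.x r < v ∧ lv lev (d.x r) v = lv lev (d.x t') v := by
  obtain ⟨-, E2, -⟩ := hEP d lev b t hb
  obtain ⟨-, -, -, -, -, C6, -⟩ := hCELL
  have c1 := (E2 t' h1 h2).1
  have c2 := (E2 r h3 h4).1
  have c3 := (C6 lev b (d.x t) (d.x t') 0).2.1 c1
  have c4 := (C6 lev b (d.x t') (d.x t) (d.x r)).2.2.1 c3 c2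
  exact (C6 lev b (d.x t') (d.x r) v).2.2.2.2.2.1 c4 hx hv

theorem fib_sel (d : Run) (p : ℕ × ℤ → Prop) (e : ℕ × ℤ) (h : e ∈ Sel d p) : p e := by
  unfold Sel at h
  exact (mem_filter.1 h).2

theorem p_FIB (hCELL : S_CELL) (hEP : S_EP) (hVIS : S_VIS) (hLINK : LU.S_LINK) :
    S_FIB := by
  intro d lev hd
  refine ⟨fib_P d hd, ?_, ?_, ?_, ?_⟩
  · intro e he
    obtain ⟨a1, a2, a3, -⟩ := fib_low hLINK d hd e he
    refine ⟨(fib_P d hd _ he.1 _).2 ⟨he.2.1.1, he.2.2⟩, (fib_P d hd _ he.1 _).2 ⟨a1, a2⟩, a3,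
      mem_product.2 ⟨mem_range.2 he.1, mem_Ioo.2 he.2.1.1.1⟩, fun h1 hx => ?_⟩
    have hm := he.1
    have hr := (hd.step (e.1 - 1) (by omega)).root
    have e1 : e.1 - 1 + 1 = e.1 := by omega
    rw [e1, hx] at hr
    have hk := he.2.1.1.1
    have h5 := ((hd.tree e.1 hm.le).lamL e.2 (d.x e.1) hk.1 hk.2 he.2.1.1.2.1 he.2.2).2
    have h6 := hk.2
    omega
  · intro e e' h he he' ht h1 h2 h3 h4
    have a1 := fib_one hCELL hVIS d lev hd e e' h he he' ht h2 h3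
    have a2 := fib_one hCELL hVIS d lev hd e' e h he' he ht.symm h4 h1
    exact Prod.ext ht (by omega)
  · intro b t' t v u hb ht h1 h2 hv hbv hu hlt
    obtain ⟨v1, v2⟩ := (fib_P d hd t' (by omega) v).1 hv
    obtain ⟨u1, u2⟩ := (fib_P d hd t ht u).1 hu
    have hl := fib_left hCELL hEP d lev b t' t v hb h1 h2 v2 hbv
    obtain ⟨a1, a2⟩ := hl t (by omega) le_rfl
    have hvu : v < u := by
      by_contra hc
      have := fib_mono hCELL lev (d.x t) u v u2.le (by omega)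
      omega
    have h3 := (hVIS d hd).2.1 t' t v u h2 ht v1.1 u1.1 hvu.le
      (fun T T1 T2 => (hl T (by omega) T2).1) v1 u1
    refine ⟨(fib_P d hd t' (by omega) u).2 ⟨h3, by omega⟩, ?_⟩
    exact (fib_left hCELL hEP d lev b t t u hb (by omega) le_rfl u2 (by omega) t' h1 h2).2
  · intro b h s e e' hb he he' hlt heq
    obtain ⟨r1, p1, q1, -⟩ := fib_sel d _ e he
    obtain ⟨r2, p2, -⟩ := fib_sel d _ e' he'
    obtain ⟨-, a2, a3, a4⟩ := fib_low hLINK d hd e r1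
    have E1 := (hEP d lev b e.1 hb).1
    have hl := fib_left hCELL hEP d lev b e.1 e'.1 (low d e.1 e.2) hb (by omega) hlt.le a2 q1
    have hm := r2.1
    have h1 := ((hVIS d hd).1 (e.1 + 1) e'.1 e.2 hlt hm.le r1.2.1.1.1 fun T T1 T2 => by
      have := (hl T (by omega) T2.le).1
      omega).1
    have h2 := (hl e'.1 (by omega) le_rfl).1
    have h3 := r2.2.1.1.2.1
    rw [← heq] at h3
    omega

end Pool.Agent.P.MP_119182_lc.LW
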