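import Pool.Agent.P.MP_119182_lc.LW.IfaceH1

/-! Step FST. -/

set_option autoImplicit false

namespace Pool.Agent.P.MP_119182_lc.LW

open Finset
open scoped Classical
open NU (Run mr)
open LU (key tch up low LK)

theorem p_FST (hFIB : S_FIB) :
    S_FST := by
  intro d lev b h s K hd
  obtain ⟨-, -, h3, -, -⟩ := hFIB d lev hd
  have mono : ∀ e ∈ Fib d lev b h s, ∀ t, e.1 < t → bef d lev b h s e.1 < bef d lev b h s t := by
    intro e he t ht
    unfold bef
    apply card_lt_card
    refine ⟨fun y hy => ?_, fun hsub => ?_⟩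
    · rw [mem_filter] at hy ⊢
      exact ⟨hy.1, hy.2.trans ht⟩
    · have h1 : e ∈ (Fib d lev b h s).filter fun y => y.1 < t := mem_filter.2 ⟨he, ht⟩
      have h2 := (mem_filter.1 (hsub h1)).2
      exact lt_irrefl _ h2
  refine le_trans (card_le_card_of_injOn (t := range K) (fun e => bef d lev b h s e.1) ?_ ?_)
    (card_range K).le
  · intro e he
    exact mem_coe.2 (mem_range.2 (mem_filter.1 (mem_coe.1 he)).2)
  · intro e he e' he' hee
    have f1 := (mem_filter.1 (mem_coe.1 he)).1
    have f2 := (mem_filter.1 (mem_coe.1 he')).1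
    have hee' : bef d lev b h s e.1 = bef d lev b h s e'.1 := hee
    have ht : e.1 = e'.1 := by
      rcases lt_trichotomy e.1 e'.1 with h1 | h1 | h1
      · have := mono e f1 _ h1
        omega
      · exact h1
      · have := mono e' f2 _ h1
        omega
    have g1 := ((mem_Sel d _ e).1 f1).2
    have g2 := ((mem_Sel d _ e').1 f2).2
    exact h3 e e' h g1.1 g2.1 ht g1.2.2.2.1 g1.2.2.2.2 g2.2.2.2.1 g2.2.2.2.2

end Pool.Agent.P.MP_119182_lc.LW
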