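import Pool.Agent.P.MP_119182_lc.LW.IfaceH1

/-! Step FSUM. -/

set_option autoImplicit false

namespace Pool.Agent.P.MP_119182_lc.LW

open Finset
open scoped Classical
open NU (Run mr)
open LU (key tch up low LK)

theorem fsum_one (K J q : ℕ) :
    ∑ j ∈ range J, (if 1 ≤ q ∧ 2 ^ j ∣ q then K * (j + 1) ^ 2 else 0) ≤
      K * (padicValNat 2 q + 1) ^ 3 := by
  rw [← sum_filter]
  have hsub : (range J).filter (fun j => 1 ≤ q ∧ 2 ^ j ∣ q) ⊆ range (padicValNat 2 q + 1) := by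
    intro j hj
    obtain ⟨-, h1, h2⟩ := mem_filter.1 hj
    have : j ≤ padicValNat 2 q := (padicValNat_dvd_iff_le (by omega)).1 h2
    exact mem_range.2 (by omega)
  calc ∑ j ∈ (range J).filter (fun j => 1 ≤ q ∧ 2 ^ j ∣ q), K * (j + 1) ^ 2
      ≤ ∑ j ∈ range (padicValNat 2 q + 1), K * (j + 1) ^ 2 :=
        sum_le_sum_of_subset hsub
    _ ≤ ∑ _j ∈ range (padicValNat 2 q + 1), K * (padicValNat 2 q + 1) ^ 2 := by
        refine sum_le_sum fun j hj => Nat.mul_le_mul_left _ (Nat.pow_le_pow_left ?_ 2)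
        have := mem_range.1 hj
        omega
    _ = K * (padicValNat 2 q + 1) ^ 3 := by
        rw [sum_const, card_range, smul_eq_mul]; ring

theorem p_FSUM :
    S_FSUM := by
  intro d lev top K J S h1 h2
  have key : ∀ j, #(S j) ≤
      ∑ p ∈ EP d lev top, (if 1 ≤ p.1 ∧ 2 ^ j ∣ p.1 then K * (j + 1) ^ 2 else 0) := by
    intro j
    have hm : ∀ e ∈ S j, (cq d lev j e, ep d lev (cq d lev j e) e.1) ∈ EP d lev top :=
      fun e he => (h1 j e he).2.2.2
    rw [card_eq_sum_card_fiberwise (f := fun e => (cq d lev j e, ep d lev (cq d lev j e) e.1))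
      (fun e he => mem_coe.2 (hm e (mem_coe.1 he)))]
    refine sum_le_sum fun p _ => ?_
    split_ifs with hp
    · refine le_trans (card_le_card fun e he => ?_) (h2 j p.1 p.2 hp.1)
      obtain ⟨he1, he2⟩ := mem_filter.1 he
      have e1 : cq d lev j e = p.1 := congrArg Prod.fst he2
      have e2 : ep d lev (cq d lev j e) e.1 = p.2 := congrArg Prod.snd he2
      exact mem_filter.2 ⟨he1, e1, by rw [← e1]; exact e2⟩
    · refine le_of_eq (card_eq_zero.2 (filter_eq_empty_iff.2 fun e he he2 => hp ?_))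
      have e1 : cq d lev j e = p.1 := congrArg Prod.fst he2
      rw [← e1]
      exact ⟨(h1 j e he).2.1, Dvd.intro_left _ rfl⟩
  calc ∑ j ∈ range J, #(S j)
      ≤ ∑ j ∈ range J, ∑ p ∈ EP d lev top,
          (if 1 ≤ p.1 ∧ 2 ^ j ∣ p.1 then K * (j + 1) ^ 2 else 0) := sum_le_sum fun j _ => key j
    _ = ∑ p ∈ EP d lev top, ∑ j ∈ range J,
          (if 1 ≤ p.1 ∧ 2 ^ j ∣ p.1 then K * (j + 1) ^ 2 else 0) := sum_comm
    _ ≤ ∑ p ∈ EP d lev top, K * (padicValNat 2 p.1 + 1) ^ 3 :=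
        sum_le_sum fun p _ => fsum_one K J p.1
    _ = K * Z d lev top 3 := by rw [Z, mul_sum]

end Pool.Agent.P.MP_119182_lc.LW
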