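import Pool.Agent.P.MP_119182_lc.LW.IfaceH1

/-! Step H1. -/

set_option autoImplicit false

namespace Pool.Agent.P.MP_119182_lc.LW

open Finset
open scoped Classical
open NU (Run mr)
open LU (key tch up low LK)

theorem p_H1 (hOLD : S_OLD) (hRA : S_RA) (hRB : S_RB) (hARI : S_ARI) (hCLS : S_CLS) (hCNT : S_CNT) :
    S_H1 := by
  refine ⟨3, fun K => ⟨15 * K ^ 2, fun d lev σ H hd hL _ => ?_⟩⟩
  obtain ⟨T, hT⟩ : ∃ T, T = σ + H + 1 := ⟨_, rfl⟩
  have hsub : NEAR d lev ⊆ OLD d (5 * K) ∪ (range T).biUnion fun j =>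
      CF d lev T (5 * K) j ∪ CA d lev T (5 * K) j ∪ CB d lev T (5 * K) j ∪
        RA d lev T (5 * K) j ∪ RB d lev T (5 * K) j := by
    intro e he
    have h := hCLS d lev σ H (5 * K) hd hL e he
    rw [← hT] at h
    rcases h with h | ⟨j, hj, h⟩
    · exact mem_union_left _ h
    · refine mem_union_right _ (mem_biUnion.2 ⟨j, mem_range.2 hj, ?_⟩)
      simp only [mem_union]
      tauto
  have h1 : #(NEAR d lev) ≤ #(OLD d (5 * K)) + (∑ j ∈ range T, #(CF d lev T (5 * K) j) +
      ∑ j ∈ range T, #(CA d lev T (5 * K) j) + ∑ j ∈ range T, #(CB d lev T (5 * K) j) +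
      ∑ j ∈ range T, #(RA d lev T (5 * K) j) + ∑ j ∈ range T, #(RB d lev T (5 * K) j)) := by
    refine le_trans (card_le_card hsub) (le_trans (card_union_le _ _) (Nat.add_le_add_left ?_ _))
    refine le_trans card_biUnion_le ?_
    rw [← sum_add_distrib, ← sum_add_distrib, ← sum_add_distrib, ← sum_add_distrib]
    refine sum_le_sum fun j _ => ?_
    refine le_trans (card_union_le _ _) (Nat.add_le_add_right ?_ _)
    refine le_trans (card_union_le _ _) (Nat.add_le_add_right ?_ _)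
    refine le_trans (card_union_le _ _) (Nat.add_le_add_right ?_ _)
    exact card_union_le _ _
  have h2 := hOLD d (5 * K)
  have h3 := hARI.2 (5 * K) d.NR T _ (fun j => hRA d lev T (5 * K) j hd)
  have h4 := hARI.2 (5 * K) d.NR T _ (fun j => hRB d lev T (5 * K) j hd)
  obtain ⟨h5, h6, h7⟩ := hCNT d lev T (5 * K) T hd
  rw [← hT]
  have h8 := Nat.mul_le_mul_left K h1
  have h9 := Nat.mul_le_mul_left K h5
  have h10 := Nat.mul_le_mul_left K h6
  have h11 := Nat.mul_le_mul_left K h7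
  have h12 : 15 * K ^ 2 * Z d lev T 3 ≤
      15 * K ^ 2 * ((d.R - d.L).toNat + d.m + Z d lev T 3) :=
    Nat.mul_le_mul_left _ (Nat.le_add_left _ _)
  nlinarith

end Pool.Agent.P.MP_119182_lc.LW
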