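import Pool.Agent.P.MP_119182_lc.LW.IfaceH1

/-! Step LST. -/

set_option autoImplicit false

namespace Pool.Agent.P.MP_119182_lc.LW

open Finset
open scoped Classical
open NU (Run mr)
open LU (key tch up low LK)

theorem lst_sel (d : Run) (p : ℕ × ℤ → Prop) (e : ℕ × ℤ) (h : e ∈ Sel d p) : p e := by
  unfold Sel at h
  exact (mem_filter.1 h).2

theorem p_LST (hEP : S_EP) (hFIB : S_FIB) :
    S_LST := by
  intro d lev b h h' s th hd hb
  obtain ⟨-, F2, F3, F4, F5⟩ := hFIB d lev hd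
  set S := (Fib d lev b h s).filter fun e => au d lev e < h' ∧ #(Tst d lev e.1 h h') < th with hS
  rcases S.eq_empty_or_nonempty with h0 | h0
  · rw [h0]
    simp
  obtain ⟨e0, he0, hmin⟩ := S.exists_min_image (fun e => e.1) h0
  obtain ⟨f0, -, t0⟩ := mem_filter.1 he0
  obtain ⟨r0, p0, q0, q0', -⟩ := lst_sel d _ e0 f0
  have E0 := (hEP d lev b e0.1 hb).1
  refine le_trans (card_le_card_of_injOn (t := Tst d lev e0.1 h h') (fun e => e.2) ?_ ?_) t0.le
  · intro e he
    have he' : e ∈ S := he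
    obtain ⟨f1, a1, -⟩ := mem_filter.1 he'
    obtain ⟨r1, p1, -, -, q1⟩ := lst_sel d _ e f1
    obtain ⟨c1, c2⟩ := F4 b e0.1 e.1 (low d e0.1 e0.2) e.2 hb r1.1 (by omega) (hmin e he')
      (F2 e0 r0).2.1 q0 (F2 e r1).1 (lt_of_lt_of_le q0' q1)
    have : e.2 ∈ Tst d lev e0.1 h h' := by
      unfold Tst
      refine mem_filter.2 ⟨c1, ?_⟩
      rw [c2]
      exact ⟨q1, a1⟩
    exact this
  · intro e he e' he' heq
    have m1 : e ∈ S := he
    have m2 : e' ∈ S := he'
    have f1 := (mem_filter.1 m1).1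
    have f2 := (mem_filter.1 m2).1
    have heq' : e.2 = e'.2 := heq
    rcases lt_trichotomy e.1 e'.1 with c | c | c
    · exact absurd heq' (F5 b h s e e' hb f1 f2 c)
    · exact Prod.ext c heq'
    · exact absurd heq'.symm (F5 b h s e' e hb f2 f1 c)

end Pool.Agent.P.MP_119182_lc.LW
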