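import Pool.Agent.P.MP_119182_lc.LW.IfaceH1

/-! Step OLD. -/

set_option autoImplicit false

namespace Pool.Agent.P.MP_119182_lc.LW

open Finset
open scoped Classical
open NU (Run mr)
open LU (key tch up low LK)

theorem old_sel {d : Run} {p : ℕ × ℤ → Prop} {e : ℕ × ℤ} (h : e ∈ Sel d p) : p e :=
  (mem_filter.1 h).2

theorem p_OLD : S_OLD := by
  intro d K
  have s0s : ∀ e : ℕ × ℤ, ∀ r, s0 d e ≤ r → r < e.1 → ¬ up d r e.2 := fun e =>
    Nat.sInf_mem (s := {s | ∀ r, s ≤ r → r < e.1 → ¬ up d r e.2})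
      ⟨e.1, fun r h1 h2 => by omega⟩
  let V : ℕ × ℤ → Finset (ℕ × ℤ) := fun e =>
    ((Icc (s0 d e) e.1).filter fun r => e.2 ∈ d.P r).image fun r => (r, e.2)
  have cV : ∀ e, #(V e) = age d e := fun e =>
    card_image_of_injective _ fun r r' h => (Prod.ext_iff.1 h).1
  have mV : ∀ e p, p ∈ V e → s0 d e ≤ p.1 ∧ p.1 ≤ e.1 ∧ p.2 ∈ d.P p.1 ∧ p.2 = e.2 := by
    intro e p hp
    obtain ⟨r, hr, rfl⟩ := mem_image.1 hp
    obtain ⟨h1, h2⟩ := mem_filter.1 hr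
    exact ⟨(mem_Icc.1 h1).1, (mem_Icc.1 h1).2, h2, rfl⟩
  have dj : ∀ e ∈ OLD d K, ∀ e' ∈ OLD d K, e ≠ e' → Disjoint (V e) (V e') := by
    intro e he e' he' hne
    have u := (old_sel he).1.2.1
    have u' := (old_sel he').1.2.1
    rw [disjoint_left]
    intro p hp hp'
    obtain ⟨a1, a2, -, a4⟩ := mV e p hp
    obtain ⟨b1, b2, -, b4⟩ := mV e' p hp'
    have e2 : e.2 = e'.2 := a4.symm.trans b4
    rcases lt_trichotomy e.1 e'.1 with h1 | h1 | h1
    · exact s0s e' e.1 (by omega) h1 (e2 ▸ u)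
    · exact hne (Prod.ext h1 e2)
    · exact s0s e e'.1 (by omega) h1 (e2 ▸ u')
  have sub : (OLD d K).biUnion V ⊆ (range d.m).biUnion fun r => (d.P r).image fun v => (r, v) := by
    intro p hp
    obtain ⟨e, he, hp⟩ := mem_biUnion.1 hp
    obtain ⟨-, a2, a3, -⟩ := mV e p hp
    have := (old_sel he).1.1
    exact mem_biUnion.2 ⟨p.1, mem_range.2 (by omega), mem_image.2 ⟨p.2, a3, rfl⟩⟩
  calc K * #(OLD d K) = ∑ _e ∈ OLD d K, K := by rw [sum_const, smul_eq_mul, mul_comm]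
    _ ≤ ∑ e ∈ OLD d K, #(V e) := sum_le_sum fun e he => by
        rw [cV]
        exact (old_sel he).2
    _ = #((OLD d K).biUnion V) := (card_biUnion dj).symm
    _ ≤ _ := card_le_card sub
    _ ≤ _ := card_biUnion_le
    _ ≤ d.NR := sum_le_sum fun r _ => card_image_le

end Pool.Agent.P.MP_119182_lc.LW
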