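import Pool.Agent.P.MP_119182_lc.LW.IfaceH1

/-! Step RA. -/

set_option autoImplicit false

namespace Pool.Agent.P.MP_119182_lc.LW

open Finset
open scoped Classical
open NU (Run mr)
open LU (key tch up low LK)

lemma ra_cq {lev : ℤ → ℕ} {d : Run} {j : ℕ} {e e' : ℕ × ℤ} (h : cq d lev j e < cq d lev j e') :
    cq d lev j e + 2 ^ j ≤ cq d lev j e' := by
  unfold cq at *
  have := lt_of_mul_lt_mul_right h (Nat.zero_le _)
  calc al d lev e / 2 ^ j * 2 ^ j + 2 ^ j = (al d lev e / 2 ^ j + 1) * 2 ^ j := by ring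
    _ ≤ _ := Nat.mul_le_mul_right _ this

lemma ra_al (lev : ℤ → ℕ) (d : Run) (j : ℕ) (e : ℕ × ℤ) : al d lev e < ch d lev j e := by
  unfold ch cq
  exact Nat.lt_div_mul_add (by positivity)

lemma ra_mem {d : Run} {p : ℕ × ℤ → Prop} {e : ℕ × ℤ} (h : e ∈ Sel d p) :
    e ∈ range d.m ×ˢ d.keys ∧ p e := by
  unfold Sel at h
  exact mem_filter.1 h

theorem p_RA (hFIB : S_FIB) (hSAW : S_SAW) :
    S_RA := by
  intro d lev top K j hd
  have key : ∀ e ∈ RA d lev top K j, ∀ e' ∈ RA d lev top K j, e.1 = e'.1 →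
      ¬ cq d lev j e < cq d lev j e' := by
    intro e he e' he' ht hlt
    obtain ⟨b, -, -, rk, -⟩ := (ra_mem he).2
    obtain ⟨b', ag, s0', -, -⟩ := (ra_mem he').2
    have c1 := ra_cq hlt
    have c2 := hSAW d lev (cq d lev j e) (ch d lev j e) e' hd b.2.1 b'.1 (s0' _ b.2.1 c1) (by
      have := b'.2.2.1
      unfold ch at *
      omega)
    rw [rank, ht] at rk
    omega
  have inj : Set.InjOn (fun e : ℕ × ℤ => e.1) (RA d lev top K j) := by
    intro e he e' he' ht
    have c : cq d lev j e = cq d lev j e' :=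
      le_antisymm (not_lt.1 (key e' he' e he ht.symm)) (not_lt.1 (key e he e' he' ht))
    have b := (ra_mem he).2.1
    have b' := (ra_mem he').2.1
    have c' : ch d lev j e = ch d lev j e' := by rw [ch, ch, c]
    exact (hFIB d lev hd).2.2.1 e e' (ch d lev j e) b.1 b'.1 ht (ra_al lev d j e) b.2.2.1
      (c' ▸ ra_al lev d j e') (c' ▸ b'.2.2.1)
  calc K * (j + 1) ^ 2 * #(RA d lev top K j) = ∑ _e ∈ RA d lev top K j, K * (j + 1) ^ 2 := by
        rw [sum_const, smul_eq_mul, mul_comm]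
    _ ≤ ∑ e ∈ RA d lev top K j, #(d.P e.1) :=
        sum_le_sum fun e he => (ra_mem he).2.2.2.2.2
    _ = ∑ t ∈ (RA d lev top K j).image fun e => e.1, #(d.P t) :=
        (sum_image (f := fun t => #(d.P t)) inj).symm
    _ ≤ d.NR := by
        refine sum_le_sum_of_subset fun t ht => ?_
        obtain ⟨e, he, rfl⟩ := mem_image.1 ht
        exact (mem_product.1 (ra_mem he).1).1

end Pool.Agent.P.MP_119182_lc.LW
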