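import Pool.Agent.P.MP_119182_lc.LW.IfaceH1

/-! Step RB. -/

set_option autoImplicit false

namespace Pool.Agent.P.MP_119182_lc.LW

open Finset
open scoped Classical
open NU (Run mr)
open LU (key tch up low LK)

lemma rb_cq {lev : ℤ → ℕ} {d : Run} {j : ℕ} {e e' : ℕ × ℤ} (h : cq d lev j e < cq d lev j e') :
    cq d lev j e + 2 ^ j ≤ cq d lev j e' := by
  unfold cq at *
  have := lt_of_mul_lt_mul_right h (Nat.zero_le _)
  calc al d lev e / 2 ^ j * 2 ^ j + 2 ^ j = (al d lev e / 2 ^ j + 1) * 2 ^ j := by ring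
    _ ≤ _ := Nat.mul_le_mul_right _ this

lemma rb_al (lev : ℤ → ℕ) (d : Run) (j : ℕ) (e : ℕ × ℤ) : al d lev e < ch d lev j e := by
  unfold ch cq
  exact Nat.lt_div_mul_add (by positivity)

lemma rb_mem {d : Run} {p : ℕ × ℤ → Prop} {e : ℕ × ℤ} (h : e ∈ Sel d p) :
    e ∈ range d.m ×ˢ d.keys ∧ p e := by
  unfold Sel at h
  exact mem_filter.1 h

theorem p_RB (hFIB : S_FIB) :
    S_RB := by
  intro d lev top K j hd
  calc K * (j + 1) ^ 2 * #(RB d lev top K j) = ∑ _e ∈ RB d lev top K j, K * (j + 1) ^ 2 := by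
        rw [sum_const, smul_eq_mul, mul_comm]
    _ ≤ ∑ e ∈ RB d lev top K j, #(Tst d lev e.1 (ch d lev j e) (ch d lev j e + 2 ^ j)) :=
        sum_le_sum fun e he => (rb_mem he).2.2
    _ = #((RB d lev top K j).sigma
          fun e => Tst d lev e.1 (ch d lev j e) (ch d lev j e + 2 ^ j)) := (card_sigma _ _).symm
    _ ≤ #((range d.m).sigma fun t => d.P t) := by
        refine card_le_card_of_injOn (fun p => ⟨p.1.1, p.2⟩) (fun p hp => ?_) ?_
        · obtain ⟨h1, h2⟩ := mem_sigma.1 (mem_coe.1 hp)
          exact mem_coe.2 (mem_sigma.2 ⟨(mem_product.1 (rb_mem h1).1).1, (mem_filter.1 h2).1⟩)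
        · rintro ⟨e, v⟩ hp ⟨e', v'⟩ hp' h
          obtain ⟨h1, h2⟩ := mem_sigma.1 (mem_coe.1 hp)
          obtain ⟨h1', h2'⟩ := mem_sigma.1 (mem_coe.1 hp')
          simp only [Sigma.mk.injEq, heq_eq_eq] at h
          obtain ⟨ht, rfl⟩ := h
          have a := (mem_filter.1 h2).2
          have a' := (mem_filter.1 h2').2
          dsimp only at a a'
          rw [← ht] at a'
          have c : cq d lev j e = cq d lev j e' := by
            rcases lt_trichotomy (cq d lev j e) (cq d lev j e') with h | h | h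
            · have := rb_cq h
              unfold ch at a a'
              omega
            · exact h
            · have := rb_cq h
              unfold ch at a a'
              omega
          have b := (rb_mem h1).2.1
          have b' := (rb_mem h1').2.1
          have c' : ch d lev j e = ch d lev j e' := by rw [ch, ch, c]
          obtain rfl := (hFIB d lev hd).2.2.1 e e' (ch d lev j e) b.1 b'.1 ht (rb_al lev d j e)
            b.2.2.1 (c' ▸ rb_al lev d j e') (c' ▸ b'.2.2.1)
          rfl
    _ = d.NR := card_sigma _ _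

end Pool.Agent.P.MP_119182_lc.LW
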