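import Pool.Agent.P.MP_119182_lc.LW.IfaceH1

/-! Step SAW. -/

set_option autoImplicit false

namespace Pool.Agent.P.MP_119182_lc.LW

open Finset
open scoped Classical
open NU (Run mr)
open LU (key tch up low LK)

theorem p_SAW (hEP : S_EP) (hFIB : S_FIB) :
    S_SAW := by
  intro d lev b h e hd hb he hs hh
  obtain ⟨-, f2, f3, f4, -⟩ := hFIB d lev hd
  unfold bef age
  refine card_le_card_of_injOn (fun e' => e'.1) (fun e' he' => ?_) (fun e1 h1 e2 h2 h12 => ?_)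
  · obtain ⟨a1, a2⟩ := mem_filter.1 (mem_coe.1 he')
    unfold Fib at a1
    obtain ⟨-, r, a3, a4, a5, a6⟩ := (mem_Sel d _ _).1 a1
    have a7 := (hEP d lev b e'.1 hb).1
    refine mem_coe.2 (mem_filter.2 ⟨mem_Icc.2 ⟨show s0 d e ≤ e'.1 by omega, a2.le⟩, ?_⟩)
    exact (f4 b e'.1 e.1 (low d e'.1 e'.2) e.2 hb he.1 (by omega) a2.le (f2 e' r).2.1 a4
      (f2 e he).1 (lt_of_lt_of_le a5 hh)).1
  · obtain ⟨a1, -⟩ := mem_filter.1 (mem_coe.1 h1)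
    obtain ⟨b1, -⟩ := mem_filter.1 (mem_coe.1 h2)
    unfold Fib at a1 b1
    obtain ⟨-, r, -, -, a5, a6⟩ := (mem_Sel d _ _).1 a1
    obtain ⟨-, r', -, -, b5, b6⟩ := (mem_Sel d _ _).1 b1
    exact f3 e1 e2 h r r' h12 a5 a6 b5 b6

end Pool.Agent.P.MP_119182_lc.LW
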