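import Pool.Agent.P.MP_119182_lc.LW.Base

/-! Step VIS. -/

set_option autoImplicit false

namespace Pool.Agent.P.MP_119182_lc.LW

open Finset
open scoped Classical
open NU (Run mr)
open LU (key tch up low LK isl par)

theorem vis_step (hLINK : LU.S_LINK) (d : Run) (hd : d.OK) (T : ℕ) (hT : T < d.m) (v : ℤ)
    (hv : key d v) (hx : d.x T < v) :
    d.lp T v ≤ d.lp (T + 1) v ∧ d.rp T v ≤ d.rp (T + 1) v := by
  obtain ⟨L1, L2, L3, -, -⟩ := hLINK d hd T hT
  by_cases ht : tch d T v
  · have h1 := ht.2.1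
    by_cases hu : up d T v
    · obtain ⟨-, -, -, -, -, h | h⟩ := L1 v hu
      · omega
      · omega
    · by_cases hi : isl d T v
      · obtain ⟨hp, hl⟩ := hi
        have hb := (hd.tree T hT.le).bnd _ hp.1.1.1 hp.1.1.2
        obtain ⟨-, -, -, -, -, h | h⟩ := L1 _ hp
        · rw [hl] at h
          omega
        · rw [hl] at h
          omega
      · have h := (L2 v ht hu hi).1 hx
        omega
  · have h := L3 v hv ht
    omega

theorem vis_mono (hLINK : LU.S_LINK) (d : Run) (hd : d.OK) (r r' : ℕ) (v : ℤ) (h : r ≤ r')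
    (hm : r' ≤ d.m) (hv : key d v) (hx : ∀ T, r ≤ T → T < r' → d.x T < v) :
    d.lp r v ≤ d.lp r' v ∧ d.rp r v ≤ d.rp r' v := by
  induction r', h using Nat.le_induction with
  | base => exact ⟨le_rfl, le_rfl⟩
  | succ k hk ih =>
    have h1 := ih (by omega) fun T h1 h2 => hx T h1 (by omega)
    have h2 := vis_step hLINK d hd k (by omega) v hv (hx k hk (by omega))
    omega

theorem vis_same (hLINK : LU.S_LINK) (d : Run) (hd : d.OK) (T : ℕ) (hT : T < d.m) (v : ℤ)
    (hv : key d v) (hx : d.x T < v) (hu : ¬ up d T v) :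
    d.lp (T + 1) v = max (d.lp T v) (d.x T) := by
  obtain ⟨-, -, L3, -, -⟩ := hLINK d hd T hT
  have hb := (hd.tree T hT.le).bnd v hv.1 hv.2
  by_cases ht : tch d T v
  · have h1 := ht.2.1
    have h2 : d.lp (T + 1) v = d.x T := by
      by_contra hne
      exact hu ⟨ht, Or.inl ⟨hx, hne⟩⟩
    rw [h2, max_eq_right h1.le]
  · have h := (L3 v hv ht).1
    have h2 : d.x T ≤ d.lp T v := by
      by_contra hlt
      exact ht ⟨hv, by omega, by omega⟩
    rw [h, max_eq_left h2]

theorem p_VIS (hLINK : LU.S_LINK) : S_VIS := by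
  intro d hd
  refine ⟨fun r r' v h hm hv hx => vis_mono hLINK d hd r r' v h hm hv hx, ?_, ?_, ?_⟩
  · intro r r' u v h hm hu hv huv hx htu htv
    have h1 := (vis_mono hLINK d hd r r' v h hm.le hv fun T h1 h2 =>
      lt_of_lt_of_le (hx T h1 h2.le) huv).1
    have h2 := hx r le_rfl h
    have h3 := hx r' h le_rfl
    have h4 := htv.2.1
    have hb := (hd.tree r (by omega)).bnd v hv.1 hv.2
    rcases eq_or_lt_of_le huv with e | e
    · rw [← e]
      exact htu
    · have h5 := ((hd.tree r (by omega)).lamL v u hv.1 hv.2 (by omega) e).1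
      have h6 := htu.2.1
      exact ⟨hv, by omega, by omega⟩
  · intro r r' u v h hm hu hv he hx
    induction r', h using Nat.le_induction with
    | base => exact he
    | succ k hk ih =>
      have h1 := ih (by omega) fun T h1 h2 => hx T h1 (by omega)
      obtain ⟨a1, a2, a3, a4⟩ := hx k hk (by omega)
      rw [vis_same hLINK d hd k (by omega) u hu a1 a3,
        vis_same hLINK d hd k (by omega) v hv a2 a4, h1]
  · intro t u u' ht hu hu' hx huu
    obtain ⟨L1, -⟩ := hLINK d hd t ht
    obtain ⟨a1, a2, -, -, -, h | h⟩ := L1 u' hu'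
    · have b1 := a1.2.1
      have b2 := hu.1.2.1
      rcases lt_trichotomy u (low d t u') with e | e | e
      · exact ((hd.tree t ht.le).lamL _ u a1.1.1 a1.1.2 (by omega) e).2
      · exact absurd (e ▸ hu) a2
      · have := ((hd.tree t ht.le).lamR _ u a1.1.1 a1.1.2 e (by omega)).1
        omega
    · omega

end Pool.Agent.P.MP_119182_lc.LW
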