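import Pool.Agent.P.MP_119182_lc.LU.TLINK
import Pool.Agent.P.MP_119182_lc.LW.TCELL
import Pool.Agent.P.MP_119182_lc.LW.TEP
import Pool.Agent.P.MP_119182_lc.LW.TVIS
import Pool.Agent.P.MP_119182_lc.LW.TFIB
import Pool.Agent.P.MP_119182_lc.LW.TOLD
import Pool.Agent.P.MP_119182_lc.LW.TFST
import Pool.Agent.P.MP_119182_lc.LW.TSAW
import Pool.Agent.P.MP_119182_lc.LW.TLST
import Pool.Agent.P.MP_119182_lc.LW.TRA
import Pool.Agent.P.MP_119182_lc.LW.TRB
import Pool.Agent.P.MP_119182_lc.LW.TARI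
import Pool.Agent.P.MP_119182_lc.LW.TCLS
import Pool.Agent.P.MP_119182_lc.LW.TFSUM
import Pool.Agent.P.MP_119182_lc.LW.TCNT
import Pool.Agent.P.MP_119182_lc.LW.TH1

/-! The bound for the near hot links, assembled. -/

set_option autoImplicit false

namespace Pool.Agent.P.MP_119182_lc.LW

theorem a_H1 : G_H1 :=
  have hCELL := p_CELL
  have hEP := p_EP hCELL
  have hFIB := p_FIB hCELL hEP (p_VIS LU.p_LINK) LU.p_LINK
  have hSAW := p_SAW hEP hFIB
  p_H1 p_OLD (p_RA hFIB hSAW) (p_RB hFIB) p_ARI (p_CLS hCELL hEP hFIB hSAW p_ARI)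
    (p_CNT (p_FST hFIB) (p_LST hEP hFIB) p_FSUM)

end Pool.Agent.P.MP_119182_lc.LW
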