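import Pool.Agent.P.MP_119182_lc.LU.Iface

/-! Static levels on the boundaries between keys, cells, epochs, hot links. -/

set_option autoImplicit false

namespace Pool.Agent.P.MP_119182_lc.LW

open Finset
open scoped Classical
open NU (Run mr)
open LU (key tch up low LK)

/-- The largest level of a boundary in `(a, b]`; the boundary `y` lies between `y - 1` and `y`. -/
noncomputable def lv (lev : ℤ → ℕ) (a b : ℤ) : ℕ := (Ioc a b).sup lev

/-- The points `x`, `y` lie in one cell of level `b`. -/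
def cell (lev : ℤ → ℕ) (b : ℕ) (x y : ℤ) : Prop := lv lev (min x y) (max x y) < b

/-- The smaller level of the two boundaries at `x`. -/
def bot (lev : ℤ → ℕ) (x : ℤ) : ℕ := min (lev x) (lev (x + 1))

/-- The mirrored levels. -/
def ml (lev : ℤ → ℕ) : ℤ → ℕ := fun y => lev (-y)

/-- All levels lie in `[σ + 1, σ + H]` and every interval has a unique boundary of largest
level. -/
structure Lv (L R : ℤ) (lev : ℤ → ℕ) (σ H : ℕ) : Prop where
  bnd : ∀ y, L < y → y ≤ R → σ < lev y ∧ lev y ≤ σ + H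
  uniq : ∀ a b, L < a → a < b → b ≤ R → lev a = lev b → ∃ c, a < c ∧ c < b ∧ lev a < lev c

section
variable (d : Run) (lev : ℤ → ℕ)

/-- The start of the epoch of the cell of level `b` that holds the time `t`. -/
noncomputable def ep (b t : ℕ) : ℕ :=
  sInf {s | ∀ r, s ≤ r → r ≤ t → cell lev b (d.x t) (d.x r)}

/-- The epochs (level, start) that are counted; `top` bounds the levels. -/
noncomputable def EP (top : ℕ) : Finset (ℕ × ℕ) :=
  (range (top + 1) ×ˢ range d.m).filter fun p => bot lev (d.x p.2) ≤ p.1 ∧ ep d lev p.1 p.2 = p.2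

/-- The epochs with the ruler weight. -/
noncomputable def Z (top c : ℕ) : ℕ := ∑ p ∈ EP d lev top, (padicValNat 2 p.1 + 1) ^ c

/-- A near hot right link with upper node `u`. -/
def near (t : ℕ) (u : ℤ) : Prop :=
  up d t u ∧ d.x t < u ∧ lv lev (d.x t) (low d t u) < lv lev (low d t u) u

/-- A far hot right link with upper node `u`. -/
def far (t : ℕ) (u : ℤ) : Prop :=
  up d t u ∧ d.x t < u ∧ lv lev (low d t u) u < lv lev (d.x t) (low d t u) ∧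
    lv lev (d.x t) (low d t u) < lv lev u (d.rp t u)

noncomputable def NEAR : Finset (ℕ × ℤ) :=
  (range d.m ×ˢ d.keys).filter fun p => near d lev p.1 p.2

noncomputable def FAR : Finset (ℕ × ℤ) :=
  (range d.m ×ˢ d.keys).filter fun p => far d lev p.1 p.2

/-- The number of hot links of both sides. -/
noncomputable def HOT : ℕ :=
  #(NEAR d lev) + #(FAR d lev) + #(NEAR d.mir (ml lev)) + #(FAR d.mir (ml lev))

end

-- deps:
/-- Levels and cells. -/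
def S_CELL : Prop :=
  (∀ (lev : ℤ → ℕ) (a b c : ℤ), a ≤ b → b ≤ c → lv lev a c = max (lv lev a b) (lv lev b c)) ∧
  (∀ (lev : ℤ → ℕ) (a : ℤ), lv lev a a = 0 ∧ lv lev a (a + 1) = lev (a + 1)) ∧
  (∀ (lev : ℤ → ℕ) (a b y : ℤ), a < y → y ≤ b → lev y ≤ lv lev a b) ∧
  (∀ (lev : ℤ → ℕ) (a b : ℤ), a < b → ∃ y, a < y ∧ y ≤ b ∧ lev y = lv lev a b) ∧
  (∀ (lev : ℤ → ℕ) (j : ℕ) (x y : ℤ), x ≤ y →
    (cell lev j x y ↔ lv lev x y < j) ∧ (cell lev j y x ↔ lv lev x y < j)) ∧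
  (∀ (lev : ℤ → ℕ) (j : ℕ) (x y z : ℤ), (1 ≤ j → cell lev j x x) ∧
    (cell lev j x y → cell lev j y x) ∧ (cell lev j x y → cell lev j y z → cell lev j x z) ∧
    (cell lev j x z → x ≤ y → y ≤ z → cell lev j x y ∧ cell lev j y z) ∧
    (∀ j', j ≤ j' → cell lev j x y → cell lev j' x y) ∧
    (cell lev j x y → x < z → j ≤ lv lev x z → y < z ∧ lv lev y z = lv lev x z) ∧
    (cell lev j x y → z < x → j ≤ lv lev z x → z < y ∧ lv lev z y = lv lev z x)) ∧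
  (∀ (L R : ℤ) (lev : ℤ → ℕ) (σ H : ℕ), Lv L R lev σ H → ∀ a b c, L ≤ a → a < b → b < c → c ≤ R →
    lv lev a b ≠ lv lev b c) ∧
  (∀ (L R : ℤ) (lev : ℤ → ℕ) (σ H : ℕ), Lv L R lev σ H → ∀ a b, L ≤ a → a < b → b ≤ R →
    σ < lv lev a b ∧ lv lev a b ≤ σ + H ∧ bot lev a ≤ lv lev a b ∧ bot lev b ≤ lv lev a b)

-- deps: CELL
/-- Epochs. -/
def S_EP : Prop :=
  ∀ (d : Run) (lev : ℤ → ℕ) (b t : ℕ), 1 ≤ b →
    ep d lev b t ≤ t ∧
    (∀ r, ep d lev b t ≤ r → r ≤ t → cell lev b (d.x t) (d.x r) ∧ ep d lev b r = ep d lev b t) ∧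
    (∀ s, s ≤ t → (∀ r, s ≤ r → r ≤ t → cell lev b (d.x t) (d.x r)) → ep d lev b t ≤ s) ∧
    (∀ r, r < t → ¬ cell lev b (d.x r) (d.x (r + 1)) → r < ep d lev b t) ∧
    (∀ b', b ≤ b' → ep d lev b' t ≤ ep d lev b t) ∧
    (∀ t', t ≤ t' → ep d lev b t ≤ ep d lev b t') ∧
    (∀ top, t < d.m → b ≤ top → bot lev (d.x (ep d lev b t)) ≤ b →
      (b, ep d lev b t) ∈ EP d lev top) ∧
    ∀ top y, t < d.m → b ≤ top → y ≠ d.x t →
      lv lev (min (d.x t) y) (max (d.x t) y) ≤ b → (b, ep d lev b t) ∈ EP d lev top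

-- deps: LU.LINK
/-- Nodes seen from the left only. -/
def S_VIS : Prop :=
  ∀ d : Run, d.OK →
    (∀ r r' v, r ≤ r' → r' ≤ d.m → key d v → (∀ T, r ≤ T → T < r' → d.x T < v) →
      d.lp r v ≤ d.lp r' v ∧ d.rp r v ≤ d.rp r' v) ∧
    (∀ r r' u v, r ≤ r' → r' < d.m → key d u → key d v → u ≤ v →
      (∀ T, r ≤ T → T ≤ r' → d.x T < u) → tch d r u → tch d r' v → tch d r v) ∧
    (∀ r r' u v, r ≤ r' → r' ≤ d.m → key d u → key d v → d.lp r u = d.lp r v →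
      (∀ T, r ≤ T → T < r' → d.x T < u ∧ d.x T < v ∧ ¬ up d T u ∧ ¬ up d T v) →
      d.lp r' u = d.lp r' v) ∧
    ∀ t u u', t < d.m → up d t u → up d t u' → d.x t < u → u < u' → d.rp t u ≤ low d t u'

-- deps: CELL
/-- The mirror. -/
def S_MIR : Prop :=
  (∀ (lev : ℤ → ℕ) (a b : ℤ), lv (ml lev) (mr b) (mr a) = lv lev a b) ∧
  (∀ (lev : ℤ → ℕ) (j : ℕ) (a b : ℤ), cell (ml lev) j (mr a) (mr b) ↔ cell lev j a b) ∧
  (∀ lev : ℤ → ℕ, ml (ml lev) = lev) ∧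
  ∀ (d : Run) (lev : ℤ → ℕ) (σ H top c : ℕ),
    (Lv d.L d.R lev σ H → Lv d.mir.L d.mir.R (ml lev) σ H) ∧
    (∀ b t, ep d.mir (ml lev) b t = ep d lev b t) ∧ EP d.mir (ml lev) top = EP d lev top ∧
    Z d.mir (ml lev) top c = Z d lev top c

/-- The bound for the near hot links. -/
def G_H1 : Prop :=
  ∃ c : ℕ, ∀ K : ℕ, ∃ C : ℕ, ∀ (d : Run) (lev : ℤ → ℕ) (σ H : ℕ), d.OK → Lv d.L d.R lev σ H →
    H ≤ σ → K * #(NEAR d lev) ≤ d.NR + C * ((d.R - d.L).toNat + d.m + Z d lev (σ + H + 1) c)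

/-- The bound for all links in terms of the hot links. -/
def G_W : Prop :=
  ∃ c : ℕ, ∀ K : ℕ, ∃ C : ℕ, ∀ (d : Run) (lev : ℤ → ℕ) (σ H : ℕ), d.OK → Lv d.L d.R lev σ H →
    H ≤ σ → K * #(LK d) ≤ d.NR + d.mir.NR +
      C * ((d.R - d.L).toNat * (Nat.size H + 1) ^ 3 + d.m + Z d lev (σ + H + 3) c + HOT d lev)

end Pool.Agent.P.MP_119182_lc.LW
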