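import Pool.Agent.P.MP_119182_lc.LW.Base
import Pool.Agent.P.MP_119182_lc.LW.WBase

/-! The bridge between the two sets of names for levels. -/

set_option autoImplicit false

namespace Pool.Agent.P.MP_119182_lc.LW

open Finset
open scoped Classical
open NU (Run mr)
open LU (key tch up low LK)

/-- The levels without the shift, with the outer boundaries on top. -/
noncomputable def cv (L R : ℤ) (lev : ℤ → ℕ) (σ H : ℕ) : ℤ → ℕ := fun y =>
  if y = R then H + 2 else if y = L + 1 then H + 1 else if L < y ∧ y < R then lev y - σ else 0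

-- deps: CELL
def S_BLEV : Prop :=
  ∀ (L R : ℤ) (lev : ℤ → ℕ) (σ H : ℕ), Lv L R lev σ H →
    W.Lev L R (cv L R lev σ H) (H + 2) ∧
    (∀ a b, L < a → a < b → b < R → W.lv (cv L R lev σ H) a b + σ = lv lev a b) ∧
    ∀ y, L < y → y ≤ R → lev y ≤ cv L R lev σ H y + σ

-- deps: CELL LU.LINK
def S_BHR : Prop :=
  ∀ (d : Run) (lev lev' : ℤ → ℕ) (σ H : ℕ), d.OK → Lv d.L d.R lev σ H →
    (∀ a b, d.L < a → a < b → b < d.R → W.lv lev' a b + σ = lv lev a b) →
    #((W.HOT d lev').filter fun p => d.x p.1 < p.2) ≤ #(NEAR d lev) + #(FAR d lev) + d.m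

-- deps: BHR MIR LU.MIRA
def S_BHOT : Prop :=
  ∀ (d : Run) (lev lev' : ℤ → ℕ) (σ H : ℕ), d.OK → Lv d.L d.R lev σ H →
    (∀ a b, d.L < a → a < b → b < d.R → W.lv lev' a b + σ = lv lev a b) →
    #(W.HOT d lev') ≤ HOT d lev + 2 * d.m

-- deps: CELL EP BLEV
def S_BEP : Prop :=
  ∀ (d : Run) (lev : ℤ → ℕ) (σ H c : ℕ), d.OK → Lv d.L d.R lev σ H →
    W.RU d (cv d.L d.R lev σ H) (H + 2) (σ + 1) c ≤ Z d lev (σ + H + 3) (c + 1)

/-- The end statement of the half with the caps. -/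
def G_ALL : Prop :=
  ∀ K : ℕ, ∃ C : ℕ, ∀ (d : Run) (lev : ℤ → ℕ) (H σ : ℕ), d.OK → W.Lev d.L d.R lev H →
    K * #((LT.TK d).filter fun p => LP.up d p.1 p.2) ≤ d.NR + d.mir.NR +
      C * ((d.R - d.L).toNat * Nat.size (H + 1) ^ 3 + d.m + W.RU d lev H σ 14 + #(W.HOT d lev))

-- deps: G_ALL BLEV BHOT BEP LU.LINK
def S_BW : Prop := G_W

end Pool.Agent.P.MP_119182_lc.LW
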