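import Pool.Agent.P.MP_119182_lc.LW.Base

/-! Near hot links: fibres, scales and tests. -/

set_option autoImplicit false

namespace Pool.Agent.P.MP_119182_lc.LW

open Finset
open scoped Classical
open NU (Run mr)
open LU (key tch up low LK)

section
variable (d : Run) (lev : ℤ → ℕ)

/-- A right link: time and upper node. -/
def rl (e : ℕ × ℤ) : Prop := e.1 < d.m ∧ up d e.1 e.2 ∧ d.x e.1 < e.2

/-- The annulus of the lower node. -/
noncomputable def al (e : ℕ × ℤ) : ℕ := lv lev (d.x e.1) (low d e.1 e.2)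

/-- The annulus of the upper node. -/
noncomputable def au (e : ℕ × ℤ) : ℕ := lv lev (d.x e.1) e.2

/-- The first time after the previous link with the same upper node. -/
noncomputable def s0 (e : ℕ × ℤ) : ℕ := sInf {s | ∀ r, s ≤ r → r < e.1 → ¬ up d r e.2}

/-- The number of visits of the upper node since its previous link. -/
noncomputable def age (e : ℕ × ℤ) : ℕ := #((Icc (s0 d e) e.1).filter fun r => e.2 ∈ d.P r)

/-- The pairs (time, key) with a property. -/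
noncomputable def Sel (p : ℕ × ℤ → Prop) : Finset (ℕ × ℤ) := (range d.m ×ˢ d.keys).filter p

theorem mem_Sel (p : ℕ × ℤ → Prop) (e : ℕ × ℤ) :
    e ∈ Sel d p ↔ e ∈ range d.m ×ˢ d.keys ∧ p e := by
  unfold Sel
  exact mem_filter

/-- The right links of the epoch of level `b` started at `s` with the lower node in the annuli
`[b, h)` and the upper node in the annuli from `h` on. -/
noncomputable def Fib (b h s : ℕ) : Finset (ℕ × ℤ) :=
  Sel d fun e => rl d e ∧ ep d lev b e.1 = s ∧ b ≤ al d lev e ∧ al d lev e < h ∧ h ≤ au d lev e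

/-- The number of links of a fibre before time `t`. -/
noncomputable def bef (b h s t : ℕ) : ℕ := #((Fib d lev b h s).filter fun e => e.1 < t)

/-- The nodes of the right path in the annuli `[h, h')`. -/
noncomputable def Tst (t h h' : ℕ) : Finset ℤ :=
  (d.P t).filter fun v => h ≤ lv lev (d.x t) v ∧ lv lev (d.x t) v < h'

/-- The start of the band of the lower node at scale `j`. -/
noncomputable def cq (j : ℕ) (e : ℕ × ℤ) : ℕ := al d lev e / 2 ^ j * 2 ^ j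

/-- The end of that band. -/
noncomputable def ch (j : ℕ) (e : ℕ × ℤ) : ℕ := cq d lev j e + 2 ^ j

/-- A right link that leaves its band of scale `j`, in an epoch that is counted. -/
def Bs (top j : ℕ) (e : ℕ × ℤ) : Prop :=
  rl d e ∧ 1 ≤ cq d lev j e ∧ ch d lev j e ≤ au d lev e ∧
    (cq d lev j e, ep d lev (cq d lev j e) e.1) ∈ EP d lev top

/-- The number of earlier links of the own fibre. -/
noncomputable def rank (j : ℕ) (e : ℕ × ℤ) : ℕ :=
  bef d lev (cq d lev j e) (ch d lev j e) (ep d lev (cq d lev j e) e.1) e.1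

noncomputable def OLD (K : ℕ) : Finset (ℕ × ℤ) := Sel d fun e => rl d e ∧ K ≤ age d e

noncomputable def CF (top K j : ℕ) : Finset (ℕ × ℤ) :=
  Sel d fun e => Bs d lev top j e ∧ rank d lev j e < K

noncomputable def CA (top K j : ℕ) : Finset (ℕ × ℤ) :=
  Sel d fun e => Bs d lev top j e ∧ au d lev e < top ∧
    #(Tst d lev e.1 (ch d lev j e) top) < K * (j + 1) ^ 2

noncomputable def CB (top K j : ℕ) : Finset (ℕ × ℤ) :=
  Sel d fun e => Bs d lev top j e ∧ au d lev e < ch d lev j e + 2 ^ j ∧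
    #(Tst d lev e.1 (ch d lev j e) (ch d lev j e + 2 ^ j)) < K * (j + 1) ^ 2

noncomputable def RA (top K j : ℕ) : Finset (ℕ × ℤ) :=
  Sel d fun e => Bs d lev top j e ∧ age d e < K ∧
    (∀ b, 1 ≤ b → b + 2 ^ j ≤ cq d lev j e → s0 d e ≤ ep d lev b e.1) ∧
    K ≤ rank d lev j e ∧ K * (j + 1) ^ 2 ≤ #(d.P e.1)

noncomputable def RB (top K j : ℕ) : Finset (ℕ × ℤ) :=
  Sel d fun e => Bs d lev top j e ∧
    K * (j + 1) ^ 2 ≤ #(Tst d lev e.1 (ch d lev j e) (ch d lev j e + 2 ^ j))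

end

-- deps: CELL EP VIS LU.LINK
/-- Paths, one link per visit, later upper nodes are on the path, upper nodes are distinct. -/
def S_FIB : Prop :=
  ∀ (d : Run) (lev : ℤ → ℕ), d.OK →
    (∀ t < d.m, ∀ v, v ∈ d.P t ↔ tch d t v ∧ d.x t < v) ∧
    (∀ e, rl d e → e.2 ∈ d.P e.1 ∧ low d e.1 e.2 ∈ d.P e.1 ∧ low d e.1 e.2 < e.2 ∧
      e ∈ range d.m ×ˢ d.keys ∧ (1 ≤ e.1 → d.x (e.1 - 1) ≠ d.x e.1)) ∧
    (∀ e e' h, rl d e → rl d e' → e.1 = e'.1 → al d lev e < h → h ≤ au d lev e →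
      al d lev e' < h → h ≤ au d lev e' → e = e') ∧
    (∀ b t' t v u, 1 ≤ b → t < d.m → ep d lev b t ≤ t' → t' ≤ t → v ∈ d.P t' →
      b ≤ lv lev (d.x t') v → u ∈ d.P t → lv lev (d.x t') v < lv lev (d.x t) u →
      u ∈ d.P t' ∧ lv lev (d.x t') u = lv lev (d.x t) u) ∧
    ∀ b h s e e', 1 ≤ b → e ∈ Fib d lev b h s → e' ∈ Fib d lev b h s → e.1 < e'.1 → e.2 ≠ e'.2

-- deps:
def S_OLD : Prop := ∀ (d : Run) (K : ℕ), K * #(OLD d K) ≤ d.NR

-- deps: FIB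
def S_FST : Prop :=
  ∀ (d : Run) (lev : ℤ → ℕ) (b h s K : ℕ), d.OK →
    #((Fib d lev b h s).filter fun e => bef d lev b h s e.1 < K) ≤ K

-- deps: EP FIB
/-- A young upper node that saw the whole epoch bounds the rank. -/
def S_SAW : Prop :=
  ∀ (d : Run) (lev : ℤ → ℕ) (b h : ℕ) (e : ℕ × ℤ), d.OK → 1 ≤ b → rl d e →
    s0 d e ≤ ep d lev b e.1 → h ≤ au d lev e → bef d lev b h (ep d lev b e.1) e.1 ≤ age d e

-- deps: EP FIB
def S_LST : Prop :=
  ∀ (d : Run) (lev : ℤ → ℕ) (b h h' s th : ℕ), d.OK → 1 ≤ b →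
    #((Fib d lev b h s).filter fun e => au d lev e < h' ∧ #(Tst d lev e.1 h h') < th) ≤ th

-- deps: FIB SAW
def S_RA : Prop :=
  ∀ (d : Run) (lev : ℤ → ℕ) (top K j : ℕ), d.OK →
    K * (j + 1) ^ 2 * #(RA d lev top K j) ≤ d.NR

-- deps: FIB
def S_RB : Prop :=
  ∀ (d : Run) (lev : ℤ → ℕ) (top K j : ℕ), d.OK →
    K * (j + 1) ^ 2 * #(RB d lev top K j) ≤ d.NR

-- deps:
/-- The scale of three levels, and the sum over the scales. -/
def S_ARI : Prop :=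
  (∀ l a a' : ℕ, l < a → a < a' → ∃ j, l < a / 2 ^ j * 2 ^ j ∧ a / 2 ^ j * 2 ^ j + 2 ^ j ≤ a' ∧
    (a / 2 ^ j * 2 ^ j ≤ l + 2 ^ j ∨ a' < a / 2 ^ j * 2 ^ j + 2 ^ j + 2 ^ j)) ∧
  ∀ (K N J : ℕ) (f : ℕ → ℕ), (∀ j, K * (j + 1) ^ 2 * f j ≤ N) → K * ∑ j ∈ range J, f j ≤ 2 * N

-- deps: CELL EP FIB SAW ARI
def S_CLS : Prop :=
  ∀ (d : Run) (lev : ℤ → ℕ) (σ H K : ℕ), d.OK → Lv d.L d.R lev σ H → ∀ e ∈ NEAR d lev,
    e ∈ OLD d K ∨ ∃ j < σ + H + 1, e ∈ CF d lev (σ + H + 1) K j ∨ e ∈ CA d lev (σ + H + 1) K j ∨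
      e ∈ CB d lev (σ + H + 1) K j ∨ e ∈ RA d lev (σ + H + 1) K j ∨ e ∈ RB d lev (σ + H + 1) K j

-- deps:
/-- Summing over the fibres. -/
def S_FSUM : Prop :=
  ∀ (d : Run) (lev : ℤ → ℕ) (top K J : ℕ) (S : ℕ → Finset (ℕ × ℤ)),
    (∀ j, ∀ e ∈ S j, Bs d lev top j e) →
    (∀ j q s, 1 ≤ q → #((S j).filter fun e => cq d lev j e = q ∧ ep d lev q e.1 = s) ≤
      K * (j + 1) ^ 2) →
    ∑ j ∈ range J, #(S j) ≤ K * Z d lev top 3

-- deps: FST LST FSUM
def S_CNT : Prop :=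
  ∀ (d : Run) (lev : ℤ → ℕ) (top K J : ℕ), d.OK →
    ∑ j ∈ range J, #(CF d lev top K j) ≤ K * Z d lev top 3 ∧
    ∑ j ∈ range J, #(CA d lev top K j) ≤ K * Z d lev top 3 ∧
    ∑ j ∈ range J, #(CB d lev top K j) ≤ K * Z d lev top 3

-- deps: OLD RA RB ARI CLS CNT
def S_H1 : Prop :=
  ∃ c : ℕ, ∀ K : ℕ, ∃ C : ℕ, ∀ (d : Run) (lev : ℤ → ℕ) (σ H : ℕ), d.OK → Lv d.L d.R lev σ H →
    H ≤ σ → K * #(NEAR d lev) ≤
      d.NR + C * ((d.R - d.L).toNat + d.m + Z d lev (σ + H + 1) c)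

end Pool.Agent.P.MP_119182_lc.LW
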