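import Pool.Agent.P.MP_119182_lc.Defs

/-! A consequence of the weighted finger bound: a fixed ranking of the keys, together with the
previous access. -/

set_option autoImplicit false

namespace Pool.Agent.P.MP_119182_lc.LW

open Finset

theorem sr_inj (s : Finset ℕ) (f : ℕ → ℕ) (h1 : ∀ y ∈ s, 1 ≤ f y) (h2 : Set.InjOn f s) :
    ∑ y ∈ s, ((f y : ℝ) ^ 2)⁻¹ ≤ 2 := by
  have e : ∑ y ∈ s, ((f y : ℝ) ^ 2)⁻¹ = ∑ k ∈ s.image f, ((k : ℝ) ^ 2)⁻¹ :=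
    (sum_image (f := fun k : ℕ => ((k : ℝ) ^ 2)⁻¹) h2).symm
  have h3 : s.image f ⊆ Ioo 0 (s.sup f + 1) := by
    intro k hk
    obtain ⟨y, hy, rfl⟩ := mem_image.1 hk
    have := h1 y hy
    have := le_sup (f := f) hy
    simp only [mem_Ioo]
    omega
  have h4 := sum_Ioo_inv_sq_le (α := ℝ) 0 (s.sup f + 1)
  rw [e]
  refine (sum_le_sum_of_subset_of_nonneg h3 fun _ _ _ => by positivity).trans (h4.trans ?_)
  norm_num

theorem sr_dist (s : Finset ℕ) (y : ℕ) :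
    ∑ x ∈ s, (((Nat.dist x y + 1 : ℕ) : ℝ) ^ 2)⁻¹ ≤ 4 := by
  rw [← sum_filter_add_sum_filter_not s fun x => x ≤ y]
  have a1 := sr_inj (s.filter fun x => x ≤ y) (fun x => Nat.dist x y + 1) (fun _ _ => by omega)
    (by
      intro p hp q hq h
      have := (mem_filter.1 (mem_coe.1 hp)).2
      have := (mem_filter.1 (mem_coe.1 hq)).2
      simp only [Nat.dist] at h
      omega)
  have a2 := sr_inj (s.filter fun x => ¬x ≤ y) (fun x => Nat.dist x y + 1) (fun _ _ => by omega)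
    (by
      intro p hp q hq h
      have := (mem_filter.1 (mem_coe.1 hp)).2
      have := (mem_filter.1 (mem_coe.1 hq)).2
      simp only [Nat.dist] at h
      omega)
  linarith

/-- The real weight of the key `x`. -/
noncomputable def srS (n : ℕ) (ρ : ℕ → ℕ) (x : ℕ) : ℝ :=
  ∑ y ∈ Icc 1 n, ((ρ y : ℝ) ^ 2)⁻¹ * (((Nat.dist x y + 1 : ℕ) : ℝ) ^ 2)⁻¹

/-- The integer weight of the key `x`. -/
noncomputable def srW (n : ℕ) (ρ : ℕ → ℕ) (x : ℕ) : ℕ := ⌈(n : ℝ) * srS n ρ x⌉₊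

theorem srS_nonneg (n : ℕ) (ρ : ℕ → ℕ) (x : ℕ) : 0 ≤ srS n ρ x :=
  sum_nonneg fun _ _ => by positivity

theorem srS_sum (n : ℕ) (ρ : ℕ → ℕ) (h1 : ∀ y ∈ Icc 1 n, 1 ≤ ρ y)
    (h2 : Set.InjOn ρ (Icc 1 n : Finset ℕ)) : ∑ x ∈ Icc 1 n, srS n ρ x ≤ 8 := by
  unfold srS
  rw [sum_comm]
  calc ∑ y ∈ Icc 1 n, ∑ x ∈ Icc 1 n,
        ((ρ y : ℝ) ^ 2)⁻¹ * (((Nat.dist x y + 1 : ℕ) : ℝ) ^ 2)⁻¹
      ≤ ∑ y ∈ Icc 1 n, ((ρ y : ℝ) ^ 2)⁻¹ * 4 := by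
        refine sum_le_sum fun y _ => ?_
        rw [← mul_sum]
        exact mul_le_mul_of_nonneg_left (sr_dist _ y) (by positivity)
    _ ≤ 8 := by
        rw [← sum_mul]
        have := sr_inj _ ρ h1 h2
        linarith

theorem srW_sum (n : ℕ) (ρ : ℕ → ℕ) (h1 : ∀ y ∈ Icc 1 n, 1 ≤ ρ y)
    (h2 : Set.InjOn ρ (Icc 1 n : Finset ℕ)) : ∑ x ∈ Icc 1 n, srW n ρ x ≤ 9 * n := by
  have h3 := srS_sum n ρ h1 h2
  have h4 : ((∑ x ∈ Icc 1 n, srW n ρ x : ℕ) : ℝ) ≤ ∑ x ∈ Icc 1 n, ((n : ℝ) * srS n ρ x + 1) := by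
    push_cast
    refine sum_le_sum fun x _ => ?_
    exact (Nat.ceil_lt_add_one (mul_nonneg (by positivity) (srS_nonneg n ρ x))).le
  rw [sum_add_distrib, ← mul_sum] at h4
  have h5 : (n : ℝ) * ∑ x ∈ Icc 1 n, srS n ρ x ≤ n * 8 :=
    mul_le_mul_of_nonneg_left h3 (by positivity)
  have h6 : ∑ _x ∈ Icc 1 n, (1 : ℝ) = n := by simp
  have h7 : ((∑ x ∈ Icc 1 n, srW n ρ x : ℕ) : ℝ) ≤ ((9 * n : ℕ) : ℝ) := by
    rw [h6] at h4
    push_cast at h4 ⊢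
    linarith
  exact_mod_cast h7

theorem srW_low (n : ℕ) (ρ : ℕ → ℕ) (x y : ℕ) (hy : y ∈ Icc 1 n) (h1 : 1 ≤ ρ y) :
    n ≤ (ρ y + Nat.dist x y) ^ 4 * srW n ρ x := by
  have a1 : ((ρ y : ℝ) ^ 2)⁻¹ * (((Nat.dist x y + 1 : ℕ) : ℝ) ^ 2)⁻¹ ≤ srS n ρ x :=
    single_le_sum (f := fun y => ((ρ y : ℝ) ^ 2)⁻¹ * (((Nat.dist x y + 1 : ℕ) : ℝ) ^ 2)⁻¹)
      (fun _ _ => by positivity) hy
  have a2 : (n : ℝ) * srS n ρ x ≤ srW n ρ x := Nat.le_ceil _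
  generalize Nat.dist x y = d at a1 ⊢
  generalize ρ y = r at a1 h1 ⊢
  have a3 : r ^ 2 * (d + 1) ^ 2 ≤ (r + d) ^ 4 :=
    calc r ^ 2 * (d + 1) ^ 2 ≤ (r + d) ^ 2 * (r + d) ^ 2 :=
          Nat.mul_le_mul (Nat.pow_le_pow_left (by omega) 2) (Nat.pow_le_pow_left (by omega) 2)
      _ = _ := by ring
  have r0 : (0 : ℝ) < r := by exact_mod_cast h1
  have a4 : (1 : ℝ) ≤ ((r : ℝ) ^ 2 * ((d + 1 : ℕ) : ℝ) ^ 2) * srS n ρ x := by
    have := mul_le_mul_of_nonneg_left a1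
      (show (0 : ℝ) ≤ (r : ℝ) ^ 2 * ((d + 1 : ℕ) : ℝ) ^ 2 by positivity)
    refine le_trans (le_of_eq ?_) this
    field_simp
  have a5 : (n : ℝ) ≤ ((r ^ 2 * (d + 1) ^ 2 * srW n ρ x : ℕ) : ℝ) := by
    have b1 := mul_le_mul_of_nonneg_left a4 (show (0 : ℝ) ≤ n by positivity)
    have b2 := mul_le_mul_of_nonneg_left a2
      (show (0 : ℝ) ≤ (r : ℝ) ^ 2 * ((d + 1 : ℕ) : ℝ) ^ 2 by positivity)
    push_cast at b1 b2 ⊢
    nlinarith
  have a6 : n ≤ r ^ 2 * (d + 1) ^ 2 * srW n ρ x := by exact_mod_cast a5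
  exact a6.trans (Nat.mul_le_mul_right _ a3)

theorem srW_smooth (n : ℕ) (ρ : ℕ → ℕ) (x z : ℕ) :
    srW n ρ z ≤ (Nat.dist x z + 1) ^ 2 * srW n ρ x := by
  have a1 : srS n ρ z ≤ ((Nat.dist x z + 1 : ℕ) : ℝ) ^ 2 * srS n ρ x := by
    unfold srS
    rw [mul_sum]
    refine sum_le_sum fun y _ => ?_
    rw [mul_left_comm]
    refine mul_le_mul_of_nonneg_left ?_ (by positivity)
    have b1 : Nat.dist x y + 1 ≤ (Nat.dist x z + 1) * (Nat.dist z y + 1) := by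
      have := Nat.dist.triangle_inequality x z y
      nlinarith [Nat.zero_le (Nat.dist x z * Nat.dist z y)]
    have b2 : ((Nat.dist x y + 1 : ℕ) : ℝ) ^ 2 ≤
        ((Nat.dist x z + 1 : ℕ) : ℝ) ^ 2 * ((Nat.dist z y + 1 : ℕ) : ℝ) ^ 2 := by
      rw [← mul_pow]
      exact pow_le_pow_left₀ (by positivity) (by exact_mod_cast b1) 2
    rw [← div_eq_mul_inv, inv_eq_one_div, div_le_div_iff₀ (by positivity) (by positivity)]
    linarith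
  have a2 : (n : ℝ) * srS n ρ x ≤ srW n ρ x := Nat.le_ceil _
  refine Nat.ceil_le.2 ?_
  have a3 := mul_le_mul_of_nonneg_left a1 (show (0 : ℝ) ≤ n by positivity)
  have a4 := mul_le_mul_of_nonneg_left a2
    (show (0 : ℝ) ≤ ((Nat.dist x z + 1 : ℕ) : ℝ) ^ 2 by positivity)
  push_cast at a3 a4 ⊢
  nlinarith

theorem sr_log (b k : ℕ) (h : k ≤ 9 * b ^ 4) : Nat.log 2 k ≤ 4 * Nat.log 2 b + 8 := by
  have h1 : b < 2 ^ (Nat.log 2 b + 1) := Nat.lt_pow_succ_log_self (by norm_num) b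
  have h2 : b ^ 4 ≤ (2 ^ (Nat.log 2 b + 1)) ^ 4 := Nat.pow_le_pow_left h1.le 4
  have h3 : k ≤ 2 ^ (4 * Nat.log 2 b + 8) := by
    have : 2 ^ (4 * Nat.log 2 b + 8) = 16 * (2 ^ (Nat.log 2 b + 1)) ^ 4 := by ring
    omega
  calc Nat.log 2 k ≤ Nat.log 2 (2 ^ (4 * Nat.log 2 b + 8)) := Nat.log_mono_right h3
    _ = _ := Nat.log_pow (by norm_num) _

theorem sr_step (n : ℕ) (ρ : ℕ → ℕ) (h1 : ∀ y ∈ Icc 1 n, 1 ≤ ρ y)
    (h2 : Set.InjOn ρ (Icc 1 n : Finset ℕ)) (p q y : ℕ) (hp : p ∈ Icc 1 n) (hq : q ∈ Icc 1 n)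
    (hy : y ∈ Icc 1 n) :
    Nat.log 2 ((∑ z ∈ Icc (min p q) (max p q), srW n ρ z) / srW n ρ q) ≤
      4 * Nat.log 2 (min (Nat.dist q p + 1) (ρ y + Nat.dist q y)) + 8 := by
  refine sr_log _ _ (Nat.div_le_of_le_mul ?_)
  rcases le_total (Nat.dist q p + 1) (ρ y + Nat.dist q y) with h | h
  · rw [min_eq_left h]
    have a1 : ∑ z ∈ Icc (min p q) (max p q), srW n ρ z ≤
        #(Icc (min p q) (max p q)) • ((Nat.dist q p + 1) ^ 2 * srW n ρ q) := by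
      refine sum_le_card_nsmul _ _ _ fun z hz => (srW_smooth n ρ q z).trans ?_
      refine Nat.mul_le_mul_right _ (Nat.pow_le_pow_left ?_ 2)
      rw [mem_Icc] at hz
      simp only [Nat.dist]
      omega
    have a2 : #(Icc (min p q) (max p q)) = Nat.dist q p + 1 := by
      rw [Nat.card_Icc]
      simp only [Nat.dist]
      omega
    rw [a2, smul_eq_mul] at a1
    generalize Nat.dist q p = d at a1 ⊢
    have a3 : (d + 1) ^ 3 ≤ 9 * (d + 1) ^ 4 :=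
      (Nat.pow_le_pow_right (by omega) (by omega)).trans (Nat.le_mul_of_pos_left _ (by omega))
    calc _ ≤ _ := a1
      _ = srW n ρ q * (d + 1) ^ 3 := by ring
      _ ≤ _ := Nat.mul_le_mul_left _ a3
  · rw [min_eq_right h]
    have a1 : ∑ z ∈ Icc (min p q) (max p q), srW n ρ z ≤ ∑ z ∈ Icc 1 n, srW n ρ z := by
      refine sum_le_sum_of_subset fun z hz => ?_
      rw [mem_Icc] at hz hp hq ⊢
      omega
    have a2 := srW_sum n ρ h1 h2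
    have a3 := srW_low n ρ q y hy (h1 y hy)
    calc _ ≤ 9 * n := a1.trans a2
      _ ≤ 9 * ((ρ y + Nat.dist q y) ^ 4 * srW n ρ q) := Nat.mul_le_mul_left _ a3
      _ = _ := by ring

theorem sr_loglog (n W : ℕ) (h : W ≤ 9 * n) :
    Nat.log 2 (Nat.log 2 W) + 1 ≤ 4 * (Nat.log 2 (Nat.log 2 n) + 1) := by
  have h1 : n < 2 ^ (Nat.log 2 n + 1) := Nat.lt_pow_succ_log_self (by norm_num) n
  have h2 : Nat.log 2 W ≤ Nat.log 2 n + 5 := by
    have : W ≤ 2 ^ (Nat.log 2 n + 5) := by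
      have : 2 ^ (Nat.log 2 n + 5) = 16 * 2 ^ (Nat.log 2 n + 1) := by ring
      omega
    calc Nat.log 2 W ≤ Nat.log 2 (2 ^ (Nat.log 2 n + 5)) := Nat.log_mono_right this
      _ = _ := Nat.log_pow (by norm_num) _
  generalize Nat.log 2 n = l at h2 ⊢
  have h3 : l < 2 ^ (Nat.log 2 l + 1) := Nat.lt_pow_succ_log_self (by norm_num) l
  have h4 : 1 ≤ 2 ^ Nat.log 2 l := Nat.one_le_two_pow
  have h5 : Nat.log 2 W ≤ 2 ^ (Nat.log 2 l + 3) := by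
    rw [pow_succ] at h3
    rw [pow_add]
    omega
  have h6 : Nat.log 2 (Nat.log 2 W) ≤ Nat.log 2 l + 3 :=
    calc _ ≤ Nat.log 2 (2 ^ (Nat.log 2 l + 3)) := Nat.log_mono_right h5
      _ = _ := Nat.log_pow (by norm_num) _
  omega

/-- From the weighted finger bound: for any fixed ranking `ρ` of the keys and any keys `y i`, an
access pays the logarithm of the smaller of its distance from the previous access (plus one) and
`ρ (y i)` plus its distance from `y i`. -/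
theorem static_rank
    (H : ∃ C : ℕ, ∀ (n m : ℕ) (T : BT) (w a : ℕ → ℕ), T.keys = List.range' 1 n →
      (∀ x, 1 ≤ x → x ≤ n → 1 ≤ w x) → (∀ i < m, 1 ≤ a i ∧ a i ≤ n) →
      cost T ((List.range m).map a) ≤
        C * (n * (Nat.log 2 (Nat.log 2 (∑ z ∈ Icc 1 n, w z)) + 1) ^ 3 +
          Nat.log 2 (∑ z ∈ Icc 1 n, w z) + m + ∑ i ∈ range (m - 1),
            Nat.log 2 ((∑ z ∈ Icc (min (a i) (a (i + 1))) (max (a i) (a (i + 1))), w z) /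
              w (a (i + 1))))) :
    ∃ C : ℕ, ∀ (n m : ℕ) (T : BT) (ρ a y : ℕ → ℕ), T.keys = List.range' 1 n →
      (∀ x, 1 ≤ x → x ≤ n → 1 ≤ ρ x) → Set.InjOn ρ (Set.Icc 1 n) →
      (∀ i < m, 1 ≤ a i ∧ a i ≤ n) → (∀ i < m, 1 ≤ y i ∧ y i ≤ n) →
      cost T ((List.range m).map a) ≤
        C * (n * (Nat.log 2 (Nat.log 2 n) + 1) ^ 3 + m + ∑ i ∈ range (m - 1),
          Nat.log 2 (min (Nat.dist (a (i + 1)) (a i) + 1)
            (ρ (y (i + 1)) + Nat.dist (a (i + 1)) (y (i + 1))))) := by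
  obtain ⟨C, hC⟩ := H
  refine ⟨C * 73, fun n m T ρ a y hT r1 r2 ha hy => ?_⟩
  have h1 : ∀ x ∈ Icc 1 n, 1 ≤ ρ x := fun x hx => r1 x (mem_Icc.1 hx).1 (mem_Icc.1 hx).2
  have h2 : Set.InjOn ρ (Icc 1 n : Finset ℕ) := by rwa [coe_Icc]
  have hw : ∀ x, 1 ≤ x → x ≤ n → 1 ≤ srW n ρ x := by
    intro x x1 x2
    have := srW_low n ρ x x (mem_Icc.2 ⟨x1, x2⟩) (r1 x x1 x2)
    rcases Nat.eq_zero_or_pos (srW n ρ x) with h | h
    · rw [h] at this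
      omega
    · exact h
  refine (hC n m T (srW n ρ) a hT hw ha).trans ?_
  rw [mul_assoc]
  refine Nat.mul_le_mul_left _ ?_
  have k1 := srW_sum n ρ h1 h2
  have k2 := sr_loglog n _ k1
  have k3 : Nat.log 2 (∑ z ∈ Icc 1 n, srW n ρ z) ≤ 9 * n := (Nat.log_le_self _ _).trans k1
  have k4 : ∑ i ∈ range (m - 1),
      Nat.log 2 ((∑ z ∈ Icc (min (a i) (a (i + 1))) (max (a i) (a (i + 1))), srW n ρ z) /
        srW n ρ (a (i + 1))) ≤ ∑ i ∈ range (m - 1),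
      (4 * Nat.log 2 (min (Nat.dist (a (i + 1)) (a i) + 1)
        (ρ (y (i + 1)) + Nat.dist (a (i + 1)) (y (i + 1)))) + 8) := by
    refine sum_le_sum fun i hi => ?_
    have hi' := mem_range.1 hi
    exact sr_step n ρ h1 h2 _ _ _ (mem_Icc.2 (ha i (by omega))) (mem_Icc.2 (ha (i + 1) (by omega)))
      (mem_Icc.2 (hy (i + 1) (by omega)))
  rw [sum_add_distrib, ← mul_sum, sum_const, card_range, smul_eq_mul] at k4
  have k5 : n * (Nat.log 2 (Nat.log 2 (∑ z ∈ Icc 1 n, srW n ρ z)) + 1) ^ 3 ≤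
      64 * (n * (Nat.log 2 (Nat.log 2 n) + 1) ^ 3) :=
    calc _ ≤ n * (4 * (Nat.log 2 (Nat.log 2 n) + 1)) ^ 3 :=
          Nat.mul_le_mul_left _ (Nat.pow_le_pow_left k2 3)
      _ = _ := by ring
  have k6 : n ≤ n * (Nat.log 2 (Nat.log 2 n) + 1) ^ 3 := Nat.le_mul_of_pos_right _ (by positivity)
  omega

end Pool.Agent.P.MP_119182_lc.LW
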