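import Pool.Agent.P.MP_119182_lc.LW.WdfAll
import Pool.Agent.P.MP_119182_lc.LW.StatRank

/-! The fixed-ranking bound, assembled. -/

set_option autoImplicit false

namespace Pool.Agent.P.MP_119182_lc.LW

open Finset

theorem a_static_rank :
    ∃ C : ℕ, ∀ (n m : ℕ) (T : BT) (ρ a y : ℕ → ℕ), T.keys = List.range' 1 n →
      (∀ x, 1 ≤ x → x ≤ n → 1 ≤ ρ x) → Set.InjOn ρ (Set.Icc 1 n) →
      (∀ i < m, 1 ≤ a i ∧ a i ≤ n) → (∀ i < m, 1 ≤ y i ∧ y i ≤ n) →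
      cost T ((List.range m).map a) ≤
        C * (n * (Nat.log 2 (Nat.log 2 n) + 1) ^ 3 + m + ∑ i ∈ range (m - 1),
          Nat.log 2 (min (Nat.dist (a (i + 1)) (a i) + 1)
            (ρ (y (i + 1)) + Nat.dist (a (i + 1)) (y (i + 1))))) :=
  static_rank a_WDF

end Pool.Agent.P.MP_119182_lc.LW
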