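import Pool.Agent.P.MP_119182_lc.LW.IfaceH1

/-! Step ARI. -/

set_option autoImplicit false

namespace Pool.Agent.P.MP_119182_lc.LW

open Finset
open scoped Classical
open NU (Run mr)
open LU (key tch up low LK)

lemma ari_step (a j : ℕ) : a / 2 ^ (j + 1) * 2 ^ (j + 1) ≤ a / 2 ^ j * 2 ^ j ∧
    a / 2 ^ j * 2 ^ j ≤ a / 2 ^ (j + 1) * 2 ^ (j + 1) + 2 ^ j := by
  rw [pow_succ, ← Nat.div_div_eq_div_mul, mul_comm (2 ^ j) 2, ← mul_assoc, ← add_one_mul]
  exact ⟨Nat.mul_le_mul_right _ (by omega), Nat.mul_le_mul_right _ (by omega)⟩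

lemma ari_sum (K N : ℕ) (f : ℕ → ℕ) (h : ∀ j, K * (j + 1) ^ 2 * f j ≤ N) (J : ℕ) :
    (J + 1) * (K * ∑ j ∈ range J, f j) ≤ 2 * N * J := by
  induction J with
  | zero => simp
  | succ J ih =>
    rw [sum_range_succ, mul_add K]
    generalize K * ∑ j ∈ range J, f j = S at ih ⊢
    have h1 := Nat.mul_le_mul_left (J + 2) (h J)
    have h2 := Nat.mul_le_mul_left ((J + 1) * (J + 2)) ih
    refine Nat.le_of_mul_le_mul_left ?_ (show 0 < (J + 1) ^ 2 by positivity)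
    nlinarith [Nat.zero_le (N * J)]

theorem p_ARI :
    S_ARI := by
  refine ⟨fun l a a' h1 h2 => ?_, fun K N J f h => ?_⟩
  · by_contra hn
    have key : ∀ j, l < a / 2 ^ j * 2 ^ j ∧ a / 2 ^ j * 2 ^ j + 2 ^ j ≤ a' := by
      intro j
      induction j with
      | zero => simpa using ⟨h1, h2⟩
      | succ j ih =>
        have h3 := ari_step a j
        have h4 : ¬ (a / 2 ^ j * 2 ^ j ≤ l + 2 ^ j ∨ a' < a / 2 ^ j * 2 ^ j + 2 ^ j + 2 ^ j) :=
          fun h => hn ⟨j, ih.1, ih.2, h⟩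
        have h5 : 2 ^ (j + 1) = 2 ^ j + 2 ^ j := by rw [pow_succ, mul_two]
        generalize a / 2 ^ (j + 1) * 2 ^ (j + 1) = q' at h3 ⊢
        omega
    have h3 := (key a').2
    have h4 : a' < 2 ^ a' := Nat.lt_two_pow_self
    omega
  · refine Nat.le_of_mul_le_mul_left ((ari_sum K N f h J).trans ?_) (Nat.succ_pos J)
    nlinarith [Nat.zero_le N]

end Pool.Agent.P.MP_119182_lc.LW
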