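import Pool.Agent.P.MP_119182_lc.LW.IfaceW

/-! Step G1B. -/

set_option autoImplicit false

namespace Pool.Agent.P.MP_119182_lc.LW.W

open Finset
open scoped Classical
open NU (Run mr)
open LP (on up low ON)
open _root_.Pool.Agent.P.MP_119182_lc.LT (lw mate frz clr fst hd vis seg len TK Dat Sy)

theorem g1b_succ (d : Run) (s : ℕ) (v : ℤ) (r : ℕ) (h : ¬ on d r (hd d s v r)) :
    hd d s v (r + 1) = hd d s v r := by
  rw [hd, if_neg]
  exact fun hh => h hh.2.2.1

theorem g1b_stay (d : Run) (s : ℕ) (v : ℤ) (a r : ℕ) (har : a ≤ r)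
    (h : ∀ T, a ≤ T → T < r → ¬ on d T (hd d s v T)) : hd d s v r = hd d s v a := by
  induction r, har using Nat.le_induction with
  | base => rfl
  | succ n hn ih =>
    rw [g1b_succ d s v n (h n hn (by omega))]
    exact ih fun T h1 h2 => h T h1 (by omega)

theorem g1b_cap {d : Run} {lev : ℤ → ℕ} {cL cR : ℕ → ℤ → ℕ} {H : ℕ} (hc : Cp d lev cL cR H)
    (z : ℤ) (a r : ℕ) (har : a ≤ r) (hr : r ≤ d.m) (h : frz d a r z) : cR r z = cR a z := by
  induction r, har using Nat.le_induction with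
  | base => rfl
  | succ n hn ih =>
    have h1 := h n hn (by omega)
    rw [(hc.off n (by omega) z (Ne.symm h1.1) h1.2).2]
    exact ih (by omega) fun T h1 h2 => h T h1 (by omega)

theorem p_G1B (hLS : S_LS) (hEE : S_EE) (hRUN : S_RUN) (hG1A : S_G1A) (hMATE : LT.S_MATE) (hKEEP : LT.S_KEEP) (hSPINE : LT.S_SPINE) (hHD : LT.S_HD) (hPASS : LT.S_PASS) (hVIS : LT.S_VIS) :
    S_G1B := by
  intro d lev cL cR w H hA b s1 v1 t1 y1 s2 v2 t2 y2 ρ hb1 hb2 ha1 ha2 hg1 hg2 hee hv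
  have hd' := hA.cp.ok
  have hsy := hA.sy
  obtain ⟨l1, -, l3, l4, -, -⟩ := hLS lev
  obtain ⟨D1, D2, -, D4, -, -, -⟩ := hHD d w hsy
  have R1 := (hRUN d lev cL cR w H hA).2 s1 v1 ρ t1 y1 b hb1 ha1 hg1
  have R2 := (hRUN d lev cL cR w H hA).2 s2 v2 ρ t2 y2 b hb2 ha2 hg2
  obtain ⟨f1, e1, g1, -, -, -⟩ := hb1
  obtain ⟨f2, e2, g2, -, -, -⟩ := hb2
  have hs1 : s1 < d.m := lt_trans f1.1 f1.2.1
  have hs2 : s2 < d.m := lt_trans f2.1 f2.2.1
  have h12 : ls lev (d.x s2) (d.x s1) ≤ b := by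
    obtain ⟨⟨a1, -⟩, a2, -⟩ := hEE d lev H hd' b s1 hs1
    obtain ⟨⟨a3, -⟩, a4, -⟩ := hEE d lev H hd' b s2 hs2
    have b1 := (a2 _ a1 le_rfl).1
    have b2 := (a4 _ a3 le_rfl).1
    rw [hee, l1] at b1
    exact (l3 _ _ _).trans (max_le b2 b1)
  have conv : ∀ p q z z', ls lev (d.x s2) p ≤ b → ls lev (d.x s2) q ≤ b → p ≤ z → z ≤ z' →
      z' ≤ q → ls lev z z' ≤ b := by
    intro p q z z' h1 h2 h3 h4 h5
    have a1 : ls lev p q ≤ b := (l3 p (d.x s2) q).trans (max_le (by rw [l1]; exact h1) h2)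
    rw [l4 p z q h3 (h4.trans h5), l4 z z' q h4 h5] at a1
    omega
  have mv : ∀ (v : ℤ) (t r : ℕ), ρ ≤ r → r ≤ t → on d r (hd d ρ v r) → r ∈ vis d ρ v t :=
    fun v t r h1 h2 h3 => mem_filter.2 ⟨mem_Icc.2 ⟨h1, h2⟩, h3⟩
  have c1 : ∀ n r, r + n = t1 → ρ ≤ r → ls lev (d.x s2) (hd d ρ v1 r) ≤ b := by
    intro n
    induction n with
    | zero =>
      intro r hr _
      obtain rfl : r = t1 := by omega
      exact (l3 _ (d.x s1) _).trans (max_le h12 (R1 r (D4 _ _ _ g1).2.1).2.1)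
    | succ n ih =>
      intro r hr hρ
      by_cases ho : on d r (hd d ρ v1 r)
      · exact (l3 _ (d.x s1) _).trans (max_le h12 (R1 r (mv v1 t1 r hρ (by omega) ho)).2.1)
      · rw [← g1b_succ d ρ v1 r ho]
        exact ih (r + 1) (by omega) (by omega)
  have main : ∀ r, ρ ≤ r → r ≤ t1 → r ≤ t2 → hd d ρ v1 r < hd d ρ v2 r ∧
      (on d r (hd d ρ v1 r) ↔ on d r (hd d ρ v2 r)) ∧
      (on d r (hd d ρ v1 r) → ∀ z, on d r z → hd d ρ v1 r < z → z < hd d ρ v2 r →
        cR r z ≤ b + 1) := by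
    intro r
    induction r using Nat.strong_induction_on with
    | _ r ih =>
    intro hρ hr1 hr2
    rcases eq_or_lt_of_le hρ with rfl | hlt
    · rw [D1 _ _ _ le_rfl, D1 _ _ _ le_rfl]
      refine ⟨hv, iff_of_true g1.2.2.1 g2.2.2.1, fun _ z hz z1 z2 => ?_⟩
      exact hG1A d lev cL cR w H hA b s1 v1 s2 v2 ρ z
        ⟨f1, e1, ha1, (R1 ρ (D4 _ _ _ g1).1).2.2.2⟩
        ⟨f2, e2, ha2, (R2 ρ (D4 _ _ _ g2).1).2.2.2⟩ hee hz z1 z2
    · have hrm : r < d.m := lt_of_le_of_lt hr1 g1.2.1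
      obtain ⟨q, hq, hmax⟩ := exists_max_image
        ((Ico ρ r).filter fun q => on d q (hd d ρ v1 q)) id
        ⟨ρ, mem_filter.2 ⟨mem_Ico.2 ⟨le_rfl, hlt⟩, by rw [D1 _ _ _ le_rfl]; exact g1.2.2.1⟩⟩
      obtain ⟨hq0, o1⟩ := mem_filter.1 hq
      obtain ⟨q1, q2⟩ := mem_Ico.1 hq0
      have hqm : q < d.m := by omega
      obtain ⟨i1, i2, i3⟩ := ih q q2 q1 (by omega) (by omega)
      have o2 := i2.1 o1
      have n1 : ∀ T, q + 1 ≤ T → T < r → ¬ on d T (hd d ρ v1 T) := by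
        intro T h1 h2 h3
        have := hmax T (mem_filter.2 ⟨mem_Ico.2 ⟨by omega, h2⟩, h3⟩)
        simp only [id] at this
        omega
      have n2 : ∀ T, q + 1 ≤ T → T < r → ¬ on d T (hd d ρ v2 T) := fun T h1 h2 h3 =>
        n1 T h1 h2 ((ih T h2 (by omega) (by omega) (by omega)).2.1.2 h3)
      have x1 := (g1.2.2.2.1 q q1 (by omega)).2 o1
      have x2 := (g2.2.2.2.1 q q1 (by omega)).2 o2
      have nl1 := g1.2.2.2.2.1 q q1 (by omega)
      have nl2 := g2.2.2.2.2.1 q q1 (by omega)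
      obtain ⟨P1, P1', -⟩ := hPASS d w hsy q hqm _ o1 x1
      obtain ⟨P2, -, -⟩ := hPASS d w hsy q hqm _ o2 x2
      have k1 : hd d ρ v1 r = hd d q (hd d ρ v1 q) (q + 1) := by
        rw [D2 ρ v1 q (q + 1) q1 (by omega), g1b_stay d ρ v1 (q + 1) r q2 n1]
      have k2 : hd d ρ v2 r = hd d q (hd d ρ v2 q) (q + 1) := by
        rw [D2 ρ v2 q (q + 1) q1 (by omega), g1b_stay d ρ v2 (q + 1) r q2 n2]
      have z1 : frz d (q + 1) r (hd d ρ v1 r) := by
        intro T h1 h2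
        have e : hd d ρ v1 r = hd d ρ v1 T :=
          g1b_stay d ρ v1 T r h2.le fun T' a a' => n1 T' (by omega) a'
        rw [e]
        exact ⟨(g1.2.2.2.1 T (by omega) (by omega)).1, n1 T h1 h2⟩
      have z2 : frz d (q + 1) r (hd d ρ v2 r) := by
        intro T h1 h2
        have e : hd d ρ v2 r = hd d ρ v2 T :=
          g1b_stay d ρ v2 T r h2.le fun T' a a' => n2 T' (by omega) a'
        rw [e]
        exact ⟨(g2.2.2.2.1 T (by omega) (by omega)).1, n2 T h1 h2⟩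
      obtain ⟨a1, a2, a3, a4, a5, -, -, -⟩ := P1 nl1 _ k1
      obtain ⟨b1, b2, b3, b4, b5, -, -, b6⟩ := P2 nl2 _ k2
      have y1' := g1.2.2.2.1 r hρ hr1
      have y2' := g2.2.2.2.1 r hρ hr2
      have cc := c1 (t1 - r) r (by omega) hρ
      have RR := fun h => R2 r (mv v2 t2 r hρ hr2 h)
      have RQ := (R2 q (mv v2 t2 q q1 (by omega) o2)).1
      generalize hd d ρ v1 r = Z1 at *
      generalize hd d ρ v2 r = Z2 at *
      generalize hd d ρ v1 q = A1 at *
      generalize hd d ρ v2 q = A2 at *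
      obtain ⟨S1, -, -, S4, S5⟩ := hSPINE d hd' q hqm
      have hlt' : Z1 < Z2 := by
        rcases b6 with h | h
        · omega
        · have m1 := ((hMATE d hd' q).2.1 Z2 A2 h).2.2.2.2.2.2.1 b3
          rcases lt_trichotomy A1 Z2 with hh | hh | hh
          · omega
          · subst hh
            exact absurd ((P1' A2 h).2 nl2) nl1
          · have := S1 Z2 A1 b1 o1 b3 hh
            omega
      obtain ⟨K1, K1'⟩ := hKEEP d w hsy (q + 1) r Z1 q2 hrm.le a1.1 a1.2.1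
      obtain ⟨K2, K2'⟩ := hKEEP d w hsy (q + 1) r Z2 q2 hrm.le b1.1 b1.2.1
      obtain ⟨u1, u2, -⟩ := K1' z1
      obtain ⟨u3, u4, -⟩ := K2' z2
      obtain ⟨w1, -, -, -, w2⟩ := S4 Z1 a1 a2 a3
      obtain ⟨w3, -, -, -, -⟩ := S4 Z2 b1 b2 b3
      have T1 := hd'.tree (q + 1) (by omega)
      have bz1 := T1.bnd Z1 a1.1 a1.2.1
      have bz2 := T1.bnd Z2 b1.1 b1.2.1
      refine ⟨hlt', ⟨fun h => ?_, fun h => ?_⟩, fun h z hz zz1 zz2 => ?_⟩
      · have := y1'.2 h
        have h4 := h.2.2.2.1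
        exact ⟨b1.1, b1.2.1, by omega, by omega, by omega⟩
      · have hx := y2'.2 h
        have h4 := h.2.2.2.1
        have hne := y1'.1
        obtain ⟨-, r2, -, r4⟩ := RR h
        have hxx : d.x r < Z1 := by
          by_contra hcon
          have := conv Z1 Z2 Z1 (d.x r) cc r2 le_rfl (by omega) hx.le
          have := (l3 (d.x s2) Z1 (d.x r)).trans (max_le cc this)
          omega
        exact ⟨a1.1, a1.2.1, by omega, by omega, by omega⟩
      · have hx := y1'.2 h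
        have lz := T1.lamL Z2 z b1.1 b1.2.1 (by omega) zz2
        obtain ⟨K3, K3'⟩ := hKEEP d w hsy (q + 1) r z q2 hrm.le hz.1 hz.2.1
        have z3 : frz d (q + 1) r z := K3.2 fun T h1 h2 h3 =>
          K2.1 z2 T h1 h2 ⟨by omega, by omega⟩
        obtain ⟨u5, -⟩ := K3' z3
        have h4 := hz.2.2.2.1
        have bz := T1.bnd z hz.1 hz.2.1
        have hstep := (hd'.step q hqm).mem
        have hp : d.lp (q + 1) z ≤ d.x q := by
          by_contra hcon
          have j1 := (T1.lamL Z1 (d.lp (q + 1) z) a1.1 a1.2.1 (by omega) (by omega)).2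
          have j2 := T1.ancL z hz.1 hz.2.1 (by omega)
          omega
        obtain ⟨oz, nz⟩ := S5 Z1 z a1 a3 zz1.le hz.2.1 hp
        have j3 := w2 z oz nz zz1
        have j4 := S1 z Z2 oz b1 (by omega) zz2
        have full : ∀ y, on d q y → A1 < y → y ≤ A2 → cR q y ≤ b + 1 := by
          intro y hy y1 y2
          rcases eq_or_lt_of_le y2 with e | e
          · rw [e]
            omega
          · exact i3 o1 y hy y1 e
        rw [g1b_cap hA.cp z (q + 1) r q2 hrm.le z3,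
          (hA.cp.right q hqm z oz (by omega)).2, if_neg nz, inh]
        split_ifs with hl
        · obtain ⟨u, hu⟩ := hl.1.resolve_left nz
          obtain ⟨-, m2, -, -, -, m3, m4, -⟩ := (hMATE d hd' q).2.1 z u hu
          obtain ⟨m5, m6, -⟩ := m4 (by omega)
          rw [m2, cp, if_pos (by omega)]
          exact full u m3 (by omega) (by omega)
        · rw [cp, if_pos (by omega)]
          exact full z oz (by omega) (by omega)
  intro r hρ hr1 hr2
  obtain ⟨m1, m2, m3⟩ := main r hρ hr1 hr2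
  refine ⟨m1, m2, fun h z hz z1 z2 => ?_⟩
  have hrm : r < d.m := lt_of_le_of_lt hr1 g1.2.1
  have h' := m2.1 h
  obtain ⟨r1, -⟩ := R1 r (mv v1 t1 r hρ hr1 h)
  obtain ⟨r2, r3, r4, -⟩ := R2 r (mv v2 t2 r hρ hr2 h')
  have hx := (g1.2.2.2.1 r hρ hr1).2 h
  have cc := c1 (t1 - r) r (by omega) hρ
  constructor
  · rcases eq_or_lt_of_le z1 with e | e
    · rw [← e]
      omega
    · rcases eq_or_lt_of_le z2 with e' | e'
      · rw [e']
        omega
      · exact m3 h z hz e e'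
  · have bz := (hd'.tree r hrm.le).bnd z hz.1 hz.2.1
    have bz2 := (hd'.tree r hrm.le).bnd _ h'.1 h'.2.1
    rw [lam, far, if_pos (by omega)]
    refine conv _ _ z _ cc r4 z1 (by omega) ?_
    rcases eq_or_lt_of_le z2 with e' | e'
    · rw [e']
    · have := (hSPINE d hd' r hrm).1 z _ hz h' (by omega) e'
      omega

end Pool.Agent.P.MP_119182_lc.LW.W
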