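import Pool.Agent.P.MP_119182_lc.LW.IfaceP

/-! Step PLUG. -/

set_option autoImplicit false

namespace Pool.Agent.P.MP_119182_lc.LW.W

open Finset
open scoped Classical
open NU (Run mr)
open LP (on up low ON)
open LT (lw mate frz clr fst hd vis)

theorem p_PLUG (hPBR : S_PBR) (hPLOW : S_PLOW) (hPOK : S_POK) (hPPR : S_PPR) :
    S_PLUG := by
  obtain ⟨C, hC⟩ := LU.a_T
  refine ⟨C, fun K d lev cL cR H hp => ?_⟩
  have h1 := hC K d (val d lev cL cR) hp.ok (hPOK d lev cL cR H hp)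
  have h2 := hPPR d lev cL cR H hp
  have h3 : ((LT.TK d).filter fun p => up d p.1 p.2 ∧ ¬ hot d lev p.1 p.2) ⊆
      (LU.LK d).filter fun p => 1 ≤ (val d lev cL cR).g p.1 p.2 := by
    intro p hq
    obtain ⟨q1, q2, q3⟩ := mem_filter.1 hq
    have q4 : p ∈ range d.m ×ˢ d.keys := q1
    have hm : p.1 < d.m := mem_range.1 (mem_product.1 q4).1
    have hu : LU.up d p.1 p.2 := (hPBR d hp.ok p.1 hm p.2).2.1.1 q2
    refine mem_filter.2 ⟨mem_filter.2 ⟨q4, hu⟩, ?_⟩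
    exact (hPLOW d lev cL cR H hp p.1 hm p.2 hu).2.2.2 q3
  calc K * #((LT.TK d).filter fun p => up d p.1 p.2 ∧ ¬ hot d lev p.1 p.2)
      ≤ K * #((LU.LK d).filter fun p => 1 ≤ (val d lev cL cR).g p.1 p.2) :=
        Nat.mul_le_mul_left K (card_le_card h3)
    _ ≤ 2 * (d.NR + d.mir.NR) + C * K ^ 2 * LU.price d (val d lev cL cR) := h1
    _ ≤ _ := Nat.add_le_add_left (Nat.mul_le_mul_left _ h2) _

end Pool.Agent.P.MP_119182_lc.LW.W
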