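import Pool.Agent.P.MP_119182_lc.LW.WdfA
import Pool.Agent.P.MP_119182_lc.LW.IfaceF

/-! Levels from weights, and the weighted finger bound. -/

set_option autoImplicit false

namespace Pool.Agent.P.MP_119182_lc.LW

open Finset
open scoped Classical
open NU (Run mr)
open LU (key tch up low LK)

/-- The midpoint of the key `x` on the doubled weight axis. -/
def wmid (u : ℕ → ℕ) (x : ℕ) : ℕ := 2 * ∑ z ∈ range x, u z + u x

theorem wmid_succ (u : ℕ → ℕ) (x : ℕ) : wmid u (x + 1) = wmid u x + u x + u (x + 1) := by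
  unfold wmid
  rw [sum_range_succ]
  omega

theorem wmid_mono (u : ℕ → ℕ) : Monotone (wmid u) :=
  monotone_nat_of_le_succ fun x => by
    rw [wmid_succ]
    omega

theorem wmid_le (u : ℕ → ℕ) (x y : ℕ) (h : x ≤ y) :
    wmid u y ≤ wmid u x + 2 * ∑ z ∈ Icc x y, u z := by
  have h1 : ∀ y, x ≤ y → wmid u y + u y + u x ≤ wmid u x + 2 * ∑ z ∈ Icc x y, u z := by
    intro y hy
    induction y, hy using Nat.le_induction with
    | base =>
      rw [Icc_self, sum_singleton]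
      omega
    | succ y hy ih =>
      rw [wmid_succ, sum_Icc_succ_top (by omega)]
      omega
  have := h1 y h
  omega

/-- The level of the boundary `y`: the highest shifted dyadic point between two midpoints. -/
noncomputable def wlev (u : ℕ → ℕ) (τ : ℕ) (y : ℤ) : ℕ :=
  (Ioc (wmid u (y.toNat - 1)) (wmid u y.toNat)).sup fun g => padicValNat 2 (g + τ)

theorem wlev_ex (u : ℕ → ℕ) (τ : ℕ) (y : ℤ) (h : wmid u (y.toNat - 1) < wmid u y.toNat) :
    ∃ g, wmid u (y.toNat - 1) < g ∧ g ≤ wmid u y.toNat ∧ wlev u τ y = padicValNat 2 (g + τ) := by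
  obtain ⟨g, g1, g2⟩ := exists_mem_eq_sup (Ioc (wmid u (y.toNat - 1)) (wmid u y.toNat))
    (nonempty_Ioc.2 h) fun g => padicValNat 2 (g + τ)
  exact ⟨g, (mem_Ioc.1 g1).1, (mem_Ioc.1 g1).2, g2⟩

theorem wlev_le (u : ℕ → ℕ) (τ : ℕ) (y : ℤ) (g : ℕ) (h1 : wmid u (y.toNat - 1) < g)
    (h2 : g ≤ wmid u y.toNat) : padicValNat 2 (g + τ) ≤ wlev u τ y :=
  le_sup (f := fun g => padicValNat 2 (g + τ)) (mem_Ioc.2 ⟨h1, h2⟩)

theorem wmid_find (u : ℕ → ℕ) (g a : ℕ) (ha : wmid u a < g) :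
    ∀ b, g ≤ wmid u b → ∃ z, a < z ∧ z ≤ b ∧ wmid u (z - 1) < g ∧ g ≤ wmid u z := by
  intro b
  induction b with
  | zero =>
    intro hb
    have := wmid_mono u (Nat.zero_le a)
    omega
  | succ b ih =>
    intro hb
    by_cases h : g ≤ wmid u b
    · obtain ⟨z, z1, z2, z3⟩ := ih h
      exact ⟨z, z1, by omega, z3⟩
    · refine ⟨b + 1, ?_, le_rfl, by simpa using h, hb⟩
      by_contra h1
      have := wmid_mono u (show b + 1 ≤ a by omega)
      omega

theorem wdf_log (A b : ℕ) (hb : 1 ≤ b) :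
    2 * A ≤ 2 ^ (Nat.log 2 (A / b) + Nat.log 2 b + 3) := by
  have h1 : A / b < 2 ^ (Nat.log 2 (A / b) + 1) := Nat.lt_pow_succ_log_self (by norm_num) _
  have h2 : b < 2 ^ (Nat.log 2 b + 1) := Nat.lt_pow_succ_log_self (by norm_num) _
  have h3 : A < b * (A / b + 1) := Nat.lt_mul_div_succ A hb
  have h4 : b * (A / b + 1) ≤ 2 ^ (Nat.log 2 b + 1) * 2 ^ (Nat.log 2 (A / b) + 1) :=
    Nat.mul_le_mul h2.le h1
  have h5 : 2 ^ (Nat.log 2 (A / b) + Nat.log 2 b + 3) =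
      2 * (2 ^ (Nat.log 2 b + 1) * 2 ^ (Nat.log 2 (A / b) + 1)) := by ring
  omega

theorem wdf_lev (n m : ℕ) (w a : ℕ → ℕ) (hn : 1 ≤ n) (hw : ∀ x, 1 ≤ x → x ≤ n → 1 ≤ w x)
    (ha : ∀ i < m, 1 ≤ a i ∧ a i ≤ n) :
    ∃ (l0 : ℤ → ℕ) (D : ℕ → ℕ),
      (∀ y z : ℤ, 0 < y → y < z → z ≤ (n : ℤ) + 1 → l0 y = l0 z →
        ∃ v, y < v ∧ v < z ∧ l0 y < l0 v) ∧
      (∀ y : ℤ, 0 < y → y ≤ (n : ℤ) + 1 → l0 y < Nat.log 2 (∑ x ∈ Icc 1 n, w x) + 3) ∧
      (∀ r, r + 1 < m → ∀ g : ℤ, min (a (r + 1) : ℤ) (a r) < g → g ≤ max (a (r + 1) : ℤ) (a r) →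
        l0 g ≤ bot l0 (a (r + 1)) + D r) ∧
      ∑ i ∈ range (m - 1), D i ≤ 5 * m + ∑ i ∈ range (m - 1),
        Nat.log 2 ((∑ x ∈ Icc (min (a i) (a (i + 1))) (max (a i) (a (i + 1))), w x) /
          w (a (i + 1))) := by
  obtain ⟨u, hu⟩ : ∃ u : ℕ → ℕ, u = fun x => if 1 ≤ x ∧ x ≤ n then w x else 0 := ⟨_, rfl⟩
  have u1 : ∀ x, 1 ≤ x → x ≤ n → u x = w x := fun x h1 h2 => by rw [hu]; exact if_pos ⟨h1, h2⟩
  have u0 : u 0 = 0 := by rw [hu]; simp
  have un : u (n + 1) = 0 := by rw [hu]; simp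
  have usum : ∀ x y, 1 ≤ x → y ≤ n → ∑ z ∈ Icc x y, u z = ∑ z ∈ Icc x y, w z :=
    fun x y h1 h2 => sum_congr rfl fun z hz => by
      have := mem_Icc.1 hz
      exact u1 z (by omega) (by omega)
  obtain ⟨S, hS⟩ : ∃ S, S = Nat.log 2 (∑ x ∈ Icc 1 n, w x) + 2 := ⟨_, rfl⟩
  have htop : wmid u (n + 1) < 2 ^ S := by
    have h5 : wmid u (n + 1) = 2 * ∑ z ∈ Icc 1 n, u z := by
      unfold wmid
      rw [un, range_eq_Ico, sum_eq_sum_Ico_succ_bot (by omega), u0]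
      simp [Ico_add_one_right_eq_Icc]
    rw [h5, usum 1 n le_rfl le_rfl, hS]
    have h6 := Nat.lt_pow_succ_log_self (by norm_num : 1 < 2) (∑ x ∈ Icc 1 n, w x)
    rw [pow_succ] at h6
    rw [pow_succ, pow_succ]
    omega
  have hstep : ∀ y : ℕ, 1 ≤ y → y ≤ n + 1 →
      wmid u y = wmid u (y - 1) + u (y - 1) + u y ∧ wmid u (y - 1) < wmid u y := by
    intro y h1 h2
    have h3 := wmid_succ u (y - 1)
    rw [show y - 1 + 1 = y by omega] at h3
    refine ⟨h3, ?_⟩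
    rcases le_or_gt y n with h4 | h4
    · have := hw y h1 h4
      rw [← u1 y h1 h4] at this
      omega
    · have := hw (y - 1) (by omega) (by omega)
      rw [← u1 (y - 1) (by omega) (by omega)] at this
      omega
  let lo : ℕ → ℕ := fun i => min (a i) (a (i + 1))
  let hi : ℕ → ℕ := fun i => max (a i) (a (i + 1))
  let lg : ℕ → ℕ := fun i => Nat.log 2 ((∑ x ∈ Icc (lo i) (hi i), w x) / w (a (i + 1)))
  let k : ℕ → ℕ := fun i => lg i + Nat.log 2 (w (a (i + 1))) + 3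
  let ex : ℕ → ℕ → ℕ := fun i τ => wex S (k i) (wmid u (lo i)) (wmid u (hi i)) τ
  have hav : ∀ i ∈ range (m - 1), ∑ τ ∈ Ico 0 (0 + 2 ^ S), ex i τ ≤ 2 * 2 ^ S := by
    intro i hi'
    have h0 := mem_range.1 hi'
    have a1 := ha i (by omega)
    have a2 := ha (i + 1) (by omega)
    refine wdf_avg S _ _ _ ?_
    have h1 := wmid_le u (lo i) (hi i) (by simp only [lo, hi]; omega)
    rw [usum _ _ (by simp only [lo]; omega) (by simp only [hi]; omega)] at h1
    have h2 := wdf_log (∑ x ∈ Icc (lo i) (hi i), w x) _ (hw _ a2.1 a2.2)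
    exact le_trans h1 (Nat.add_le_add_left h2 _)
  obtain ⟨τ, t1, t2⟩ : ∃ τ ∈ Ico 0 (0 + 2 ^ S), ∑ i ∈ range (m - 1), ex i τ ≤ 2 * (m - 1) := by
    refine exists_le_of_sum_le (nonempty_Ico.2 (by positivity)) ?_
    rw [sum_comm]
    refine le_trans (sum_le_card_nsmul _ _ _ hav) (le_of_eq ?_)
    simp only [card_range, smul_eq_mul, sum_const, Nat.card_Ico]
    rw [Nat.zero_add, Nat.sub_zero]
    ring
  have t3 : τ < 2 ^ S := by simpa using (mem_Ico.1 t1).2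
  have hpw : 2 ^ (S + 1) = 2 ^ S + 2 ^ S := by ring
  refine ⟨wlev u τ, fun i => lg i + 3 + ex i τ, ?_, ?_, ?_, ?_⟩
  · intro y z h1 h2 h3 h4
    obtain ⟨g, g1, g2, g3⟩ := wlev_ex u τ y (hstep _ (by omega) (by omega)).2
    obtain ⟨g', g4, g5, g6⟩ := wlev_ex u τ z (hstep _ (by omega) (by omega)).2
    have h5 := wmid_mono u (show y.toNat ≤ z.toNat - 1 by omega)
    obtain ⟨c, c1, c2, c3⟩ := wdf_mid (g + τ) (g' + τ) (by omega) (by omega) (by omega)
    obtain ⟨v, v1, v2, v3, v4⟩ := wmid_find u (c - τ) (y.toNat - 1) (by omega) z.toNat (by omega)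
    have h6 := wlev_le u τ (v : ℤ) (c - τ) (by simpa using v3) (by simpa using v4)
    rw [show c - τ + τ = c by omega] at h6
    have h7 : (v : ℤ) ≠ y := by
      intro e
      rw [e] at h6
      omega
    have h8 : (v : ℤ) ≠ z := by
      intro e
      rw [e] at h6
      omega
    exact ⟨v, by omega, by omega, by omega⟩
  · intro y h1 h2
    obtain ⟨g, g1, g2, g3⟩ := wlev_ex u τ y (hstep _ (by omega) (by omega)).2
    have h5 := wmid_mono u (show y.toNat ≤ n + 1 by omega)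
    have := (wdf_ex S 0 _ _ τ g g1 g2 (by omega)).1
    omega
  · intro r hr g h1 h2
    have a1 := ha r (by omega)
    have a2 := ha (r + 1) hr
    obtain ⟨p, p1, p2, p3⟩ := wlev_ex u τ g (hstep _ (by omega) (by omega)).2
    have m1 := wmid_mono u (show lo r ≤ g.toNat - 1 by simp only [lo]; omega)
    have m2 := wmid_mono u (show g.toNat ≤ hi r by simp only [hi]; omega)
    have m3 := wmid_mono u (show hi r ≤ n + 1 by simp only [hi]; omega)
    have e1 := (wdf_ex S (k r) (wmid u (lo r)) (wmid u (hi r)) τ p (by omega) (by omega)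
      (by omega)).2
    have w1 := hw _ a2.1 a2.2
    have w2 : 2 ^ Nat.log 2 (w (a (r + 1))) ≤ u (a (r + 1)) := by
      rw [u1 _ a2.1 a2.2]
      exact Nat.pow_log_le_self 2 (by omega)
    have low : ∀ y : ℕ, wmid u (y - 1) + u (a (r + 1)) ≤ wmid u y →
        Nat.log 2 (w (a (r + 1))) ≤ wlev u τ (y : ℤ) := by
      intro y hy
      obtain ⟨q, q1, q2, q3⟩ := wdf_bot (wmid u (y - 1)) (wmid u y)
        (Nat.log 2 (w (a (r + 1)))) τ (by omega)
      exact le_trans ((padicValNat_dvd_iff_le (by omega)).1 q3)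
        (wlev_le u τ (y : ℤ) q (by simpa using q1) (by simpa using q2))
    have b1 := low (a (r + 1)) (by
      have := (hstep (a (r + 1)) a2.1 (by omega)).1
      omega)
    have b2 := low (a (r + 1) + 1) (by
      have := wmid_succ u (a (r + 1))
      rw [Nat.add_sub_cancel]
      omega)
    rw [Nat.cast_succ] at b2
    have e2 : k r = lg r + Nat.log 2 (w (a (r + 1))) + 3 := rfl
    have e3 : ex r τ = wex S (k r) (wmid u (lo r)) (wmid u (hi r)) τ := rfl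
    show wlev u τ g ≤ bot (wlev u τ) (a (r + 1)) + (lg r + 3 + ex r τ)
    unfold bot
    omega
  · rw [sum_add_distrib, sum_add_distrib]
    simp only [sum_const, card_range, smul_eq_mul]
    have : ∑ i ∈ range (m - 1), lg i = ∑ i ∈ range (m - 1),
        Nat.log 2 ((∑ x ∈ Icc (min (a i) (a (i + 1))) (max (a i) (a (i + 1))), w x) /
          w (a (i + 1))) := rfl
    omega

/-- The weighted finger bound. -/
def S_WDF : Prop :=
  ∃ C : ℕ, ∀ (n m : ℕ) (T : BT) (w a : ℕ → ℕ), T.keys = List.range' 1 n →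
    (∀ x, 1 ≤ x → x ≤ n → 1 ≤ w x) → (∀ i < m, 1 ≤ a i ∧ a i ≤ n) →
    cost T ((List.range m).map a) ≤
      C * (n * (Nat.log 2 (Nat.log 2 (∑ x ∈ Icc 1 n, w x)) + 1) ^ 3 +
        Nat.log 2 (∑ x ∈ Icc 1 n, w x) + m + ∑ i ∈ range (m - 1),
          Nat.log 2 ((∑ x ∈ Icc (min (a i) (a (i + 1))) (max (a i) (a (i + 1))), w x) /
            w (a (i + 1))))

theorem wdf_size (h : ℕ) : (Nat.size (h + 3) + 1) ^ 3 ≤ 64 * (Nat.log 2 h + 1) ^ 3 := by
  have h1 : h < 2 ^ (Nat.log 2 h + 1) := Nat.lt_pow_succ_log_self (by norm_num) h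
  have h2 : 1 ≤ 2 ^ Nat.log 2 h := Nat.one_le_two_pow
  have h3 : Nat.size (h + 3) ≤ Nat.log 2 h + 3 := by
    rw [Nat.size_le]
    rw [pow_succ] at h1
    rw [pow_add]
    omega
  calc (Nat.size (h + 3) + 1) ^ 3 ≤ (4 * (Nat.log 2 h + 1)) ^ 3 :=
        Nat.pow_le_pow_left (by omega) 3
    _ = _ := by ring

theorem p_WDF (hABS : S_ABS) (hLK : S_LK) (hALGA : NU.S_ALGA) (hBRG : NU.S_BRG)
    (hTURN : NU.S_TURN) : S_WDF := by
  obtain ⟨c, C, hC⟩ := hABS
  obtain ⟨C2, hB⟩ := wdf_bud c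
  refine ⟨C * (129 + 12 * C2) + 40, fun n m T w a h1 h2 h3 => ?_⟩
  rcases Nat.eq_zero_or_pos n with rfl | hn
  · rcases Nat.eq_zero_or_pos m with rfl | hm
    · simp [cost]
    · have := h3 0 hm
      omega
  obtain ⟨l0, E, u1, u2, u3, u4⟩ := wdf_lev n m w a hn h2 h3
  generalize Nat.log 2 (∑ x ∈ Icc 1 n, w x) = G at u2 ⊢
  generalize ∑ i ∈ range (m - 1),
    Nat.log 2 ((∑ x ∈ Icc (min (a i) (a (i + 1))) (max (a i) (a (i + 1))), w x) /
      w (a (i + 1))) = D at u4 ⊢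
  have k2 := wdf_size G
  have k3 : n ≤ n * (Nat.log 2 G + 1) ^ 3 := Nat.le_mul_of_pos_right _ (by positivity)
  have k4 : (n + 1) * (Nat.size (G + 3) + 1) ^ 3 ≤ 128 * (n * (Nat.log 2 G + 1) ^ 3) :=
    calc (n + 1) * (Nat.size (G + 3) + 1) ^ 3
        ≤ (2 * n) * (64 * (Nat.log 2 G + 1) ^ 3) := Nat.mul_le_mul (by omega) k2
      _ = _ := by ring
  generalize n * (Nat.log 2 G + 1) ^ 3 = A at k3 k4 ⊢
  have main : ∀ f : Run, f.OK → f.L = 0 → f.R = (n : ℤ) + 1 → f.m = m →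
      (∀ i, f.x i = (a i : ℤ)) →
      100 * (f.LamR + f.mir.LamR) ≤
        f.NR + f.mir.NR + C * ((129 + 12 * C2) * (A + G + m + D)) := by
    intro f hf f1 f2 f3 f4
    obtain ⟨lev, σ, b1, b2, b3⟩ := hB f l0 (G + 3) E (by rw [f1, f2]; exact u1)
      (by rw [f1, f2]; exact u2) (by
        intro r hr g
        rw [f4, f4]
        exact u3 r (f3 ▸ hr) g)
    have l1 := hC f lev σ _ hf b1 b2
    have l2 := hLK f hf
    have l3 : (f.R - f.L).toNat = n + 1 := by omega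
    rw [l3, f3] at l1
    rw [f3] at b3
    generalize Z f lev _ c = W at l1 b3
    have l4 : C2 * (m + (G + 3) + 3 + ∑ i ∈ range (m - 1), E i) ≤ C2 * (12 * (A + G + m + D)) :=
      Nat.mul_le_mul_left _ (by omega)
    have l5 : (129 + 12 * C2) * (A + G + m + D) =
        129 * (A + G + m + D) + C2 * (12 * (A + G + m + D)) := by ring
    have l6 : C * ((n + 1) * (Nat.size (G + 3) + 1) ^ 3 + m + W) ≤
        C * ((129 + 12 * C2) * (A + G + m + D)) :=
      Nat.mul_le_mul_left _ (by omega)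
    omega
  obtain ⟨d, d1, d2, d3, d4, d5, d6, d7, d8⟩ := hBRG n m 0 T a h1 h3
  obtain ⟨e, e1, e2, e3, e4⟩ := hALGA d d5
  have t := hTURN d e d5 e2 e1 d6 d7
  obtain ⟨f1, f2, f3, f4⟩ := e1
  have c1 : d.L = 0 := by simpa using d1
  have c2 : d.R = (n : ℤ) + 1 := by simpa using d2
  have c3 : ∀ i, d.x i = (a i : ℤ) := fun i => by simp [d4]
  have l1 := main d d5 c1 c2 d3 c3
  have l2 := main e e2 (f1.trans c1) (f2.trans c2) (f3.trans d3) fun i => by rw [f4]; exact c3 i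
  rw [f3, d3] at e3 e4
  have k5 : (d.R - d.L).toNat = n + 1 := by omega
  rw [k5, d3] at t
  have k6 : (C * (129 + 12 * C2) + 40) * (A + G + m + D) =
      C * ((129 + 12 * C2) * (A + G + m + D)) + 40 * (A + G + m + D) := by ring
  omega

end Pool.Agent.P.MP_119182_lc.LW
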