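import Pool.Agent.P.MP_119182_lc.LW.Bud

/-! Shifted dyadic points on the weight axis, and the budget for given levels. -/

set_option autoImplicit false

namespace Pool.Agent.P.MP_119182_lc.LW

open Finset
open scoped Classical
open NU (Run mr)

theorem wdf_mid (a b : ℕ) (ha : a ≠ 0) (hab : a < b) (h : padicValNat 2 a = padicValNat 2 b) :
    ∃ c, a < c ∧ c < b ∧ padicValNat 2 a < padicValNat 2 c := by
  obtain ⟨k, hk⟩ : ∃ k, k = padicValNat 2 a := ⟨_, rfl⟩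
  have hb : b ≠ 0 := by omega
  have hp : 0 < 2 ^ k := by positivity
  obtain ⟨a', ea⟩ : 2 ^ k ∣ a := (padicValNat_dvd_iff_le ha).2 hk.le
  obtain ⟨b', eb⟩ : 2 ^ k ∣ b := (padicValNat_dvd_iff_le hb).2 (by omega)
  have odd : ∀ y y', y ≠ 0 → y = 2 ^ k * y' → padicValNat 2 y = k → y' % 2 = 1 := by
    intro y y' h0 h1 h2
    by_contra h3
    have h4 : 2 ^ (k + 1) ∣ y := ⟨y' / 2, by
      rw [h1, pow_succ, mul_assoc]
      congr 1
      omega⟩
    have := (padicValNat_dvd_iff_le h0).1 h4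
    omega
  have o1 := odd a a' ha ea hk.symm
  have o2 := odd b b' hb eb (by omega)
  have hlt : a' < b' := by
    rw [ea, eb] at hab
    exact lt_of_mul_lt_mul_left hab (Nat.zero_le _)
  refine ⟨2 ^ k * (a' + 1), ?_, ?_, ?_⟩
  · rw [ea]
    exact Nat.mul_lt_mul_of_pos_left (by omega) hp
  · rw [eb]
    exact Nat.mul_lt_mul_of_pos_left (by omega) hp
  · have h4 : 2 ^ (k + 1) ∣ 2 ^ k * (a' + 1) := ⟨(a' + 1) / 2, by
      rw [pow_succ, mul_assoc]
      congr 1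
      omega⟩
    have := (padicValNat_dvd_iff_le (by positivity)).1 h4
    omega

theorem wdf_bot (p q k τ : ℕ) (h : p + 2 ^ k ≤ q) : ∃ g, p < g ∧ g ≤ q ∧ 2 ^ k ∣ g + τ := by
  have hp : 0 < 2 ^ k := by positivity
  have h1 := Nat.mod_lt (p + τ) hp
  have h2 := Nat.div_add_mod (p + τ) (2 ^ k)
  refine ⟨p + (2 ^ k - (p + τ) % 2 ^ k), by omega, by omega, (p + τ) / 2 ^ k + 1, ?_⟩
  rw [mul_add, mul_one]
  omega

/-- The number of scales above `k` with a shifted multiple in `(p, q]`. -/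
noncomputable def wex (S k p q τ : ℕ) : ℕ :=
  #((Ioc k S).filter fun j => ∃ g ∈ Ioc p q, 2 ^ j ∣ g + τ)

theorem wdf_ex (S k p q τ g : ℕ) (h1 : p < g) (h2 : g ≤ q) (h3 : g + τ < 2 ^ (S + 1)) :
    padicValNat 2 (g + τ) ≤ S ∧ padicValNat 2 (g + τ) ≤ k + wex S k p q τ := by
  have h0 : g + τ ≠ 0 := by omega
  have hS : padicValNat 2 (g + τ) ≤ S := by
    have h4 : 2 ^ padicValNat 2 (g + τ) ≤ g + τ :=
      Nat.le_of_dvd (by omega) pow_padicValNat_dvd
    have := (Nat.pow_lt_pow_iff_right (by norm_num : 1 < 2)).1 (lt_of_le_of_lt h4 h3)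
    omega
  refine ⟨hS, ?_⟩
  have hsub : Ioc k (padicValNat 2 (g + τ)) ⊆
      (Ioc k S).filter fun j => ∃ g ∈ Ioc p q, 2 ^ j ∣ g + τ := by
    intro j hj
    have := mem_Ioc.1 hj
    exact mem_filter.2 ⟨mem_Ioc.2 ⟨this.1, by omega⟩, g, mem_Ioc.2 ⟨h1, h2⟩,
      (padicValNat_dvd_iff_le h0).2 this.2⟩
  have := card_le_card hsub
  rw [Nat.card_Ioc] at this
  unfold wex
  omega

theorem wdf_geo (k A : ℕ) (f : ℕ → ℕ) (S : ℕ) (h : ∀ j, k < j → j ≤ S → 2 ^ j * f j ≤ 2 ^ k * A) :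
    ∑ j ∈ Ioc k S, f j ≤ A := by
  rcases le_or_gt S k with hS | hS
  · rw [Ioc_eq_empty (by omega), sum_empty]
    exact Nat.zero_le _
  have main : ∀ T, k ≤ T → T ≤ S → 2 ^ T * ∑ j ∈ Ioc k T, f j + 2 ^ k * A ≤ 2 ^ T * A := by
    intro T hT
    induction T, hT using Nat.le_induction with
    | base => simp
    | succ T hT ih =>
      intro h1
      have h2 := ih (by omega)
      have h3 := h (T + 1) (by omega) h1
      rw [sum_Ioc_succ_top hT, mul_add]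
      rw [pow_succ] at h3 ⊢
      nlinarith
  have h1 := main S hS.le le_rfl
  have hp : 0 < 2 ^ S := by positivity
  exact Nat.le_of_mul_le_mul_left (le_trans (Nat.le_add_right _ _) h1) hp

theorem wdf_avg (S k p q : ℕ) (h : q ≤ p + 2 ^ k) :
    ∑ τ ∈ Ico 0 (0 + 2 ^ S), wex S k p q τ ≤ 2 * 2 ^ S := by
  have e : ∑ τ ∈ Ico 0 (0 + 2 ^ S), wex S k p q τ = ∑ j ∈ Ioc k S,
      #((Ico 0 (0 + 2 ^ S)).filter fun τ => ∃ g ∈ Ioc p q, 2 ^ j ∣ g + τ) := by
    simp only [wex, card_filter]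
    exact sum_comm
  rw [e]
  refine wdf_geo k _ _ S fun j _ h2 => ?_
  have hsub : ((Ico 0 (0 + 2 ^ S)).filter fun τ => ∃ g ∈ Ioc p q, 2 ^ j ∣ g + τ) ⊆
      (Ioc p q).biUnion fun g => (Ico 0 (0 + 2 ^ S)).filter fun τ => 2 ^ j ∣ g + τ := by
    intro τ hτ
    obtain ⟨h3, g, h4, h5⟩ := mem_filter.1 hτ
    exact mem_biUnion.2 ⟨g, h4, mem_filter.2 ⟨h3, h5⟩⟩
  have h3 := le_trans (card_le_card hsub) card_biUnion_le
  have h4 : 2 ^ j ≤ 2 ^ S := Nat.pow_le_pow_right (by norm_num) h2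
  refine le_trans (Nat.mul_le_mul_left _ h3) ?_
  rw [mul_sum]
  refine le_trans (sum_le_card_nsmul _ _ (2 * 2 ^ S) fun g _ => ?_) ?_
  · have := Ruler.cnt g 0 (2 ^ S) (2 ^ j) (by positivity)
    omega
  · rw [Nat.card_Ioc, smul_eq_mul]
    exact Nat.mul_le_mul_right _ (Nat.sub_le_iff_le_add'.2 h)

theorem wdf_bud (c : ℕ) : ∃ C : ℕ, ∀ (d : Run) (l0 : ℤ → ℕ) (H : ℕ) (D : ℕ → ℕ),
    (∀ a b, d.L < a → a < b → b ≤ d.R → l0 a = l0 b → ∃ z, a < z ∧ z < b ∧ l0 a < l0 z) →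
    (∀ y, d.L < y → y ≤ d.R → l0 y < H) →
    (∀ r, r + 1 < d.m → ∀ g, min (d.x (r + 1)) (d.x r) < g → g ≤ max (d.x (r + 1)) (d.x r) →
      l0 g ≤ bot l0 (d.x (r + 1)) + D r) →
    ∃ (lev : ℤ → ℕ) (σ : ℕ), Lv d.L d.R lev σ H ∧ H ≤ σ ∧
      Z d lev (σ + H + 3) c ≤ C * (d.m + H + 3 + ∑ i ∈ range (d.m - 1), D i) := by
  obtain ⟨C, hC⟩ := Ruler.avg_val c
  refine ⟨C, fun d l0 H D hu hle hj => ?_⟩
  let len : ℕ → ℕ := fun s => if s = 0 then H + 2 else D (s - 1)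
  let I : Finset (ℕ × ℕ) := (range (H + 3) ×ˢ range d.m).filter fun p =>
    bot l0 (d.x p.2) ≤ p.1 ∧ p.1 ≤ bot l0 (d.x p.2) + len p.2
  have hpow : H + 2 + (H + 1) ≤ 2 ^ (H + 1 + 1) := by
    have := Nat.lt_two_pow_self (n := H + 1)
    rw [pow_succ]; omega
  obtain ⟨s, hs1, -, hs3⟩ := hC (H + 1) (H + 1) (ℕ × ℕ) I (fun p => p.1) (fun _ => 1) (by omega)
    (fun p hp => by
      have := mem_range.1 (mem_product.1 (mem_filter.1 hp).1).1
      show p.1 + (H + 1) ≤ _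
      omega)
  refine ⟨fun y => l0 y + s, s - 1, ⟨fun y y1 y2 => ?_, fun u v h1 h2 h3 h4 => ?_⟩, by omega, ?_⟩
  · have := hle y y1 y2
    constructor <;> omega
  · obtain ⟨e, e1, e2, e3⟩ := hu u v h1 h2 h3 (by omega)
    exact ⟨e, e1, e2, by omega⟩
  have hsub : EP d (fun y => l0 y + s) (s - 1 + H + 3) ⊆ I.image fun p => (p.1 + s, p.2) := by
    intro p hp
    obtain ⟨h1, h2, h3⟩ := mem_filter.1 hp
    obtain ⟨h4, h5⟩ := mem_product.1 h1
    have h4' := mem_range.1 h4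
    have h5' := mem_range.1 h5
    have h2' : bot l0 (d.x p.2) + s ≤ p.1 := by
      simp only [bot] at h2 ⊢
      omega
    refine mem_image.2 ⟨(p.1 - s, p.2), mem_filter.2 ⟨mem_product.2 ⟨mem_range.2 (by
      show p.1 - s < _
      omega), h5⟩, by
      show bot l0 (d.x p.2) ≤ p.1 - s
      omega, ?_⟩, Prod.ext (by
      show p.1 - s + s = p.1
      omega) rfl⟩
    show p.1 - s ≤ bot l0 (d.x p.2) + len p.2
    rcases Nat.eq_zero_or_eq_succ_pred p.2 with e | e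
    · have : len p.2 = H + 2 := by simp only [len]; rw [if_pos e]
      omega
    · obtain ⟨r, hr⟩ : ∃ r, p.2 = r + 1 := ⟨_, e⟩
      have hl : len p.2 = D r := by
        simp only [len]; rw [if_neg (by omega), hr, Nat.add_sub_cancel]
      rw [hr] at h3 h5'
      obtain ⟨g, g1, g2, g3⟩ := bud_cross d _ p.1 r (by omega) h3
      have j1 := hj r h5' g g1 g2
      rw [hl, hr]
      omega
  have hZ : Z d (fun y => l0 y + s) (s - 1 + H + 3) c ≤
      ∑ p ∈ I, 1 * (padicValNat 2 (p.1 + s) + 1) ^ c := by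
    unfold Z
    refine le_trans (sum_le_sum_of_subset hsub) ?_
    refine le_trans (sum_image_le_of_nonneg fun _ _ => Nat.zero_le _) ?_
    exact le_of_eq (sum_congr rfl fun p _ => by rw [one_mul])
  have hI : #I ≤ ∑ t ∈ range d.m, (len t + 1) := by
    have h1 : I ⊆ (range d.m).biUnion fun t =>
        (Icc (bot l0 (d.x t)) (bot l0 (d.x t) + len t)).image fun b => (b, t) := by
      intro p hp
      obtain ⟨h1, h2, h3⟩ := mem_filter.1 hp
      exact mem_biUnion.2 ⟨p.2, (mem_product.1 h1).2,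
        mem_image.2 ⟨p.1, mem_Icc.2 ⟨h2, h3⟩, rfl⟩⟩
    refine le_trans (card_le_card h1) (le_trans card_biUnion_le (sum_le_sum fun t _ => ?_))
    refine le_trans card_image_le ?_
    rw [Nat.card_Icc]
    omega
  have hS : ∑ t ∈ range d.m, (len t + 1) ≤ d.m + H + 3 + ∑ i ∈ range (d.m - 1), D i := by
    rcases Nat.eq_zero_or_eq_succ_pred d.m with e | e
    · rw [e]; simp
    · obtain ⟨k, hk⟩ : ∃ k, d.m = k + 1 := ⟨_, e⟩
      rw [hk, sum_range_succ', Nat.add_sub_cancel]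
      have e1 : ∑ t ∈ range k, (len (t + 1) + 1) = ∑ i ∈ range k, D i + k := by
        rw [show ∑ i ∈ range k, D i + k = ∑ i ∈ range k, (D i + 1) by simp [sum_add_distrib]]
        refine sum_congr rfl fun t _ => ?_
        simp only [len]
        rw [if_neg (by omega), Nat.add_sub_cancel]
      have e2 : len 0 = H + 2 := by simp only [len]; rw [if_pos trivial]
      rw [e1, e2]
      omega
  refine le_trans hZ (le_trans hs3 ?_)
  rw [← card_eq_sum_ones]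
  exact Nat.mul_le_mul_left _ (le_trans hI hS)

end Pool.Agent.P.MP_119182_lc.LW
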