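import Pool.Agent.P.MP_119182_lc.LW.All
import Pool.Agent.P.MP_119182_lc.LW.Wdf

/-! The weighted finger bound, assembled. -/

set_option autoImplicit false

namespace Pool.Agent.P.MP_119182_lc.LW

theorem a_WDF : S_WDF :=
  p_WDF (p_ABS a_H1 a_GW p_H2 p_MIR NU.p_EMIR) p_LK (NU.p_ALGA NU.p_EMIR) NU.p_BRG
    (NU.p_TURN NU.p_EMIR NU.p_WCNT NU.p_TSPL NU.p_NS (NU.p_DBL NU.p_LW))

end Pool.Agent.P.MP_119182_lc.LW
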